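import Pool.Agent.Lib.MP_19e880_co_W1.Asm
import Pool.Agent.Lib.MP_19e880_co_G3.Final

/-!
Local-to-global Charney-Davis: the final form.
-/

set_option autoImplicit false
set_option linter.unusedSectionVars false

namespace Pool.Agent.MP19e880.W1

open Polynomial

variable {V : Type} [Fintype V] [LinearOrder V] {k : Type} [Field k]

/-- The last entry of the gamma vector of a link of even dimension. -/
theorem top_gamma {S : Finset (Finset V)} {d : ℕ} {g : Finset V → ℕ → ℤ} (hg : G3.GV S d g)
    (σ : Finset V) (hσ : σ ∈ S) (m : ℕ) (hm : σ.card + 2 * m = d) :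
    g σ m = (-1) ^ m * ∑ F ∈ S.filter (fun F => σ ⊆ F), (-2 : ℤ) ^ (d - F.card) := by
  have h1 := congrArg (Polynomial.eval (-1 : ℤ)) (hg σ hσ).2
  rw [show d - σ.card = 2 * m by omega, show 2 * m / 2 + 1 = m + 1 by omega] at h1
  unfold H at h1
  rw [eval_finsetSum, eval_finsetSum, Finset.sum_range_succ, Finset.sum_eq_zero (s :=
    Finset.range m)] at h1
  · have h2 : ∀ F ∈ S.filter (fun F => σ ⊆ F), Polynomial.eval (-1 : ℤ) ((X - 1) ^ (d - F.card)) =
        (-2 : ℤ) ^ (d - F.card) := by
      intro F _
      rw [eval_pow, eval_sub, eval_X, eval_one]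
      norm_num
    rw [Finset.sum_congr rfl h2] at h1
    rw [h1]
    simp only [eval_mul, eval_pow, eval_C, eval_X, Nat.sub_self, pow_zero, mul_one, zero_add]
    rw [mul_comm (g σ m), ← mul_assoc, ← pow_add, ← two_mul, pow_mul]
    norm_num
  · intro i hi
    rw [Finset.mem_range] at hi
    simp only [eval_mul, eval_pow, eval_C, eval_X, eval_add, eval_one]
    rw [show (1 + (-1 : ℤ)) = 0 by norm_num, zero_pow (by omega), mul_zero]

/-- The sum over the link and the sum over the faces which contain `σ`. -/
theorem lk_sum {S : Finset (Finset V)} (hS : ∀ F ∈ S, ∀ G : Finset V, G ⊆ F → G ∈ S)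
    (σ : Finset V) (e d : ℕ) (he : σ.card + e = d) :
    ∑ G ∈ lkF S σ, (-2 : ℤ) ^ (e - G.card) =
      ∑ F ∈ S.filter (fun F => σ ⊆ F), (-2 : ℤ) ^ (d - F.card) := by
  refine Finset.sum_bij' (fun G _ => G ∪ σ) (fun F _ => F \ σ) ?_ ?_ ?_ ?_ ?_
  · intro G hG
    unfold lkF at hG
    rw [Finset.mem_filter] at hG ⊢
    exact ⟨hG.2.2, Finset.subset_union_right⟩
  · intro F hF
    unfold lkF
    rw [Finset.mem_filter] at hF ⊢
    refine ⟨hS _ hF.1 _ Finset.sdiff_subset, Finset.sdiff_disjoint, ?_⟩
    rw [Finset.sdiff_union_of_subset hF.2]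
    exact hF.1
  · intro G hG
    unfold lkF at hG
    rw [Finset.mem_filter] at hG
    rw [Finset.union_sdiff_right]
    exact Finset.sdiff_eq_self_of_disjoint hG.2.1
  · intro F hF
    rw [Finset.mem_filter] at hF
    exact Finset.sdiff_union_of_subset hF.2
  · intro G hG
    unfold lkF at hG
    rw [Finset.mem_filter] at hG
    rw [Finset.card_union_of_disjoint hG.2.1]
    congr 1
    omega

theorem lkF_empty {S : Finset (Finset V)} : lkF S ∅ = S := by
  unfold lkF
  refine Finset.filter_true_of_mem fun G hG => ?_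
  refine ⟨Finset.disjoint_empty_right _, ?_⟩
  rw [Finset.union_empty]
  exact hG

/-- The Charney-Davis inequality for the link of a face. -/
theorem link_nonneg {S : Finset (Finset V)} {d : ℕ} (h : HS k S d) {g : Finset V → ℕ → ℤ}
    (hg : G3.GV S d g) (σ : Finset V) (hσ : σ ∈ S) (m : ℕ) (hm : σ.card + 2 * m = d)
    (hr : Cert k (2 * m) m (lkF S σ)) : 0 ≤ g σ m := by
  have h1 := hs_lk h σ hσ
  rw [show d - σ.card = 2 * m by omega] at h1
  have h2 := red_main h1 hr
  rw [lk_sum h.down σ (2 * m) d hm] at h2
  rw [top_gamma hg σ hσ m hm]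
  exact h2

/-- Three edges of a tetrahedron: the certificate. -/
theorem red_tet {S : Finset (Finset V)} (h : HS k S 6)
    (ht : ∀ v a b c : V, ({v, a, b, c} : Finset V) ∈ S → ({v, a, b, c} : Finset V).card = 4 →
      ∑ F ∈ S.filter (fun F => ({v, a} : Finset V) ⊆ F), (-2 : ℤ) ^ (6 - F.card) = 0 ∨
      ∑ F ∈ S.filter (fun F => ({v, b} : Finset V) ⊆ F), (-2 : ℤ) ^ (6 - F.card) = 0 ∨
      ∑ F ∈ S.filter (fun F => ({v, c} : Finset V) ⊆ F), (-2 : ℤ) ^ (6 - F.card) = 0) :
    Cert k 6 3 S := by
  refine Cert.loc 6 3 S ∅ (Or.inl ?_) ?_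
  · intro F _ hF
    rw [Finset.subset_empty] at hF
    rw [hF]
    simp
  · intro σ hσ hσ0 _ hσ3
    have hpos : 0 < σ.card := Finset.card_pos.mpr (Finset.nonempty_iff_ne_empty.mpr hσ0)
    have hc : σ.card = 1 ∨ σ.card = 2 ∨ σ.card = 3 := by omega
    rcases hc with hc | hc | hc
    · obtain ⟨v, rfl⟩ := Finset.card_eq_one.mp hc
      rw [Finset.card_singleton]
      refine Cert.loc 5 3 _ (Finset.univ.filter (fun w => w ≠ v ∧
        ∑ F ∈ S.filter (fun F => ({v, w} : Finset V) ⊆ F), (-2 : ℤ) ^ (6 - F.card) ≠ 0))
        (Or.inl ?_) ?_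
      · intro F hF hFR
        by_contra hcon
        have h3 : 3 ≤ F.card := by omega
        obtain ⟨F', hF', hF'3⟩ := Finset.exists_subset_card_eq h3
        obtain ⟨a, b, c, hab, hac, hbc, rfl⟩ := Finset.card_eq_three.mp hF'3
        have hFS := (mem_lkF S h.down {v} F).mp hF
        have hmem : ∀ w ∈ ({a, b, c} : Finset V), w ≠ v ∧ ∑ F ∈ S.filter
            (fun F => ({v, w} : Finset V) ⊆ F), (-2 : ℤ) ^ (6 - F.card) ≠ 0 := by
          intro w hw
          have := hFR (hF' hw)
          rw [Finset.mem_filter] at this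
          exact this.2
        have ha := hmem a (by simp)
        have hb := hmem b (by simp)
        have hcc := hmem c (by simp)
        rcases ht v a b c (h.down _ hFS.2.1 _ (by
          intro w hw
          rw [Finset.mem_union, Finset.mem_singleton]
          simp only [Finset.mem_insert, Finset.mem_singleton] at hw
          rcases hw with rfl | rfl | rfl | rfl
          · exact Or.inr rfl
          · exact Or.inl (hF' (by simp))
          · exact Or.inl (hF' (by simp))
          · exact Or.inl (hF' (by simp)))) (by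
          rw [Finset.card_insert_of_notMem, hF'3]
          simp only [Finset.mem_insert, Finset.mem_singleton, not_or]
          exact ⟨ha.1.symm, hb.1.symm, hcc.1.symm⟩) with h4 | h4 | h4
        · exact ha.2 h4
        · exact hb.2 h4
        · exact hcc.2 h4
      · intro τ hτ hτ0 hτR hτ3
        have hτS := (mem_lkF S h.down {v} τ).mp hτ
        have hpos' : 0 < τ.card := Finset.card_pos.mpr (Finset.nonempty_iff_ne_empty.mpr hτ0)
        have hc' : τ.card = 1 ∨ τ.card = 2 ∨ τ.card = 3 := by omega
        rcases hc' with hc' | hc' | hc'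
        · obtain ⟨w, rfl⟩ := Finset.card_eq_one.mp hc'
          rw [Finset.card_singleton]
          rw [Finset.disjoint_singleton_left, Finset.mem_filter] at hτR
          have hwv : w ≠ v := by
            have := hτS.1
            rwa [Finset.disjoint_singleton] at this
          have hz : ∑ F ∈ S.filter (fun F => ({v, w} : Finset V) ⊆ F),
              (-2 : ℤ) ^ (6 - F.card) = 0 := by
            by_contra hne
            exact hτR ⟨Finset.mem_univ _, hwv, hne⟩
          refine Cert.flat 2 3 _ (Cert.low 4 2 _ (by norm_num) (by norm_num)) ?_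
          have h5 : lkF (lkF S {v}) {w} = lkF S {v, w} := by
            ext G
            have e1 := mem_lkF (lkF S {v}) (lkF_down S h.down {v}) {w} G
            have e2 := mem_lkF S h.down {v, w} G
            rw [e1, e2]
            unfold LX
            rw [mem_lkF S h.down {v} (G ∪ {w})]
            unfold LX
            constructor
            · rintro ⟨g1, ⟨g2, g3, _⟩, _⟩
              refine ⟨?_, ?_, Finset.disjoint_empty_right _⟩
              · rw [Finset.disjoint_insert_right]
                rw [Finset.disjoint_singleton_right] at g1 g2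
                exact ⟨fun h' => g2 (Finset.mem_union_left _ h'), by
                  rwa [Finset.disjoint_singleton_right]⟩
              · have : G ∪ {v, w} = G ∪ {w} ∪ {v} := by
                  ext x
                  simp only [Finset.mem_union, Finset.mem_insert, Finset.mem_singleton]
                  tauto
                rw [this]
                exact g3
            · rintro ⟨g1, g2, _⟩
              rw [Finset.disjoint_insert_right] at g1
              refine ⟨g1.2, ⟨?_, ?_, Finset.disjoint_empty_right _⟩,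
                Finset.disjoint_empty_right _⟩
              · rw [Finset.disjoint_singleton_right, Finset.mem_union, Finset.mem_singleton,
                  not_or]
                exact ⟨g1.1, fun h' => hwv h'.symm⟩
              · have : G ∪ {v, w} = G ∪ {w} ∪ {v} := by
                  ext x
                  simp only [Finset.mem_union, Finset.mem_insert, Finset.mem_singleton]
                  tauto
                rw [← this]
                exact g2
          rw [h5]
          have h6 := lk_sum h.down {v, w} 4 6 (by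
            rw [Finset.card_pair (fun h' => hwv h'.symm)])
          rw [show 2 * 2 = 4 by norm_num, h6]
          exact hz
        · rw [hc']
          exact Cert.low _ _ _ (by norm_num) (by norm_num)
        · rw [hc']
          exact Cert.low _ _ _ (by norm_num) (by norm_num)
    · rw [hc]
      exact Cert.low _ _ _ (by norm_num) (by norm_num)
    · rw [hc]
      exact Cert.low _ _ _ (by norm_num) (by norm_num)

/-- The final statement. -/
theorem final {S : Finset (Finset V)} {d : ℕ} (h : HS k S d) (hE : Eul S d)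
    (h0 : (∅ : Finset V) ∈ S) (γ : ℕ → ℤ)
    (hγ : ∑ j ∈ Finset.range (d + 1),
        C (((S.filter (fun G => G.card = j)).card : ℕ) : ℤ) * X ^ j * (1 - X) ^ (d - j) =
      ∑ i ∈ Finset.range (d / 2 + 1), C (γ i) * X ^ i * (1 + X : ℤ[X]) ^ (d - 2 * i))
    (hc : ∀ σ ∈ S, σ.card = d % 2 → Cert k (2 * (d / 2)) (d / 2) (lkF S σ)) :
    0 ≤ γ (d / 2) ∧ (d ≤ 7 → ∀ i : ℕ, i ≤ d / 2 → 0 ≤ γ i) := by
  have hL := G2.lemmaL (fam h hE)
  obtain ⟨g, hg⟩ := G3.gammas hE
  have hg' : G3.GV S d g := hg
  have hH := h_poly_eq hE h0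
  have hag : ∀ i, i ≤ d / 2 → γ i = g ∅ i := by
    intro i hi
    have h1 := (hg ∅ h0).2
    rw [Finset.card_empty, Nat.sub_zero] at h1
    have h2 := Cone.unique_zero d (d / 2 + 1) (fun i => γ i - g ∅ i) (by
      have h3 : ∀ i ∈ Finset.range (d / 2 + 1), C (γ i - g ∅ i) * X ^ i *
          (1 + X : ℤ[X]) ^ (d - 2 * i) = C (γ i) * X ^ i * (1 + X) ^ (d - 2 * i) -
          C (g ∅ i) * X ^ i * (1 + X) ^ (d - 2 * i) := by
        intro i _
        rw [C_sub]
        ring
      rw [Finset.sum_congr rfl h3, Finset.sum_sub_distrib, ← h1, ← hH, hγ, sub_self]) i (by omega)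
    linarith
  have htop : 0 ≤ γ (d / 2) := by
    rw [hag _ (le_refl _)]
    rcases Nat.mod_two_eq_zero_or_one d with hd | hd
    · refine link_nonneg h hg' ∅ h0 (d / 2) (by rw [Finset.card_empty]; omega) ?_
      exact hc ∅ h0 (by rw [Finset.card_empty, hd])
    · have h1 := G3.gamma_sum hE g hg ∅ h0 d (by simp) (by omega) (d / 2)
      have h2 : g ∅ (d / 2 + 1) = 0 := (hg ∅ h0).1 (d / 2 + 1) (by
        rw [Finset.card_empty]
        omega)
      rw [h2] at h1
      have h3 : 0 ≤ ∑ v ∈ lv S ∅, g (insert v ∅) (d / 2) := by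
        refine Finset.sum_nonneg fun v hv => ?_
        have hv' := (mem_lv0 v).mp hv
        refine link_nonneg h hg' (insert v ∅) hv' (d / 2) (by
          rw [insert_empty_eq, Finset.card_singleton]
          omega) ?_
        exact hc {v} hv' (by rw [Finset.card_singleton, hd])
      rw [h1] at h3
      have h4 : (2 * (d : ℤ) - 4 * ((d / 2 : ℕ) : ℤ)) = 2 := by omega
      rw [h4] at h3
      linarith
  refine ⟨htop, ?_⟩
  intro hd7 i hi
  rcases Nat.lt_or_ge d 6 with h6 | h6
  · exact (G2.gamma_main h hE hL h0 γ hγ).2 (by omega) i hi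
  · have hd : d / 2 = 3 := by omega
    rw [hd] at hi htop
    have hm := G2.gamma_main h hE hL h0 γ hγ
    have hi' : i = 0 ∨ i = 1 ∨ i = 2 ∨ i = 3 := by omega
    rcases hi' with rfl | rfl | rfl | rfl
    · rw [G3.gamma_zero_eq h0 γ hγ]
      norm_num
    · rw [hag 1 (by omega)]
      have h1 := (G3.entries hE hg' ∅ h0 d (by simp) (by omega)).1
      rw [fn_one S hE.down] at h1
      have h2 := lv_two_mul h d ∅ h0 (by simp)
      have h3 : (2 * d : ℤ) ≤ (lv S ∅).card := by exact_mod_cast h2
      linarith
    · exact (hm.1 (by omega)).1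
    · exact htop

end Pool.Agent.MP19e880.W1
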