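import Pool.Agent.Lib.MP_19e880_co_W1.Basic

/-!
Clifford complexes of flag complexes: `V_1` and suspensions.
-/

set_option autoImplicit false
set_option linter.unusedSectionVars false

namespace Pool.Agent.MP19e880.W1

variable {V : Type} [Fintype V] [LinearOrder V] {K : Type} [Field K]
  {M : Type} [AddCommGroup M] [Module K M]

theorem vv_one {g : V → V → K} {A : V → V → Prop} {X : Finset V} (a b : V) (ha : a ∈ X)
    (hb : b ∈ X) (hab : a ≠ b) (hgab : g a b ≠ 0) : VV g A X 1 := by
  intro M _ _ ψ φ hR j hj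
  obtain rfl : j = 0 := by omega
  intro x hx hdx
  have h1 : ∀ v ∈ X, ψ v (x ∅) = 0 := by
    intro v hv
    have hcl : Cl A X {v} := by
      refine ⟨Finset.singleton_subset_iff.mpr hv, fun s hs t ht hst => ?_⟩
      rw [Finset.mem_singleton] at hs ht
      exact absurd (hs.trans ht.symm) hst
    have h2 := congrFun hdx {v}
    rw [dl_pos hcl, Finset.sum_singleton, Pi.zero_apply] at h2
    have h3 : ({v} : Finset V).erase v = ∅ := by simp
    rwa [h3] at h2
  have h4 : x ∅ = 0 := by
    have h5 := hR.ac a ha b hb hab (x ∅)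
    rw [h1 a ha, h1 b hb, map_zero, map_zero, add_zero] at h5
    exact (smul_eq_zero.mp h5.symm).resolve_left hgab
  have h6 : x = 0 := by
    funext F
    by_cases hF : F = ∅
    · rw [hF, h4, Pi.zero_apply]
    · exact hx.card (fun h => hF (Finset.card_eq_zero.mp h))
  refine ⟨0, fun F hF => absurd rfl hF, ?_⟩
  rw [dl_zero, h6]

theorem vv_susp {g : V → V → K} {A : V → V → Prop} {X : Finset V} (a b : V) (ha : a ∈ X)
    (hb : b ∈ X) (hab : a ≠ b) (hgab : g a b ≠ 0) (hA : ∀ x y, A x y → A y x) (hAab : ¬ A a b)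
    (hw : ∀ w ∈ X, w ≠ a → w ≠ b → A a w ∧ A b w)
    (hg : ∀ x ∈ X, ∀ y ∈ X, x ≠ y → A x y → g x y = 0) (n : ℕ) : VV g A X n := by
  intro M _ _ ψ φ hR j _ x hx hdx
  have hcla : ∀ G, Cl A X G → b ∉ G → Cl A X (insert a G) := by
    intro G hG hbG
    refine ⟨Finset.insert_subset ha hG.1, fun s hs t ht hst => ?_⟩
    rcases Finset.mem_insert.mp hs with rfl | hs'
    · rcases Finset.mem_insert.mp ht with rfl | ht'
      · exact absurd rfl hst
      · exact (hw t (hG.1 ht') (Ne.symm hst) (fun h => hbG (h ▸ ht'))).1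
    · rcases Finset.mem_insert.mp ht with rfl | ht'
      · exact hA _ _ (hw s (hG.1 hs') hst (fun h => hbG (h ▸ hs'))).1
      · exact hG.2 s hs' t ht' hst
  have hclb : ∀ G, Cl A X G → a ∉ G → Cl A X (insert b G) := by
    intro G hG haG
    refine ⟨Finset.insert_subset hb hG.1, fun s hs t ht hst => ?_⟩
    rcases Finset.mem_insert.mp hs with rfl | hs'
    · rcases Finset.mem_insert.mp ht with rfl | ht'
      · exact absurd rfl hst
      · exact (hw t (hG.1 ht') (fun h => haG (h ▸ ht')) (Ne.symm hst)).2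
    · rcases Finset.mem_insert.mp ht with rfl | ht'
      · exact hA _ _ (hw s (hG.1 hs') (fun h => haG (h ▸ hs')) hst).2
      · exact hG.2 s hs' t ht' hst
  have hnot : ∀ G, Cl A X G → ¬ (a ∈ G ∧ b ∈ G) := fun G hG h => hAab (hG.2 a h.1 b h.2 hab)
  -- the operators of the other vertices anticommute with those of `a` and `b`
  have hanti : ∀ w ∈ X, w ≠ a → w ≠ b → ∀ m : M,
      ψ w (ψ a m) = - ψ a (ψ w m) ∧ ψ w (ψ b m) = - ψ b (ψ w m) := by
    intro w hwX hwa hwb m
    have h1 := hR.ac w hwX a ha hwa m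
    have h2 := hR.ac w hwX b hb hwb m
    rw [hg w hwX a ha hwa (hA _ _ (hw w hwX hwa hwb).1), zero_smul] at h1
    rw [hg w hwX b hb hwb (hA _ _ (hw w hwX hwa hwb).2), zero_smul] at h2
    exact ⟨eq_neg_of_add_eq_zero_left h1, eq_neg_of_add_eq_zero_left h2⟩
  set c : K := (g a b)⁻¹ with hc
  set y : Finset V → M := fun F => if a ∉ F ∧ b ∉ F then
    c • (ψ b (x (insert a F)) + ψ a (x (insert b F))) else 0 with hy
  have hy1 : ∀ F, a ∉ F → b ∉ F → y F = c • (ψ b (x (insert a F)) + ψ a (x (insert b F))) := by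
    intro F h1 h2
    rw [hy]
    exact if_pos ⟨h1, h2⟩
  have hya : ∀ F, a ∈ F → y F = 0 := by
    intro F h1
    rw [hy]
    exact if_neg (fun h => h.1 h1)
  have hyb : ∀ F, b ∈ F → y F = 0 := by
    intro F h1
    rw [hy]
    exact if_neg (fun h => h.2 h1)
  refine ⟨y, ?_, ?_⟩
  · intro F hF
    have haF : a ∉ F := fun h => hF (hya F h)
    have hbF : b ∉ F := fun h => hF (hyb F h)
    rw [hy1 F haF hbF] at hF ⊢
    have h1 : x (insert a F) ≠ 0 ∨ x (insert b F) ≠ 0 := by
      by_contra hcon
      rw [not_or, not_not, not_not] at hcon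
      apply hF
      rw [hcon.1, hcon.2, map_zero, map_zero, add_zero, smul_zero]
    have h2 : Cl A X F ∧ F.card + 1 = j := by
      rcases h1 with h1 | h1
      · obtain ⟨h3, h4, _⟩ := hx _ h1
        rw [Finset.card_insert_of_notMem haF] at h4
        exact ⟨h3.down (Finset.subset_insert _ _), h4⟩
      · obtain ⟨h3, h4, _⟩ := hx _ h1
        rw [Finset.card_insert_of_notMem hbF] at h4
        exact ⟨h3.down (Finset.subset_insert _ _), h4⟩
    refine ⟨h2.1, h2.2, fun w hwF => ?_⟩
    have hwX := h2.1.1 hwF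
    have hwa : w ≠ a := fun h => haF (h ▸ hwF)
    have hwb : w ≠ b := fun h => hbF (h ▸ hwF)
    rw [map_smul, map_add, (hanti w hwX hwa hwb _).1, (hanti w hwX hwa hwb _).2,
      hx.kill (Finset.mem_insert_of_mem hwF), hx.kill (Finset.mem_insert_of_mem hwF), map_zero,
      map_zero, neg_zero, add_zero, smul_zero]
  · funext G
    by_cases hG : Cl A X G
    swap
    · rw [dl_neg hG, hx.off hG]
    rw [dl_pos hG]
    by_cases haG : a ∈ G
    · have hbG : b ∉ G := fun h => hnot G hG ⟨haG, h⟩
      rw [Finset.sum_eq_single_of_mem a haG]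
      · rw [hy1 _ (Finset.notMem_erase _ _) (fun h => hbG (Finset.mem_of_mem_erase h)),
          Finset.insert_erase haG, map_smul, map_add, hR.sq a ha, add_zero]
        have h1 := hR.ac a ha b hb hab (x G)
        rw [hx.kill haG, map_zero, add_zero] at h1
        rw [h1, smul_smul, hc, inv_mul_cancel₀ hgab, one_smul]
      · intro w _ hwa
        rw [hya _ (Finset.mem_erase.mpr ⟨Ne.symm hwa, haG⟩), map_zero]
    · by_cases hbG : b ∈ G
      · rw [Finset.sum_eq_single_of_mem b hbG]
        · rw [hy1 _ (fun h => haG (Finset.mem_of_mem_erase h)) (Finset.notMem_erase _ _),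
            Finset.insert_erase hbG, map_smul, map_add, hR.sq b hb, zero_add]
          have h1 := hR.ac a ha b hb hab (x G)
          rw [hx.kill hbG, map_zero, zero_add] at h1
          rw [h1, smul_smul, hc, inv_mul_cancel₀ hgab, one_smul]
        · intro w _ hwb
          rw [hyb _ (Finset.mem_erase.mpr ⟨Ne.symm hwb, hbG⟩), map_zero]
      · have h1 : ∑ w ∈ G, ψ w (x (insert a (G.erase w))) = - ψ a (x G) := by
          have h2 := congrFun hdx (insert a G)
          rw [dl_pos (hcla G hG hbG), Finset.sum_insert haG, Finset.erase_insert haG,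
            Pi.zero_apply] at h2
          rw [eq_neg_iff_add_eq_zero, add_comm, ← h2]
          congr 1
          refine Finset.sum_congr rfl fun w hwG => ?_
          rw [Finset.erase_insert_of_ne (fun h : a = w => haG (h ▸ hwG))]
        have h1' : ∑ w ∈ G, ψ w (x (insert b (G.erase w))) = - ψ b (x G) := by
          have h2 := congrFun hdx (insert b G)
          rw [dl_pos (hclb G hG haG), Finset.sum_insert hbG, Finset.erase_insert hbG,
            Pi.zero_apply] at h2
          rw [eq_neg_iff_add_eq_zero, add_comm, ← h2]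
          congr 1
          refine Finset.sum_congr rfl fun w hwG => ?_
          rw [Finset.erase_insert_of_ne (fun h : b = w => hbG (h ▸ hwG))]
        have h3 : ∀ w ∈ G, ψ w (y (G.erase w)) =
            c • (- ψ b (ψ w (x (insert a (G.erase w)))) - ψ a (ψ w (x (insert b (G.erase w))))) := by
          intro w hwG
          have hwX := hG.1 hwG
          have hwa : w ≠ a := fun h => haG (h ▸ hwG)
          have hwb : w ≠ b := fun h => hbG (h ▸ hwG)
          rw [hy1 _ (fun h => haG (Finset.mem_of_mem_erase h))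
            (fun h => hbG (Finset.mem_of_mem_erase h)), map_smul, map_add,
            (hanti w hwX hwa hwb _).1, (hanti w hwX hwa hwb _).2, sub_eq_add_neg]
        rw [Finset.sum_congr rfl h3, ← Finset.smul_sum, Finset.sum_sub_distrib,
          Finset.sum_neg_distrib, ← map_sum, ← map_sum, h1, h1', map_neg, map_neg, neg_neg,
          sub_neg_eq_add, add_comm, hR.ac a ha b hb hab, smul_smul, hc, inv_mul_cancel₀ hgab,
          one_smul]

end Pool.Agent.MP19e880.W1
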