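import Pool.Agent.Lib.MP_19e880_co_W1.Basic

/-!
The union of two acyclic complexes.
-/

set_option autoImplicit false
set_option linter.unusedSectionVars false

namespace Pool.Agent.MP19e880.W1

variable {V : Type} [Fintype V] [LinearOrder V] {K : Type} [Field K]
  {M : Type} [AddCommGroup M] [Module K M]

namespace CtrbAux

theorem bd_ch {P : Finset V → Prop} (hP : ∀ F, P F → ∀ G, G ⊆ F → P G) {j : ℕ}
    {c : Finset V → K} (hc : Ch P (j + 1) c) : Ch P j (bd c) := by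
  intro A hA
  unfold bd at hA
  obtain ⟨v, hv, hv0⟩ := Finset.exists_ne_zero_of_sum_ne_zero hA
  have hc0 : c (insert v A) ≠ 0 := fun h => hv0 (by rw [h, mul_zero])
  obtain ⟨h1, h2⟩ := hc _ hc0
  rw [Finset.mem_compl] at hv
  rw [Finset.card_insert_of_notMem hv] at h2
  exact ⟨hP _ h1 _ (Finset.subset_insert _ _), by omega⟩

/-- A cycle of the union is the sum of a chain of each part. -/
theorem split {P1 P2 : Finset V → Prop} (hP1 : ∀ F, P1 F → ∀ G, G ⊆ F → P1 G)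
    (hP2 : ∀ F, P2 F → ∀ G, G ⊆ F → P2 G) (j : ℕ) (z : Finset V → K)
    (hz : Ch (fun F => P1 F ∨ P2 F) (j + 1) z) (hb : bd z = 0) :
    ∃ z1 z2 : Finset V → K, Ch P1 (j + 1) z1 ∧ Ch P2 (j + 1) z2 ∧ z = z1 + z2 ∧
      bd z2 = - bd z1 ∧ Ch (fun F => P1 F ∧ P2 F) j (bd z1) := by
  classical
  let z1 : Finset V → K := fun F => if P1 F then z F else 0
  have h1 : Ch P1 (j + 1) z1 := by
    intro A hA
    by_cases hPA : P1 A
    · have hzA : z A ≠ 0 := by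
        intro h
        apply hA
        simp [z1, h]
      exact ⟨hPA, (hz A hzA).2⟩
    · exact absurd (by simp [z1, hPA]) hA
  have h2 : Ch P2 (j + 1) (z - z1) := by
    intro A hA
    by_cases hPA : P1 A
    · exact absurd (by simp [z1, hPA]) hA
    · have hzA : z A ≠ 0 := by
        intro h
        apply hA
        simp [z1, h]
      obtain ⟨h3, h4⟩ := hz A hzA
      exact ⟨h3.resolve_left hPA, h4⟩
  have h3 : bd (z - z1) = - bd z1 := by rw [bd_sub, hb, zero_sub]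
  refine ⟨z1, z - z1, h1, h2, (add_sub_cancel z1 z).symm, h3, ?_⟩
  intro A hA
  have h4 := bd_ch hP1 h1 A hA
  have h5 := bd_ch hP2 h2 A (by rw [h3, Pi.neg_apply]; exact neg_ne_zero.mpr hA)
  exact ⟨⟨h4.1, h5.1⟩, h4.2⟩

theorem ch_zero_of_card {P : Finset V → Prop} {j m : ℕ} (hno : ∀ F, P F → F.card ≤ m)
    (hj : m < j) {c : Finset V → K} (hc : Ch P j c) : c = 0 := by
  funext A
  by_contra hA
  obtain ⟨h1, h2⟩ := hc A hA
  have := hno A h1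
  omega

end CtrbAux

open CtrbAux

theorem un_ex0 {P1 P2 : Finset V → Prop} (h1 : Acyc K P1) (h10 : P1 ∅) (z : Finset V → K)
    (hz : Ch (fun F => P1 F ∨ P2 F) 0 z) (hb : bd z = 0) :
    ∃ c : Finset V → K, Ch (fun F => P1 F ∨ P2 F) 1 c ∧ bd c = z := by
  obtain ⟨c, hc, hbc⟩ := h1 0 z (hz.mono fun A hA _ => by
    rw [Finset.card_eq_zero] at hA
    rw [hA]
    exact h10) hb
  exact ⟨c, hc.mono fun A _ h => Or.inl h, hbc⟩

theorem un_ex {P1 P2 : Finset V → Prop} (hP1 : ∀ F, P1 F → ∀ G, G ⊆ F → P1 G)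
    (hP2 : ∀ F, P2 F → ∀ G, G ⊆ F → P2 G) (h1 : Acyc K P1) (h2 : Acyc K P2) (j : ℕ)
    (hex : ∀ z : Finset V → K, Ch (fun F => P1 F ∧ P2 F) j z → bd z = 0 →
      ∃ c : Finset V → K, Ch (fun F => P1 F ∧ P2 F) (j + 1) c ∧ bd c = z)
    (z : Finset V → K) (hz : Ch (fun F => P1 F ∨ P2 F) (j + 1) z) (hb : bd z = 0) :
    ∃ c : Finset V → K, Ch (fun F => P1 F ∨ P2 F) (j + 2) c ∧ bd c = z := by
  obtain ⟨z1, z2, hz1, hz2, hzz, hbb, hw⟩ := split hP1 hP2 j z hz hb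
  obtain ⟨q, hq, hbq⟩ := hex (bd z1) hw (bd_bd z1)
  obtain ⟨c1, hc1, hbc1⟩ := h1 (j + 1) (z1 - q) (hz1.sub (hq.mono fun A _ h => h.1))
    (by rw [bd_sub, hbq, sub_self])
  obtain ⟨c2, hc2, hbc2⟩ := h2 (j + 1) (z2 + q) (hz2.add (hq.mono fun A _ h => h.2))
    (by rw [bd_add, hbq, hbb, neg_add_cancel])
  refine ⟨c1 + c2, (hc1.mono fun A _ h => Or.inl h).add (hc2.mono fun A _ h => Or.inr h), ?_⟩
  rw [bd_add, hbc1, hbc2, hzz]
  abel

theorem un_top {P1 P2 : Finset V → Prop} (hP1 : ∀ F, P1 F → ∀ G, G ⊆ F → P1 G)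
    (hP2 : ∀ F, P2 F → ∀ G, G ⊆ F → P2 G) (h1 : Acyc K P1) (h2 : Acyc K P2) (j : ℕ)
    (hno : ∀ F, P1 F ∨ P2 F → F.card ≤ j + 1) (hno' : ∀ F, P1 F → P2 F → F.card ≤ j)
    (htop : ∃ z : Finset V → K, Ch (fun F => P1 F ∧ P2 F) j z ∧ bd z = 0 ∧ z ≠ 0 ∧
      ∀ z' : Finset V → K, Ch (fun F => P1 F ∧ P2 F) j z' → bd z' = 0 → ∃ a : K, z' = a • z) :
    ∃ z : Finset V → K, Ch (fun F => P1 F ∨ P2 F) (j + 1) z ∧ bd z = 0 ∧ z ≠ 0 ∧
      ∀ z' : Finset V → K, Ch (fun F => P1 F ∨ P2 F) (j + 1) z' → bd z' = 0 →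
        ∃ a : K, z' = a • z := by
  obtain ⟨o, ho, hbo, ho0, hun⟩ := htop
  obtain ⟨p1, hp1, hbp1⟩ := h1 j o (ho.mono fun A _ h => h.1) hbo
  obtain ⟨p2, hp2, hbp2⟩ := h2 j o (ho.mono fun A _ h => h.2) hbo
  refine ⟨p1 - p2, (hp1.mono fun A _ h => Or.inl h).sub (hp2.mono fun A _ h => Or.inr h), ?_,
    ?_, ?_⟩
  · rw [bd_sub, hbp1, hbp2, sub_self]
  · intro h
    have h3 : p1 = p2 := sub_eq_zero.mp h
    have h4 : Ch (fun F => P1 F ∧ P2 F) (j + 1) p1 := by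
      intro A hA
      have h5 := hp2 A (by rw [← h3]; exact hA)
      exact ⟨⟨(hp1 A hA).1, h5.1⟩, h5.2⟩
    have h5 := ch_zero_of_card (m := j) (fun F hF => hno' F hF.1 hF.2) (by omega) h4
    rw [h5, bd_zero] at hbp1
    exact ho0 hbp1.symm
  · intro z' hz' hbz'
    obtain ⟨z1, z2, hz1, hz2, hzz, hbb, hw⟩ := split hP1 hP2 j z' hz' hbz'
    obtain ⟨a, ha⟩ := hun (bd z1) hw (bd_bd z1)
    refine ⟨a, ?_⟩
    obtain ⟨c1, hc1, hbc1⟩ := h1 (j + 1) (z1 - a • p1) (hz1.sub (hp1.smul a))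
      (by rw [bd_sub, bd_smul, hbp1, ha, sub_self])
    obtain ⟨c2, hc2, hbc2⟩ := h2 (j + 1) (z2 + a • p2) (hz2.add (hp2.smul a))
      (by rw [bd_add, bd_smul, hbp2, hbb, ha, neg_add_cancel])
    have e1 := ch_zero_of_card (m := j + 1) (fun F hF => hno F (Or.inl hF)) (by omega) hc1
    have e2 := ch_zero_of_card (m := j + 1) (fun F hF => hno F (Or.inr hF)) (by omega) hc2
    rw [e1, bd_zero] at hbc1
    rw [e2, bd_zero] at hbc2
    have e3 : z1 = a • p1 := (sub_eq_zero.mp hbc1.symm)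
    have e4 : z2 = - (a • p2) := (neg_eq_of_add_eq_zero_left hbc2.symm).symm
    rw [hzz, e3, e4, smul_sub, sub_eq_add_neg]

end Pool.Agent.MP19e880.W1
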