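import Pool.Agent.Lib.MP_19e880_co_W1.Basic

/-!
W1, module HSLK: links of homology spheres as families.
-/

set_option autoImplicit false
set_option linter.unusedSectionVars false

namespace Pool.Agent.MP19e880.W1

variable {V : Type} [Fintype V] [LinearOrder V] {K : Type} [Field K]
  {M : Type} [AddCommGroup M] [Module K M]

namespace HslkAux

theorem mem_lk {S : Finset (Finset V)} {d : ℕ} (h : HS K S d) (σ G : Finset V) :
    G ∈ lkF S σ ↔ Disjoint G σ ∧ G ∪ σ ∈ S := by
  rw [mem_lkF S h.down σ G]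
  exact ⟨fun h1 => ⟨h1.1, h1.2.1⟩, fun h1 => ⟨h1.1, h1.2, Finset.disjoint_empty_right _⟩⟩

theorem lx_iff {S : Finset (Finset V)} {d : ℕ} (h : HS K S d) (σ τ : Finset V)
    (hτ : τ ∈ lkF S σ) (G : Finset V) : LX (lkF S σ) τ ∅ G ↔ LX S (τ ∪ σ) ∅ G := by
  have h1 := (mem_lk h σ τ).mp hτ
  unfold LX
  rw [mem_lk h σ (G ∪ τ), Finset.disjoint_union_left, Finset.disjoint_union_right,
    Finset.union_assoc]
  constructor
  · rintro ⟨h2, ⟨⟨h3, _⟩, h4⟩, h5⟩
    exact ⟨⟨h2, h3⟩, h4, h5⟩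
  · rintro ⟨⟨h2, h3⟩, h4, h5⟩
    exact ⟨h2, ⟨⟨h3, h1.1⟩, h4⟩, h5⟩

theorem flag_union {S : Finset (Finset V)} {d : ℕ} (h : HS K S d) (σ F : Finset V) (hσ : σ ∈ S)
    (h1 : ∀ a ∈ F, insert a σ ∈ S) (h2 : ∀ a ∈ F, ∀ b ∈ F, a ≠ b → ({a, b} : Finset V) ∈ S) :
    F ∪ σ ∈ S := by
  have pair : ∀ a b : V, ∀ T ∈ S, a ∈ T → b ∈ T → ({a, b} : Finset V) ∈ S := by
    intro a b T hT ha hb
    refine h.down T hT _ ?_
    intro y hy
    rw [Finset.mem_insert, Finset.mem_singleton] at hy
    rcases hy with rfl | rfl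
    · exact ha
    · exact hb
  apply h.flag
  intro a ha b hb
  rw [Finset.mem_union] at ha hb
  rcases ha with ha | ha <;> rcases hb with hb | hb
  · by_cases hab : a = b
    · subst hab
      exact pair a a _ (h1 a ha) (Finset.mem_insert_self _ _) (Finset.mem_insert_self _ _)
    · exact h2 a ha b hb hab
  · exact pair a b _ (h1 a ha) (Finset.mem_insert_self _ _) (Finset.mem_insert_of_mem hb)
  · exact pair a b _ (h1 b hb) (Finset.mem_insert_of_mem ha) (Finset.mem_insert_self _ _)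
  · exact pair a b _ hσ ha hb

theorem mem_lv' (S : Finset (Finset V)) (σ : Finset V) (x : V) :
    x ∈ lv S σ ↔ x ∉ σ ∧ insert x σ ∈ S := by
  unfold lv
  rw [Finset.mem_filter]
  exact ⟨fun h => h.2, fun h => ⟨Finset.mem_univ _, h⟩⟩

theorem empty_mem {S : Finset (Finset V)} {d : ℕ} (h : HS K S d) : (∅ : Finset V) ∈ S :=
  h.flag ∅ (fun a ha => absurd ha (Finset.notMem_empty a))

end HslkAux

open HslkAux

theorem lv_lkF {S : Finset (Finset V)} {d : ℕ} (h : HS K S d) (σ : Finset V) (hσ : σ ∈ S) :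
    lv (lkF S σ) ∅ = lv S σ := by
  ext x
  rw [mem_lv', mem_lv', mem_lk h, insert_empty_eq, Finset.singleton_union,
    Finset.disjoint_singleton_left]
  exact ⟨fun h1 => h1.2, fun h1 => ⟨Finset.notMem_empty _, h1⟩⟩

theorem ad_lkF {S : Finset (Finset V)} {d : ℕ} (h : HS K S d) (σ : Finset V) (hσ : σ ∈ S)
    (a b : V) (ha : a ∈ lv S σ) (hb : b ∈ lv S σ) : ad (lkF S σ) a b ↔ ad S a b := by
  unfold ad
  rw [mem_lk h]
  rw [mem_lv'] at ha hb
  constructor
  · rintro ⟨_, h2⟩
    exact h.down _ h2 _ Finset.subset_union_left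
  · intro h1
    refine ⟨?_, ?_⟩
    · rw [Finset.disjoint_insert_left, Finset.disjoint_singleton_left]
      exact ⟨ha.1, hb.1⟩
    · apply flag_union h σ _ hσ
      · intro x hx
        rw [Finset.mem_insert, Finset.mem_singleton] at hx
        rcases hx with rfl | rfl
        · exact ha.2
        · exact hb.2
      · intro x hx y hy hxy
        rw [Finset.mem_insert, Finset.mem_singleton] at hx hy
        rcases hx with rfl | rfl <;> rcases hy with rfl | rfl
        · exact absurd rfl hxy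
        · exact h1
        · rw [Finset.pair_comm]; exact h1
        · exact absurd rfl hxy

theorem hs_lk {S : Finset (Finset V)} {d : ℕ} (h : HS K S d) (σ : Finset V) (hσ : σ ∈ S) :
    HS K (lkF S σ) (d - σ.card) := by
  have hcd := h.card_le σ hσ
  have hcard : ∀ τ ∈ lkF S σ, (τ ∪ σ).card = τ.card + σ.card := fun τ hτ =>
    Finset.card_union_of_disjoint ((mem_lk h σ τ).mp hτ).1
  refine ⟨lkF_down S h.down σ, ?_, ?_, ?_⟩
  · intro F hF
    rw [mem_lk h]
    have h1 : ∀ a ∈ F, a ∉ σ ∧ insert a σ ∈ S := by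
      intro a ha
      have h2 := (mem_lk h σ _).mp (hF a ha a ha)
      rw [Finset.pair_eq_singleton, Finset.singleton_union, Finset.disjoint_singleton_left] at h2
      exact h2
    refine ⟨?_, ?_⟩
    · rw [Finset.disjoint_left]
      exact fun a ha => (h1 a ha).1
    · apply flag_union h σ F hσ (fun a ha => (h1 a ha).2)
      intro a ha b hb _
      exact h.down _ ((mem_lk h σ _).mp (hF a ha b hb)).2 _ Finset.subset_union_left
  · intro τ hτ j hj z hz hb
    obtain ⟨c, hc, hbc⟩ := h.ex (τ ∪ σ) ((mem_lk h σ τ).mp hτ).2 j (by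
      rw [hcard τ hτ]; omega) z (hz.mono fun A _ hA => (lx_iff h σ τ hτ A).mp hA) hb
    exact ⟨c, hc.mono fun A _ hA => (lx_iff h σ τ hτ A).mpr hA, hbc⟩
  · intro τ hτ j hj
    obtain ⟨z, hz, hbz, hz0, hall⟩ := h.top (τ ∪ σ) ((mem_lk h σ τ).mp hτ).2 j (by
      rw [hcard τ hτ]; omega)
    exact ⟨z, hz.mono fun A _ hA => (lx_iff h σ τ hτ A).mpr hA, hbz, hz0,
      fun z' hz' hbz' => hall z' (hz'.mono fun A _ hA => (lx_iff h σ τ hτ A).mp hA) hbz'⟩

theorem cl_lv {S : Finset (Finset V)} {d : ℕ} (h : HS K S d) (σ : Finset V) (hσ : σ ∈ S)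
    (F : Finset V) : Cl (ad S) (lv S σ) F ↔ LX S σ ∅ F := by
  constructor
  · rintro ⟨h1, h2⟩
    refine ⟨?_, ?_, Finset.disjoint_empty_right _⟩
    · rw [Finset.disjoint_left]
      exact fun a ha => ((mem_lv' S σ a).mp (h1 ha)).1
    · exact flag_union h σ F hσ (fun a ha => ((mem_lv' S σ a).mp (h1 ha)).2) h2
  · rintro ⟨h1, h2, _⟩
    refine ⟨?_, ?_⟩
    · intro a ha
      rw [mem_lv']
      refine ⟨Finset.disjoint_left.mp h1 ha, h.down _ h2 _ ?_⟩
      exact Finset.insert_subset (Finset.mem_union_left _ ha) Finset.subset_union_right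
    · intro a ha b hb _
      refine h.down _ h2 _ ?_
      intro y hy
      rw [Finset.mem_insert, Finset.mem_singleton] at hy
      rcases hy with rfl | rfl
      · exact Finset.mem_union_left _ ha
      · exact Finset.mem_union_left _ hb

/-- two nonadjacent vertices -/
theorem non_adj {S : Finset (Finset V)} {d : ℕ} (h : HS K S d) (hd : 1 ≤ d) :
    ∃ a b, a ≠ b ∧ {a} ∈ S ∧ {b} ∈ S ∧ ({a, b} : Finset V) ∉ S := by
  have h0 := empty_mem h
  obtain ⟨v, hv, hv2⟩ := h.extend ∅ h0 (by rw [Finset.card_empty]; omega)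
  have hv3 : ({v} : Finset V) ∈ S := by
    rw [insert_empty_eq] at hv2
    exact hv2
  obtain ⟨c, hc, hb⟩ := h.acyc_K ∅ h0 v hv hv2 0 (sg K ∅)
    (sg_ch _ _ _ ⟨Finset.disjoint_empty_left _, by rw [Finset.empty_union]; exact h0,
      Finset.disjoint_empty_left _⟩ rfl) bd_sg_empty
  have h1 := congrFun hb ∅
  have h2 : bd c ∅ ≠ 0 := by
    rw [h1]
    simp [sg]
  simp only [bd] at h2
  obtain ⟨w, _, hw⟩ := Finset.exists_ne_zero_of_sum_ne_zero h2
  obtain ⟨⟨_, h4, h5⟩, _⟩ := hc _ (right_ne_zero_of_mul hw)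
  rw [insert_empty_eq, Finset.union_empty] at h4
  rw [insert_empty_eq, Finset.disjoint_singleton_left] at h5
  have h6 : ({w, v} : Finset V) ∉ S := by
    intro h7
    apply h5
    unfold Nb
    rw [Finset.mem_filter]
    exact ⟨Finset.mem_univ _, h7⟩
  refine ⟨w, v, ?_, h4, hv3, h6⟩
  rintro rfl
  apply h6
  rw [Finset.pair_eq_singleton]
  exact hv3

/-- faces of codimension one lie in exactly two facets -/
theorem two_hs {S : Finset (Finset V)} {d : ℕ} (h : HS K S d) (ρ : Finset V) (hρ : ρ ∈ S)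
    (hd : ρ.card + 1 = d) : (lv S ρ).card = 2 := by
  obtain ⟨z, hz, hbz, hz0, hall⟩ := h.top ρ hρ 1 (by omega)
  have hsupp : ∀ F, z F ≠ 0 → ∃ u ∈ lv S ρ, F = {u} := by
    intro F hF
    obtain ⟨⟨h1, h2, _⟩, h3⟩ := hz F hF
    obtain ⟨u, rfl⟩ := Finset.card_eq_one.mp h3
    refine ⟨u, ?_, rfl⟩
    rw [mem_lv']
    rw [Finset.disjoint_singleton_left] at h1
    rw [Finset.singleton_union] at h2
    exact ⟨h1, h2⟩
  obtain ⟨F, hF⟩ := Function.ne_iff.mp hz0
  rw [Pi.zero_apply] at hF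
  obtain ⟨u, hu, rfl⟩ := hsupp F hF
  -- the sum of the values is zero
  have hsum : ∑ x : V, z {x} = 0 := by
    have h1 := congrFun hbz ∅
    simp only [bd, Pi.zero_apply, Finset.compl_empty] at h1
    rw [← h1]
    refine Finset.sum_congr rfl fun x _ => ?_
    rw [eps_empty, one_mul, insert_empty_eq]
  obtain ⟨v, hvu, hv0⟩ : ∃ v, v ≠ u ∧ z {v} ≠ 0 := by
    by_contra hcon
    push Not at hcon
    rw [Finset.sum_eq_single u (fun x _ hx => hcon x hx) (fun h1 => absurd (Finset.mem_univ u) h1)]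
      at hsum
    exact hF hsum
  obtain ⟨v', hv, hvv⟩ := hsupp {v} hv0
  have hvv' : v' = v := (Finset.singleton_injective hvv).symm
  rw [hvv'] at hv
  -- no third vertex
  have hch : ∀ x ∈ lv S ρ, Ch (LX S ρ ∅) 1 (sg K ({x} : Finset V)) := by
    intro x hx
    rw [mem_lv'] at hx
    refine sg_ch _ _ _ ⟨?_, ?_, Finset.disjoint_empty_right _⟩ (Finset.card_singleton x)
    · rw [Finset.disjoint_singleton_left]; exact hx.1
    · rw [Finset.singleton_union]; exact hx.2
  have hlv : lv S ρ = {u, v} := by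
    apply Finset.Subset.antisymm
    · intro w hw
      rw [Finset.mem_insert, Finset.mem_singleton]
      by_contra hcon
      rw [not_or] at hcon
      obtain ⟨hwu, hwv⟩ := hcon
      obtain ⟨a, ha⟩ := hall (sg K ({u} : Finset V) - sg K ({w} : Finset V))
        ((hch u hu).sub (hch w hw)) (by rw [bd_sub, bd_sg_single, bd_sg_single, sub_self])
      have h1 := congrFun ha {v}
      simp only [Pi.sub_apply, Pi.smul_apply, smul_eq_mul, sg] at h1
      rw [if_neg (fun h2 => hvu (Finset.singleton_injective h2)),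
        if_neg (fun h2 => hwv (Finset.singleton_injective h2).symm), sub_zero] at h1
      have ha0 : a = 0 := by
        rcases mul_eq_zero.mp h1.symm with h2 | h2
        · exact h2
        · exact absurd h2 hv0
      have h3 := congrFun ha {u}
      simp only [Pi.sub_apply, Pi.smul_apply, smul_eq_mul, sg, if_true] at h3
      rw [if_neg (fun h2 => hwu (Finset.singleton_injective h2).symm), sub_zero, ha0,
        zero_mul] at h3
      exact one_ne_zero h3
    · intro w hw
      rw [Finset.mem_insert, Finset.mem_singleton] at hw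
      rcases hw with rfl | rfl
      · exact hu
      · exact hv
  rw [hlv, Finset.card_pair (fun h1 => hvu h1.symm)]

end Pool.Agent.MP19e880.W1
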