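import Pool.Agent.Lib.MP_19e880_co_W1.CtrA
import Pool.Agent.Lib.MP_19e880_co_W1.CtrB
import Pool.Agent.Lib.MP_19e880_co_W1.HsLk

/-!
Contractions of flag homology spheres.
-/

set_option autoImplicit false
set_option linter.unusedSectionVars false

namespace Pool.Agent.MP19e880.W1

variable {V : Type} [Fintype V] [LinearOrder V] {K : Type} [Field K]
  {M : Type} [AddCommGroup M] [Module K M]

namespace CtrcAux

theorem mem_con {S : Finset (Finset V)} (hS : ∀ F ∈ S, ∀ G, G ⊆ F → G ∈ S) {u v : V}
    (huv : u ≠ v) (G : Finset V) :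
    G ∈ con S u v ↔ v ∉ G ∧ (G ∈ S ∨ (u ∈ G ∧ insert v (G.erase u) ∈ S)) := by
  have h1 : ∀ F : Finset V, v ∉ F → F.image (fun w => if w = v then u else w) = F := by
    intro F hF
    ext x
    rw [Finset.mem_image]
    constructor
    · rintro ⟨y, hy, rfl⟩
      have : y ≠ v := fun h => hF (h ▸ hy)
      rw [if_neg this]
      exact hy
    · intro hx
      have : x ≠ v := fun h => hF (h ▸ hx)
      exact ⟨x, hx, if_neg this⟩
  have h2 : ∀ F : Finset V, v ∉ F →
      (insert v F).image (fun w => if w = v then u else w) = insert u F := by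
    intro F hF
    rw [Finset.image_insert, h1 F hF, if_pos rfl]
  unfold con
  rw [Finset.mem_image]
  constructor
  · rintro ⟨F, hF, rfl⟩
    by_cases hv : v ∈ F
    · have h3 := h2 (F.erase v) (Finset.notMem_erase v F)
      rw [Finset.insert_erase hv] at h3
      rw [h3]
      refine ⟨?_, Or.inr ⟨Finset.mem_insert_self _ _, ?_⟩⟩
      · rw [Finset.mem_insert, not_or]
        exact ⟨huv.symm, Finset.notMem_erase v F⟩
      · refine hS F hF _ ?_
        intro x hx
        rw [Finset.mem_insert, Finset.mem_erase, Finset.mem_insert, Finset.mem_erase] at hx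
        rcases hx with rfl | ⟨hx1, hx2 | hx2⟩
        · exact hv
        · exact absurd hx2 hx1
        · exact hx2.2
    · rw [h1 F hv]
      exact ⟨hv, Or.inl hF⟩
  · rintro ⟨hv, hG | ⟨hu, hG⟩⟩
    · exact ⟨G, hG, h1 G hv⟩
    · refine ⟨_, hG, ?_⟩
      rw [h2 _ (fun h => hv (Finset.mem_of_mem_erase h)), Finset.insert_erase hu]

theorem sing_mem {S : Finset (Finset V)} (hS : ∀ F ∈ S, ∀ G, G ⊆ F → G ∈ S) {u v : V}
    (huvS : ({u, v} : Finset V) ∈ S) : ({u} : Finset V) ∈ S ∧ ({v} : Finset V) ∈ S := by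
  constructor
  · refine hS _ huvS _ ?_
    intro x hx
    rw [Finset.mem_singleton] at hx
    rw [hx]
    exact Finset.mem_insert_self _ _
  · refine hS _ huvS _ ?_
    intro x hx
    rw [Finset.mem_singleton] at hx
    rw [hx, Finset.mem_insert, Finset.mem_singleton]
    exact Or.inr rfl

theorem LX.down {S : Finset (Finset V)} (hS : ∀ F ∈ S, ∀ G, G ⊆ F → G ∈ S) (σ X : Finset V) :
    ∀ F, LX S σ X F → ∀ G, G ⊆ F → LX S σ X G := by
  rintro F ⟨h1, h2, h3⟩ G hG
  exact ⟨Finset.disjoint_of_subset_left hG h1,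
    hS _ h2 _ (Finset.union_subset_union_left hG), Finset.disjoint_of_subset_left hG h3⟩

theorem lx_empty {S : Finset (Finset V)} (σ G : Finset V) :
    LX S σ ∅ G ↔ Disjoint G σ ∧ G ∪ σ ∈ S :=
  ⟨fun h => ⟨h.1, h.2.1⟩, fun h => ⟨h.1, h.2, Finset.disjoint_empty_right _⟩⟩

/-- Case A: the apex is not in the face. -/
theorem lx_A {S : Finset (Finset V)} (hS : ∀ F ∈ S, ∀ G, G ⊆ F → G ∈ S) {u v : V}
    (huv : u ≠ v) {s : Finset V} (hus : u ∉ s) (hvs : v ∉ s) :
    LX (con S u v) s ∅ =
      fun G => v ∉ G ∧ (LX S s ∅ G ∨ (u ∈ G ∧ LX S s ∅ (insert v (G.erase u)))) := by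
  funext G
  apply propext
  rw [lx_empty, lx_empty, lx_empty, mem_con hS huv, Finset.mem_union, Finset.mem_union]
  have e : ∀ _ : u ∈ G, insert v ((G ∪ s).erase u) = insert v (G.erase u) ∪ s := by
    intro _
    rw [Finset.erase_union_distrib, Finset.erase_eq_of_notMem hus, Finset.insert_union]
  constructor
  · rintro ⟨h1, h2, h3 | ⟨h3, h4⟩⟩
    · exact ⟨fun h => h2 (Or.inl h), Or.inl ⟨h1, h3⟩⟩
    · have hu : u ∈ G := h3.resolve_right hus
      rw [e hu] at h4
      refine ⟨fun h => h2 (Or.inl h), Or.inr ⟨hu, ?_, h4⟩⟩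
      rw [Finset.disjoint_insert_left]
      exact ⟨hvs, Finset.disjoint_of_subset_left (Finset.erase_subset _ _) h1⟩
  · rintro ⟨h1, ⟨h2, h3⟩ | ⟨h2, h3, h4⟩⟩
    · exact ⟨h2, fun h => h.elim h1 hvs, Or.inl h3⟩
    · refine ⟨?_, fun h => h.elim h1 hvs, Or.inr ⟨Or.inl h2, ?_⟩⟩
      · rw [Finset.disjoint_insert_left] at h3
        rw [← Finset.insert_erase h2, Finset.disjoint_insert_left]
        exact ⟨hus, h3.2⟩
      · rw [e h2]
        exact h4

/-- Case B: the apex is in the face. -/
theorem lx_B {S : Finset (Finset V)} (hS : ∀ F ∈ S, ∀ G, G ⊆ F → G ∈ S) {u v : V}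
    (huv : u ≠ v) {t : Finset V} (hut : u ∉ t) (hvt : v ∉ t) (G : Finset V) :
    LX (con S u v) (insert u t) ∅ G ↔ (Disjoint G t ∧ u ∉ G ∧ v ∉ G) ∧
      (G ∪ insert u t ∈ S ∨ G ∪ insert v t ∈ S) := by
  rw [lx_empty, mem_con hS huv, Finset.disjoint_insert_right]
  have e : ∀ _ : u ∉ G, insert v ((G ∪ insert u t).erase u) = G ∪ insert v t := by
    intro hu
    rw [Finset.erase_union_distrib, Finset.erase_eq_of_notMem hu, Finset.erase_insert hut,
      Finset.union_insert]
  have e2 : v ∉ G ∪ insert u t ↔ v ∉ G := by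
    rw [Finset.mem_union, Finset.mem_insert]
    constructor
    · intro h h'
      exact h (Or.inl h')
    · rintro h (h' | h' | h')
      · exact h h'
      · exact huv h'.symm
      · exact hvt h'
  have e3 : u ∈ G ∪ insert u t := by
    rw [Finset.mem_union]
    exact Or.inr (Finset.mem_insert_self _ _)
  rw [e2]
  constructor
  · rintro ⟨⟨h1, h2⟩, h3, h4 | ⟨_, h4⟩⟩
    · exact ⟨⟨h2, h1, h3⟩, Or.inl h4⟩
    · rw [e h1] at h4
      exact ⟨⟨h2, h1, h3⟩, Or.inr h4⟩
  · rintro ⟨⟨h2, h1, h3⟩, h4 | h4⟩
    · exact ⟨⟨h1, h2⟩, h3, Or.inl h4⟩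
    · refine ⟨⟨h1, h2⟩, h3, Or.inr ⟨e3, ?_⟩⟩
      rw [e h1]
      exact h4

theorem lx_one {S : Finset (Finset V)} {x y : V} {t G : Finset V} :
    LX S (insert x t) {y} G ↔ (Disjoint G t ∧ x ∉ G ∧ y ∉ G) ∧ G ∪ insert x t ∈ S := by
  unfold LX
  rw [Finset.disjoint_insert_right, Finset.disjoint_singleton_right]
  tauto

theorem lx_two {S : Finset (Finset V)} {x y : V} {t G : Finset V} :
    LX S (insert y (insert x t)) ∅ G ↔
      (Disjoint G t ∧ x ∉ G ∧ y ∉ G) ∧ G ∪ insert y (insert x t) ∈ S := by
  rw [lx_empty, Finset.disjoint_insert_right, Finset.disjoint_insert_right]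
  tauto

end CtrcAux

open CtrcAux

theorem lv_con {S : Finset (Finset V)} (hS : ∀ F ∈ S, ∀ G, G ⊆ F → G ∈ S) (u v : V)
    (huv : u ≠ v) (huvS : ({u, v} : Finset V) ∈ S) : lv (con S u v) ∅ = (lv S ∅).erase v := by
  obtain ⟨h1, h2⟩ := sing_mem hS huvS
  ext x
  rw [HslkAux.mem_lv', Finset.mem_erase, HslkAux.mem_lv', insert_empty_eq, mem_con hS huv,
    Finset.mem_singleton]
  constructor
  · rintro ⟨h3, h4, h5 | ⟨h5, _⟩⟩
    · exact ⟨fun h => h4 h.symm, h3, h5⟩
    · rw [Finset.mem_singleton] at h5
      rw [← h5]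
      exact ⟨huv, Finset.notMem_empty _, h1⟩
  · rintro ⟨h3, h4, h5⟩
    exact ⟨h4, fun h => h3 h.symm, Or.inl h5⟩

theorem ad_con {S : Finset (Finset V)} (hS : ∀ F ∈ S, ∀ G, G ⊆ F → G ∈ S) (u v : V)
    (huv : u ≠ v) (huvS : ({u, v} : Finset V) ∈ S) (a b : V) (ha : a ≠ v) (hb : b ≠ v)
    (hab : a ≠ b) : ad (con S u v) a b ↔ ct (ad S) u v a b := by
  unfold ad ct
  rw [mem_con hS huv]
  have h1 : v ∉ ({a, b} : Finset V) := by
    rw [Finset.mem_insert, Finset.mem_singleton, not_or]
    exact ⟨ha.symm, hb.symm⟩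
  have e1 : ({a, b} : Finset V).erase a = {b} := by
    rw [Finset.erase_insert]
    rw [Finset.mem_singleton]
    exact hab
  have e2 : ({a, b} : Finset V).erase b = {a} := by
    rw [Finset.pair_comm, Finset.erase_insert]
    rw [Finset.mem_singleton]
    exact hab.symm
  constructor
  · rintro ⟨_, h2 | ⟨h2, h3⟩⟩
    · exact Or.inl h2
    · rw [Finset.mem_insert, Finset.mem_singleton] at h2
      rcases h2 with h2 | h2
      · right
        left
        rw [h2, e1] at h3
        exact ⟨h2.symm, h3⟩
      · right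
        right
        rw [h2, e2] at h3
        refine ⟨h2.symm, ?_⟩
        show ({a, v} : Finset V) ∈ S
        rw [Finset.pair_comm]
        exact h3
  · rintro (h2 | ⟨h2, h3⟩ | ⟨h2, h3⟩)
    · exact ⟨h1, Or.inl h2⟩
    · refine ⟨h1, Or.inr ⟨?_, ?_⟩⟩
      · rw [← h2]
        exact Finset.mem_insert_self _ _
      · rw [← h2, e1]
        exact h3
    · refine ⟨h1, Or.inr ⟨?_, ?_⟩⟩
      · rw [← h2, Finset.mem_insert, Finset.mem_singleton]
        exact Or.inr rfl
      · rw [← h2, e2]
        show ({v, a} : Finset V) ∈ S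
        rw [Finset.pair_comm]
        exact h3

theorem hs_con {S : Finset (Finset V)} {d : ℕ} (h : HS K S d) (u v : V) (huv : u ≠ v)
    (huvS : ({u, v} : Finset V) ∈ S) (hsq : NoSq S u v) : HS K (con S u v) d := by
  have hS := h.down
  obtain ⟨huS, hvS⟩ := sing_mem hS huvS
  have hvuS : ({v, u} : Finset V) ∈ S := by
    rw [Finset.pair_comm]
    exact huvS
  -- the link of the edge
  have hboth : ∀ T : Finset V, insert u T ∈ S → insert v T ∈ S → insert v (insert u T) ∈ S :=
    fun T h1 h2 => h.flag_insert T v u h2 h1 huvS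
  -- the three kinds of faces
  have hkey : ∀ s ∈ con S u v, (u ∉ s ∧ v ∉ s ∧ s ∈ S) ∨
      (∃ t, u ∉ t ∧ v ∉ t ∧ s = insert u t ∧ insert u t ∈ S ∧ insert v t ∈ S) ∨
      (∃ r ∈ S, r.card = s.card ∧ LX (con S u v) s ∅ = LX S r ∅) := by
    intro s hs
    rw [mem_con hS huv] at hs
    obtain ⟨hvs, hs⟩ := hs
    by_cases hus : u ∈ s
    · right
      obtain ⟨t, ht⟩ : ∃ t, t = s.erase u := ⟨_, rfl⟩
      have hut : u ∉ t := by rw [ht]; exact Finset.notMem_erase u s
      have hvt : v ∉ t := by
        rw [ht]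
        exact fun h' => hvs (Finset.mem_of_mem_erase h')
      have hst : s = insert u t := by rw [ht, Finset.insert_erase hus]
      rw [← ht] at hs
      by_cases h1 : insert u t ∈ S
      · by_cases h2 : insert v t ∈ S
        · left
          exact ⟨t, hut, hvt, hst, h1, h2⟩
        · right
          refine ⟨insert u t, h1, by rw [hst], ?_⟩
          rw [hst]
          funext G
          apply propext
          rw [lx_B hS huv hut hvt, lx_empty, Finset.disjoint_insert_right]
          constructor
          · rintro ⟨⟨h3, h4, h5⟩, h6 | h6⟩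
            · exact ⟨⟨h4, h3⟩, h6⟩
            · exact absurd (hS _ h6 _ Finset.subset_union_right) h2
          · rintro ⟨⟨h4, h3⟩, h6⟩
            refine ⟨⟨h3, h4, ?_⟩, Or.inl h6⟩
            intro h7
            apply h2
            refine hS _ h6 _ ?_
            intro x hx
            rw [Finset.mem_insert] at hx
            rw [Finset.mem_union, Finset.mem_insert]
            rcases hx with rfl | hx
            · exact Or.inl h7
            · exact Or.inr (Or.inr hx)
      · right
        have h2 : insert v t ∈ S := by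
          rcases hs with hs | hs
          · exact absurd (hst ▸ hs) h1
          · exact hs.2
        refine ⟨insert v t, h2, ?_, ?_⟩
        · rw [hst, Finset.card_insert_of_notMem hut, Finset.card_insert_of_notMem hvt]
        · rw [hst]
          funext G
          apply propext
          rw [lx_B hS huv hut hvt, lx_empty, Finset.disjoint_insert_right]
          constructor
          · rintro ⟨⟨h3, h4, h5⟩, h6 | h6⟩
            · exact absurd (hS _ h6 _ Finset.subset_union_right) h1
            · exact ⟨⟨h5, h3⟩, h6⟩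
          · rintro ⟨⟨h5, h3⟩, h6⟩
            refine ⟨⟨h3, ?_, h5⟩, Or.inr h6⟩
            intro h7
            apply h1
            refine hS _ h6 _ ?_
            intro x hx
            rw [Finset.mem_insert] at hx
            rw [Finset.mem_union, Finset.mem_insert]
            rcases hx with rfl | hx
            · exact Or.inl h7
            · exact Or.inr (Or.inr hx)
    · left
      refine ⟨hus, hvs, ?_⟩
      rcases hs with hs | hs
      · exact hs
      · exact absurd hs.1 hus
  -- case A
  have hfl : ∀ s, ∀ T : Finset V, u ∉ T → v ∉ T → LX S s ∅ (insert u T) →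
      LX S s ∅ (insert v T) → LX S s ∅ (insert u (insert v T)) := by
    intro s T _ _ h1 h2
    rw [lx_empty] at h1 h2 ⊢
    rw [Finset.disjoint_insert_left, Finset.insert_union] at h1 h2
    rw [Finset.disjoint_insert_left, Finset.disjoint_insert_left, Finset.insert_union,
      Finset.insert_union]
    exact ⟨⟨h1.1.1, h2.1.1, h1.1.2⟩, h.flag_insert _ _ _ h1.2 h2.2 hvuS⟩
  -- case B1
  have hB : ∀ t, u ∉ t → v ∉ t → LX (con S u v) (insert u t) ∅ =
      fun G => LX S (insert u t) {v} G ∨ LX S (insert v t) {u} G := by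
    intro t hut hvt
    funext G
    apply propext
    rw [lx_B hS huv hut hvt, lx_one, lx_one]
    tauto
  have hB2 : ∀ t, (fun G => LX S (insert u t) {v} G ∧ LX S (insert v t) {u} G) =
      LX S (insert v (insert u t)) ∅ := by
    intro t
    funext G
    apply propext
    rw [lx_one, lx_one, lx_two]
    constructor
    · rintro ⟨⟨h1, h2⟩, _, h3⟩
      refine ⟨h1, ?_⟩
      rw [Finset.union_insert] at h2 h3
      rw [Finset.union_insert, Finset.union_insert]
      exact hboth _ h2 h3
    · rintro ⟨⟨h1, h2, h3⟩, h4⟩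
      refine ⟨⟨⟨h1, h2, h3⟩, hS _ h4 _ ?_⟩, ⟨h1, h3, h2⟩, hS _ h4 _ ?_⟩
      · exact Finset.union_subset_union_right (Finset.subset_insert _ _)
      · refine Finset.union_subset_union_right ?_
        exact Finset.insert_subset_insert _ (Finset.subset_insert _ _)
  have hac1 : ∀ t, v ∉ t → insert u t ∈ S → insert v t ∈ S → Acyc K (LX S (insert u t) {v}) := by
    intro t hvt h1 h2
    refine h.acyc_v _ h1 v ?_ (hboth t h1 h2)
    rw [Finset.mem_insert, not_or]
    exact ⟨huv.symm, hvt⟩
  have hac2 : ∀ t, u ∉ t → insert u t ∈ S → insert v t ∈ S → Acyc K (LX S (insert v t) {u}) := by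
    intro t hut h1 h2
    refine h.acyc_v _ h2 u ?_ ?_
    · rw [Finset.mem_insert, not_or]
      exact ⟨huv, hut⟩
    · rw [Finset.insert_comm]
      exact hboth t h1 h2
  have hcard : ∀ t : Finset V, u ∉ t → v ∉ t →
      (insert v (insert u t)).card = t.card + 2 := by
    intro t hut hvt
    rw [Finset.card_insert_of_notMem, Finset.card_insert_of_notMem hut]
    rw [Finset.mem_insert, not_or]
    exact ⟨huv.symm, hvt⟩
  have hle : ∀ σ X F : Finset V, LX S σ X F → F.card + σ.card ≤ d := by
    intro σ X F hF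
    have h1 := h.card_le _ hF.2.1
    rwa [Finset.card_union_of_disjoint hF.1] at h1
  refine ⟨?_, ?_, ?_, ?_⟩
  · -- down
    intro F hF G hG
    rw [mem_con hS huv] at hF ⊢
    obtain ⟨h1, h2⟩ := hF
    refine ⟨fun h' => h1 (hG h'), ?_⟩
    rcases h2 with h2 | ⟨h2, h3⟩
    · exact Or.inl (hS _ h2 _ hG)
    · by_cases hu : u ∈ G
      · right
        exact ⟨hu, hS _ h3 _ (Finset.insert_subset_insert _ (Finset.erase_subset_erase _ hG))⟩
      · left
        refine hS _ h3 _ ?_
        intro x hx
        rw [Finset.mem_insert, Finset.mem_erase]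
        exact Or.inr ⟨fun h' => hu (h' ▸ hx), hG hx⟩
  · -- flag
    intro F hF
    have hvF : v ∉ F := by
      intro h'
      have h1 := hF v h' v h'
      rw [mem_con hS huv] at h1
      exact h1.1 (Finset.mem_insert_self _ _)
    rw [mem_con hS huv]
    refine ⟨hvF, ?_⟩
    by_cases huF : u ∈ F
    · -- all the other vertices are adjacent to u or all to v
      have hpair : ∀ a ∈ F, ∀ b ∈ F, a ≠ u → b ≠ u → ({a, b} : Finset V) ∈ S := by
        intro a ha b hb hau hbu
        have h1 := hF a ha b hb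
        rw [mem_con hS huv] at h1
        rcases h1.2 with h2 | ⟨h2, _⟩
        · exact h2
        · rw [Finset.mem_insert, Finset.mem_singleton] at h2
          rcases h2 with h2 | h2
          · exact absurd h2.symm hau
          · exact absurd h2.symm hbu
      have hor : ∀ a ∈ F, a ≠ u → ({u, a} : Finset V) ∈ S ∨ ({v, a} : Finset V) ∈ S := by
        intro a ha hau
        have h1 := hF u huF a ha
        rw [mem_con hS huv] at h1
        rcases h1.2 with h2 | ⟨_, h2⟩
        · exact Or.inl h2
        · right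
          rw [Finset.erase_insert] at h2
          · exact h2
          · rw [Finset.mem_singleton]
            exact hau.symm
      have hside : ∀ w : V, ({w} : Finset V) ∈ S →
          (∀ a ∈ F, a ≠ u → ({w, a} : Finset V) ∈ S) → insert w (F.erase u) ∈ S := by
        intro w hw hwa
        apply h.flag
        intro a ha b hb
        rw [Finset.mem_insert, Finset.mem_erase] at ha hb
        rcases ha with rfl | ⟨ha1, ha2⟩ <;> rcases hb with hb | ⟨hb1, hb2⟩
        · rw [hb, Finset.pair_eq_singleton]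
          exact hw
        · exact hwa b hb2 hb1
        · rw [hb, Finset.pair_comm]
          exact hwa a ha2 ha1
        · exact hpair a ha2 b hb2 ha1 hb1
      by_cases hall : ∀ a ∈ F, a ≠ u → ({u, a} : Finset V) ∈ S
      · left
        have h1 := hside u huS hall
        rwa [Finset.insert_erase huF] at h1
      · right
        refine ⟨huF, hside v hvS ?_⟩
        intro s hs hsu
        by_contra hcon
        apply hall
        intro t ht htu
        by_contra hcon2
        have h1 := (hor s hs hsu).resolve_right hcon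
        have h2 := (hor t ht htu).resolve_left hcon2
        rcases hsq s t h1 h2 (hpair s hs t ht hsu htu) with h3 | h3
        · exact hcon h3
        · exact hcon2 h3
    · left
      apply h.flag
      intro a ha b hb
      have h1 := hF a ha b hb
      rw [mem_con hS huv] at h1
      rcases h1.2 with h2 | ⟨h2, _⟩
      · exact h2
      · rw [Finset.mem_insert, Finset.mem_singleton] at h2
        rcases h2 with h2 | h2
        · exact absurd (h2 ▸ ha) huF
        · exact absurd (h2 ▸ hb) huF
  · -- exactness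
    intro s hs j hj z hz hb
    rcases hkey s hs with ⟨hus, hvs, hsS⟩ | ⟨t, hut, hvt, hst, h1, h2⟩ | ⟨r, hr, hrc, hrL⟩
    · rw [lx_A hS huv hus hvs] at hz ⊢
      exact ctr_ex (LX.down hS s ∅) huv (hfl s) j (fun z hz hb => h.ex s hsS j hj z hz hb) z hz hb
    · rw [hst, Finset.card_insert_of_notMem hut] at hj
      rw [hst, hB t hut hvt] at hz ⊢
      rcases Nat.eq_zero_or_pos j with hj0 | hj0
      · subst hj0
        refine un_ex0 (hac1 t hvt h1 h2) ?_ z hz hb
        rw [lx_one]
        refine ⟨⟨Finset.disjoint_empty_left _, Finset.notMem_empty _, Finset.notMem_empty _⟩, ?_⟩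
        rw [Finset.empty_union]
        exact h1
      · obtain ⟨i, rfl⟩ : ∃ i, j = i + 1 := ⟨j - 1, by omega⟩
        refine un_ex (LX.down hS _ _) (LX.down hS _ _) (hac1 t hvt h1 h2) (hac2 t hut h1 h2) i ?_
          z hz hb
        intro z' hz' hb'
        rw [hB2 t] at hz' ⊢
        refine h.ex _ (hboth t h1 h2) i ?_ z' hz' hb'
        rw [hcard t hut hvt]
        omega
    · rw [hrL] at hz ⊢
      exact h.ex r hr j (by rw [hrc]; exact hj) z hz hb
  · -- top
    intro s hs j hj
    rcases hkey s hs with ⟨hus, hvs, hsS⟩ | ⟨t, hut, hvt, hst, h1, h2⟩ | ⟨r, hr, hrc, hrL⟩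
    · rw [lx_A hS huv hus hvs]
      refine ctr_top (LX.down hS s ∅) huv (hfl s) j ?_ (h.top s hsS j hj)
      intro F hF
      have := hle _ _ _ hF
      omega
    · have hc := h.card_le _ (hboth t h1 h2)
      rw [hcard t hut hvt] at hc
      rw [hst, Finset.card_insert_of_notMem hut] at hj
      obtain ⟨i, rfl⟩ : ∃ i, j = i + 1 := ⟨j - 1, by omega⟩
      rw [hst, hB t hut hvt]
      refine un_top (LX.down hS _ _) (LX.down hS _ _) (hac1 t hvt h1 h2) (hac2 t hut h1 h2) i
        ?_ ?_ ?_
      · rintro F (hF | hF)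
        · have := hle _ _ _ hF
          rw [Finset.card_insert_of_notMem hut] at this
          omega
        · have := hle _ _ _ hF
          rw [Finset.card_insert_of_notMem hvt] at this
          omega
      · intro F hF1 hF2
        have h3 : LX S (insert v (insert u t)) ∅ F := by
          rw [← hB2 t]
          exact ⟨hF1, hF2⟩
        have := hle _ _ _ h3
        rw [hcard t hut hvt] at this
        omega
      · rw [hB2 t]
        exact h.top _ (hboth t h1 h2) i (by rw [hcard t hut hvt]; omega)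
    · rw [hrL]
      exact h.top r hr j (by rw [hrc]; exact hj)

end Pool.Agent.MP19e880.W1
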