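import Pool.Agent.Lib.MP_19e880_co_W1.HsLk

/-!
Clifford complexes of flag complexes: exactness of the complex of a star.
-/

set_option autoImplicit false
set_option linter.unusedSectionVars false

namespace Pool.Agent.MP19e880.W1

variable {V : Type} [Fintype V] [LinearOrder V] {K : Type} [Field K]
  {M : Type} [AddCommGroup M] [Module K M]

/-- The kernel of `ψ x` as a module. -/
theorem rel_ker {g : V → V → K} {X Y : Finset V} {ψ φ : V → M →ₗ[K] M} (h : Rel g X ψ φ) (x : V)
    (hx : x ∈ X) (hY : Y ⊆ X) (hxY : x ∉ Y) (hg : ∀ v ∈ Y, g v x = 0) :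
    ∃ ψ' φ' : V → LinearMap.ker (ψ x) →ₗ[K] LinearMap.ker (ψ x),
      Rel g Y ψ' φ' ∧ ∀ v ∈ Y, ∀ m, ((ψ' v m : LinearMap.ker (ψ x)) : M) = ψ v m := by
  classical
  have hne : ∀ v ∈ Y, v ≠ x := fun v hv h' => hxY (h' ▸ hv)
  have h1 : ∀ v ∈ Y, ∀ m ∈ LinearMap.ker (ψ x), ψ v m ∈ LinearMap.ker (ψ x) := by
    intro v hv m hm
    rw [LinearMap.mem_ker] at hm ⊢
    have h2 := h.ac v (hY hv) x hx (hne v hv) m
    rw [hm, map_zero, zero_add, hg v hv, zero_smul] at h2
    exact h2
  have h2 : ∀ v ∈ Y, ∀ m ∈ LinearMap.ker (ψ x), φ v m ∈ LinearMap.ker (ψ x) := by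
    intro v hv m hm
    rw [LinearMap.mem_ker] at hm ⊢
    have h3 := h.zer v (hY hv) x hx (hne v hv) m
    rw [hm, map_zero, zero_add] at h3
    exact h3
  refine ⟨fun v => if hv : v ∈ Y then (ψ v).restrict (h1 v hv) else 0,
    fun v => if hv : v ∈ Y then (φ v).restrict (h2 v hv) else 0, ?_, ?_⟩
  · have e1 : ∀ v ∈ Y, ∀ m : LinearMap.ker (ψ x),
        (((if hv : v ∈ Y then (ψ v).restrict (h1 v hv) else 0 :
          LinearMap.ker (ψ x) →ₗ[K] LinearMap.ker (ψ x)) m : LinearMap.ker (ψ x)) : M) = ψ v m := by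
      intro v hv m
      rw [dif_pos hv]
      rfl
    have e2 : ∀ v ∈ Y, ∀ m : LinearMap.ker (ψ x),
        (((if hv : v ∈ Y then (φ v).restrict (h2 v hv) else 0 :
          LinearMap.ker (ψ x) →ₗ[K] LinearMap.ker (ψ x)) m : LinearMap.ker (ψ x)) : M) = φ v m := by
      intro v hv m
      rw [dif_pos hv]
      rfl
    constructor
    · intro v hv m
      apply Subtype.ext
      rw [e1 v hv, e1 v hv]
      exact h.sq v (hY hv) m
    · intro u hu v hv huv m
      apply Subtype.ext
      rw [Submodule.coe_add, e1 u hu, e1 v hv, e1 v hv, e1 u hu]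
      exact h.ac u (hY hu) v (hY hv) huv m
    · intro v hv m
      apply Subtype.ext
      rw [Submodule.coe_add, e2 v hv, e1 v hv, e1 v hv, e2 v hv]
      exact h.one v (hY hv) m
    · intro u hu v hv huv m
      apply Subtype.ext
      rw [Submodule.coe_add, e2 u hu, e1 v hv, e1 v hv, e2 u hu]
      exact h.zer u (hY hu) v (hY hv) huv m
    · intro v hv m
      apply Subtype.ext
      rw [e2 v hv, e2 v hv]
      exact h.psq v (hY hv) m
    · intro u hu v hv huv m
      apply Subtype.ext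
      rw [Submodule.coe_add, e2 u hu, e2 v hv, e2 v hv, e2 u hu]
      exact h.pac u (hY hu) v (hY hv) huv m
  · intro v hv m
    dsimp only
    rw [dif_pos hv]
    rfl

/-- A cone is as exact as its base. -/
theorem cone_ex {g : V → V → K} {X Y : Finset V} {ψ φ : V → M →ₗ[K] M} (h : Rel g X ψ φ)
    (P : Finset V → Prop) (hdown : ∀ F, P F → ∀ G, G ⊆ F → P G) (a : V)
    (hPX : ∀ F, P F → F ⊆ insert a Y)
    (hg : ∀ F, P F → ∀ u ∈ F, ∀ v ∈ F, u ≠ v → g u v = 0) (ha : a ∈ X) (hY : Y ⊆ X)
    (haY : a ∉ Y) (hga : ∀ v ∈ Y, g v a = 0) (hcone : ∀ F, P F → P (insert a F)) (q : ℕ)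
    (hbase : ∀ (M' : Type) [AddCommGroup M'] [Module K M'] (ψ' φ' : V → M' →ₗ[K] M'),
      Rel g Y ψ' φ' → ExAt (fun F => P F ∧ a ∉ F) ψ' q) : ExAt P ψ q := by
  classical
  have hX : ∀ F, P F → F ⊆ X := by
    intro F hF v hv
    rcases Finset.mem_insert.mp (hPX F hF hv) with h' | h'
    · rw [h']
      exact ha
    · exact hY h'
  have hY' : ∀ F, P F → a ∉ F → F ⊆ Y := by
    intro F hF haF v hv
    rcases Finset.mem_insert.mp (hPX F hF hv) with h' | h'
    · rw [h'] at hv
      exact absurd hv haF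
    · exact h'
  have hOk : Ok P ψ := by
    refine ⟨hdown, fun F hF v hv => h.sq v (hX F hF hv), fun F hF u hu v hv huv m => ?_⟩
    rw [h.ac u (hX F hF hu) v (hX F hF hv) huv m, hg F hF u hu v hv huv, zero_smul]
  intro x hx hdx
  set y0 : Finset V → M := fun F => if a ∈ F then 0 else φ a (x (insert a F)) with hy0
  have hy0a : ∀ F, a ∈ F → y0 F = 0 := fun F hF => if_pos hF
  have hy0n : ∀ F, a ∉ F → y0 F = φ a (x (insert a F)) := fun F hF => if_neg hF
  have c1 : ∀ F, y0 F ≠ 0 → P F ∧ F.card + 1 = q ∧ ∀ v ∈ F, ψ v (y0 F) = 0 := by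
    intro F hF
    have haF : a ∉ F := fun h' => hF (hy0a F h')
    rw [hy0n F haF] at hF ⊢
    have hx0 : x (insert a F) ≠ 0 := by
      intro h'
      rw [h', map_zero] at hF
      exact hF rfl
    obtain ⟨h1, h2, h3⟩ := hx _ hx0
    rw [Finset.card_insert_of_notMem haF] at h2
    refine ⟨hdown _ h1 F (Finset.subset_insert a F), h2, fun v hv => ?_⟩
    have hva : a ≠ v := fun h' => haF (h' ▸ hv)
    have h4 := h.zer a ha v (hX _ h1 (Finset.mem_insert_of_mem hv)) hva (x (insert a F))
    rw [h3 v (Finset.mem_insert_of_mem hv), map_zero, zero_add] at h4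
    exact h4
  have c2 : ∀ F, P F → a ∉ F → dl P ψ y0 F = φ a (ψ a (x F)) := by
    intro F hF haF
    have h1 : dl P ψ x (insert a F) = 0 := by rw [hdx, Pi.zero_apply]
    rw [dl_pos (hcone F hF), Finset.sum_insert haF, Finset.erase_insert haF] at h1
    rw [dl_pos hF]
    have h2 : ∀ v ∈ F, ψ v (y0 (F.erase v)) = - φ a (ψ v (x ((insert a F).erase v))) := by
      intro v hv
      have hva : a ≠ v := fun h' => haF (h' ▸ hv)
      rw [hy0n _ (fun h' => haF (Finset.mem_of_mem_erase h')),
        Finset.erase_insert_of_ne hva]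
      exact eq_neg_of_add_eq_zero_right (h.zer a ha v (hX F hF hv) hva _)
    rw [Finset.sum_congr rfl h2, Finset.sum_neg_distrib, ← map_sum, ← map_neg]
    congr 1
    exact (eq_neg_of_add_eq_zero_left h1).symm
  have c3 : ∀ F, P F → a ∈ F → dl P ψ y0 F = x F := by
    intro F hF haF
    rw [dl_pos hF, Finset.sum_eq_single a]
    · rw [hy0n _ (Finset.notMem_erase a F), Finset.insert_erase haF]
      have h1 := h.one a ha (x F)
      rw [hx.kill haF, map_zero, zero_add] at h1
      exact h1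
    · intro v _ hva
      rw [hy0a _ (Finset.mem_erase.mpr ⟨fun h' => hva h'.symm, haF⟩), map_zero]
    · intro h'
      exact absurd haF h'
  set x' : Finset V → M := x - dl P ψ y0 with hx'
  have d0 : ∀ F, ¬ P F → x' F = 0 := by
    intro F hF
    rw [hx', Pi.sub_apply, hx.off hF, dl_neg hF, sub_zero]
  have d1 : ∀ F, a ∈ F → x' F = 0 := by
    intro F haF
    by_cases hF : P F
    · rw [hx', Pi.sub_apply, c3 F hF haF, sub_self]
    · exact d0 F hF
  have d2 : ∀ F, P F → a ∉ F → x' F = ψ a (φ a (x F)) := by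
    intro F hF haF
    rw [hx', Pi.sub_apply, c2 F hF haF]
    exact sub_eq_of_eq_add' (h.one a ha (x F)).symm
  have d3 : ∀ F, ψ a (x' F) = 0 := by
    intro F
    by_cases hF : P F
    · by_cases haF : a ∈ F
      · rw [d1 F haF, map_zero]
      · rw [d2 F hF haF]
        exact h.sq a ha _
    · rw [d0 F hF, map_zero]
  have d4 : dl P ψ x' = 0 := by
    rw [hx', dl_sub, hdx, dl_dl hOk, sub_zero]
  obtain ⟨ψ', φ', hrel, hcoe⟩ := rel_ker h a ha hY haY hga
  set x'' : Finset V → LinearMap.ker (ψ a) :=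
    fun F => ⟨x' F, LinearMap.mem_ker.mpr (d3 F)⟩ with hx''
  have hco : Co (fun F => P F ∧ a ∉ F) ψ' q x'' := by
    intro F hF
    have hF' : x' F ≠ 0 := by
      intro h'
      exact hF (Subtype.ext h')
    have hPF : P F := by
      by_contra h'
      exact hF' (d0 F h')
    have haF : a ∉ F := fun h' => hF' (d1 F h')
    have hxF : x F ≠ 0 := by
      intro h'
      rw [d2 F hPF haF, h', map_zero, map_zero] at hF'
      exact hF' rfl
    refine ⟨⟨hPF, haF⟩, (hx F hxF).2.1, fun v hv => ?_⟩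
    apply Subtype.ext
    have hvY : v ∈ Y := hY' F hPF haF hv
    have hva : a ≠ v := fun h' => haF (h' ▸ hv)
    rw [hcoe v hvY]
    show ψ v (x' F) = 0
    rw [d2 F hPF haF]
    have h1 := h.ac v (hY hvY) a ha hva.symm (φ a (x F))
    rw [hga v hvY, zero_smul] at h1
    have h2 := h.zer a ha v (hY hvY) hva (x F)
    rw [hx.kill hv, map_zero, zero_add] at h2
    rw [h2, map_zero, add_zero] at h1
    exact h1
  have hd0 : dl (fun F => P F ∧ a ∉ F) ψ' x'' = 0 := by
    funext G
    by_cases hG : P G ∧ a ∉ G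
    · rw [dl_pos (P := fun F => P F ∧ a ∉ F) hG, Pi.zero_apply]
      apply Subtype.ext
      rw [Submodule.coe_sum]
      have h1 : dl P ψ x' G = 0 := by rw [d4, Pi.zero_apply]
      rw [dl_pos hG.1] at h1
      refine Eq.trans (Finset.sum_congr rfl fun v hv => ?_) h1
      exact hcoe v (hY' G hG.1 hG.2 hv) _
    · rw [dl_neg (P := fun F => P F ∧ a ∉ F) hG, Pi.zero_apply]
  obtain ⟨y, hy1, hy2⟩ := hbase (LinearMap.ker (ψ a)) ψ' φ' hrel x'' hco hd0
  have hya : ∀ F, a ∈ F → y F = 0 := by
    intro F haF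
    by_contra h'
    exact (hy1 F h').1.2 haF
  refine ⟨fun F => y0 F + (y F : M), ?_, ?_⟩
  · intro F hF
    have kill1 : ∀ v ∈ F, ψ v (y0 F) = 0 := by
      intro v hv
      by_cases h' : y0 F = 0
      · rw [h', map_zero]
      · exact (c1 F h').2.2 v hv
    have kill2 : ∀ v ∈ F, ψ v (y F : M) = 0 := by
      intro v hv
      by_cases h' : y F = 0
      · rw [h', Submodule.coe_zero, map_zero]
      · obtain ⟨⟨h1, h2⟩, _, h3⟩ := hy1 F h'
        rw [← hcoe v (hY' F h1 h2 hv), h3 v hv, Submodule.coe_zero]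
    have hPc : P F ∧ F.card + 1 = q := by
      by_cases h' : y0 F = 0
      · have h2 : y F ≠ 0 := by
          intro h3
          apply hF
          show y0 F + (y F : M) = 0
          rw [h', h3, Submodule.coe_zero, add_zero]
        exact ⟨(hy1 F h2).1.1, (hy1 F h2).2.1⟩
      · exact ⟨(c1 F h').1, (c1 F h').2.1⟩
    refine ⟨hPc.1, hPc.2, fun v hv => ?_⟩
    show ψ v (y0 F + (y F : M)) = 0
    rw [map_add, kill1 v hv, kill2 v hv, add_zero]
  · have hsum : dl P ψ (fun F => y0 F + (y F : M)) = dl P ψ y0 + dl P ψ (fun F => (y F : M)) :=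
      dl_add P ψ y0 (fun F => (y F : M))
    rw [hsum]
    have hrest : dl P ψ (fun F => (y F : M)) = x' := by
      funext G
      by_cases hG : P G
      · by_cases haG : a ∈ G
        · rw [dl_pos hG, d1 G haG]
          refine Finset.sum_eq_zero fun v hv => ?_
          by_cases hva : v = a
          · rw [hva]
            exact LinearMap.mem_ker.mp (y (G.erase a)).2
          · rw [hya _ (Finset.mem_erase.mpr ⟨fun h' => hva h'.symm, haG⟩), Submodule.coe_zero,
              map_zero]
        · have h1 := congrArg (Subtype.val) (congrFun hy2 G)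
          rw [dl_pos (P := fun F => P F ∧ a ∉ F) ⟨hG, haG⟩, Submodule.coe_sum] at h1
          rw [dl_pos hG]
          refine Eq.trans (Finset.sum_congr rfl fun v hv => ?_) h1
          exact (hcoe v (hY' G hG haG hv) _).symm
      · rw [dl_neg hG, d0 G hG]
    rw [hrest, hx']
    abel

namespace StarxAux

theorem star_aux {S : Finset (Finset V)} {d : ℕ} (h : HS K S d) (g : V → V → K)
    (hg : ∀ a b, a ≠ b → ({a, b} : Finset V) ∈ S → g a b = 0) (σ : Finset V) (hσ : σ ∈ S) (n : ℕ)
    (hV : VV g (ad S) (lv S σ) n) (q : ℕ) (hq : q < n) (ρ : Finset V) (hρ : ρ ⊆ σ) :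
    ∀ (M : Type) [AddCommGroup M] [Module K M] (ψ φ : V → M →ₗ[K] M),
      Rel g (lv S σ ∪ ρ) ψ φ → ExAt (fun F => F ∪ σ ∈ S ∧ Disjoint F (σ \ ρ)) ψ q := by
  classical
  induction ρ using Finset.induction_on with
  | empty =>
    intro M _ _ ψ φ hR
    rw [Finset.union_empty] at hR
    have h1 := hV M ψ φ hR q hq
    have h2 : Cl (ad S) (lv S σ) = fun F => F ∪ σ ∈ S ∧ Disjoint F (σ \ ∅) := by
      funext F
      apply propext
      rw [cl_lv h σ hσ F, Finset.sdiff_empty]
      unfold LX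
      exact ⟨fun h' => ⟨h'.2.1, h'.1⟩, fun h' => ⟨h'.2, h'.1, Finset.disjoint_empty_right F⟩⟩
    rw [h2] at h1
    exact h1
  | insert a ρ haρ ih =>
    intro M _ _ ψ φ hR
    have haσ : a ∈ σ := hρ (Finset.mem_insert_self a ρ)
    have hρσ : ρ ⊆ σ := fun v hv => hρ (Finset.mem_insert_of_mem hv)
    have hpair : ∀ T ∈ S, ∀ u ∈ T, ∀ v ∈ T, ({u, v} : Finset V) ∈ S := by
      intro T hT u hu v hv
      refine h.down T hT _ ?_
      intro w hw
      rcases Finset.mem_insert.mp hw with h' | h'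
      · rw [h']
        exact hu
      · rw [Finset.mem_singleton.mp h']
        exact hv
    refine cone_ex (Y := lv S σ ∪ ρ) hR _ ?_ a ?_ ?_ ?_ ?_ ?_ ?_ ?_ q ?_
    · rintro F ⟨h1, h2⟩ G hG
      exact ⟨h.down _ h1 _ (Finset.union_subset_union hG (Finset.Subset.refl σ)),
        Finset.disjoint_of_subset_left hG h2⟩
    · rintro F ⟨h1, h2⟩ v hv
      by_cases hvσ : v ∈ σ
      · have hvρ : v ∈ insert a ρ := by
          by_contra h'
          exact (Finset.disjoint_left.mp h2) hv (Finset.mem_sdiff.mpr ⟨hvσ, h'⟩)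
        rcases Finset.mem_insert.mp hvρ with h' | h'
        · rw [h']
          exact Finset.mem_insert_self _ _
        · exact Finset.mem_insert_of_mem (Finset.mem_union_right _ h')
      · refine Finset.mem_insert_of_mem (Finset.mem_union_left _ ?_)
        rw [HslkAux.mem_lv']
        refine ⟨hvσ, h.down _ h1 _ ?_⟩
        intro w hw
        rcases Finset.mem_insert.mp hw with h' | h'
        · rw [h']
          exact Finset.mem_union_left _ hv
        · exact Finset.mem_union_right _ h'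
    · rintro F ⟨h1, _⟩ u hu v hv huv
      exact hg u v huv (hpair _ h1 u (Finset.mem_union_left _ hu) v (Finset.mem_union_left _ hv))
    · exact Finset.mem_union_right _ (Finset.mem_insert_self a ρ)
    · exact Finset.union_subset_union (Finset.Subset.refl _) (Finset.subset_insert a ρ)
    · intro h'
      rcases Finset.mem_union.mp h' with h' | h'
      · exact ((HslkAux.mem_lv' S σ a).mp h').1 haσ
      · exact haρ h'
    · intro v hv
      have hva : v ≠ a := by
        intro h'
        rw [h'] at hv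
        rcases Finset.mem_union.mp hv with h' | h'
        · exact ((HslkAux.mem_lv' S σ a).mp h').1 haσ
        · exact haρ h'
      refine hg v a hva ?_
      rcases Finset.mem_union.mp hv with h' | h'
      · exact hpair _ ((HslkAux.mem_lv' S σ v).mp h').2 v (Finset.mem_insert_self _ _) a
          (Finset.mem_insert_of_mem haσ)
      · exact hpair _ hσ v (hρσ h') a haσ
    · rintro F ⟨h1, h2⟩
      constructor
      · rw [Finset.insert_union, Finset.insert_eq_of_mem (Finset.mem_union_right F haσ)]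
        exact h1
      · rw [Finset.disjoint_insert_left]
        exact ⟨fun h' => (Finset.mem_sdiff.mp h').2 (Finset.mem_insert_self a ρ), h2⟩
    · intro M' _ _ ψ' φ' hR'
      have h1 := ih hρσ M' ψ' φ' hR'
      have h2 : (fun F => F ∪ σ ∈ S ∧ Disjoint F (σ \ ρ)) =
          fun F => (F ∪ σ ∈ S ∧ Disjoint F (σ \ insert a ρ)) ∧ a ∉ F := by
        funext F
        apply propext
        constructor
        · rintro ⟨h3, h4⟩
          refine ⟨⟨h3, Finset.disjoint_of_subset_right ?_ h4⟩, ?_⟩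
          · exact Finset.sdiff_subset_sdiff (Finset.Subset.refl σ) (Finset.subset_insert a ρ)
          · intro h'
            exact (Finset.disjoint_left.mp h4) h' (Finset.mem_sdiff.mpr ⟨haσ, haρ⟩)
        · rintro ⟨⟨h3, h4⟩, h5⟩
          refine ⟨h3, ?_⟩
          rw [Finset.disjoint_left]
          intro v hv hv2
          rw [Finset.mem_sdiff] at hv2
          refine (Finset.disjoint_left.mp h4) hv (Finset.mem_sdiff.mpr ⟨hv2.1, ?_⟩)
          intro h'
          rcases Finset.mem_insert.mp h' with h' | h'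
          · rw [h'] at hv
            exact h5 hv
          · exact hv2.2 h'
      rw [h2] at h1
      exact h1

end StarxAux

theorem star_ex {S : Finset (Finset V)} {d : ℕ} (h : HS K S d) (g : V → V → K)
    (hg : ∀ a b, a ≠ b → ({a, b} : Finset V) ∈ S → g a b = 0) (σ : Finset V) (hσ : σ ∈ S) (n : ℕ)
    (hV : VV g (ad S) (lv S σ) n) (ψ φ : V → M →ₗ[K] M) (hR : Rel g (lv S ∅) ψ φ) (q : ℕ)
    (hq : q < n) : ExAt (fun F => F ∪ σ ∈ S) ψ q := by
  have h1 := StarxAux.star_aux h g hg σ hσ n hV q hq σ (Finset.Subset.refl σ) M ψ φ (by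
    refine hR.mono ?_
    intro v hv
    rw [HslkAux.mem_lv']
    refine ⟨Finset.notMem_empty v, ?_⟩
    rw [insert_empty_eq]
    rcases Finset.mem_union.mp hv with h' | h'
    · exact h.down _ ((HslkAux.mem_lv' S σ v).mp h').2 _
        (Finset.singleton_subset_iff.mpr (Finset.mem_insert_self _ _))
    · exact h.down _ hσ _ (Finset.singleton_subset_iff.mpr h'))
  have h2 : (fun F => F ∪ σ ∈ S ∧ Disjoint F (σ \ σ)) = fun F => F ∪ σ ∈ S := by
    funext F
    apply propext
    rw [Finset.sdiff_self]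
    exact ⟨fun h' => h'.1, fun h' => ⟨h', Finset.disjoint_empty_right F⟩⟩
  rw [h2] at h1
  exact h1

end Pool.Agent.MP19e880.W1
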