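import Pool.Agent.Lib.MP_19e880_co_W1.Basic
import Pool.Agent.Lib.MP_19e880_co_W1.StarX

/-!
Clifford complexes of flag complexes: adding an edge.
-/

set_option autoImplicit false
set_option linter.unusedSectionVars false

namespace Pool.Agent.MP19e880.W1

variable {V : Type} [Fintype V] [LinearOrder V] {K : Type} [Field K]
  {M : Type} [AddCommGroup M] [Module K M]

/-- The graph `H` with the edge `x y` added. -/
def ae (H : V → V → Prop) (x y : V) : V → V → Prop :=
  fun a b => H a b ∨ (a = x ∧ b = y) ∨ (a = y ∧ b = x)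

namespace AddeAux

theorem le_ae {H : V → V → Prop} {X : Finset V} {x y : V} {F : Finset V} (h : Cl H X F) :
    Cl (ae H x y) X F :=
  ⟨h.1, fun a ha b hb hab => Or.inl (h.2 a ha b hb hab)⟩

theorem of_ae {H : V → V → Prop} {X : Finset V} {x y : V} {F : Finset V}
    (h : Cl (ae H x y) X F) (hF : ¬ (x ∈ F ∧ y ∈ F)) : Cl H X F := by
  refine ⟨h.1, fun a ha b hb hab => ?_⟩
  rcases h.2 a ha b hb hab with h' | ⟨h1, h2⟩ | ⟨h1, h2⟩
  · exact h'
  · exact absurd ⟨h1 ▸ ha, h2 ▸ hb⟩ hF
  · exact absurd ⟨h2 ▸ hb, h1 ▸ ha⟩ hF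

theorem not_both {H : V → V → Prop} {X : Finset V} {x y : V} {F : Finset V} (hxy : x ≠ y)
    (hn : ¬ H x y) (h : Cl H X F) : ¬ (x ∈ F ∧ y ∈ F) :=
  fun h' => hn (h.2 x h'.1 y h'.2 hxy)

theorem notMem_x {H : V → V → Prop} {X : Finset V} {x y : V} {T : Finset V}
    (h : Cl H (cn H X x y) T) : x ∉ T := fun h' => (mem_cn.mp (h.1 h')).2.1 rfl

theorem notMem_y {H : V → V → Prop} {X : Finset V} {x y : V} {T : Finset V}
    (h : Cl H (cn H X x y) T) : y ∉ T := fun h' => (mem_cn.mp (h.1 h')).2.2.1 rfl

theorem up {H : V → V → Prop} (hH : ∀ a b, H a b → H b a) {X : Finset V} {x y : V}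
    (hx : x ∈ X) (hy : y ∈ X) {T : Finset V} (h : Cl H (cn H X x y) T) :
    Cl (ae H x y) X (insert x (insert y T)) := by
  refine ⟨?_, ?_⟩
  · intro v hv
    rcases Finset.mem_insert.mp hv with h' | h'
    · exact h' ▸ hx
    · rcases Finset.mem_insert.mp h' with h'' | h''
      · exact h'' ▸ hy
      · exact (mem_cn.mp (h.1 h'')).1
  · intro a ha b hb hab
    rcases Finset.mem_insert.mp ha with rfl | ha'
    · rcases Finset.mem_insert.mp hb with h1 | hb'
      · exact absurd h1.symm hab
      · rcases Finset.mem_insert.mp hb' with rfl | hb''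
        · exact Or.inr (Or.inl ⟨rfl, rfl⟩)
        · exact Or.inl (mem_cn.mp (h.1 hb'')).2.2.2.1
    · rcases Finset.mem_insert.mp ha' with rfl | ha''
      · rcases Finset.mem_insert.mp hb with rfl | hb'
        · exact Or.inr (Or.inr ⟨rfl, rfl⟩)
        · rcases Finset.mem_insert.mp hb' with h1 | hb''
          · exact absurd h1.symm hab
          · exact Or.inl (mem_cn.mp (h.1 hb'')).2.2.2.2
      · rcases Finset.mem_insert.mp hb with rfl | hb'
        · exact Or.inl (hH _ _ (mem_cn.mp (h.1 ha'')).2.2.2.1)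
        · rcases Finset.mem_insert.mp hb' with rfl | hb''
          · exact Or.inl (hH _ _ (mem_cn.mp (h.1 ha'')).2.2.2.2)
          · exact Or.inl (h.2 a ha'' b hb'' hab)

theorem dn {H : V → V → Prop} {X : Finset V} {x y : V} (hxy : x ≠ y) {F : Finset V}
    (h : Cl (ae H x y) X F) (hx : x ∈ F) (hy : y ∈ F) :
    Cl H (cn H X x y) ((F.erase x).erase y) := by
  have hm : ∀ v ∈ (F.erase x).erase y, v ∈ F ∧ v ≠ x ∧ v ≠ y := by
    intro v hv
    rw [Finset.mem_erase, Finset.mem_erase] at hv
    exact ⟨hv.2.2, hv.2.1, hv.1⟩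
  refine ⟨?_, ?_⟩
  · intro v hv
    obtain ⟨h1, h2, h3⟩ := hm v hv
    rw [mem_cn]
    refine ⟨h.1 h1, h2, h3, ?_, ?_⟩
    · rcases h.2 x hx v h1 h2.symm with h' | ⟨_, h'⟩ | ⟨h', _⟩
      · exact h'
      · exact absurd h' h3
      · exact absurd h' hxy
    · rcases h.2 y hy v h1 h3.symm with h' | ⟨h', _⟩ | ⟨_, h'⟩
      · exact h'
      · exact absurd h'.symm hxy
      · exact absurd h' h2
  · intro a ha b hb hab
    obtain ⟨h1, h2, h3⟩ := hm a ha
    obtain ⟨h4, h5, h6⟩ := hm b hb
    rcases h.2 a h1 b h4 hab with h' | ⟨h', _⟩ | ⟨h', _⟩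
    · exact h'
    · exact absurd h' h2
    · exact absurd h' h3

theorem ins_er {x y : V} (hxy : x ≠ y) {F : Finset V} (hx : x ∈ F) (hy : y ∈ F) :
    insert x (insert y ((F.erase x).erase y)) = F := by
  rw [Finset.insert_erase (Finset.mem_erase.mpr ⟨hxy.symm, hy⟩), Finset.insert_erase hx]

theorem er_ins {x y : V} (hxy : x ≠ y) {T : Finset V} (hx : x ∉ T) (hy : y ∉ T) :
    ((insert x (insert y T)).erase x).erase y = T := by
  rw [Finset.erase_insert, Finset.erase_insert hy]
  intro h
  rcases Finset.mem_insert.mp h with h' | h'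
  · exact hxy h'
  · exact hx h'

end AddeAux

open AddeAux in
theorem vv_adde {g : V → V → K} {H : V → V → Prop} (hH : ∀ a b, H a b → H b a) {X : Finset V}
    {x y : V} (hx : x ∈ X) (hy : y ∈ X) (hxy : x ≠ y) (hgxy : g x y = 0) (hgyx : g y x = 0)
    (hg : ∀ a ∈ X, ∀ b ∈ X, a ≠ b → H a b → g a b = 0) (m : ℕ)
    (h1 : VV g H X (m + 2)) (h2 : VV g H (cn H X x y) m) : VV g (ae H x y) X (m + 2) := by
  classical
  by_cases hn : H x y
  · refine h1.congr (fun _ _ _ _ _ => rfl) (fun a _ b _ _ => ?_)
    constructor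
    · exact fun h => Or.inl h
    · rintro (h | ⟨rfl, rfl⟩ | ⟨rfl, rfl⟩)
      · exact h
      · exact hn
      · exact hH _ _ hn
  intro M _ _ ψ φ hR j hj
  have hg' : ∀ a ∈ X, ∀ b ∈ X, a ≠ b → ae H x y a b → g a b = 0 := by
    rintro a ha b hb hab (h | ⟨rfl, rfl⟩ | ⟨rfl, rfl⟩)
    · exact hg a ha b hb hab h
    · exact hgxy
    · exact hgyx
  have hOk' : Ok (Cl (ae H x y) X) ψ := Ok.of_rel hR hg'
  intro z hz hdz
  -- the restriction to the old faces
  set z0 : Finset V → M := fun F => if Cl H X F then z F else 0 with hz0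
  have hz0p : ∀ F, Cl H X F → z0 F = z F := fun F hF => if_pos hF
  have hz0n : ∀ F, ¬ Cl H X F → z0 F = 0 := fun F hF => if_neg hF
  have hz0co : Co (Cl H X) ψ j z0 := by
    intro F hF
    have hPF : Cl H X F := by
      by_contra h'
      exact hF (hz0n F h')
    rw [hz0p F hPF] at hF ⊢
    exact ⟨hPF, (hz F hF).2.1, (hz F hF).2.2⟩
  have hz0d : dl (Cl H X) ψ z0 = 0 := by
    funext G
    by_cases hG : Cl H X G
    · rw [dl_pos hG, Pi.zero_apply]
      have h3 : dl (Cl (ae H x y) X) ψ z G = 0 := by rw [hdz, Pi.zero_apply]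
      rw [dl_pos (le_ae hG)] at h3
      rw [← h3]
      refine Finset.sum_congr rfl fun v _ => ?_
      rw [hz0p _ (hG.down (Finset.erase_subset _ _))]
    · rw [dl_neg hG, Pi.zero_apply]
  obtain ⟨y0, hy0, hdy0⟩ := h1 M ψ φ hR j hj z0 hz0co hz0d
  have hy0off : ∀ F, ¬ Cl H X F → y0 F = 0 := by
    intro F hF
    by_contra h'
    exact hF (hy0 F h').1
  -- the rest
  set z' : Finset V → M := z - dl (Cl (ae H x y) X) ψ y0 with hz'
  have hz'P : ∀ F, Cl H X F → z' F = 0 := by
    intro F hF
    rw [hz', Pi.sub_apply, dl_pos (le_ae hF), ← hz0p F hF, ← hdy0, dl_pos hF, sub_self]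
  have hz'off : ∀ F, ¬ Cl (ae H x y) X F → z' F = 0 := by
    intro F hF
    rw [hz', Pi.sub_apply, dl_neg hF, hz.off hF, sub_zero]
  have hz'both : ∀ F, ¬ (x ∈ F ∧ y ∈ F) → z' F = 0 := by
    intro F hF
    by_cases hF' : Cl (ae H x y) X F
    · exact hz'P F (of_ae hF' hF)
    · exact hz'off F hF'
  have hz'd : dl (Cl (ae H x y) X) ψ z' = 0 := by
    rw [hz', dl_sub, hdz, dl_dl hOk', sub_zero]
  have hz'kill : ∀ F, ∀ v ∈ F, ψ v (z' F) = 0 := by
    intro F v hv
    by_cases hF' : Cl (ae H x y) X F
    · rw [hz', Pi.sub_apply, map_sub, hz.kill hv, zero_sub, dl_pos hF', map_sum, neg_eq_zero]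
      refine Finset.sum_eq_zero fun u hu => ?_
      by_cases huv : v = u
      · rw [huv]
        exact hOk'.sq F hF' u hu _
      · have h3 := hOk'.ac F hF' v hv u hu huv (y0 (F.erase u))
        have h4 : ψ v (y0 (F.erase u)) = 0 := by
          by_cases h5 : y0 (F.erase u) = 0
          · rw [h5, map_zero]
          · exact (hy0 _ h5).2.2 v (Finset.mem_erase.mpr ⟨huv, hv⟩)
        rw [h4, map_zero, add_zero] at h3
        exact h3
    · rw [hz'off F hF', map_zero]
  have hz'card : ∀ F, z' F ≠ 0 → F.card = j := by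
    intro F hF
    by_contra hc
    apply hF
    by_cases hF' : Cl (ae H x y) X F
    · rw [hz', Pi.sub_apply, hz.card hc, zero_sub, dl_pos hF', neg_eq_zero]
      refine Finset.sum_eq_zero fun u hu => ?_
      have h5 : y0 (F.erase u) = 0 := by
        by_contra h6
        have h7 := (hy0 _ h6).2.1
        rw [Finset.card_erase_add_one hu] at h7
        exact hc h7
      rw [h5, map_zero]
    · exact hz'off F hF'
  have hzsum : z = dl (Cl (ae H x y) X) ψ y0 + z' := by
    rw [hz']
    abel
  rcases Nat.lt_or_ge j 2 with hj2 | hj2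
  · -- small degree
    have hz'0 : z' = 0 := by
      funext F
      by_contra hF
      have hb : x ∈ F ∧ y ∈ F := by
        by_contra h'
        exact hF (hz'both F h')
      have h3 : ({x, y} : Finset V) ⊆ F := by
        intro v hv
        rcases Finset.mem_insert.mp hv with h' | h'
        · exact h' ▸ hb.1
        · exact (Finset.mem_singleton.mp h') ▸ hb.2
      have h4 := Finset.card_le_card h3
      rw [Finset.card_pair hxy, hz'card F hF] at h4
      omega
    refine ⟨y0, fun F hF => ⟨le_ae (hy0 F hF).1, (hy0 F hF).2.1, (hy0 F hF).2.2⟩, ?_⟩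
    conv_rhs => rw [hzsum, hz'0, add_zero]
  · obtain ⟨i, rfl⟩ : ∃ i, j = i + 2 := ⟨j - 2, by omega⟩
    set Y := cn H X x y with hY
    have hYX : Y ⊆ X := fun v hv => (mem_cn.mp hv).1
    have hxY : x ∉ Y := fun h' => (mem_cn.mp h').2.1 rfl
    have hyY : y ∉ Y := fun h' => (mem_cn.mp h').2.2.1 rfl
    -- the module
    obtain ⟨ψ1, φ1, hR1, hc1⟩ := rel_ker (Y := insert y Y) hR x hx
      (by
        intro v hv
        rcases Finset.mem_insert.mp hv with h' | h'
        · exact h' ▸ hy
        · exact hYX h')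
      (by
        intro h'
        rcases Finset.mem_insert.mp h' with h'' | h''
        · exact hxy h''
        · exact hxY h'')
      (by
        intro v hv
        rcases Finset.mem_insert.mp hv with h' | h'
        · rw [h']
          exact hgyx
        · have h3 := mem_cn.mp h'
          exact hg v h3.1 x hx h3.2.1 (hH _ _ h3.2.2.2.1))
    obtain ⟨ψ2, φ2, hR2, hc2⟩ := rel_ker (Y := Y) hR1 y (Finset.mem_insert_self y Y)
      (Finset.subset_insert y Y) hyY
      (by
        intro v hv
        have h3 := mem_cn.mp hv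
        exact hg v h3.1 y hy h3.2.2.1 (hH _ _ h3.2.2.2.2))
    have hcoe : ∀ v ∈ Y, ∀ m : LinearMap.ker (ψ1 y),
        (((ψ2 v m : LinearMap.ker (ψ1 y)) : LinearMap.ker (ψ x)) : M) = ψ v ((m : LinearMap.ker (ψ x)) : M) := by
      intro v hv m
      rw [hc2 v hv, hc1 v (Finset.mem_insert_of_mem hv)]
    -- the cocycle on the common link
    have hux : ∀ T : Finset V, ψ x (z' (insert x (insert y T))) = 0 := fun T =>
      hz'kill _ x (Finset.mem_insert_self _ _)
    have huy : ∀ T : Finset V, ψ y (z' (insert x (insert y T))) = 0 := fun T =>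
      hz'kill _ y (Finset.mem_insert_of_mem (Finset.mem_insert_self _ _))
    let u1 : Finset V → LinearMap.ker (ψ x) := fun T =>
      ⟨if Cl H Y T then z' (insert x (insert y T)) else 0, by
        rw [LinearMap.mem_ker]
        split_ifs
        · exact hux T
        · exact map_zero _⟩
    have hu1 : ∀ T, Cl H Y T → ((u1 T : LinearMap.ker (ψ x)) : M) = z' (insert x (insert y T)) :=
      fun T hT => if_pos hT
    have hu1n : ∀ T, ¬ Cl H Y T → u1 T = 0 := by
      intro T hT
      apply Subtype.ext
      exact if_neg hT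
    let u2 : Finset V → LinearMap.ker (ψ1 y) := fun T =>
      ⟨u1 T, by
        rw [LinearMap.mem_ker]
        apply Subtype.ext
        rw [hc1 y (Finset.mem_insert_self y Y)]
        by_cases hT : Cl H Y T
        · rw [hu1 T hT, huy T]
          rfl
        · rw [hu1n T hT, Submodule.coe_zero, map_zero]⟩
    have hu2 : ∀ T, Cl H Y T →
        (((u2 T : LinearMap.ker (ψ1 y)) : LinearMap.ker (ψ x)) : M) = z' (insert x (insert y T)) :=
      fun T hT => hu1 T hT
    have hu2n : ∀ T, ¬ Cl H Y T → u2 T = 0 := by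
      intro T hT
      apply Subtype.ext
      exact hu1n T hT
    have hu2co : Co (Cl H Y) ψ2 i u2 := by
      intro T hT
      have hQ : Cl H Y T := by
        by_contra h'
        exact hT (hu2n T h')
      have hne : z' (insert x (insert y T)) ≠ 0 := by
        intro h'
        apply hT
        apply Subtype.ext
        apply Subtype.ext
        rw [hu2 T hQ, h']
        rfl
      refine ⟨hQ, ?_, fun v hv => ?_⟩
      · have h3 := hz'card _ hne
        rw [Finset.card_insert_of_notMem, Finset.card_insert_of_notMem (notMem_y hQ)] at h3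
        · omega
        · intro h'
          rcases Finset.mem_insert.mp h' with h'' | h''
          · exact hxy h''
          · exact notMem_x hQ h''
      · apply Subtype.ext
        apply Subtype.ext
        rw [hcoe v (hQ.1 hv), hu2 T hQ, hz'kill _ v (Finset.mem_insert_of_mem
          (Finset.mem_insert_of_mem hv))]
        rfl
    have hu2d : dl (Cl H Y) ψ2 u2 = 0 := by
      funext T
      by_cases hQ : Cl H Y T
      · rw [dl_pos hQ, Pi.zero_apply]
        apply Subtype.ext
        apply Subtype.ext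
        rw [Submodule.coe_sum, Submodule.coe_sum]
        have hxT := notMem_x hQ
        have hyT := notMem_y hQ
        have hxyT : x ∉ insert y T := by
          intro h'
          rcases Finset.mem_insert.mp h' with h'' | h''
          · exact hxy h''
          · exact hxT h''
        have h3 : dl (Cl (ae H x y) X) ψ z' (insert x (insert y T)) = 0 := by
          rw [hz'd, Pi.zero_apply]
        rw [dl_pos (up hH hx hy hQ), Finset.sum_insert hxyT, Finset.sum_insert hyT,
          Finset.erase_insert hxyT, hz'both (insert y T) (fun h' => hxyT h'.1), map_zero,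
          zero_add, hz'both ((insert x (insert y T)).erase y)
            (fun h' => Finset.notMem_erase _ _ h'.2), map_zero, zero_add] at h3
        refine Eq.trans (Finset.sum_congr rfl fun v hv => ?_) h3
        have hvx : x ≠ v := fun h' => hxT (h' ▸ hv)
        have hvy : y ≠ v := fun h' => hyT (h' ▸ hv)
        rw [hcoe v (hQ.1 hv), hu2 _ (hQ.down (Finset.erase_subset _ _)),
          Finset.erase_insert_of_ne hvx, Finset.erase_insert_of_ne hvy]
      · rw [dl_neg hQ, Pi.zero_apply]
    obtain ⟨w, hw, hdw⟩ := h2 (LinearMap.ker (ψ1 y)) ψ2 φ2 hR2 i (by omega) u2 hu2co hu2d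
    set w' : Finset V → M := fun F => if x ∈ F ∧ y ∈ F then
      (((w ((F.erase x).erase y) : LinearMap.ker (ψ1 y)) : LinearMap.ker (ψ x)) : M) else 0 with hw'
    have hw'p : ∀ F, x ∈ F → y ∈ F → w' F =
      (((w ((F.erase x).erase y) : LinearMap.ker (ψ1 y)) : LinearMap.ker (ψ x)) : M) :=
      fun F hxF hyF => if_pos ⟨hxF, hyF⟩
    have hw'n : ∀ F, ¬ (x ∈ F ∧ y ∈ F) → w' F = 0 := fun F hF => if_neg hF
    have hw'co : ∀ F, w' F ≠ 0 → Cl (ae H x y) X F ∧ F.card + 1 = i + 2 ∧
        ∀ v ∈ F, ψ v (w' F) = 0 := by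
      intro F hF
      have hb : x ∈ F ∧ y ∈ F := by
        by_contra h'
        exact hF (hw'n F h')
      rw [hw'p F hb.1 hb.2] at hF ⊢
      have hne : w ((F.erase x).erase y) ≠ 0 := by
        intro h'
        rw [h'] at hF
        exact hF rfl
      obtain ⟨h3, h4, h5⟩ := hw _ hne
      have hF' := ins_er hxy hb.1 hb.2
      refine ⟨?_, ?_, ?_⟩
      · rw [← hF']
        exact up hH hx hy h3
      · rw [Finset.card_erase_of_mem (Finset.mem_erase.mpr ⟨hxy.symm, hb.2⟩),
          Finset.card_erase_of_mem hb.1] at h4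
        have h6 : ({x, y} : Finset V) ⊆ F := by
          intro v hv
          rcases Finset.mem_insert.mp hv with h' | h'
          · exact h' ▸ hb.1
          · exact (Finset.mem_singleton.mp h') ▸ hb.2
        have h7 := Finset.card_le_card h6
        rw [Finset.card_pair hxy] at h7
        omega
      · intro v hv
        by_cases hvx : v = x
        · rw [hvx]
          exact LinearMap.mem_ker.mp (w ((F.erase x).erase y) : LinearMap.ker (ψ x)).2
        · by_cases hvy : v = y
          · rw [hvy, ← hc1 y (Finset.mem_insert_self y Y)]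
            have h6 := LinearMap.mem_ker.mp (w ((F.erase x).erase y)).2
            rw [h6]
            rfl
          · have hvT : v ∈ (F.erase x).erase y :=
              Finset.mem_erase.mpr ⟨hvy, Finset.mem_erase.mpr ⟨hvx, hv⟩⟩
            rw [← hcoe v (h3.1 hvT), h5 v hvT]
            rfl
    have hw'd : dl (Cl (ae H x y) X) ψ w' = z' := by
      funext G
      by_cases hG : Cl (ae H x y) X G
      · rw [dl_pos hG]
        by_cases hb : x ∈ G ∧ y ∈ G
        · obtain ⟨hxG, hyG⟩ := hb
          have hQ := dn hxy hG hxG hyG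
          set T := (G.erase x).erase y with hT
          have hGT : insert x (insert y T) = G := ins_er hxy hxG hyG
          have hxT := notMem_x hQ
          have hyT := notMem_y hQ
          have hxyT : x ∉ insert y T := by
            intro h'
            rcases Finset.mem_insert.mp h' with h'' | h''
            · exact hxy h''
            · exact hxT h''
          rw [← hGT, Finset.sum_insert hxyT, Finset.sum_insert hyT, Finset.erase_insert hxyT,
            hw'n (insert y T) (fun h' => hxyT h'.1), map_zero, zero_add,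
            hw'n ((insert x (insert y T)).erase y) (fun h' => Finset.notMem_erase _ _ h'.2),
            map_zero, zero_add]
          have h3 := congrArg (fun t : LinearMap.ker (ψ1 y) =>
            ((t : LinearMap.ker (ψ x)) : M)) (congrFun hdw T)
          rw [dl_pos hQ, hu2 T hQ, Submodule.coe_sum, Submodule.coe_sum] at h3
          rw [← h3]
          refine Finset.sum_congr rfl fun v hv => ?_
          have hvx : x ≠ v := fun h' => hxT (h' ▸ hv)
          have hvy : y ≠ v := fun h' => hyT (h' ▸ hv)
          rw [hcoe v (hQ.1 hv), Finset.erase_insert_of_ne hvx, Finset.erase_insert_of_ne hvy,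
            hw'p _ (Finset.mem_insert_self _ _)
              (Finset.mem_insert_of_mem (Finset.mem_insert_self _ _)),
            er_ins hxy (fun h' => hxT (Finset.mem_of_mem_erase h'))
              (fun h' => hyT (Finset.mem_of_mem_erase h'))]
        · rw [hz'both G hb]
          refine Finset.sum_eq_zero fun v _ => ?_
          rw [hw'n, map_zero]
          exact fun h' => hb ⟨Finset.mem_of_mem_erase h'.1, Finset.mem_of_mem_erase h'.2⟩
      · rw [dl_neg hG, hz'off G hG]
    refine ⟨y0 + w', ?_, ?_⟩
    · intro F hF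
      have k1 : ∀ v ∈ F, ψ v (y0 F) = 0 := by
        intro v hv
        by_cases h' : y0 F = 0
        · rw [h', map_zero]
        · exact (hy0 F h').2.2 v hv
      have k2 : ∀ v ∈ F, ψ v (w' F) = 0 := by
        intro v hv
        by_cases h' : w' F = 0
        · rw [h', map_zero]
        · exact (hw'co F h').2.2 v hv
      have hPc : Cl (ae H x y) X F ∧ F.card + 1 = i + 2 := by
        by_cases h' : y0 F = 0
        · have h3 : w' F ≠ 0 := by
            intro h4
            apply hF
            rw [Pi.add_apply, h', h4, add_zero]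
          exact ⟨(hw'co F h3).1, (hw'co F h3).2.1⟩
        · exact ⟨le_ae (hy0 F h').1, (hy0 F h').2.1⟩
      refine ⟨hPc.1, hPc.2, fun v hv => ?_⟩
      rw [Pi.add_apply, map_add, k1 v hv, k2 v hv, add_zero]
    · rw [dl_add, hw'd]
      exact hzsum.symm

end Pool.Agent.MP19e880.W1
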