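import Pool.Agent.Lib.MP_19e880_co_W1.Basic
import Pool.Agent.Lib.MP_19e880_co_W1.StarX

/-!
Clifford complexes of flag complexes: adding a vertex.
-/

set_option autoImplicit false
set_option linter.unusedSectionVars false

namespace Pool.Agent.MP19e880.W1

variable {V : Type} [Fintype V] [LinearOrder V] {K : Type} [Field K]
  {M : Type} [AddCommGroup M] [Module K M]

/-- The neighbours of `x` in `T`. -/
noncomputable def nh (H : V → V → Prop) (T : Finset V) (x : V) : Finset V :=
  open Classical in T.filter (fun w => w ≠ x ∧ H x w)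

namespace AddvAux

theorem mem_nh {H : V → V → Prop} {T : Finset V} {x w : V} :
    w ∈ nh H T x ↔ w ∈ T ∧ w ≠ x ∧ H x w := by
  classical
  unfold nh
  exact Finset.mem_filter

theorem cl_ins {H : V → V → Prop} (hH : ∀ a b, H a b → H b a) {T : Finset V} {x : V}
    {F : Finset V} (hxF : x ∉ F) : Cl H (insert x T) (insert x F) ↔ Cl H (nh H T x) F := by
  constructor
  · rintro ⟨h1, h2⟩
    refine ⟨fun w hw => ?_, fun a ha b hb hab =>
      h2 a (Finset.mem_insert_of_mem ha) b (Finset.mem_insert_of_mem hb) hab⟩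
    have hwx : w ≠ x := fun h' => hxF (h' ▸ hw)
    rw [mem_nh]
    refine ⟨?_, hwx, h2 x (Finset.mem_insert_self x F) w (Finset.mem_insert_of_mem hw) hwx.symm⟩
    rcases Finset.mem_insert.mp (h1 (Finset.mem_insert_of_mem hw)) with h' | h'
    · exact absurd h' hwx
    · exact h'
  · rintro ⟨h1, h2⟩
    refine ⟨fun w hw => ?_, fun a ha b hb hab => ?_⟩
    · rcases Finset.mem_insert.mp hw with h' | h'
      · rw [h']
        exact Finset.mem_insert_self x T
      · exact Finset.mem_insert_of_mem (mem_nh.mp (h1 h')).1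
    · rcases Finset.mem_insert.mp ha with ha' | ha'
      · rcases Finset.mem_insert.mp hb with hb' | hb'
        · exact absurd (ha'.trans hb'.symm) hab
        · rw [ha']
          exact (mem_nh.mp (h1 hb')).2.2
      · rcases Finset.mem_insert.mp hb with hb' | hb'
        · rw [hb']
          exact hH _ _ (mem_nh.mp (h1 ha')).2.2
        · exact h2 a ha' b hb' hab

theorem cl_out {H : V → V → Prop} {T : Finset V} {x : V}
    {F : Finset V} (hxF : x ∉ F) : Cl H (insert x T) F ↔ Cl H T F := by
  constructor
  · rintro ⟨h1, h2⟩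
    refine ⟨fun w hw => ?_, h2⟩
    rcases Finset.mem_insert.mp (h1 hw) with h' | h'
    · exact absurd (h' ▸ hw) hxF
    · exact h'
  · exact fun h => h.mono (Finset.subset_insert x T)

end AddvAux

open AddvAux in
theorem vv_addv {g : V → V → K} {H : V → V → Prop} (hH : ∀ a b, H a b → H b a) {T : Finset V}
    {x : V} (hx : x ∉ T)
    (hg : ∀ a ∈ insert x T, ∀ b ∈ insert x T, a ≠ b → H a b → g a b = 0) (m : ℕ)
    (h1 : VV g H T (m + 1)) (h2 : VV g H (nh H T x) m) : VV g H (insert x T) (m + 1) := by
  classical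
  intro M _ _ ψ φ hR j hj z hz hdz
  have hOk : Ok (Cl H (insert x T)) ψ := Ok.of_rel hR hg
  have hxT : x ∈ insert x T := Finset.mem_insert_self x T
  have hQx : ∀ F, Cl H T F → x ∉ F := fun F hF h' => hx (hF.1 h')
  have hNx : x ∉ nh H T x := fun h' => (mem_nh.mp h').2.1 rfl
  have hNT : nh H T x ⊆ insert x T := fun w hw => Finset.mem_insert_of_mem (mem_nh.mp hw).1
  have hRx : ∀ F, Cl H (nh H T x) F → x ∉ F := fun F hF h' => hNx (hF.1 h')
  -- the restriction to the faces of `T`
  set z0 : Finset V → M := fun F => if x ∈ F then 0 else z F with hz0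
  have hz0a : ∀ F, x ∈ F → z0 F = 0 := fun F hF => if_pos hF
  have hz0n : ∀ F, x ∉ F → z0 F = z F := fun F hF => if_neg hF
  have c1 : Co (Cl H T) ψ j z0 := by
    intro F hF
    have hxF : x ∉ F := fun h' => hF (hz0a F h')
    rw [hz0n F hxF] at hF ⊢
    obtain ⟨e1, e2, e3⟩ := hz F hF
    exact ⟨(cl_out hxF).mp e1, e2, e3⟩
  have c2 : dl (Cl H T) ψ z0 = 0 := by
    funext G
    by_cases hG : Cl H T G
    · have hxG := hQx G hG
      have e1 : dl (Cl H (insert x T)) ψ z G = 0 := by rw [hdz, Pi.zero_apply]
      rw [dl_pos ((cl_out hxG).mpr hG)] at e1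
      rw [dl_pos hG, Pi.zero_apply]
      refine Eq.trans (Finset.sum_congr rfl fun v _ => ?_) e1
      rw [hz0n _ (fun h' => hxG (Finset.mem_of_mem_erase h'))]
    · rw [dl_neg hG, Pi.zero_apply]
  obtain ⟨y, hy1, hy2⟩ := h1 M ψ φ (hR.mono (Finset.subset_insert x T)) j hj z0 c1 c2
  have hyx : ∀ F, x ∈ F → y F = 0 := by
    intro F hxF
    by_contra h'
    exact hQx F (hy1 F h').1 hxF
  have hyk : ∀ F, ∀ v ∈ F, ψ v (y F) = 0 := by
    intro F v hv
    by_cases h' : y F = 0
    · rw [h', map_zero]
    · exact (hy1 F h').2.2 v hv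
  set z' : Finset V → M := z - dl (Cl H (insert x T)) ψ y with hz'
  have d0 : ∀ F, ¬ Cl H (insert x T) F → z' F = 0 := by
    intro F hF
    rw [hz', Pi.sub_apply, hz.off hF, dl_neg hF, sub_zero]
  have d1 : ∀ F, x ∉ F → z' F = 0 := by
    intro F hxF
    by_cases hF : Cl H (insert x T) F
    · have hF' : Cl H T F := (cl_out hxF).mp hF
      have e1 := congrFun hy2 F
      rw [dl_pos hF', hz0n F hxF] at e1
      rw [hz', Pi.sub_apply, dl_pos hF, e1, sub_self]
    · exact d0 F hF
  have d2 : dl (Cl H (insert x T)) ψ z' = 0 := by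
    rw [hz', dl_sub, hdz, dl_dl hOk, sub_zero]
  rcases Nat.eq_zero_or_pos j with hj0 | hjpos
  · refine ⟨y, ?_, ?_⟩
    · intro F hF
      obtain ⟨e1, e2, e3⟩ := hy1 F hF
      exact ⟨e1.mono (Finset.subset_insert x T), e2, e3⟩
    · have e1 : z' = 0 := by
        funext F
        rw [Pi.zero_apply]
        by_cases hxF : x ∈ F
        · have e2 : z F = 0 := by
            refine hz.card ?_
            rw [hj0]
            exact Finset.card_ne_zero_of_mem hxF
          rw [hz', Pi.sub_apply, e2]
          have e3 : dl (Cl H (insert x T)) ψ y F = 0 := by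
            have e4 : y = 0 := by
              funext G
              by_contra h'
              have := (hy1 G h').2.1
              omega
            rw [e4, dl_zero, Pi.zero_apply]
          rw [e3, sub_zero]
        · exact d1 F hxF
      rw [hz', sub_eq_zero] at e1
      exact e1.symm
  · obtain ⟨j', rfl⟩ : ∃ j', j = j' + 1 := ⟨j - 1, by omega⟩
    have hyco : Co (Cl H (insert x T)) ψ j' y := by
      intro F hF
      obtain ⟨e1, e2, e3⟩ := hy1 F hF
      exact ⟨e1.mono (Finset.subset_insert x T), by omega, e3⟩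
    have hz'co : Co (Cl H (insert x T)) ψ (j' + 1) z' := hz.sub (dl_co hOk hyco)
    have hgx : ∀ v ∈ nh H T x, g v x = 0 := by
      intro v hv
      obtain ⟨e1, e2, e3⟩ := mem_nh.mp hv
      exact hg v (Finset.mem_insert_of_mem e1) x hxT e2 (hH _ _ e3)
    obtain ⟨ψ', φ', hrel, hcoe⟩ := rel_ker hR x hxT hNT hNx hgx
    have kx : ∀ F, ψ x (if x ∈ F then 0 else z' (insert x F)) = 0 := by
      intro F
      by_cases hxF : x ∈ F
      · rw [if_pos hxF, map_zero]
      · rw [if_neg hxF]
        exact hz'co.kill (Finset.mem_insert_self x F)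
    set u : Finset V → LinearMap.ker (ψ x) :=
      fun F => ⟨if x ∈ F then 0 else z' (insert x F), LinearMap.mem_ker.mpr (kx F)⟩ with hu
    have hun : ∀ F, x ∉ F → ((u F : LinearMap.ker (ψ x)) : M) = z' (insert x F) :=
      fun F hF => if_neg hF
    have hua : ∀ F, x ∈ F → u F = 0 := fun F hF => Subtype.ext (if_pos hF)
    have uco : Co (Cl H (nh H T x)) ψ' j' u := by
      intro F hF
      have hxF : x ∉ F := fun h' => hF (hua F h')
      have hF' : z' (insert x F) ≠ 0 := by
        intro h'
        apply hF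
        apply Subtype.ext
        rw [hun F hxF, h', Submodule.coe_zero]
      obtain ⟨e1, e2, e3⟩ := hz'co _ hF'
      have e4 : Cl H (nh H T x) F := (cl_ins hH hxF).mp e1
      rw [Finset.card_insert_of_notMem hxF] at e2
      refine ⟨e4, by omega, fun v hv => ?_⟩
      apply Subtype.ext
      rw [hcoe v (e4.1 hv), hun F hxF, e3 v (Finset.mem_insert_of_mem hv), Submodule.coe_zero]
    have ud : dl (Cl H (nh H T x)) ψ' u = 0 := by
      funext G
      by_cases hG : Cl H (nh H T x) G
      · have hxG := hRx G hG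
        rw [dl_pos hG, Pi.zero_apply]
        apply Subtype.ext
        rw [Submodule.coe_sum, Submodule.coe_zero]
        have e1 : dl (Cl H (insert x T)) ψ z' (insert x G) = 0 := by rw [d2]; rfl
        rw [dl_pos ((cl_ins hH hxG).mpr hG), Finset.sum_insert hxG, Finset.erase_insert hxG,
          d1 G hxG, map_zero, zero_add] at e1
        refine Eq.trans (Finset.sum_congr rfl fun v hv => ?_) e1
        have hvx : x ≠ v := fun h' => hxG (h' ▸ hv)
        rw [hcoe v (hG.1 hv), hun _ (fun h' => hxG (Finset.mem_of_mem_erase h')),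
          Finset.erase_insert_of_ne hvx]
      · rw [dl_neg hG, Pi.zero_apply]
    obtain ⟨w, hw1, hw2⟩ := h2 (LinearMap.ker (ψ x)) ψ' φ' hrel j' (by omega) u uco ud
    set wt : Finset V → M := fun F => if x ∈ F then (w (F.erase x) : M) else 0 with hwt
    have hwta : ∀ F, x ∈ F → wt F = w (F.erase x) := fun F hF => if_pos hF
    have hwtn : ∀ F, x ∉ F → wt F = 0 := fun F hF => if_neg hF
    have wtk : ∀ F, wt F ≠ 0 → Cl H (insert x T) F ∧ F.card + 1 = j' + 1 ∧
        ∀ v ∈ F, ψ v (wt F) = 0 := by
      intro F hF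
      have hxF : x ∈ F := by
        by_contra h'
        exact hF (hwtn F h')
      rw [hwta F hxF] at hF ⊢
      have hF' : w (F.erase x) ≠ 0 := by
        intro h'
        apply hF
        rw [h', Submodule.coe_zero]
      obtain ⟨e1, e2, e3⟩ := hw1 _ hF'
      refine ⟨?_, ?_, fun v hv => ?_⟩
      · have e4 := (cl_ins hH (Finset.notMem_erase x F)).mpr e1
        rwa [Finset.insert_erase hxF] at e4
      · have e5 := Finset.card_erase_add_one hxF
        omega
      · by_cases hvx : v = x
        · rw [hvx]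
          exact LinearMap.mem_ker.mp (w (F.erase x)).2
        · have hv' : v ∈ F.erase x := Finset.mem_erase.mpr ⟨hvx, hv⟩
          rw [← hcoe v (e1.1 hv'), e3 v hv', Submodule.coe_zero]
    have wtd : dl (Cl H (insert x T)) ψ wt = z' := by
      funext G
      by_cases hG : Cl H (insert x T) G
      · by_cases hxG : x ∈ G
        · have hG' : Cl H (nh H T x) (G.erase x) := by
            rw [← cl_ins hH (Finset.notMem_erase x G), Finset.insert_erase hxG]
            exact hG
          rw [dl_pos hG, ← Finset.add_sum_erase G _ hxG]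
          rw [hwtn _ (Finset.notMem_erase x G), map_zero, zero_add]
          have e1 := congrArg Subtype.val (congrFun hw2 (G.erase x))
          rw [hun _ (Finset.notMem_erase x G), Finset.insert_erase hxG] at e1
          rw [dl_pos hG', Submodule.coe_sum] at e1
          refine Eq.trans (Finset.sum_congr rfl fun v hv => ?_) e1
          have hvx : v ≠ x := (Finset.mem_erase.mp hv).1
          rw [hcoe v (hG'.1 hv), hwta _ (Finset.mem_erase.mpr ⟨hvx.symm, hxG⟩),
            Finset.erase_right_comm]
        · rw [dl_pos hG, d1 G hxG]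
          refine Finset.sum_eq_zero fun v _ => ?_
          rw [hwtn _ (fun h' => hxG (Finset.mem_of_mem_erase h')), map_zero]
      · rw [dl_neg hG, d0 G hG]
    refine ⟨y + wt, ?_, ?_⟩
    · intro F hF
      have k1 : ∀ v ∈ F, ψ v (wt F) = 0 := by
        intro v hv
        by_cases h' : wt F = 0
        · rw [h', map_zero]
        · exact (wtk F h').2.2 v hv
      have k2 : Cl H (insert x T) F ∧ F.card + 1 = j' + 1 := by
        by_cases h' : wt F = 0
        · have h'' : y F ≠ 0 := by
            intro h3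
            apply hF
            rw [Pi.add_apply, h3, h', add_zero]
          exact ⟨(hy1 F h'').1.mono (Finset.subset_insert x T), (hy1 F h'').2.1⟩
        · exact ⟨(wtk F h').1, (wtk F h').2.1⟩
      refine ⟨k2.1, k2.2, fun v hv => ?_⟩
      rw [Pi.add_apply, map_add, hyk F v hv, k1 v hv, add_zero]
    · rw [dl_add, wtd, hz']
      abel

end Pool.Agent.MP19e880.W1
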