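import Pool.Agent.Lib.MP_19e880_co_W1.AddV
import Pool.Agent.Lib.MP_19e880_co_W1.AddE
import Pool.Agent.Lib.MP_19e880_co_W1.Rules

/-!
The closure certificates.
-/

set_option autoImplicit false
set_option linter.unusedSectionVars false

namespace Pool.Agent.MP19e880.W1

variable {V : Type} [Fintype V] [LinearOrder V] {K : Type} [Field K]

/-- Closure certificates for the graph with edge set `E` on the vertex set `X`. -/
inductive Clos (S : Finset (Finset V)) : ℕ → Finset (Finset V) → Finset V → Prop
  | zero (E : Finset (Finset V)) (X : Finset V) : Clos S 0 E X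
  | one (E : Finset (Finset V)) (X : Finset V) (a b : V) : a ∈ X → b ∈ X → a ≠ b →
      {a, b} ∉ S → Clos S 1 E X
  | pair (m : ℕ) (E : Finset (Finset V)) (a b : V) : a ≠ b → {a, b} ∉ S → Clos S m E {a, b}
  | vert (m : ℕ) (E : Finset (Finset V)) (X : Finset V) (x : V) : x ∉ X → Clos S (m + 1) E X →
      Clos S m E (X.filter (fun w => w ≠ x ∧ {x, w} ∈ E)) → Clos S (m + 1) E (insert x X)
  | edge (m : ℕ) (E : Finset (Finset V)) (X : Finset V) (x y : V) : x ∈ X → y ∈ X → x ≠ y →
      {x, y} ∈ S → Clos S (m + 2) E X →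
      Clos S m E (X.filter (fun w => w ≠ x ∧ w ≠ y ∧ {x, w} ∈ E ∧ {y, w} ∈ E)) →
      Clos S (m + 2) (insert {x, y} E) X

theorem nh_eq (E : Finset (Finset V)) (X : Finset V) (x : V) :
    nh (ad E) X x = X.filter (fun w => w ≠ x ∧ {x, w} ∈ E) := by
  ext w
  rw [AddvAux.mem_nh, Finset.mem_filter]
  rfl

theorem cn_eq (E : Finset (Finset V)) (X : Finset V) (x y : V) :
    cn (ad E) X x y = X.filter (fun w => w ≠ x ∧ w ≠ y ∧ {x, w} ∈ E ∧ {y, w} ∈ E) := by
  ext w
  rw [mem_cn, Finset.mem_filter]
  rfl

theorem clos_vv {S : Finset (Finset V)} {g : V → V → K}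
    (hg : ∀ a b, a ≠ b → ({a, b} : Finset V) ∈ S → g a b = 0)
    (hg' : ∀ a b, a ≠ b → ({a, b} : Finset V) ∉ S → g a b ≠ 0) {m : ℕ} {E : Finset (Finset V)}
    {X : Finset V} (h : Clos S m E X) : E ⊆ S → VV g (ad E) X m := by
  have hsymm : ∀ (E : Finset (Finset V)) (a b : V), ad E a b → ad E b a := by
    intro E a b h
    unfold ad at h ⊢
    rwa [Finset.pair_comm]
  induction h with
  | zero E X =>
    intro _ M _ _ ψ φ _ j hj
    exact absurd hj (Nat.not_lt_zero j)
  | one E X a b ha hb hab hn =>
    intro _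
    exact vv_one a b ha hb hab (hg' a b hab hn)
  | pair m E a b hab hn =>
    intro hE
    refine vv_susp a b (by simp) (by simp) hab (hg' a b hab hn) (hsymm E) ?_ ?_ ?_ m
    · intro h
      exact hn (hE h)
    · intro w hw hwa hwb
      rw [Finset.mem_insert, Finset.mem_singleton] at hw
      rcases hw with hw | hw
      · exact absurd hw hwa
      · exact absurd hw hwb
    · intro x _ y _ hxy h
      exact hg x y hxy (hE h)
  | vert m E X x hx _ _ ih1 ih2 =>
    intro hE
    refine vv_addv (hsymm E) hx (fun a _ b _ hab h => hg a b hab (hE h)) m (ih1 hE) ?_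
    rw [nh_eq]
    exact ih2 hE
  | edge m E X x y hx hy hxy hS _ _ ih1 ih2 =>
    intro hE
    have hE' : E ⊆ S := (Finset.subset_insert _ _).trans hE
    have h1 := vv_adde (hsymm E) hx hy hxy (hg x y hxy hS)
      (hg y x hxy.symm (by rwa [Finset.pair_comm])) (fun a _ b _ hab h => hg a b hab (hE' h)) m
      (ih1 hE') (by
        rw [cn_eq]
        exact ih2 hE')
    refine VV.congr h1 (fun _ _ _ _ _ => rfl) ?_
    intro a _ b _ _
    unfold ae ad
    rw [Finset.mem_insert]
    constructor
    · rintro (h | ⟨rfl, rfl⟩ | ⟨rfl, rfl⟩)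
      · exact Or.inr h
      · exact Or.inl rfl
      · exact Or.inl (Finset.pair_comm _ _)
    · rintro (h | h)
      · right
        have ha : a ∈ ({x, y} : Finset V) := by
          rw [← h]
          simp
        have hb : b ∈ ({x, y} : Finset V) := by
          rw [← h]
          simp
        have hne : a ≠ b := by
          intro hab
          have h2 := congrArg Finset.card h
          rw [hab, Finset.pair_eq_singleton, Finset.card_singleton, Finset.card_pair hxy] at h2
          omega
        rw [Finset.mem_insert, Finset.mem_singleton] at ha hb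
        rcases ha with ha | ha <;> rcases hb with hb | hb
        · exact absurd (ha.trans hb.symm) hne
        · exact Or.inl ⟨ha, hb⟩
        · exact Or.inr ⟨ha, hb⟩
        · exact absurd (ha.trans hb.symm) hne
      · exact Or.inl h

end Pool.Agent.MP19e880.W1
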