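import Pool.Agent.Lib.MP_19e880_co_W1.Basic

/-!
Chains of a homology sphere with values in a vector space, and extension of the field.
-/

set_option autoImplicit false
set_option linter.unusedSectionVars false

namespace Pool.Agent.MP19e880.W1

variable {V : Type} [Fintype V] [LinearOrder V] {K : Type} [Field K]
  {M : Type} [AddCommGroup M] [Module K M]

namespace CoefAux

theorem bm_mem {N : Submodule K M} {z : Finset V → M} (hN : ∀ F, z F ∈ N) (A : Finset V) :
    bm K z A ∈ N :=
  Submodule.sum_mem _ fun _ _ => N.smul_mem _ (hN _)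

/-- coordinates of a chain -/
theorem bd_coord {N : Submodule K M} {z : Finset V → M} (hN : ∀ F, z F ∈ N)
    (l : N →ₗ[K] K) (A : Finset V) :
    bd (fun F => l ⟨z F, hN F⟩) A = l ⟨bm K z A, bm_mem hN A⟩ := by
  have h1 : (⟨bm K z A, bm_mem hN A⟩ : N) =
      ∑ v ∈ Aᶜ, eps K v A • (⟨z (insert v A), hN _⟩ : N) := by
    apply Subtype.ext
    rw [Submodule.coe_sum]
    rfl
  rw [h1, map_sum]
  unfold bd
  refine Finset.sum_congr rfl fun v _ => ?_
  rw [map_smul, smul_eq_mul]

theorem bd_dual (l : M →ₗ[K] K) (z : Finset V → M) (A : Finset V) :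
    bd (fun F => l (z F)) A = l (bm K z A) := by
  unfold bd bm
  rw [map_sum]
  refine Finset.sum_congr rfl fun v _ => ?_
  rw [map_smul, smul_eq_mul]

theorem ch_dual {P : Finset V → Prop} {j : ℕ} {z : Finset V → M} (hz : Cm P j z)
    (l : M →ₗ[K] K) : Ch P j (fun F => l (z F)) := by
  intro F hF
  refine hz F ?_
  intro h0
  apply hF
  show l (z F) = 0
  rw [h0, map_zero]

theorem smul_dual (l : M →ₗ[K] K) (a : K) (x : M) (o : K) (h : l x = a * o) (y : M) (b : K)
    (h' : l y = a * b) (hb : b ≠ 0) : l (x - o • (b⁻¹ • y)) = 0 := by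
  rw [map_sub, map_smul, map_smul, h, h', smul_eq_mul, smul_eq_mul]
  field_simp
  ring

end CoefAux

/-- chains with values in a subspace `N` of a vector space -/
theorem ex_vec {S : Finset (Finset V)} {d : ℕ} (h : HS K S d) (σ : Finset V) (hσ : σ ∈ S) (j : ℕ)
    (hj : j + σ.card ≠ d) (N : Submodule K M) (z : Finset V → M) (hz : Cm (LX S σ ∅) j z)
    (hN : ∀ F, z F ∈ N) (hb : bm K z = 0) :
    ∃ c : Finset V → M, Cm (LX S σ ∅) (j + 1) c ∧ (∀ F, c F ∈ N) ∧ bm K c = z := by
  classical
  let B := Module.Basis.ofVectorSpace K N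
  have hex : ∀ i, ∃ c : Finset V → K, Ch (LX S σ ∅) (j + 1) c ∧
      bd c = fun F => B.repr ⟨z F, hN F⟩ i := by
    intro i
    refine h.ex σ hσ j hj _ ?_ ?_
    · intro F hF
      refine hz F ?_
      intro h0
      apply hF
      have : (⟨z F, hN F⟩ : N) = 0 := Subtype.ext h0
      show B.repr ⟨z F, hN F⟩ i = 0
      rw [this, map_zero]
      rfl
    · funext A
      have := CoefAux.bd_coord hN (B.coord i) A
      have h2 : (⟨bm K z A, CoefAux.bm_mem hN A⟩ : N) = 0 := Subtype.ext (congrFun hb A)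
      rw [h2, map_zero] at this
      exact this
  choose c hc hbc using hex
  let T := (Finset.univ : Finset (Finset V)).biUnion (fun F => (B.repr ⟨z F, hN F⟩).support)
  refine ⟨fun F => ∑ i ∈ T, c i F • ((B i : N) : M), ?_, ?_, ?_⟩
  · intro F hF
    obtain ⟨i, _, hi⟩ := Finset.exists_ne_zero_of_sum_ne_zero hF
    refine hc i F ?_
    intro h0
    apply hi
    rw [h0, zero_smul]
  · intro F
    exact Submodule.sum_mem _ fun i _ => N.smul_mem _ (B i).2
  · funext A
    have h1 : bm K (fun F => ∑ i ∈ T, c i F • ((B i : N) : M)) A =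
        ∑ i ∈ T, (bd (c i) A) • ((B i : N) : M) := by
      unfold bm bd
      simp only [Finset.smul_sum, Finset.sum_smul]
      rw [Finset.sum_comm]
      refine Finset.sum_congr rfl fun i _ => Finset.sum_congr rfl fun v _ => ?_
      rw [smul_smul]
    rw [h1]
    have h2 : ∑ i ∈ T, (bd (c i) A) • ((B i : N) : M) =
        ((∑ i ∈ T, (B.repr ⟨z A, hN A⟩ i) • B i : N) : M) := by
      rw [Submodule.coe_sum]
      refine Finset.sum_congr rfl fun i _ => ?_
      rw [hbc i]
      rfl
    rw [h2]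
    have h3 : ∑ i ∈ T, (B.repr ⟨z A, hN A⟩ i) • B i = (⟨z A, hN A⟩ : N) := by
      have h4 := B.linearCombination_repr ⟨z A, hN A⟩
      rw [Finsupp.linearCombination_apply, Finsupp.sum] at h4
      refine Eq.trans ?_ h4
      refine (Finset.sum_subset (f := fun i => (B.repr ⟨z A, hN A⟩ i) • B i) ?_ ?_).symm
      · intro i hi
        exact Finset.mem_biUnion.mpr ⟨A, Finset.mem_univ _, hi⟩
      · intro i _ hi
        show (B.repr ⟨z A, hN A⟩ i) • B i = 0
        rw [Finsupp.notMem_support_iff.mp hi, zero_smul]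
    rw [h3]

/-- top cycles with values in a vector space -/
theorem top_vec {S : Finset (Finset V)} {d : ℕ} (h : HS K S d) (σ : Finset V) (hσ : σ ∈ S) (j : ℕ)
    (hj : j + σ.card = d) (o : Finset V → K) (ho : Ch (LX S σ ∅) j o) (hbo : bd o = 0)
    (ho0 : o ≠ 0) (z : Finset V → M) (hz : Cm (LX S σ ∅) j z) (hb : bm K z = 0) :
    ∃ m : M, ∀ F, z F = o F • m := by
  obtain ⟨z0, _, _, _, hz0⟩ := h.top σ hσ j hj
  obtain ⟨b, hb0⟩ := hz0 o ho hbo
  have hbne : b ≠ 0 := by
    intro h0
    rw [h0, zero_smul] at hb0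
    exact ho0 hb0
  obtain ⟨F0, hF0⟩ := Function.ne_iff.mp ho0
  have hF0' : o F0 ≠ 0 := hF0
  refine ⟨(o F0)⁻¹ • z F0, fun F => ?_⟩
  rw [← sub_eq_zero]
  rw [← Module.forall_dual_apply_eq_zero_iff K]
  intro l
  obtain ⟨a, ha⟩ := hz0 (fun G => l (z G)) (CoefAux.ch_dual hz l) (by
    funext A
    rw [CoefAux.bd_dual, congrFun hb A]
    exact map_zero l)
  have key : ∀ G, l (z G) = (a * b⁻¹) * o G := by
    intro G
    have h1 := congrFun ha G
    have h2 := congrFun hb0 G
    simp only [Pi.smul_apply, smul_eq_mul] at h1 h2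
    rw [h1, h2]
    field_simp
  exact CoefAux.smul_dual l _ _ _ (key F) _ _ (key F0) hF0'

namespace CoefAux

theorem eps_alg (k : Type) [Field k] [Algebra k K] (v : V) (A : Finset V) :
    eps K v A = algebraMap k K (eps k v A) := by
  unfold eps
  rw [map_pow, map_neg, map_one]

theorem bm_alg (k : Type) [Field k] [Algebra k K] (z : Finset V → K) : bm k z = bd z := by
  funext A
  unfold bm bd
  refine Finset.sum_congr rfl fun v _ => ?_
  rw [Algebra.smul_def, eps_alg (K := K) k v A]

end CoefAux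

/-- extension of the field -/
theorem hs_ext (k : Type) [Field k] [Algebra k K] {S : Finset (Finset V)} {d : ℕ}
    (h : HS k S d) : HS K S d := by
  refine ⟨h.down, h.flag, ?_, ?_⟩
  · intro σ hσ j hj z hz hb
    obtain ⟨c, hc, _, hbc⟩ := ex_vec (K := k) (M := K) h σ hσ j hj ⊤ z hz
      (fun _ => Submodule.mem_top) (by rw [CoefAux.bm_alg]; exact hb)
    exact ⟨c, hc, by rw [← CoefAux.bm_alg k]; exact hbc⟩
  · intro σ hσ j hj
    obtain ⟨o, ho, hbo, ho0, _⟩ := h.top σ hσ j hj
    refine ⟨fun F => algebraMap k K (o F), ?_, ?_, ?_, ?_⟩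
    · intro F hF
      refine ho F ?_
      intro h0
      apply hF
      show algebraMap k K (o F) = 0
      rw [h0, map_zero]
    · funext A
      have h1 := congrFun hbo A
      unfold bd at h1 ⊢
      have h2 : ∑ v ∈ Aᶜ, eps K v A * algebraMap k K (o (insert v A)) =
          algebraMap k K (∑ v ∈ Aᶜ, eps k v A * o (insert v A)) := by
        rw [map_sum]
        refine Finset.sum_congr rfl fun v _ => ?_
        rw [map_mul, CoefAux.eps_alg k]
      rw [h2, h1]
      exact map_zero _
    · intro h0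
      apply ho0
      funext F
      have h1 : algebraMap k K (o F) = 0 := congrFun h0 F
      exact (map_eq_zero _).mp h1
    · intro z' hz' hb'
      obtain ⟨m, hm⟩ := top_vec (K := k) (M := K) h σ hσ j hj o ho hbo ho0 z' hz'
        (by rw [CoefAux.bm_alg]; exact hb')
      refine ⟨m, ?_⟩
      funext F
      rw [hm F, Algebra.smul_def, Pi.smul_apply, smul_eq_mul, mul_comm]

end Pool.Agent.MP19e880.W1
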