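import Pool.Agent.Lib.MP_19e880_co_W1.Basic

/-!
Clifford complexes of flag complexes: the complex of a simplex is exact in positive degrees.
-/

set_option autoImplicit false
set_option linter.unusedSectionVars false

namespace Pool.Agent.MP19e880.W1

variable {V : Type} [Fintype V] [LinearOrder V] {K : Type} [Field K]
  {M : Type} [AddCommGroup M] [Module K M]

variable {g : V → V → K} {X : Finset V} {ψ φ : V → M →ₗ[K] M}

namespace KoszexAux

/-- the contraction with `φ a` -/
def hh (φ : V → M →ₗ[K] M) (a : V) (x : Finset V → M) : Finset V → M :=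
  fun T => if a ∈ T then 0 else φ a (x (insert a T))

/-- the projection -/
def pj (ψ φ : V → M →ₗ[K] M) (a : V) (y : Finset V → M) : Finset V → M :=
  fun T => if a ∈ T then 0 else ψ a (φ a (y T))

theorem hh_mem {φ : V → M →ₗ[K] M} {a : V} {x : Finset V → M} {T : Finset V} (h : a ∈ T) :
    hh φ a x T = 0 := if_pos h

theorem hh_notMem {φ : V → M →ₗ[K] M} {a : V} {x : Finset V → M} {T : Finset V} (h : a ∉ T) :
    hh φ a x T = φ a (x (insert a T)) := if_neg h

theorem pj_mem {ψ φ : V → M →ₗ[K] M} {a : V} {y : Finset V → M} {T : Finset V} (h : a ∈ T) :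
    pj ψ φ a y T = 0 := if_pos h

theorem pj_notMem {ψ φ : V → M →ₗ[K] M} {a : V} {y : Finset V → M} {T : Finset V} (h : a ∉ T) :
    pj ψ φ a y T = ψ a (φ a (y T)) := if_neg h

theorem psi_phi (h : Rel g X ψ φ) {a w : V} (ha : a ∈ X) (hw : w ∈ X) (haw : a ≠ w) (x : M) :
    ψ w (φ a x) = -φ a (ψ w x) := by
  have h1 := h.zer a ha w hw haw x
  rw [add_comm] at h1
  exact eq_neg_of_add_eq_zero_left h1

theorem psi_psi (h : Rel g X ψ φ) {a w : V} (ha : a ∈ X) (hw : w ∈ X) (haw : a ≠ w)
    (hg : g w a = 0) (x : M) : ψ w (ψ a x) = -ψ a (ψ w x) := by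
  have h1 := h.ac w hw a ha haw.symm x
  rw [hg, zero_smul] at h1
  exact eq_neg_of_add_eq_zero_left h1

theorem psi_pj (h : Rel g X ψ φ) {a w : V} (ha : a ∈ X) (hw : w ∈ X) (haw : a ≠ w)
    (hg : g w a = 0) (x : M) : ψ w (ψ a (φ a x)) = ψ a (φ a (ψ w x)) := by
  rw [psi_psi h ha hw haw hg, psi_phi h ha hw haw, map_neg, neg_neg]

theorem insert_erase' {a w : V} {T : Finset V} (haw : a ≠ w) :
    (insert a T).erase w = insert a (T.erase w) := by
  rw [Finset.erase_insert_of_ne haw]

end KoszexAux

open KoszexAux in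
/-- (k3) the complex of a simplex is exact in positive degrees -/
theorem kosz_ex (h : Rel g X ψ φ) (F : Finset V) (hF : F ⊆ X)
    (hg : ∀ a ∈ F, ∀ b ∈ F, a ≠ b → g a b = 0) (q : ℕ) (hq : 1 ≤ q) :
    ExAt (fun T => T ⊆ F) ψ q := by
  induction F using Finset.induction_on generalizing q with
  | empty =>
    intro x hx _
    refine ⟨0, fun F hF' => absurd rfl hF', ?_⟩
    rw [dl_zero]
    funext T
    by_contra hT
    obtain ⟨h1, h2, -⟩ := hx T (fun h0 => hT (by rw [h0]; rfl))
    rw [Finset.subset_empty] at h1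
    rw [h1, Finset.card_empty] at h2
    omega
  | insert a F' haF' ih =>
    intro x hx hdx
    have haX : a ∈ X := hF (Finset.mem_insert_self a F')
    have hF'X : F' ⊆ X := (Finset.subset_insert a F').trans hF
    have ih' := ih hF'X (fun b hb c hc => hg b (Finset.mem_insert_of_mem hb) c
      (Finset.mem_insert_of_mem hc)) q hq
    set P : Finset V → Prop := fun T => T ⊆ insert a F' with hP
    have hga : ∀ w ∈ insert a F', a ≠ w → g w a = 0 := fun w hw haw =>
      hg w hw a (Finset.mem_insert_self a F') haw.symm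
    have hOk : Ok P ψ := by
      refine ⟨fun F hF G hG => hG.trans hF, fun F hF' v hv => h.sq v (hF (hF' hv)), ?_⟩
      intro F hF' u hu v hv huv y
      rw [h.ac u (hF (hF' hu)) v (hF (hF' hv)) huv, hg u (hF' hu) v (hF' hv) huv, zero_smul]
    -- the contraction
    have hcard : ∀ T, hh φ a x T ≠ 0 → P T ∧ T.card + 1 = q ∧ ∀ v ∈ T, ψ v (hh φ a x T) = 0 := by
      intro T hT
      have haT : a ∉ T := fun h' => hT (hh_mem h')
      rw [hh_notMem haT] at hT ⊢
      have hx0 : x (insert a T) ≠ 0 := by
        intro h'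
        rw [h', map_zero] at hT
        exact hT rfl
      obtain ⟨h1, h2, h3⟩ := hx _ hx0
      refine ⟨(Finset.subset_insert a T).trans h1, ?_, fun v hv => ?_⟩
      · rw [← h2, Finset.card_insert_of_notMem haT]
      · have hvX : v ∈ X := hF (h1 (Finset.mem_insert_of_mem hv))
        rw [psi_phi h haX hvX (fun h' => haT (h' ▸ hv)), h3 v (Finset.mem_insert_of_mem hv),
          map_zero, neg_zero]
    have hhCo : Co P ψ (q - 1) (hh φ a x) := by
      intro T hT
      obtain ⟨h1, h2, h3⟩ := hcard T hT
      exact ⟨h1, by omega, h3⟩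
    have hD1 : ∀ T, P T → a ∉ T → dl P ψ (hh φ a x) T = φ a (ψ a (x T)) := by
      intro T hT haT
      have hT' : P (insert a T) := by
        intro v hv
        rcases Finset.mem_insert.1 hv with rfl | hv
        · exact Finset.mem_insert_self _ _
        · exact hT hv
      have e1 : dl P ψ x (insert a T) = 0 := by rw [hdx]; rfl
      rw [dl_pos hT', Finset.sum_insert haT, Finset.erase_insert haT] at e1
      rw [dl_pos hT]
      have e2 : ∀ w ∈ T, ψ w (hh φ a x (T.erase w)) = -φ a (ψ w (x ((insert a T).erase w))) := by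
        intro w hw
        have haw : a ≠ w := fun h' => haT (h' ▸ hw)
        have h1 : a ∉ T.erase w := fun h' => haT (Finset.mem_of_mem_erase h')
        rw [hh_notMem h1, psi_phi h haX (hF (hT hw)) haw, insert_erase' haw]
      rw [Finset.sum_congr rfl e2, Finset.sum_neg_distrib, ← map_sum,
        eq_neg_of_add_eq_zero_right e1, map_neg, neg_neg]
    have hD2 : ∀ T, P T → a ∈ T → dl P ψ (hh φ a x) T = x T := by
      intro T hT haT
      rw [dl_pos hT, Finset.sum_eq_single a]
      · rw [hh_notMem (Finset.notMem_erase a T), Finset.insert_erase haT]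
        have h1 := h.one a haX (x T)
        rw [hx.kill haT, map_zero, zero_add] at h1
        exact h1
      · intro v hv hva
        rw [hh_mem (Finset.mem_erase.2 ⟨hva.symm, haT⟩), map_zero]
      · intro h'
        exact absurd haT h'
    set x' : Finset V → M := x - dl P ψ (hh φ a x) with hx'
    have hx'Co : Co P ψ q x' := by
      have h1 := dl_co hOk hhCo
      have h2 : q - 1 + 1 = q := by omega
      rw [h2] at h1
      exact hx.sub h1
    have hx'd : dl P ψ x' = 0 := by
      rw [hx', dl_sub, hdx, dl_dl hOk, sub_zero]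
    have hx'1 : ∀ T, P T → a ∉ T → x' T = ψ a (φ a (x T)) := by
      intro T hT haT
      rw [hx', Pi.sub_apply, hD1 T hT haT]
      have h1 := h.one a haX (x T)
      exact sub_eq_of_eq_add' h1.symm
    have hx'2 : ∀ T, a ∈ T → x' T = 0 := by
      intro T haT
      by_cases hT : P T
      · rw [hx', Pi.sub_apply, hD2 T hT haT, sub_self]
      · rw [hx', Pi.sub_apply, dl_neg hT, hx.off hT, sub_zero]
    have hPF : ∀ T, T ⊆ F' → P T := fun T hT => hT.trans (Finset.subset_insert a F')
    have hPF2 : ∀ T, P T → a ∉ T → T ⊆ F' := by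
      intro T hT haT v hv
      rcases Finset.mem_insert.1 (hT hv) with rfl | h'
      · exact absurd hv haT
      · exact h'
    obtain ⟨y0, hy0, hy0d⟩ := ih' x' (by
      intro T hT
      obtain ⟨h1, h2, h3⟩ := hx'Co T hT
      exact ⟨hPF2 T h1 (fun h' => hT (hx'2 T h')), h2, h3⟩) (by
      funext T
      by_cases hT : T ⊆ F'
      · have e1 : dl P ψ x' T = 0 := by rw [hx'd]; rfl
        rw [dl_pos (hPF T hT)] at e1
        rw [dl_pos (P := fun T => T ⊆ F') hT, e1]
        rfl
      · rw [dl_neg (P := fun T => T ⊆ F') hT]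
        rfl)
    have hcard2 : ∀ T, pj ψ φ a y0 T ≠ 0 →
        P T ∧ T.card + 1 = q ∧ ∀ v ∈ T, ψ v (pj ψ φ a y0 T) = 0 := by
      intro T hT
      have haT : a ∉ T := fun h' => hT (pj_mem h')
      rw [pj_notMem haT] at hT ⊢
      have hx0 : y0 T ≠ 0 := by
        intro h'
        rw [h', map_zero, map_zero] at hT
        exact hT rfl
      obtain ⟨h1, h2, h3⟩ := hy0 _ hx0
      refine ⟨hPF T h1, h2, fun v hv => ?_⟩
      have haw : a ≠ v := fun h' => haT (h' ▸ hv)
      rw [psi_pj h haX (hF'X (h1 hv)) haw (hga v (Finset.mem_insert_of_mem (h1 hv)) haw), h3 v hv,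
        map_zero, map_zero]
    have hpd : dl P ψ (pj ψ φ a y0) = x' := by
      funext T
      by_cases hT : P T
      · rw [dl_pos hT]
        by_cases haT : a ∈ T
        · rw [hx'2 T haT, Finset.sum_eq_single a]
          · rw [pj_notMem (Finset.notMem_erase a T), h.sq a haX]
          · intro v hv hva
            rw [pj_mem (Finset.mem_erase.2 ⟨hva.symm, haT⟩), map_zero]
          · intro h'
            exact absurd haT h'
        · have hTF := hPF2 T hT haT
          have e1 : dl (fun T => T ⊆ F') ψ y0 T = x' T := by rw [hy0d]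
          rw [dl_pos (P := fun T => T ⊆ F') hTF] at e1
          have e2 : ∀ w ∈ T, ψ w (pj ψ φ a y0 (T.erase w)) =
              ψ a (φ a (ψ w (y0 (T.erase w)))) := by
            intro w hw
            have haw : a ≠ w := fun h' => haT (h' ▸ hw)
            have h1 : a ∉ T.erase w := fun h' => haT (Finset.mem_of_mem_erase h')
            rw [pj_notMem h1, psi_pj h haX (hF'X (hTF hw)) haw
              (hga w (Finset.mem_insert_of_mem (hTF hw)) haw)]
          rw [Finset.sum_congr rfl e2, ← map_sum, ← map_sum, e1, hx'1 T hT haT]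
          have h2 := h.one a haX (φ a (x T))
          rw [h.psq a haX, map_zero, add_zero] at h2
          rw [h2]
      · rw [dl_neg hT, hx'Co.off hT]
    refine ⟨hh φ a x + pj ψ φ a y0, ?_, ?_⟩
    · intro T hT
      have hk : ∀ v ∈ T, ψ v ((hh φ a x + pj ψ φ a y0) T) = 0 := by
        intro v hv
        rw [Pi.add_apply, map_add]
        have h1 : ψ v (hh φ a x T) = 0 := by
          by_cases h' : hh φ a x T = 0
          · rw [h', map_zero]
          · exact (hcard T h').2.2 v hv
        have h2 : ψ v (pj ψ φ a y0 T) = 0 := by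
          by_cases h' : pj ψ φ a y0 T = 0
          · rw [h', map_zero]
          · exact (hcard2 T h').2.2 v hv
        rw [h1, h2, add_zero]
      by_cases h' : hh φ a x T = 0
      · have h2 : pj ψ φ a y0 T ≠ 0 := by
          intro h''
          apply hT
          rw [Pi.add_apply, h', h'', add_zero]
        exact ⟨(hcard2 T h2).1, (hcard2 T h2).2.1, hk⟩
      · exact ⟨(hcard T h').1, (hcard T h').2.1, hk⟩
    · rw [dl_add, hpd, hx', add_sub_cancel]

end Pool.Agent.MP19e880.W1
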