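import Mathlib

/-!
Two staircase arguments in double complexes.
-/

set_option autoImplicit false

namespace Pool.Agent.MP19e880.W1

section
variable {W : Type} [AddCommGroup W] (D : ℕ → ℕ → W → Prop) (H T : W → W)

/-- Staircase for locality. `H` and `T` are commuting differentials, `D p q` is the part of
bidegree `(p, q)`, `H` raises `p` and `T` raises `q`. -/
theorem zig_loc (hHs : ∀ a b, H (a - b) = H a - H b) (hTs : ∀ a b, T (a - b) = T a - T b)
    (hHT : ∀ a, H (T a) = T (H a)) (hHH : ∀ a, H (H a) = 0) (hTT : ∀ a, T (T a) = 0)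
    (hsub : ∀ p q a b, D p q a → D p q b → D p q (a - b))
    (hDH : ∀ p q a, D p q a → D (p + 1) q (H a))
    (hDT : ∀ p q a, D p q a → D p (q + 1) (T a)) (j : ℕ)
    (exT0 : ∀ a, D (j + 1) 0 a → T a = 0 → a = 0)
    (exT : ∀ p q, p + (q + 1) = j → ∀ a, D (p + 1) (q + 1) a → T a = 0 →
      ∃ b, D (p + 1) q b ∧ T b = a)
    (exH0 : ∀ a, D 0 j a → H a = 0 → a = 0)
    (exH : ∀ p q, p + 1 + q = j → ∀ a, D (p + 1) q a → H a = 0 → ∃ b, D p q b ∧ H b = a)
    (x : W) (hx : D 0 j x) (hTx : T x = 0) :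
    x = 0 ∨ ∃ i w, j = i + 1 ∧ D 0 i w ∧ T w = x := by
  have hT0 : T 0 = 0 := by
    have h := hTs 0 0
    rwa [sub_zero, sub_self] at h
  have hH0 : H 0 = 0 := by
    have h := hHs 0 0
    rwa [sub_zero, sub_self] at h
  have key : ∀ q p : ℕ, p + q = j → ∀ a, D p q a → T (H a) = 0 →
      ∃ w, ((q = 0 ∧ w = 0) ∨ ∃ i, q = i + 1 ∧ D p i w) ∧ H (a - T w) = 0 := by
    intro q
    induction q with
    | zero =>
      intro p hp a ha h
      rw [add_zero] at hp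
      subst hp
      refine ⟨0, Or.inl ⟨rfl, rfl⟩, ?_⟩
      rw [hT0, sub_zero]
      exact exT0 _ (hDH _ _ _ ha) h
    | succ q ih =>
      intro p hp a ha h
      obtain ⟨a', ha', hTa'⟩ := exT p q hp (H a) (hDH _ _ _ ha) h
      have h1 : T (H a') = 0 := by
        rw [← hHT, hTa', hHH]
      obtain ⟨w', hw', hw2⟩ := ih (p + 1) (by omega) a' ha' h1
      have hD : D (p + 1) q (a' - T w') := by
        rcases hw' with ⟨_, h3⟩ | ⟨i, h3, h4⟩
        · rw [h3, hT0, sub_zero]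
          exact ha'
        · subst h3
          exact hsub _ _ _ _ ha' (hDT _ _ _ h4)
      obtain ⟨b, hb, hHb⟩ := exH p q (by omega) _ hD hw2
      refine ⟨b, Or.inr ⟨q, rfl, hb⟩, ?_⟩
      rw [hHs, hHT, hHb, hTs, hTT, sub_zero, hTa', sub_self]
  have h1 : T (H x) = 0 := by
    rw [← hHT, hTx, hH0]
  obtain ⟨w, hw, hHw⟩ := key j 0 (by omega) x hx h1
  rcases hw with ⟨h2, h3⟩ | ⟨i, h3, h4⟩
  · left
    subst h2
    rw [h3, hT0, sub_zero] at hHw
    exact exH0 x hx hHw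
  · right
    refine ⟨i, w, h3, h4, ?_⟩
    have h5 : D 0 j (x - T w) := by
      rw [h3] at hx ⊢
      exact hsub _ _ _ _ hx (hDT _ _ _ h4)
    have h6 := exH0 _ h5 hHw
    exact (sub_eq_zero.mp h6).symm

/-- Staircase for duality. `D r q` is the part with `r` and `q` vertices, `H` lowers `r` and `T`
raises `q`. -/
theorem zig_dual (hHs : ∀ a b, H (a - b) = H a - H b) (hTs : ∀ a b, T (a - b) = T a - T b)
    (hHT : ∀ a, H (T a) = T (H a)) (hHH : ∀ a, H (H a) = 0) (hTT : ∀ a, T (T a) = 0)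
    (hsub : ∀ p q a b, D p q a → D p q b → D p q (a - b))
    (hDH : ∀ p q a, D (p + 1) q a → D p q (H a))
    (hDT : ∀ p q a, D p q a → D p (q + 1) (T a)) (d e : ℕ)
    (hbase : ∀ a, D (e + 1) 0 a → T (H a) = 0 → ∃ c, D (e + 1) 0 c ∧ T c = 0 ∧ H c = H a)
    (exT : ∀ r q, ∀ a, D r (q + 1) a → T a = 0 → ∃ b, D r q b ∧ T b = a)
    (exH : ∀ r q, r < d → ∀ a, D r q a → H a = 0 → ∃ b, D (r + 1) q b ∧ H b = a) :
    ∀ q, e + 1 + q ≤ d → ∀ a, D (e + 1 + q) q a → T (H a) = 0 →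
      ∃ c, D (e + 1 + q) q c ∧ T c = 0 ∧ H (a - c) = 0 := by
  intro q
  induction q with
  | zero =>
    intro _ a ha h
    obtain ⟨c, hc, hTc, hHc⟩ := hbase a ha h
    refine ⟨c, hc, hTc, ?_⟩
    rw [hHs, hHc, sub_self]
  | succ q ih =>
    intro hd a ha h
    obtain ⟨a', ha', hTa'⟩ := exT (e + 1 + q) q (H a) (hDH _ _ _ ha) h
    have h1 : T (H a') = 0 := by
      rw [← hHT, hTa', hHH]
    obtain ⟨c', hc', hTc', hHc'⟩ := ih (by omega) a' ha' h1
    obtain ⟨b, hb, hHb⟩ := exH (e + 1 + q) q (by omega) _ (hsub _ _ _ _ ha' hc') hHc'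
    refine ⟨T b, hDT _ _ _ hb, hTT b, ?_⟩
    rw [hHs, hHT, hHb, hTs, hTc', sub_zero, hTa', sub_self]

end

end Pool.Agent.MP19e880.W1
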