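import Pool.Agent.Lib.MP_19e880_co_W1.Basic
import Pool.Agent.Lib.MP_19e880_co_W1.Zig
import Pool.Agent.Lib.MP_19e880_co_W1.Coef
import Pool.Agent.Lib.MP_19e880_co_W1.KoszEx

/-!
Clifford complexes of flag complexes: duality. Exactness of the homology complex in the degrees
below `m` implies exactness of the cohomology complex in the degrees above `d - m`.
-/

set_option autoImplicit false
set_option linter.unusedSectionVars false

namespace Pool.Agent.MP19e880.W1

variable {V : Type} [Fintype V] [LinearOrder V] {K : Type} [Field K]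
  {M : Type} [AddCommGroup M] [Module K M]

namespace DualAux

theorem bm_sub (c e : Finset V → M) : bm K (c - e) = bm K c - bm K e := by
  funext A
  simp only [bm, Pi.sub_apply, smul_sub, Finset.sum_sub_distrib]

theorem bm_bm (c : Finset V → M) : bm K (bm K c) = 0 := by
  funext A
  simp only [bm, Pi.zero_apply, Finset.smul_sum]
  rw [Finset.sum_sigma']
  refine Finset.sum_involution (fun p _ => ⟨p.2, p.1⟩) ?_ ?_ ?_ ?_
  · rintro ⟨v, w⟩ h
    simp only [Finset.mem_sigma, Finset.mem_compl, Finset.mem_insert, not_or] at h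
    obtain ⟨hv, hwv, hw⟩ := h
    dsimp only
    have h1 := eps_swap' (k := K) w v A hw hv hwv
    have h2 : insert v (insert w A) = insert w (insert v A) := Finset.insert_comm _ _ _
    rw [h2, smul_smul, smul_smul, h1, neg_smul, neg_add_cancel]
  · rintro ⟨v, w⟩ h _ h'
    simp only [Finset.mem_sigma, Finset.mem_compl, Finset.mem_insert, not_or] at h
    have : w = v := by
      have := congrArg Sigma.fst h'
      exact this
    exact h.2.1 this
  · rintro ⟨v, w⟩ h
    simp only [Finset.mem_sigma, Finset.mem_compl, Finset.mem_insert, not_or] at h ⊢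
    exact ⟨h.2.2, fun hh => h.2.1 hh.symm, h.1⟩
  · rintro ⟨v, w⟩ _
    rfl

theorem eps_union (v : V) (G T : Finset V) (h : Disjoint G T) :
    eps K v (G ∪ T) = eps K v G * eps K v T := by
  unfold eps
  rw [Finset.filter_union, Finset.card_union_of_disjoint (Finset.disjoint_filter_filter h),
    pow_add]

/-- The sign `∏ w ∈ G, eps w T`. -/
noncomputable def ts (K : Type) [Field K] (T G : Finset V) : K := ∏ w ∈ G, eps K w T

theorem ts_mul (T G : Finset V) : ts K T G * ts K T G = 1 := by
  unfold ts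
  rw [← Finset.prod_mul_distrib]
  exact Finset.prod_eq_one fun w _ => eps_mul_self w T

theorem ts_insert (T G : Finset V) (v : V) (hv : v ∉ G) :
    ts K T (insert v G) = eps K v T * ts K T G := by
  unfold ts
  rw [Finset.prod_insert hv]

/-- The link part of `z` at `T`, with a sign. -/
noncomputable def sh (K : Type) [Field K] {M : Type} [AddCommGroup M] [Module K M] (T : Finset V)
    (z : Finset V → M) : Finset V → M :=
  fun G => if Disjoint G T then ts K T G • z (G ∪ T) else 0

/-- The inverse of `sh`. -/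
noncomputable def un (K : Type) [Field K] {M : Type} [AddCommGroup M] [Module K M] (T : Finset V)
    (z : Finset V → M) : Finset V → M :=
  fun F => if T ⊆ F then ts K T (F \ T) • z (F \ T) else 0

theorem sh_pos {T : Finset V} {z : Finset V → M} {G : Finset V} (h : Disjoint G T) :
    sh K T z G = ts K T G • z (G ∪ T) := by
  unfold sh
  rw [if_pos h]

theorem sh_neg {T : Finset V} {z : Finset V → M} {G : Finset V} (h : ¬ Disjoint G T) :
    sh K T z G = 0 := by
  unfold sh
  rw [if_neg h]

theorem un_pos {T : Finset V} {z : Finset V → M} {G : Finset V} (h : T ⊆ G) :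
    un K T z G = ts K T (G \ T) • z (G \ T) := by
  unfold un
  rw [if_pos h]

theorem un_neg {T : Finset V} {z : Finset V → M} {G : Finset V} (h : ¬ T ⊆ G) :
    un K T z G = 0 := by
  unfold un
  rw [if_neg h]

theorem bm_sh (T : Finset V) (z : Finset V → M) : bm K (sh K T z) = sh K T (bm K z) := by
  funext A
  by_cases hA : Disjoint A T
  · rw [sh_pos hA]
    simp only [bm, Finset.smul_sum]
    have hsub : (A ∪ T)ᶜ ⊆ Aᶜ := Finset.compl_subset_compl.mpr Finset.subset_union_left
    rw [← Finset.sum_subset hsub]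
    · refine Finset.sum_congr rfl fun v hv => ?_
      rw [Finset.mem_compl, Finset.mem_union, not_or] at hv
      have h1 : Disjoint (insert v A) T := by
        rw [Finset.disjoint_insert_left]
        exact ⟨hv.2, hA⟩
      rw [sh_pos h1, ts_insert T A v hv.1, eps_union v A T hA, Finset.insert_union, smul_smul,
        smul_smul]
      congr 1
      ring
    · intro v hv hv2
      rw [Finset.mem_compl] at hv
      rw [Finset.mem_compl, not_not, Finset.mem_union] at hv2
      have hvT : v ∈ T := hv2.resolve_left hv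
      have h1 : ¬ Disjoint (insert v A) T := by
        rw [Finset.disjoint_insert_left]
        exact fun h => h.1 hvT
      rw [sh_neg h1, smul_zero]
  · rw [sh_neg hA]
    simp only [bm]
    refine Finset.sum_eq_zero fun v _ => ?_
    have h1 : ¬ Disjoint (insert v A) T := by
      rw [Finset.disjoint_insert_left]
      exact fun h => hA h.2
    rw [sh_neg h1, smul_zero]

theorem sh_un (T : Finset V) (z : Finset V → M) (hz : ∀ G, ¬ Disjoint G T → z G = 0) :
    sh K T (un K T z) = z := by
  funext G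
  by_cases hG : Disjoint G T
  · have h1 : (G ∪ T) \ T = G := by
      rw [Finset.union_sdiff_right, Finset.sdiff_eq_self_iff_disjoint]
      exact hG
    rw [sh_pos hG, un_pos Finset.subset_union_right, h1, smul_smul, ts_mul, one_smul]
  · rw [sh_neg hG, hz G hG]

theorem un_sh (T : Finset V) (z : Finset V → M) (F : Finset V) (hF : T ⊆ F) :
    un K T (sh K T z) F = z F := by
  rw [un_pos hF, sh_pos Finset.sdiff_disjoint, Finset.sdiff_union_of_subset hF, smul_smul,
    ts_mul, one_smul]

theorem bm_un (T : Finset V) (z : Finset V → M) (hz : ∀ G, ¬ Disjoint G T → z G = 0)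
    (F : Finset V) (hF : T ⊆ F) : bm K (un K T z) F = un K T (bm K z) F := by
  rw [← un_sh (K := K) T (bm K (un K T z)) F hF, ← bm_sh, sh_un T z hz]

/-- The horizontal differential. -/
noncomputable def Hd (K : Type) [Field K] {M : Type} [AddCommGroup M] [Module K M]
    (S : Finset (Finset V)) (z : Finset V → Finset V → M) : Finset V → Finset V → M :=
  fun F T => if F ∈ S ∧ T ⊆ F then bm K (fun G => if G ∈ S then z G T else 0) F else 0

/-- The vertical differential. -/
noncomputable def Td (S : Finset (Finset V)) (ψ : V → M →ₗ[K] M)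
    (z : Finset V → Finset V → M) : Finset V → Finset V → M :=
  fun F => if F ∈ S then dl (fun T => T ⊆ F) ψ (z F) else 0

/-- The part with `r` and `q` vertices. -/
def Dd (S : Finset (Finset V)) (ψ : V → M →ₗ[K] M) (r q : ℕ)
    (z : Finset V → Finset V → M) : Prop :=
  ∀ F T, z F T ≠ 0 → F ∈ S ∧ T ⊆ F ∧ F.card = r ∧ T.card = q ∧ ∀ v ∈ T, ψ v (z F T) = 0

theorem Hd_pos {S : Finset (Finset V)} {z : Finset V → Finset V → M} {F T : Finset V}
    (hF : F ∈ S) (hT : T ⊆ F) :
    Hd K S z F T = bm K (fun G => if G ∈ S then z G T else 0) F := by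
  unfold Hd
  rw [if_pos ⟨hF, hT⟩]

theorem Hd_neg {S : Finset (Finset V)} {z : Finset V → Finset V → M} {F T : Finset V}
    (h : ¬ (F ∈ S ∧ T ⊆ F)) : Hd K S z F T = 0 := by
  unfold Hd
  rw [if_neg h]

theorem Td_pos {S : Finset (Finset V)} {ψ : V → M →ₗ[K] M} {z : Finset V → Finset V → M}
    {F T : Finset V} (hF : F ∈ S) (hT : T ⊆ F) :
    Td S ψ z F T = ∑ v ∈ T, ψ v (z F (T.erase v)) := by
  unfold Td
  rw [if_pos hF, dl_pos (P := fun T => T ⊆ F) hT]

theorem Td_neg {S : Finset (Finset V)} {ψ : V → M →ₗ[K] M} {z : Finset V → Finset V → M}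
    {F T : Finset V} (h : ¬ (F ∈ S ∧ T ⊆ F)) : Td S ψ z F T = 0 := by
  unfold Td
  by_cases hF : F ∈ S
  · have hT : ¬ T ⊆ F := fun h' => h ⟨hF, h'⟩
    rw [if_pos hF, dl_neg (P := fun T => T ⊆ F) hT]
  · rw [if_neg hF, Pi.zero_apply]

section
variable {S : Finset (Finset V)} {ψ : V → M →ₗ[K] M}

theorem Dd.off {r q : ℕ} {z : Finset V → Finset V → M} (hz : Dd S ψ r q z) {F T : Finset V}
    (h : ¬ (F ∈ S ∧ T ⊆ F)) : z F T = 0 := by
  by_contra h'
  exact h ⟨(hz F T h').1, (hz F T h').2.1⟩

theorem Dd.kill {r q : ℕ} {z : Finset V → Finset V → M} (hz : Dd S ψ r q z) {F T : Finset V}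
    {v : V} (hv : v ∈ T) : ψ v (z F T) = 0 := by
  by_cases h : z F T = 0
  · rw [h, map_zero]
  · exact (hz F T h).2.2.2.2 v hv

theorem Dd.card1 {r q : ℕ} {z : Finset V → Finset V → M} (hz : Dd S ψ r q z) {F T : Finset V}
    (h : F.card ≠ r) : z F T = 0 := by
  by_contra h'
  exact h (hz F T h').2.2.1

theorem Dd.card2 {r q : ℕ} {z : Finset V → Finset V → M} (hz : Dd S ψ r q z) {F T : Finset V}
    (h : T.card ≠ q) : z F T = 0 := by
  by_contra h'
  exact h (hz F T h').2.2.2.1

theorem Dd.zero {r q : ℕ} : Dd S ψ r q (0 : Finset V → Finset V → M) := by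
  intro F T h
  exact absurd rfl h

theorem Dd.sub {r q : ℕ} {a b : Finset V → Finset V → M} (ha : Dd S ψ r q a)
    (hb : Dd S ψ r q b) : Dd S ψ r q (a - b) := by
  intro F T h
  have h1 : F ∈ S ∧ T ⊆ F ∧ F.card = r ∧ T.card = q := by
    by_cases h2 : a F T = 0
    · have h3 : b F T ≠ 0 := by
        intro h3
        apply h
        simp [h2, h3]
      exact ⟨(hb F T h3).1, (hb F T h3).2.1, (hb F T h3).2.2.1, (hb F T h3).2.2.2.1⟩
    · exact ⟨(ha F T h2).1, (ha F T h2).2.1, (ha F T h2).2.2.1, (ha F T h2).2.2.2.1⟩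
  refine ⟨h1.1, h1.2.1, h1.2.2.1, h1.2.2.2, fun v hv => ?_⟩
  rw [Pi.sub_apply, Pi.sub_apply, map_sub, ha.kill hv, hb.kill hv, sub_zero]

theorem Dd.co {r q : ℕ} {z : Finset V → Finset V → M} (hz : Dd S ψ r q z) (F : Finset V) :
    Co (fun T => T ⊆ F) ψ q (z F) := by
  intro T hT
  obtain ⟨h1, h2, h3, h4, h5⟩ := hz F T hT
  exact ⟨h2, h4, h5⟩

theorem Hd_sub (a b : Finset V → Finset V → M) :
    Hd K S (a - b) = Hd K S a - Hd K S b := by
  funext F T
  rw [Pi.sub_apply, Pi.sub_apply]
  by_cases h : F ∈ S ∧ T ⊆ F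
  · rw [Hd_pos h.1 h.2, Hd_pos h.1 h.2, Hd_pos h.1 h.2]
    have h1 : (fun G => if G ∈ S then (a - b) G T else 0) =
        (fun G => if G ∈ S then a G T else 0) - (fun G => if G ∈ S then b G T else 0) := by
      funext G
      simp only [Pi.sub_apply]
      split_ifs
      · rfl
      · rw [sub_zero]
    rw [h1, bm_sub, Pi.sub_apply]
  · rw [Hd_neg h, Hd_neg h, Hd_neg h, sub_zero]

theorem Td_sub (a b : Finset V → Finset V → M) :
    Td S ψ (a - b) = Td S ψ a - Td S ψ b := by
  funext F
  rw [Pi.sub_apply]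
  unfold Td
  split_ifs
  · rw [Pi.sub_apply, dl_sub]
  · rw [sub_zero]

theorem Hd_Hd (hS : ∀ F ∈ S, ∀ G : Finset V, G ⊆ F → G ∈ S) (z : Finset V → Finset V → M) :
    Hd K S (Hd K S z) = 0 := by
  funext F T
  rw [Pi.zero_apply, Pi.zero_apply]
  by_cases h : F ∈ S ∧ T ⊆ F
  · rw [Hd_pos h.1 h.2]
    have h1 := congrFun (bm_bm (K := K) (fun G => if G ∈ S then z G T else 0)) F
    rw [Pi.zero_apply] at h1
    refine Eq.trans ?_ h1
    simp only [bm]
    refine Finset.sum_congr rfl fun v hv => ?_
    congr 1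
    by_cases hv2 : insert v F ∈ S
    · rw [if_pos hv2, Hd_pos hv2 (h.2.trans (Finset.subset_insert _ _))]
      rfl
    · rw [if_neg hv2]
      symm
      change (∑ w ∈ (insert v F)ᶜ, eps K w (insert v F) •
        (if insert w (insert v F) ∈ S then z (insert w (insert v F)) T else 0)) = 0
      refine Finset.sum_eq_zero fun w _ => ?_
      rw [if_neg, smul_zero]
      intro h'
      exact hv2 (hS _ h' _ (Finset.subset_insert _ _))
  · rw [Hd_neg h]

theorem Td_Td (hok : ∀ F ∈ S, Ok (fun T => T ⊆ F) ψ) (z : Finset V → Finset V → M) :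
    Td S ψ (Td S ψ z) = 0 := by
  funext F
  rw [Pi.zero_apply]
  by_cases h : F ∈ S
  · have h1 : ∀ y : Finset V → Finset V → M, Td S ψ y F = dl (fun T => T ⊆ F) ψ (y F) := by
      intro y
      unfold Td
      rw [if_pos h]
    rw [h1, h1]
    exact dl_dl (hok F h) (z F)
  · unfold Td
    rw [if_neg h]

theorem Hd_Td (z : Finset V → Finset V → M) :
    Hd K S (Td S ψ z) = Td S ψ (Hd K S z) := by
  funext F T
  by_cases h : F ∈ S ∧ T ⊆ F
  · rw [Hd_pos h.1 h.2, Td_pos h.1 h.2]
    have h1 : ∀ w ∈ T, ψ w (Hd K S z F (T.erase w)) =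
        ∑ v ∈ Fᶜ, eps K v F • ψ w (if insert v F ∈ S then z (insert v F) (T.erase w) else 0) := by
      intro w _
      rw [Hd_pos h.1 ((Finset.erase_subset _ _).trans h.2)]
      simp only [bm]
      rw [map_sum]
      refine Finset.sum_congr rfl fun v _ => ?_
      rw [map_smul]
    rw [Finset.sum_congr rfl h1, Finset.sum_comm]
    simp only [bm]
    refine Finset.sum_congr rfl fun v hv => ?_
    rw [← Finset.smul_sum]
    congr 1
    by_cases hv2 : insert v F ∈ S
    · rw [if_pos hv2, Td_pos hv2 (h.2.trans (Finset.subset_insert _ _))]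
      refine Finset.sum_congr rfl fun w _ => ?_
      rw [if_pos hv2]
    · rw [if_neg hv2]
      symm
      refine Finset.sum_eq_zero fun w _ => ?_
      rw [if_neg hv2, map_zero]
  · rw [Hd_neg h, Td_neg h]

theorem Hd_D (p q : ℕ) (a : Finset V → Finset V → M) (ha : Dd S ψ (p + 1) q a) :
    Dd S ψ p q (Hd K S a) := by
  intro F T hFT
  by_cases h : F ∈ S ∧ T ⊆ F
  · rw [Hd_pos h.1 h.2] at hFT ⊢
    simp only [bm] at hFT ⊢
    obtain ⟨v, hv, hv0⟩ := Finset.exists_ne_zero_of_sum_ne_zero hFT
    have h1 : a (insert v F) T ≠ 0 := by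
      intro h'
      apply hv0
      rw [h']
      split_ifs <;> rw [smul_zero]
    obtain ⟨h2, h3, h4, h5, h6⟩ := ha _ _ h1
    rw [Finset.mem_compl] at hv
    rw [Finset.card_insert_of_notMem hv] at h4
    refine ⟨h.1, h.2, by omega, h5, fun w hw => ?_⟩
    rw [map_sum]
    refine Finset.sum_eq_zero fun u _ => ?_
    rw [map_smul]
    split_ifs
    · rw [ha.kill hw, smul_zero]
    · rw [map_zero, smul_zero]
  · exact absurd (Hd_neg h) hFT

theorem Td_D (hok : ∀ F ∈ S, Ok (fun T => T ⊆ F) ψ) (p q : ℕ) (a : Finset V → Finset V → M)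
    (ha : Dd S ψ p q a) : Dd S ψ p (q + 1) (Td S ψ a) := by
  intro F T hFT
  by_cases hF : F ∈ S
  · have h1 : Td S ψ a F = dl (fun T => T ⊆ F) ψ (a F) := by
      unfold Td
      rw [if_pos hF]
    have h2 := dl_co (hok F hF) (ha.co F)
    rw [← h1] at h2
    obtain ⟨h3, h4, h5⟩ := h2 T hFT
    refine ⟨hF, h3, ?_, h4, h5⟩
    by_contra hc
    apply hFT
    rw [Td_pos hF h3]
    refine Finset.sum_eq_zero fun v _ => ?_
    rw [ha.card1 hc, map_zero]
  · exact absurd (Td_neg fun h => hF h.1) hFT

end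

/-- The vectors killed by `ψ v`, `v ∈ T`. -/
def NT (ψ : V → M →ₗ[K] M) (T : Finset V) : Submodule K M where
  carrier := {x | ∀ v ∈ T, ψ v x = 0}
  zero_mem' := fun v _ => map_zero _
  add_mem' := by
    intro x y hx hy v hv
    rw [map_add, hx v hv, hy v hv, add_zero]
  smul_mem' := by
    intro a x hx v hv
    rw [map_smul, hx v hv, smul_zero]

theorem mem_NT {ψ : V → M →ₗ[K] M} {T : Finset V} {x : M} :
    x ∈ NT ψ T ↔ ∀ v ∈ T, ψ v x = 0 := Iff.rfl

section
variable {S : Finset (Finset V)} {ψ : V → M →ₗ[K] M}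

theorem sh_cm {r q : ℕ} {a : Finset V → Finset V → M} (ha : Dd S ψ r q a) (T : Finset V)
    (j : ℕ) (hj : j + q = r) : Cm (LX S T ∅) j (sh K T (fun F => a F T)) := by
  intro G hG
  by_cases hd : Disjoint G T
  · rw [sh_pos hd] at hG
    have h1 : a (G ∪ T) T ≠ 0 := by
      intro h'
      apply hG
      rw [h', smul_zero]
    obtain ⟨h2, h3, h4, h5, h6⟩ := ha _ _ h1
    rw [Finset.card_union_of_disjoint hd] at h4
    exact ⟨⟨hd, h2, Finset.disjoint_empty_right _⟩, by omega⟩
  · exact absurd (sh_neg hd) hG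

theorem sh_bm (hS : ∀ F ∈ S, ∀ G : Finset V, G ⊆ F → G ∈ S) {r q : ℕ}
    {a : Finset V → Finset V → M} (ha : Dd S ψ r q a) (T : Finset V) (hH : Hd K S a = 0) :
    bm K (sh K T (fun F => a F T)) = 0 := by
  rw [bm_sh]
  funext G
  rw [Pi.zero_apply]
  by_cases hd : Disjoint G T
  · rw [sh_pos hd]
    by_cases hGT : G ∪ T ∈ S
    · have h1 := congrFun (congrFun hH (G ∪ T)) T
      rw [Hd_pos hGT Finset.subset_union_right, Pi.zero_apply, Pi.zero_apply] at h1
      have h2 : bm K (fun F => a F T) (G ∪ T) = 0 := by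
        rw [← h1]
        simp only [bm]
        refine Finset.sum_congr rfl fun v _ => ?_
        congr 1
        split_ifs with h
        · rfl
        · exact ha.off fun h' => h h'.1
      rw [h2, smul_zero]
    · have h2 : bm K (fun F => a F T) (G ∪ T) = 0 := by
        simp only [bm]
        refine Finset.sum_eq_zero fun v _ => ?_
        rw [ha.off, smul_zero]
        rintro ⟨h, _⟩
        exact hGT (hS _ h _ (Finset.subset_insert _ _))
      rw [h2, smul_zero]
  · rw [sh_neg hd]

theorem sh_NT {r q : ℕ} {a : Finset V → Finset V → M} (ha : Dd S ψ r q a) (T G : Finset V) :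
    sh K T (fun F => a F T) G ∈ NT ψ T := by
  rw [mem_NT]
  intro v hv
  by_cases hd : Disjoint G T
  · rw [sh_pos hd, map_smul, ha.kill hv, smul_zero]
  · rw [sh_neg hd, map_zero]

end

/-- Exactness in the horizontal direction. -/
theorem exH {S : Finset (Finset V)} {d : ℕ} (h : HS K S d) (ψ : V → M →ₗ[K] M) (r q : ℕ)
    (hr : r < d) (a : Finset V → Finset V → M) (ha : Dd S ψ r q a) (hH : Hd K S a = 0) :
    ∃ b, Dd S ψ (r + 1) q b ∧ Hd K S b = a := by
  by_cases hqr : q ≤ r
  · have key : ∀ T : Finset V, ∃ c : Finset V → M, (T ∈ S → T.card = q →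
        Cm (LX S T ∅) (r - q + 1) c ∧ (∀ F, c F ∈ NT ψ T) ∧
          bm K c = sh K T (fun F => a F T)) := by
      intro T
      by_cases hT : T ∈ S ∧ T.card = q
      · obtain ⟨c, h1, h2, h3⟩ := ex_vec h T hT.1 (r - q) (by omega) (NT ψ T)
          (sh K T (fun F => a F T)) (sh_cm ha T (r - q) (by omega)) (sh_NT ha T)
          (sh_bm h.down ha T hH)
        exact ⟨c, fun _ _ => ⟨h1, h2, h3⟩⟩
      · exact ⟨0, fun h1 h2 => absurd ⟨h1, h2⟩ hT⟩
    choose c hc using key
    refine ⟨fun F T => if F ∈ S ∧ T ⊆ F ∧ T.card = q then un K T (c T) F else 0, ?_, ?_⟩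
    · intro F T hFT
      dsimp only at hFT ⊢
      by_cases hh : F ∈ S ∧ T ⊆ F ∧ T.card = q
      · rw [if_pos hh] at hFT ⊢
        obtain ⟨h1, h2, h3⟩ := hh
        obtain ⟨h4, h5, h6⟩ := hc T (h.down F h1 T h2) h3
        rw [un_pos h2] at hFT ⊢
        have h7 : c T (F \ T) ≠ 0 := by
          intro h'
          apply hFT
          rw [h', smul_zero]
        have h8 := (h4 _ h7).2
        rw [Finset.card_sdiff_of_subset h2] at h8
        have h9 := Finset.card_le_card h2
        refine ⟨h1, h2, by omega, h3, fun v hv => ?_⟩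
        rw [map_smul, (mem_NT.mp (h5 (F \ T))) v hv, smul_zero]
      · rw [if_neg hh] at hFT
        exact absurd rfl hFT
    · funext F T
      by_cases hh : F ∈ S ∧ T ⊆ F
      · rw [Hd_pos hh.1 hh.2]
        by_cases h3 : T.card = q
        · have hTS := h.down F hh.1 T hh.2
          obtain ⟨h4, h5, h6⟩ := hc T hTS h3
          have hdis : ∀ G, ¬ Disjoint G T → c T G = 0 := by
            intro G hG
            by_contra h'
            exact hG (h4 G h').1.1
          have h7 := bm_un (K := K) T (c T) hdis F hh.2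
          rw [h6, un_sh T _ F hh.2] at h7
          rw [← h7]
          simp only [bm]
          refine Finset.sum_congr rfl fun v _ => ?_
          congr 1
          by_cases hv2 : insert v F ∈ S
          · rw [if_pos hv2, if_pos ⟨hv2, hh.2.trans (Finset.subset_insert _ _), h3⟩]
          · rw [if_neg hv2]
            have hsub : T ⊆ insert v F := hh.2.trans (Finset.subset_insert _ _)
            rw [un_pos hsub]
            have h8 : c T (insert v F \ T) = 0 := by
              by_contra h'
              have h9 := (h4 _ h').1.2.1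
              rw [Finset.sdiff_union_of_subset hsub] at h9
              exact hv2 h9
            rw [h8, smul_zero]
        · rw [ha.card2 h3]
          simp only [bm]
          refine Finset.sum_eq_zero fun v _ => ?_
          have h4 : ¬ (insert v F ∈ S ∧ T ⊆ insert v F ∧ T.card = q) := fun h' => h3 h'.2.2
          rw [if_neg h4]
          split_ifs <;> rw [smul_zero]
      · rw [Hd_neg hh, ha.off hh]
  · refine ⟨0, Dd.zero, ?_⟩
    have h0 : a = 0 := by
      funext F T
      by_contra h'
      obtain ⟨h1, h2, h3, h4, h5⟩ := ha F T h'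
      have := Finset.card_le_card h2
      omega
    rw [h0]
    have h1 := Hd_sub (K := K) (S := S) (0 : Finset V → Finset V → M) 0
    rwa [sub_zero, sub_self] at h1

/-- Exactness in the vertical direction. -/
theorem exT {S : Finset (Finset V)} {g : V → V → K} {X : Finset V} {ψ φ : V → M →ₗ[K] M}
    (hR : Rel g X ψ φ) (hX : ∀ F ∈ S, F ⊆ X)
    (hg : ∀ F ∈ S, ∀ a ∈ F, ∀ b ∈ F, a ≠ b → g a b = 0) (r q : ℕ)
    (a : Finset V → Finset V → M) (ha : Dd S ψ r (q + 1) a) (hT : Td S ψ a = 0) :
    ∃ b, Dd S ψ r q b ∧ Td S ψ b = a := by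
  have key : ∀ F : Finset V, ∃ y : Finset V → M, (F ∈ S → F.card = r →
      (∀ T, y T ≠ 0 → T ⊆ F ∧ T.card + 1 = q + 1 ∧ ∀ v ∈ T, ψ v (y T) = 0) ∧
        dl (fun T => T ⊆ F) ψ y = a F) := by
    intro F
    by_cases hF : F ∈ S
    · have h1 := congrFun hT F
      unfold Td at h1
      rw [if_pos hF, Pi.zero_apply] at h1
      obtain ⟨y, hy, hy2⟩ := kosz_ex hR F (hX F hF) (hg F hF) (q + 1) (by omega) (a F)
        (ha.co F) h1
      exact ⟨y, fun _ _ => ⟨hy, hy2⟩⟩
    · exact ⟨0, fun h1 => absurd h1 hF⟩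
  choose y hy using key
  refine ⟨fun F T => if F ∈ S ∧ F.card = r then y F T else 0, ?_, ?_⟩
  · intro F T hFT
    dsimp only at hFT ⊢
    by_cases hF : F ∈ S ∧ F.card = r
    · rw [if_pos hF] at hFT ⊢
      obtain ⟨h1, h2, h3⟩ := (hy F hF.1 hF.2).1 T hFT
      exact ⟨hF.1, h1, hF.2, by omega, h3⟩
    · rw [if_neg hF] at hFT
      exact absurd rfl hFT
  · funext F T
    by_cases hh : F ∈ S ∧ T ⊆ F
    · rw [Td_pos hh.1 hh.2]
      by_cases hF : F.card = r
      · rw [← (hy F hh.1 hF).2, dl_pos (P := fun T => T ⊆ F) hh.2]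
        refine Finset.sum_congr rfl fun v _ => ?_
        rw [if_pos ⟨hh.1, hF⟩]
      · rw [ha.card1 hF]
        refine Finset.sum_eq_zero fun v _ => ?_
        have h4 : ¬ (F ∈ S ∧ F.card = r) := fun h' => hF h'.2
        rw [if_neg h4, map_zero]
    · rw [Td_neg hh, ha.off hh]

/-- The base of the staircase. -/
theorem base {S : Finset (Finset V)} (hS : ∀ F ∈ S, ∀ G : Finset V, G ⊆ F → G ∈ S)
    (ψ : V → M →ₗ[K] M) (e : ℕ)
    (hH : HoAt (fun F => F ∈ S) ψ e) (a : Finset V → Finset V → M) (ha : Dd S ψ (e + 1) 0 a)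
    (hT : Td S ψ (Hd K S a) = 0) :
    ∃ c, Dd S ψ (e + 1) 0 c ∧ Td S ψ c = 0 ∧ Hd K S c = Hd K S a := by
  have hHa := Hd_D e 0 a ha
  obtain ⟨c', hc1, hc2⟩ := hH (fun F => Hd K S a F ∅) (by
    intro F hF
    obtain ⟨h1, h2, h3, h4, h5⟩ := hHa F ∅ hF
    refine ⟨h1, h3, fun v hv => ?_⟩
    have h6 := congrFun (congrFun hT F) {v}
    rw [Td_pos h1 (Finset.singleton_subset_iff.mpr hv), Finset.sum_singleton,
      Finset.erase_singleton] at h6
    exact h6) (by
    funext F
    rw [Pi.zero_apply]
    by_cases hF : F ∈ S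
    · have h1 := congrFun (congrFun (Hd_Hd (K := K) hS a) F) ∅
      rw [Hd_pos hF (Finset.empty_subset _)] at h1
      rw [Pi.zero_apply, Pi.zero_apply] at h1
      rw [← h1]
      simp only [bm]
      refine Finset.sum_congr rfl fun v _ => ?_
      congr 1
      split_ifs with h
      · rfl
      · exact Hd_neg fun h' => h h'.1
    · simp only [bm]
      refine Finset.sum_eq_zero fun v _ => ?_
      rw [Hd_neg, smul_zero]
      rintro ⟨h, _⟩
      exact hF (hS _ h _ (Finset.subset_insert _ _)))
  have hc0 : Dd S ψ (e + 1) 0 (fun F T => if T = ∅ then c' F else 0) := by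
    intro F T hFT
    dsimp only at hFT ⊢
    by_cases hT0 : T = ∅
    · rw [if_pos hT0] at hFT ⊢
      obtain ⟨h1, h2, h3⟩ := hc1 F hFT
      subst hT0
      exact ⟨h1, Finset.empty_subset _, h2, Finset.card_empty, fun v hv =>
        absurd hv (Finset.notMem_empty v)⟩
    · rw [if_neg hT0] at hFT
      exact absurd rfl hFT
  refine ⟨fun F T => if T = ∅ then c' F else 0, hc0, ?_, ?_⟩
  · funext F T
    rw [Pi.zero_apply, Pi.zero_apply]
    by_cases hh : F ∈ S ∧ T ⊆ F
    · rw [Td_pos hh.1 hh.2]
      refine Finset.sum_eq_zero fun v hv => ?_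
      split_ifs
      · exact hc1.kill (hh.2 hv)
      · rw [map_zero]
    · rw [Td_neg hh]
  · funext F T
    by_cases hh : F ∈ S ∧ T ⊆ F
    · by_cases hT0 : T = ∅
      · rw [Hd_pos hh.1 hh.2]
        have h1 := congrFun hc2 F
        rw [hT0, ← h1]
        simp only [bm, if_true]
        refine Finset.sum_congr rfl fun v _ => ?_
        congr 1
        split_ifs with h
        · rfl
        · exact (hc1.off h).symm
      · have h0 : T.card ≠ 0 := by
          rw [Ne, Finset.card_eq_zero]
          exact hT0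
        rw [(Hd_D e 0 _ hc0).card2 h0, hHa.card2 h0]
    · rw [Hd_neg hh, Hd_neg hh]

end DualAux

open DualAux in
theorem dual {S : Finset (Finset V)} {d : ℕ} (h : HS K S d) (g : V → V → K)
    (hg : ∀ a b, a ≠ b → ({a, b} : Finset V) ∈ S → g a b = 0) (ψ φ : V → M →ₗ[K] M)
    (hR : Rel g (lv S ∅) ψ φ) (m : ℕ) (hm : m ≤ d)
    (hH : ∀ i, i < m → HoAt (fun F => F ∈ S) ψ i) (j : ℕ) (hj : d < j + m) :
    ExAt (fun F => F ∈ S) ψ j := by
  have hX : ∀ F ∈ S, F ⊆ lv S ∅ := by
    intro F hF v hv
    rw [mem_lv]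
    refine ⟨Finset.notMem_empty v, h.down F hF _ ?_⟩
    intro w hw
    rw [Finset.mem_insert] at hw
    rcases hw with rfl | hw
    · exact hv
    · exact absurd hw (Finset.notMem_empty w)
  have hgF : ∀ F ∈ S, ∀ a ∈ F, ∀ b ∈ F, a ≠ b → g a b = 0 := by
    intro F hF a ha b hb hab
    refine hg a b hab (h.down F hF _ ?_)
    intro w hw
    rw [Finset.mem_insert, Finset.mem_singleton] at hw
    rcases hw with rfl | rfl
    · exact ha
    · exact hb
  have hok : ∀ F ∈ S, Ok (fun T => T ⊆ F) ψ := by
    intro F hF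
    refine ⟨fun T hT G hG => hG.trans hT, fun T hT v hv => hR.sq v (hX F hF (hT hv)), ?_⟩
    intro T hT u hu v hv huv x
    rw [hR.ac u (hX F hF (hT hu)) v (hX F hF (hT hv)) huv, hgF F hF u (hT hu) v (hT hv) huv,
      zero_smul]
  have hS0 : (∅ : Finset V) ∈ S := h.flag ∅ fun a ha => absurd ha (Finset.notMem_empty a)
  intro x hx hdx
  by_cases hjd : d < j
  · have hx0 : x = 0 := by
      funext F
      by_contra h'
      obtain ⟨h1, h2, _⟩ := hx F h'
      have := h.card_le F h1
      omega
    refine ⟨0, fun F hF => absurd rfl hF, ?_⟩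
    rw [hx0]
    exact dl_zero _ _
  rw [not_lt] at hjd
  obtain ⟨q, rfl⟩ : ∃ q, j = q + 1 := ⟨j - 1, by omega⟩
  obtain ⟨e, he⟩ : ∃ e, e + 1 + q = d := ⟨d - (q + 1), by omega⟩
  obtain ⟨o, ho, hbo, ho0, _⟩ := h.top ∅ hS0 d (by rw [Finset.card_empty, add_zero])
  have hne : ∀ F ∈ S, F.card = d → o F ≠ 0 := by
    intro F hF hFd
    refine h.top_ne d ∅ hS0 (by rw [Finset.card_empty, add_zero]) o ho hbo ho0 F ?_
    exact ⟨Finset.disjoint_empty_right _, by rw [Finset.union_empty]; exact hF, by
      rw [Finset.card_empty, add_zero]; exact hFd⟩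
  have hoS : ∀ F, o F ≠ 0 → F ∈ S ∧ F.card = d := by
    intro F hF
    obtain ⟨⟨_, h1, _⟩, h2⟩ := ho F hF
    rw [Finset.union_empty] at h1
    exact ⟨h1, h2⟩
  let z0 : Finset V → Finset V → M := fun F T => if T ⊆ F then o F • x T else 0
  have hz0 : Dd S ψ d (q + 1) z0 := by
    intro F T hFT
    by_cases hTF : T ⊆ F
    · simp only [z0, if_pos hTF] at hFT ⊢
      have h1 : o F ≠ 0 := by
        intro h'
        apply hFT
        rw [h', zero_smul]
      have h2 : x T ≠ 0 := by
        intro h'
        apply hFT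
        rw [h', smul_zero]
      obtain ⟨h3, h4, h5⟩ := hx T h2
      exact ⟨(hoS F h1).1, hTF, (hoS F h1).2, h4, fun v hv => by
        rw [map_smul, h5 v hv, smul_zero]⟩
    · simp only [z0, if_neg hTF] at hFT
      exact absurd rfl hFT
  have hTz0 : Td S ψ z0 = 0 := by
    funext F T
    rw [Pi.zero_apply, Pi.zero_apply]
    by_cases hh : F ∈ S ∧ T ⊆ F
    · rw [Td_pos hh.1 hh.2]
      have h1 := congrFun hdx T
      rw [dl_pos (h.down F hh.1 T hh.2), Pi.zero_apply] at h1
      have h2 : ∀ v ∈ T, ψ v (z0 F (T.erase v)) = o F • ψ v (x (T.erase v)) := by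
        intro v _
        simp only [z0]
        rw [if_pos ((Finset.erase_subset _ _).trans hh.2), map_smul]
      rw [Finset.sum_congr rfl h2, ← Finset.smul_sum, h1, smul_zero]
    · rw [Td_neg hh]
  have hHz0 : Hd K S z0 = 0 := by
    funext F T
    rw [Pi.zero_apply, Pi.zero_apply]
    by_cases hh : F ∈ S ∧ T ⊆ F
    · rw [Hd_pos hh.1 hh.2]
      have h1 := congrFun hbo F
      simp only [bd, Pi.zero_apply] at h1
      have h2 : bm K (fun G => if G ∈ S then z0 G T else 0) F =
          (∑ v ∈ Fᶜ, eps K v F * o (insert v F)) • x T := by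
        simp only [bm]
        rw [Finset.sum_smul]
        refine Finset.sum_congr rfl fun v _ => ?_
        rw [mul_smul]
        congr 1
        by_cases hv : insert v F ∈ S
        · rw [if_pos hv]
          simp only [z0]
          rw [if_pos (hh.2.trans (Finset.subset_insert _ _))]
        · rw [if_neg hv]
          have h3 : o (insert v F) = 0 := by
            by_contra h'
            exact hv (hoS _ h').1
          rw [h3, zero_smul]
      rw [h2, h1, zero_smul]
    · rw [Hd_neg hh]
  obtain ⟨a, ha, hTa⟩ := exT hR hX hgF d q z0 hz0 hTz0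
  have hTHa : Td S ψ (Hd K S a) = 0 := by
    rw [← Hd_Td, hTa, hHz0]
  obtain ⟨c, hc, hTc, hHc⟩ := zig_dual (Dd S ψ) (Hd K S) (Td S ψ) Hd_sub Td_sub Hd_Td
    (Hd_Hd h.down) (Td_Td hok) (fun _ _ _ _ ha hb => ha.sub hb) Hd_D (Td_D hok) d e
    (base h.down ψ e (hH e (by omega))) (exT hR hX hgF)
    (fun r q hr a ha hHa => exH h ψ r q hr a ha hHa) q (by omega) a (by rw [he]; exact ha) hTHa
  rw [he] at hc
  have hb := ha.sub hc
  have hTb : Td S ψ (a - c) = z0 := by
    rw [Td_sub, hTa, hTc, sub_zero]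
  have key : ∀ T : Finset V, ∃ u : M, (T ∈ S → T.card = q →
      (∀ v ∈ T, ψ v u = 0) ∧ ∀ F ∈ S, F.card = d → T ⊆ F → (a - c) F T = o F • u) := by
    intro T
    by_cases hT : T ∈ S ∧ T.card = q
    · obtain ⟨P, hP1, hP2, hP3⟩ := exists_facet h T hT.1
      have hPd : (P ∪ T).card = d := by
        rw [Finset.card_union_of_disjoint hP1]
        exact hP3
      have hoP := hne (P ∪ T) hP2 hPd
      obtain ⟨u, hu⟩ := top_vec h T hT.1 (d - q) (by omega) (sh K T o)
        (by
          intro G hG
          by_cases hd : Disjoint G T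
          · rw [sh_pos hd] at hG
            have h1 : o (G ∪ T) ≠ 0 := by
              intro h'
              apply hG
              rw [h', smul_zero]
            have h2 := hoS _ h1
            rw [Finset.card_union_of_disjoint hd] at h2
            exact ⟨⟨hd, h2.1, Finset.disjoint_empty_right _⟩, by omega⟩
          · exact absurd (sh_neg hd) hG)
        (by
          have h1 : bd (sh K T o) = bm K (sh K T o) := rfl
          have h2 : bm K o = bd o := rfl
          rw [h1, bm_sh, h2, hbo]
          funext G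
          unfold sh
          rw [Pi.zero_apply, Pi.zero_apply, smul_zero, ite_self])
        (by
          intro h'
          have h1 := congrFun h' P
          rw [sh_pos hP1, Pi.zero_apply, smul_eq_mul, mul_eq_zero] at h1
          rcases h1 with h1 | h1
          · have h2 := ts_mul (K := K) T P
            rw [h1, zero_mul] at h2
            exact zero_ne_one h2
          · exact hoP h1)
        (sh K T (fun F => (a - c) F T)) (sh_cm hb T (d - q) (by omega))
        (sh_bm h.down hb T hHc)
      have hF : ∀ F ∈ S, F.card = d → T ⊆ F → (a - c) F T = o F • u := by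
        intro F _ _ hTF
        have h1 := hu (F \ T)
        rw [sh_pos Finset.sdiff_disjoint, sh_pos Finset.sdiff_disjoint,
          Finset.sdiff_union_of_subset hTF] at h1
        have h2 := congrArg (fun y => ts K T (F \ T) • y) h1
        rw [smul_smul, ts_mul, one_smul, smul_eq_mul, smul_smul, ← mul_assoc, ts_mul,
          one_mul] at h2
        exact h2
      refine ⟨u, fun _ _ => ⟨fun v hv => ?_, hF⟩⟩
      have h1 := hF _ hP2 hPd Finset.subset_union_right
      have h2 := hb.kill (F := P ∪ T) hv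
      rw [h1, map_smul] at h2
      rcases smul_eq_zero.mp h2 with h3 | h3
      · exact absurd h3 hoP
      · exact h3
    · exact ⟨0, fun h1 h2 => absurd ⟨h1, h2⟩ hT⟩
  choose u hu using key
  refine ⟨fun T => if T ∈ S ∧ T.card = q then u T else 0, ?_, ?_⟩
  · intro T hT
    dsimp only at hT ⊢
    by_cases hh : T ∈ S ∧ T.card = q
    · rw [if_pos hh] at hT ⊢
      exact ⟨hh.1, by omega, (hu T hh.1 hh.2).1⟩
    · rw [if_neg hh] at hT
      exact absurd rfl hT
  · funext T
    by_cases hT : T ∈ S
    · rw [dl_pos hT]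
      by_cases hTc2 : T.card = q + 1
      · obtain ⟨P, hP1, hP2, hP3⟩ := exists_facet h T hT
        have hPd : (P ∪ T).card = d := by
          rw [Finset.card_union_of_disjoint hP1]
          exact hP3
        have hoP := hne (P ∪ T) hP2 hPd
        have h1 := congrFun (congrFun hTb (P ∪ T)) T
        rw [Td_pos hP2 Finset.subset_union_right] at h1
        simp only [z0] at h1
        rw [if_pos Finset.subset_union_right] at h1
        have h2 : ∀ v ∈ T, ψ v ((a - c) (P ∪ T) (T.erase v)) =
            o (P ∪ T) • ψ v (if T.erase v ∈ S ∧ (T.erase v).card = q then u (T.erase v)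
              else 0) := by
          intro v hv
          have h3 : T.erase v ∈ S := h.down T hT _ (Finset.erase_subset _ _)
          have h4 : (T.erase v).card = q := by
            rw [Finset.card_erase_of_mem hv]
            omega
          rw [if_pos ⟨h3, h4⟩, (hu _ h3 h4).2 (P ∪ T) hP2 hPd
            ((Finset.erase_subset _ _).trans Finset.subset_union_right), map_smul]
        rw [Finset.sum_congr rfl h2, ← Finset.smul_sum] at h1
        exact smul_right_injective M hoP h1
      · rw [hx.card hTc2]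
        refine Finset.sum_eq_zero fun v hv => ?_
        have h3 : ¬ (T.erase v ∈ S ∧ (T.erase v).card = q) := by
          rintro ⟨_, h4⟩
          rw [Finset.card_erase_of_mem hv] at h4
          have := Finset.card_pos.mpr ⟨v, hv⟩
          omega
        rw [if_neg h3, map_zero]
    · rw [dl_neg hT, hx.off hT]

end Pool.Agent.MP19e880.W1
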