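import Pool.Agent.Lib.MP_19e880_co_W1.Basic

/-!
Clifford complexes of flag complexes: extension of the field for one complex in one degree.
-/

set_option autoImplicit false
set_option linter.unusedSectionVars false

namespace Pool.Agent.MP19e880.W1

variable {V : Type} [Fintype V] [LinearOrder V] {K : Type} [Field K]
  {M : Type} [AddCommGroup M] [Module K M]

namespace ExtAux

theorem eps_map (k : Type) [Field k] [Algebra k K] (v : V) (A : Finset V) :
    algebraMap k K (eps k v A) = eps K v A := by
  unfold eps
  rw [map_pow, map_neg, map_one]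

theorem bd_lin (k : Type) [Field k] [Algebra k K] (l : K →ₗ[k] k) (z : Finset V → K)
    (A : Finset V) : bd (fun F => l (z F)) A = l (bd z A) := by
  unfold bd
  rw [map_sum]
  refine Finset.sum_congr rfl fun v _ => ?_
  have h : eps K v A * z (insert v A) = eps k v A • z (insert v A) := by
    rw [Algebra.smul_def, eps_map]
  rw [h, map_smul, smul_eq_mul]

end ExtAux

theorem ex_ext (k : Type) [Field k] [Algebra k K] (P : Finset V → Prop) (j : ℕ)
    (hex : ∀ z : Finset V → k, Ch P j z → bd z = 0 → ∃ c : Finset V → k, Ch P (j + 1) c ∧ bd c = z)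
    (z : Finset V → K) (hz : Ch P j z) (hb : bd z = 0) :
    ∃ c : Finset V → K, Ch P (j + 1) c ∧ bd c = z := by
  classical
  let B := Module.Basis.ofVectorSpace k K
  have hex' : ∀ i, ∃ c : Finset V → k, Ch P (j + 1) c ∧ bd c = fun F => B.repr (z F) i := by
    intro i
    refine hex _ ?_ ?_
    · intro F hF
      refine hz F ?_
      intro h0
      apply hF
      show B.repr (z F) i = 0
      rw [h0, map_zero]
      rfl
    · funext A
      have h1 := ExtAux.bd_lin k (B.coord i) z A
      rw [hb] at h1
      exact h1.trans (map_zero (B.coord i))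
  choose c hc hbc using hex'
  let T := (Finset.univ : Finset (Finset V)).biUnion (fun F => (B.repr (z F)).support)
  refine ⟨fun F => ∑ i ∈ T, c i F • B i, ?_, ?_⟩
  · intro F hF
    obtain ⟨i, _, hi⟩ := Finset.exists_ne_zero_of_sum_ne_zero hF
    refine hc i F ?_
    intro h0
    apply hi
    rw [h0, zero_smul]
  · funext A
    have h1 : bd (fun F => ∑ i ∈ T, c i F • B i) A = ∑ i ∈ T, (bd (c i) A) • B i := by
      unfold bd
      simp only [Finset.mul_sum, Finset.sum_smul]
      rw [Finset.sum_comm]
      refine Finset.sum_congr rfl fun i _ => Finset.sum_congr rfl fun v _ => ?_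
      have h : eps K v A * c i (insert v A) • B i = eps k v A • c i (insert v A) • B i := by
        rw [Algebra.smul_def (eps k v A), ExtAux.eps_map]
      rw [h, smul_smul]
    rw [h1]
    have h2 : ∑ i ∈ T, (bd (c i) A) • B i = ∑ i ∈ T, (B.repr (z A) i) • B i :=
      Finset.sum_congr rfl fun i _ => by rw [hbc i]
    rw [h2]
    have h4 := B.linearCombination_repr (z A)
    rw [Finsupp.linearCombination_apply, Finsupp.sum] at h4
    refine Eq.trans ?_ h4
    refine (Finset.sum_subset (f := fun i => (B.repr (z A) i) • B i) ?_ ?_).symm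
    · intro i hi
      exact Finset.mem_biUnion.mpr ⟨A, Finset.mem_univ _, hi⟩
    · intro i _ hi
      show (B.repr (z A) i) • B i = 0
      rw [Finsupp.notMem_support_iff.mp hi, zero_smul]

end Pool.Agent.MP19e880.W1
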