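import Pool.Agent.Lib.MP_19e880_co_W1.Kosz

/-!
Clifford complexes of flag complexes: the homology version of `V_n`, by linear duality.
-/

set_option autoImplicit false
set_option linter.unusedSectionVars false

namespace Pool.Agent.MP19e880.W1

variable {V : Type} [Fintype V] [LinearOrder V] {K : Type} [Field K]
  {M : Type} [AddCommGroup M] [Module K M]

namespace HoAux

/-- Reindexing the pairs `v ∈ F` by the pairs `v ∉ H`, `F = H ∪ {v}`. -/
theorem sum_reindex {N : Type} [AddCommMonoid N] (f : Finset V → V → N) :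
    ∑ F : Finset V, ∑ v ∈ F, f F v = ∑ H : Finset V, ∑ v ∈ Hᶜ, f (insert v H) v := by
  rw [Finset.sum_sigma', Finset.sum_sigma']
  refine Finset.sum_bij' (fun p _ => ⟨p.1.erase p.2, p.2⟩) (fun p _ => ⟨insert p.2 p.1, p.2⟩)
    ?_ ?_ ?_ ?_ ?_
  · rintro ⟨F, v⟩ h
    simp only [Finset.mem_sigma, Finset.mem_univ, true_and, Finset.mem_compl,
      Finset.mem_erase, not_and] at h ⊢
    intro h'
    exact absurd rfl h'
  · rintro ⟨H, v⟩ h
    simp
  · rintro ⟨F, v⟩ h
    simp only [Finset.mem_sigma, Finset.mem_univ, true_and] at h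
    simp only [Finset.insert_erase h]
  · rintro ⟨H, v⟩ h
    simp only [Finset.mem_sigma, Finset.mem_univ, true_and, Finset.mem_compl] at h
    simp only [Finset.erase_insert h]
  · rintro ⟨F, v⟩ h
    simp only [Finset.mem_sigma, Finset.mem_univ, true_and] at h
    simp only [Finset.insert_erase h]

/-- The transposed operators satisfy the relations. -/
theorem rel_dual {g : V → V → K} {X : Finset V} {ψ φ : V → M →ₗ[K] M} (h : Rel g X ψ φ) :
    Rel g X (fun v => (ψ v).dualMap) (fun v => (φ v).dualMap) where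
  sq v hv l := by
    ext m
    simp only [LinearMap.dualMap_apply, LinearMap.zero_apply]
    rw [h.sq v hv, map_zero]
  ac u hu v hv huv l := by
    ext m
    simp only [LinearMap.dualMap_apply, LinearMap.add_apply, LinearMap.smul_apply]
    rw [← map_add, add_comm, h.ac u hu v hv huv, map_smul]
  one v hv l := by
    ext m
    simp only [LinearMap.dualMap_apply, LinearMap.add_apply]
    rw [← map_add, add_comm, h.one v hv]
  zer u hu v hv huv l := by
    ext m
    simp only [LinearMap.dualMap_apply, LinearMap.add_apply, LinearMap.zero_apply]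
    rw [← map_add, add_comm, h.zer u hu v hv huv, map_zero]
  psq v hv l := by
    ext m
    simp only [LinearMap.dualMap_apply, LinearMap.zero_apply]
    rw [h.psq v hv, map_zero]
  pac u hu v hv huv l := by
    ext m
    simp only [LinearMap.dualMap_apply, LinearMap.add_apply, LinearMap.zero_apply]
    rw [← map_add, add_comm, h.pac u hu v hv huv, map_zero]

open Classical in
/-- The values `∂ c + q` at the faces with `i` vertices. -/
noncomputable def LL (P : Finset V → Prop) (ψ : V → M →ₗ[K] M) (i : ℕ) :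
    ((Finset V → M) × (Finset V → V → M)) →ₗ[K] (Finset V → M) where
  toFun p := fun F => if P F ∧ F.card = i then
    (∑ v ∈ Fᶜ, if P (insert v F) then ψ v (p.1 (insert v F)) else 0) + ∑ v ∈ F, ψ v (p.2 F v)
    else 0
  map_add' := by
    intro p p'
    funext F
    by_cases h : P F ∧ F.card = i
    · simp only [if_pos h, Pi.add_apply, Prod.fst_add, Prod.snd_add, map_add,
        Finset.sum_add_distrib]
      have : ∀ v ∈ Fᶜ, (if P (insert v F) then ψ v (p.1 (insert v F)) + ψ v (p'.1 (insert v F))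
          else 0) = (if P (insert v F) then ψ v (p.1 (insert v F)) else 0) +
          (if P (insert v F) then ψ v (p'.1 (insert v F)) else 0) := by
        intro v _
        split_ifs
        · rfl
        · rw [add_zero]
      rw [Finset.sum_congr rfl this, Finset.sum_add_distrib]
      abel
    · simp only [if_neg h, Pi.add_apply, add_zero]
  map_smul' := by
    intro a p
    funext F
    by_cases h : P F ∧ F.card = i
    · simp only [if_pos h, Pi.smul_apply, Prod.smul_fst, Prod.smul_snd, map_smul, smul_add,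
        Finset.smul_sum, RingHom.id_apply, smul_ite, smul_zero]
    · simp only [if_neg h, Pi.smul_apply, smul_zero, RingHom.id_apply]

open Classical in
theorem LL_pos {P : Finset V → Prop} {ψ : V → M →ₗ[K] M} {i : ℕ} (c : Finset V → M)
    (d : Finset V → V → M) {F : Finset V} (h : P F ∧ F.card = i) :
    LL P ψ i (c, d) F = (∑ v ∈ Fᶜ, if P (insert v F) then ψ v (c (insert v F)) else 0) +
      ∑ v ∈ F, ψ v (d F v) := by
  change (if P F ∧ F.card = i then _ else 0) = _
  rw [if_pos h]

open Classical in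
theorem LL_neg {P : Finset V → Prop} {ψ : V → M →ₗ[K] M} {i : ℕ} (c : Finset V → M)
    (d : Finset V → V → M) {F : Finset V} (h : ¬ (P F ∧ F.card = i)) :
    LL P ψ i (c, d) F = 0 := by
  change (if P F ∧ F.card = i then _ else 0) = _
  rw [if_neg h]

/-- The pure part: `single F (ψ v m)`, `v ∈ F`. -/
theorem single_mem {P : Finset V → Prop} {ψ : V → M →ₗ[K] M} {i : ℕ} {F : Finset V}
    (h : P F ∧ F.card = i) {v : V} (hv : v ∈ F) (m : M) :
    (Pi.single F (ψ v m) : Finset V → M) = LL P ψ i (0, Pi.single F (Pi.single v m)) := by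
  classical
  funext H
  by_cases hH : P H ∧ H.card = i
  · rw [LL_pos _ _ hH]
    have h0 : (∑ v ∈ Hᶜ, if P (insert v H) then ψ v ((0 : Finset V → M) (insert v H)) else 0)
        = 0 := by
      refine Finset.sum_eq_zero fun v _ => ?_
      rw [Pi.zero_apply, map_zero, ite_self]
    rw [h0, zero_add]
    by_cases hF : H = F
    · subst hF
      rw [Pi.single_eq_same, Pi.single_eq_same, Finset.sum_eq_single v]
      · rw [Pi.single_eq_same]
      · intro w _ hw
        rw [Pi.single_eq_of_ne hw, map_zero]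
      · intro h'
        exact absurd hv h'
    · rw [Pi.single_eq_of_ne hF, Pi.single_eq_of_ne hF]
      refine (Finset.sum_eq_zero fun w _ => ?_).symm
      rw [Pi.zero_apply, map_zero]
  · rw [LL_neg _ _ hH, Pi.single_eq_of_ne]
    rintro rfl
    exact hH h

/-- The boundary of a single face. -/
theorem boundary_mem {P : Finset V → Prop} {ψ : V → M →ₗ[K] M} {i : ℕ}
    (hd : ∀ F, P F → ∀ G, G ⊆ F → P G) {G : Finset V} (hG : P G) (hc : G.card = i + 1) (m : M) :
    (∑ v ∈ G, Pi.single (G.erase v) (ψ v m) : Finset V → M) = LL P ψ i (Pi.single G m, 0) := by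
  classical
  funext H
  rw [Finset.sum_apply]
  by_cases hH : P H ∧ H.card = i
  · rw [LL_pos _ _ hH]
    have h0 : (∑ v ∈ H, ψ v ((0 : Finset V → V → M) H v)) = 0 := by
      refine Finset.sum_eq_zero fun v _ => ?_
      rw [Pi.zero_apply, Pi.zero_apply, map_zero]
    rw [h0, add_zero]
    have e1 : ∑ v ∈ G, (Pi.single (G.erase v) (ψ v m) : Finset V → M) H =
        ∑ v ∈ Finset.univ.filter (fun v => v ∈ G ∧ H = G.erase v), ψ v m := by
      rw [Finset.sum_filter]
      rw [← Finset.sum_subset (Finset.subset_univ G)]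
      · refine Finset.sum_congr rfl fun v hv => ?_
        by_cases hvH : H = G.erase v
        · rw [if_pos ⟨hv, hvH⟩, hvH, Pi.single_eq_same]
        · rw [if_neg (fun h' => hvH h'.2), Pi.single_eq_of_ne hvH]
      · intro v _ hv
        rw [if_neg (fun h' => hv h'.1)]
    have e2 : (∑ v ∈ Hᶜ, if P (insert v H) then ψ v ((Pi.single G m : Finset V → M) (insert v H))
        else 0) = ∑ v ∈ Finset.univ.filter (fun v => v ∈ G ∧ H = G.erase v), ψ v m := by
      rw [Finset.sum_filter]
      rw [← Finset.sum_subset (Finset.subset_univ Hᶜ)]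
      · refine Finset.sum_congr rfl fun v hv => ?_
        have hv' : v ∉ H := Finset.mem_compl.mp hv
        by_cases hvH : insert v H = G
        · have h1 : v ∈ G := by rw [← hvH]; exact Finset.mem_insert_self _ _
          have h2 : H = G.erase v := by rw [← hvH, Finset.erase_insert hv']
          rw [hvH, if_pos hG, if_pos ⟨h1, h2⟩, Pi.single_eq_same]
        · rw [Pi.single_eq_of_ne hvH, map_zero, ite_self, if_neg]
          rintro ⟨h1, h2⟩
          apply hvH
          rw [h2, Finset.insert_erase h1]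
      · intro v _ hv
        have hv' : v ∈ H := by
          by_contra h'
          exact hv (Finset.mem_compl.mpr h')
        rw [if_neg]
        rintro ⟨h1, h2⟩
        rw [h2] at hv'
        exact absurd rfl (Finset.mem_erase.mp hv').1
    rw [e1, e2]
  · rw [LL_neg _ _ hH]
    refine Finset.sum_eq_zero fun v hv => ?_
    rw [Pi.single_eq_of_ne]
    rintro rfl
    apply hH
    refine ⟨hd G hG _ (Finset.erase_subset _ _), ?_⟩
    rw [Finset.card_erase_of_mem hv, hc]
    rfl

/-- The quotient version. -/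
theorem step_a {g : V → V → K} {A : V → V → Prop} {X : Finset V} {n : ℕ}
    (h : VV g A X n) (ψ φ : V → M →ₗ[K] M) (hR : Rel g X ψ φ) (i : ℕ) (hi : i < n)
    (z : Finset V → M) (hz : ∀ F, z F ≠ 0 → Cl A X F ∧ F.card = i)
    (hu : ∀ G, Cl A X G → G.card + 1 = i → ∃ c : V → M,
      ∑ v ∈ Gᶜ, ψ v (z (insert v G)) = ∑ w ∈ G, ψ w (c w)) :
    ∃ (c : Finset V → M) (d : Finset V → V → M), LL (Cl A X) ψ i (c, d) = z := by
  classical
  by_contra hcon
  have hnot : z ∉ LinearMap.range (LL (Cl A X) ψ i) := by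
    rintro ⟨⟨c, d⟩, hcd⟩
    exact hcon ⟨c, d, hcd⟩
  obtain ⟨l, hl, hle⟩ := Submodule.exists_le_ker_of_notMem hnot
  have hl0 : ∀ c d, l (LL (Cl A X) ψ i (c, d)) = 0 := fun c d => hle ⟨(c, d), rfl⟩
  have hdown : ∀ F, Cl A X F → ∀ G, G ⊆ F → Cl A X G := fun F hF G hG => hF.down hG
  let x : Finset V → Module.Dual K M := fun F =>
    if Cl A X F ∧ F.card = i then l ∘ₗ LinearMap.single K (fun _ => M) F else 0
  have hx1 : ∀ F, Cl A X F ∧ F.card = i → ∀ m, x F m = l (Pi.single F m) := by
    intro F hF m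
    simp only [x, if_pos hF]
    rfl
  have hx2 : ∀ F, ¬ (Cl A X F ∧ F.card = i) → x F = 0 := by
    intro F hF
    simp only [x, if_neg hF]
  have hco : Co (Cl A X) (fun v => (ψ v).dualMap) i x := by
    intro F hF
    have hFP : Cl A X F ∧ F.card = i := by
      by_contra h'
      exact hF (hx2 F h')
    refine ⟨hFP.1, hFP.2, fun v hv => ?_⟩
    ext m
    rw [LinearMap.dualMap_apply, hx1 F hFP, single_mem hFP hv, hl0, LinearMap.zero_apply]
  have hdl : dl (Cl A X) (fun v => (ψ v).dualMap) x = 0 := by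
    funext G
    by_cases hG : Cl A X G
    · rw [dl_pos hG, Pi.zero_apply]
      by_cases hc : G.card = i + 1
      · ext m
        rw [LinearMap.sum_apply, LinearMap.zero_apply]
        have h1 : ∀ v ∈ G, ((ψ v).dualMap (x (G.erase v))) m =
            l (Pi.single (G.erase v) (ψ v m)) := by
          intro v hv
          rw [LinearMap.dualMap_apply, hx1]
          refine ⟨hG.down (Finset.erase_subset _ _), ?_⟩
          rw [Finset.card_erase_of_mem hv, hc]
          rfl
        rw [Finset.sum_congr rfl h1, ← map_sum, boundary_mem hdown hG hc, hl0]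
      · refine Finset.sum_eq_zero fun v hv => ?_
        rw [hx2, map_zero]
        rintro ⟨_, h2⟩
        rw [Finset.card_erase_of_mem hv] at h2
        have : 0 < G.card := Finset.card_pos.mpr ⟨v, hv⟩
        omega
    · rw [dl_neg hG, Pi.zero_apply]
  obtain ⟨w, hw, hdw⟩ := h (Module.Dual K M) _ _ (rel_dual hR) i hi x hco hdl
  apply hl
  have e1 : l z = ∑ F : Finset V, x F (z F) := by
    have h1 : z = ∑ F : Finset V, Pi.single F (z F) := by
      rw [Finset.univ_sum_single]
    conv_lhs => rw [h1]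
    rw [map_sum]
    refine Finset.sum_congr rfl fun F _ => ?_
    by_cases hF : z F = 0
    · rw [hF, Pi.single_zero, map_zero, map_zero]
    · rw [hx1 F (hz F hF)]
  have e2 : ∑ F : Finset V, x F (z F) = ∑ F : Finset V, ∑ v ∈ F, w (F.erase v) (ψ v (z F)) := by
    refine Finset.sum_congr rfl fun F _ => ?_
    by_cases hF : z F = 0
    · rw [hF, map_zero]
      refine (Finset.sum_eq_zero fun v _ => ?_).symm
      rw [map_zero, map_zero]
    · rw [← hdw, dl_pos (hz F hF).1, LinearMap.sum_apply]
      rfl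
  rw [e1, e2, sum_reindex (fun F v => w (F.erase v) (ψ v (z F)))]
  refine Finset.sum_eq_zero fun H _ => ?_
  have e3 : ∑ v ∈ Hᶜ, w ((insert v H).erase v) (ψ v (z (insert v H))) =
      w H (∑ v ∈ Hᶜ, ψ v (z (insert v H))) := by
    rw [map_sum]
    refine Finset.sum_congr rfl fun v hv => ?_
    rw [Finset.erase_insert (Finset.mem_compl.mp hv)]
  rw [e3]
  by_cases hH : w H = 0
  · rw [hH, LinearMap.zero_apply]
  · obtain ⟨h1, h2, h3⟩ := hw H hH
    obtain ⟨c, hc⟩ := hu H h1 h2
    rw [hc, map_sum]
    refine Finset.sum_eq_zero fun v hv => ?_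
    have := h3 v hv
    rw [← LinearMap.dualMap_apply, this, LinearMap.zero_apply]

theorem pr_sum (ψ : V → M →ₗ[K] M) (F : Finset V) {ι : Type} (s : Finset ι) (f : ι → M) :
    pr ψ F (∑ a ∈ s, f a) = ∑ a ∈ s, pr ψ F (f a) := by
  classical
  induction s using Finset.induction_on with
  | empty => rw [Finset.sum_empty, Finset.sum_empty, KoszAux.pr_zero]
  | insert a s ha ih => rw [Finset.sum_insert ha, Finset.sum_insert ha, pr_add, ih]

end HoAux

/-- the homology version for all modules -/
theorem ho_of_vv {g : V → V → K} {A : V → V → Prop} {X : Finset V} {n : ℕ}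
    (hA : ∀ a b, A a b → A b a) (hg : ∀ a ∈ X, ∀ b ∈ X, a ≠ b → A a b → g a b = 0)
    (h : VV g A X n) (ψ φ : V → M →ₗ[K] M) (hR : Rel g X ψ φ) (i : ℕ) (hi : i < n) :
    HoAt (Cl A X) ψ i := by
  classical
  intro y hy hbm
  have hgF : ∀ F, Cl A X F → ∀ a ∈ F, ∀ b ∈ F, a ≠ b → g a b = 0 := fun F hF a ha b hb hab =>
    hg a (hF.1 ha) b (hF.1 hb) hab (hF.2 a ha b hb hab)
  -- the key sign computation
  have key : ∀ (G : Finset V) (v : V), v ∉ G → Cl A X (insert v G) → ∀ m : M,
      pr ψ G (ψ v m) = (-1 : K) ^ G.card • eps K v G • pr ψ (insert v G) m := by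
    intro G v hv hG m
    have hGX : G ⊆ X := (Finset.subset_insert v G).trans hG.1
    have hvX : v ∈ X := hG.1 (Finset.mem_insert_self _ _)
    have hgv : ∀ a ∈ G, g v a = 0 := fun a ha =>
      hgF _ hG v (Finset.mem_insert_self _ _) a (Finset.mem_insert_of_mem ha)
        (fun h' => hv (h' ▸ ha))
    rw [← pr_left hR G hGX v hvX hv hgv, pr_comm hR G hGX v hvX hv hgv, smul_smul,
      KoszAux.neg_one_pow_self, one_smul]
  -- the lift of `y`
  have hex : ∀ F, ∃ m : M, (Cl A X F ∧ F.card = i → pr ψ F m = y F) ∧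
      (¬ (Cl A X F ∧ F.card = i) → m = 0) := by
    intro F
    by_cases hF : Cl A X F ∧ F.card = i
    · obtain ⟨m, hm⟩ := pr_range hR F hF.1.1 (y F) (fun v hv => hy.kill hv)
      exact ⟨m, fun _ => hm, fun h' => absurd hF h'⟩
    · exact ⟨0, fun h' => absurd h' hF, fun _ => rfl⟩
  choose z hz1 hz2 using hex
  have hz : ∀ F, z F ≠ 0 → Cl A X F ∧ F.card = i := by
    intro F hF
    by_contra h'
    exact hF (hz2 F h')
  have hprz : ∀ F, pr ψ F (z F) = y F := by
    intro F
    by_cases hF : Cl A X F ∧ F.card = i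
    · exact hz1 F hF
    · rw [hz2 F hF, KoszAux.pr_zero]
      by_contra h'
      exact hF ⟨(hy F (fun h0 => h' h0.symm)).1, (hy F (fun h0 => h' h0.symm)).2.1⟩
  have hu : ∀ G, Cl A X G → G.card + 1 = i → ∃ c : V → M,
      ∑ v ∈ Gᶜ, ψ v (z (insert v G)) = ∑ w ∈ G, ψ w (c w) := by
    intro G hG hGc
    apply pr_ker hR G hG.1 (hgF G hG)
    rw [HoAux.pr_sum]
    have h1 : ∀ v ∈ Gᶜ, pr ψ G (ψ v (z (insert v G))) =
        (-1 : K) ^ G.card • (eps K v G • y (insert v G)) := by
      intro v hv
      by_cases hP : Cl A X (insert v G)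
      · rw [key G v (Finset.mem_compl.mp hv) hP, hprz]
      · rw [hz2 _ (fun h' => hP h'.1), hy.off hP, map_zero, KoszAux.pr_zero, smul_zero, smul_zero]
    rw [Finset.sum_congr rfl h1, ← Finset.smul_sum]
    have h2 := congrFun hbm G
    unfold bm at h2
    rw [h2, Pi.zero_apply, smul_zero]
  obtain ⟨c, d, hcd⟩ := HoAux.step_a h ψ φ hR i hi z hz hu
  let c' : Finset V → M := fun G =>
    if Cl A X G ∧ G.card = i + 1 then (-1 : K) ^ i • pr ψ G (c G) else 0
  have hc1 : ∀ G, Cl A X G ∧ G.card = i + 1 → c' G = (-1 : K) ^ i • pr ψ G (c G) := by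
    intro G hG
    simp only [c', if_pos hG]
  have hc2 : ∀ G, ¬ (Cl A X G ∧ G.card = i + 1) → c' G = 0 := by
    intro G hG
    simp only [c', if_neg hG]
  refine ⟨c', ?_, ?_⟩
  · intro G hG
    have hP : Cl A X G ∧ G.card = i + 1 := by
      by_contra h'
      exact hG (hc2 G h')
    refine ⟨hP.1, hP.2, fun v hv => ?_⟩
    rw [hc1 G hP, map_smul, (pr_kill hR G hP.1.1 (hgF G hP.1) v hv _).1, smul_zero]
  · funext F
    unfold bm
    by_cases hF : Cl A X F ∧ F.card = i
    · rw [← hprz F, ← hcd, HoAux.LL_pos _ _ hF, pr_add, HoAux.pr_sum, HoAux.pr_sum]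
      have h0 : ∑ v ∈ F, pr ψ F (ψ v (d F v)) = 0 :=
        Finset.sum_eq_zero fun v hv => (pr_kill hR F hF.1.1 (hgF F hF.1) v hv _).2
      rw [h0, add_zero]
      refine Finset.sum_congr rfl fun v hv => ?_
      have hv' : v ∉ F := Finset.mem_compl.mp hv
      by_cases hP : Cl A X (insert v F)
      · rw [if_pos hP, key F v hv' hP, hc1 (insert v F) ⟨hP, by
          rw [Finset.card_insert_of_notMem hv', hF.2]⟩, hF.2, smul_comm]
      · rw [if_neg hP, KoszAux.pr_zero, hc2 (insert v F) (fun h' => hP h'.1), smul_zero]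
    · rw [show y F = 0 from by
        by_contra h'
        exact hF ⟨(hy F h').1, (hy F h').2.1⟩]
      refine Finset.sum_eq_zero fun v hv => ?_
      have hv' : v ∉ F := Finset.mem_compl.mp hv
      rw [hc2, smul_zero]
      rintro ⟨h1, h2⟩
      apply hF
      refine ⟨h1.down (Finset.subset_insert _ _), ?_⟩
      rw [Finset.card_insert_of_notMem hv'] at h2
      omega

end Pool.Agent.MP19e880.W1
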