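import Pool.Agent.Lib.MP_19e880_co_W1.Basic

/-!
Clifford complexes of flag complexes: from chains to cochains (module COH).
-/

set_option autoImplicit false
set_option linter.unusedSectionVars false

namespace Pool.Agent.MP19e880.W1

variable {V : Type} [Fintype V] [LinearOrder V] {K : Type} [Field K]
  {M : Type} [AddCommGroup M] [Module K M]

namespace CohAux

/-- the boundary as a linear map -/
def bdL : (Finset V → K) →ₗ[K] (Finset V → K) where
  toFun := bd
  map_add' := bd_add
  map_smul' := bd_smul

/-- the chains as a subspace -/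
def chS (P : Finset V → Prop) (j : ℕ) : Submodule K (Finset V → K) where
  carrier := {c | Ch P j c}
  zero_mem' := fun F hF => absurd rfl hF
  add_mem' := by
    intro x y hx hy F hF
    by_cases h : x F = 0
    · have : y F ≠ 0 := by
        intro h'
        apply hF
        simp [h, h']
      exact hy F this
    · exact hx F h
  smul_mem' := by
    intro a x hx F hF
    refine hx F ?_
    intro h
    apply hF
    simp [h]

/-- pairing with a cochain -/
def pairL (z : Finset V → M) : (Finset V → K) →ₗ[K] M where
  toFun c := ∑ F, c F • z F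
  map_add' x y := by
    rw [← Finset.sum_add_distrib]
    exact Finset.sum_congr rfl fun F _ => by rw [Pi.add_apply, add_smul]
  map_smul' a x := by
    rw [RingHom.id_apply, Finset.smul_sum]
    exact Finset.sum_congr rfl fun F _ => by rw [Pi.smul_apply, smul_eq_mul, mul_smul]

theorem reindex {α : Type*} [AddCommMonoid α] (f : Finset V → V → α) :
    ∑ F : Finset V, ∑ v ∈ Fᶜ, f F v = ∑ G : Finset V, ∑ v ∈ G, f (G.erase v) v := by
  rw [Finset.sum_sigma', Finset.sum_sigma']
  refine Finset.sum_bij' (fun p _ => ⟨insert p.2 p.1, p.2⟩) (fun p _ => ⟨p.1.erase p.2, p.2⟩)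
    ?_ ?_ ?_ ?_ ?_
  · rintro ⟨F, v⟩ _
    simp
  · rintro ⟨F, v⟩ _
    simp
  · rintro ⟨F, v⟩ h
    simp only [Finset.mem_sigma, Finset.mem_univ, Finset.mem_compl, true_and] at h
    simp only [Finset.erase_insert h]
  · rintro ⟨F, v⟩ h
    simp only [Finset.mem_sigma, Finset.mem_univ, true_and] at h
    simp only [Finset.insert_erase h]
  · rintro ⟨F, v⟩ h
    simp only [Finset.mem_sigma, Finset.mem_univ, Finset.mem_compl, true_and] at h
    simp only [Finset.erase_insert h]

/-- boundary and coboundary are adjoint -/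
theorem pair_bd (c : Finset V → K) (z : Finset V → M) :
    pairL z (bd c) = ∑ G, c G • cm K z G := by
  change ∑ F, (bd c F) • z F = _
  have h1 : ∀ F : Finset V, (bd c F) • z F = ∑ v ∈ Fᶜ, c (insert v F) • eps K v F • z F := by
    intro F
    unfold bd
    rw [Finset.sum_smul]
    refine Finset.sum_congr rfl fun v _ => ?_
    rw [smul_smul, mul_comm]
  rw [Finset.sum_congr rfl fun F _ => h1 F, reindex]
  refine Finset.sum_congr rfl fun G _ => ?_
  unfold cm
  rw [Finset.smul_sum]
  refine Finset.sum_congr rfl fun v hv => ?_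
  rw [Finset.insert_erase hv]

theorem single_ch {P : Finset V → Prop} {G : Finset V} (hG : P G) :
    Ch P G.card (Pi.single G (1 : K)) := by
  intro F hF
  have h : F = G := by
    by_contra h
    exact hF (Pi.single_eq_of_ne h _)
  rw [h]
  exact ⟨hG, rfl⟩

theorem bd_single (G : Finset V) : bd (Pi.single G (1 : K)) =
    ∑ v ∈ G, eps K v (G.erase v) • Pi.single (G.erase v) (1 : K) := by
  funext A
  unfold bd
  rw [Finset.sum_apply]
  have h1 : ∀ v ∈ Aᶜ, eps K v A * (Pi.single G (1 : K) : Finset V → K) (insert v A) =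
      if insert v A = G then eps K v A else 0 := by
    intro v _
    split_ifs with h
    · rw [h, Pi.single_eq_same, mul_one]
    · rw [Pi.single_eq_of_ne h, mul_zero]
  have h2 : ∀ v ∈ G, (eps K v (G.erase v) • (Pi.single (G.erase v) (1 : K) : Finset V → K)) A =
      if A = G.erase v then eps K v A else 0 := by
    intro v _
    rw [Pi.smul_apply, smul_eq_mul]
    split_ifs with h
    · rw [h, Pi.single_eq_same, mul_one]
    · rw [Pi.single_eq_of_ne h, mul_zero]
  rw [Finset.sum_congr rfl h1, Finset.sum_congr rfl h2, ← Finset.sum_filter, ← Finset.sum_filter]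
  refine Finset.sum_congr ?_ fun _ _ => rfl
  ext v
  simp only [Finset.mem_filter, Finset.mem_compl]
  constructor
  · rintro ⟨h3, h4⟩
    rw [← h4]
    exact ⟨Finset.mem_insert_self _ _, (Finset.erase_insert h3).symm⟩
  · rintro ⟨h3, h4⟩
    rw [h4]
    exact ⟨Finset.notMem_erase _ _, Finset.insert_erase h3⟩

/-- a linear map which kills the kernel of another one factors through it -/
theorem factor {A B C : Type*} [AddCommGroup A] [Module K A] [AddCommGroup B] [Module K B]
    [AddCommGroup C] [Module K C] (f : A →ₗ[K] B) (l : A →ₗ[K] C)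
    (h : ∀ x, f x = 0 → l x = 0) : ∃ μ : B →ₗ[K] C, ∀ x, μ (f x) = l x := by
  have hk : LinearMap.ker f ≤ LinearMap.ker l := by
    intro x hx
    rw [LinearMap.mem_ker] at hx ⊢
    exact h x hx
  let g : LinearMap.range f →ₗ[K] C :=
    ((LinearMap.ker f).liftQ l hk).comp (f.quotKerEquivRange.symm : _ →ₗ[K] _)
  obtain ⟨μ, hμ⟩ := LinearMap.exists_extend g
  refine ⟨μ, fun x => ?_⟩
  have h1 := congrArg (fun q => q ⟨f x, LinearMap.mem_range_self f x⟩) hμ
  simp only [LinearMap.comp_apply, Submodule.subtype_apply, g] at h1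
  rw [h1]
  have h2 : f.quotKerEquivRange.symm ⟨f x, LinearMap.mem_range_self f x⟩ =
      (LinearMap.ker f).mkQ x := f.quotKerEquivRange_symm_apply_image x _
  simp only [LinearEquiv.coe_coe]
  rw [h2]
  rfl

end CohAux

open CohAux in
/-- cochains with values in a subspace, from exactness of the chain complex -/
theorem coh {P : Finset V → Prop} (hP : ∀ F, P F → ∀ G, G ⊆ F → P G) (j : ℕ)
    (hex : ∀ z : Finset V → K, Ch P j z → bd z = 0 → ∃ c : Finset V → K, Ch P (j + 1) c ∧ bd c = z)
    (N : Submodule K M) (z : Finset V → M) (hz : Cm P j z) (hN : ∀ F, z F ∈ N)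
    (hc : ∀ G, P G → cm K z G = 0) :
    ∃ w : Finset V → M, (∀ F, w F ≠ 0 → P F ∧ F.card + 1 = j) ∧ (∀ F, w F ∈ N) ∧
      ∀ G, P G → cm K w G = z G := by
  classical
  let l : (Finset V → K) →ₗ[K] N := LinearMap.codRestrict N (pairL z) (fun c => by
    change ∑ F, c F • z F ∈ N
    exact Submodule.sum_mem _ fun F _ => Submodule.smul_mem _ _ (hN F))
  have hl : ∀ c, ((l c : N) : M) = pairL z c := fun c => rfl
  obtain ⟨μ, hμ⟩ := factor (bdL.comp (chS (K := K) P j).subtype) (l.comp (chS (K := K) P j).subtype)
    (by
      rintro ⟨c, hcc⟩ hb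
      have hb' : bd c = 0 := hb
      obtain ⟨c', hc', hbc⟩ := hex c hcc hb'
      refine Subtype.ext ?_
      change pairL z c = 0
      rw [← hbc, pair_bd]
      refine Finset.sum_eq_zero fun G _ => ?_
      by_cases h : c' G = 0
      · rw [h, zero_smul]
      · rw [hc G (hc' G h).1, smul_zero])
  refine ⟨fun F => if P F ∧ F.card + 1 = j then (μ (Pi.single F 1) : M) else 0, ?_, ?_, ?_⟩
  · intro F hF
    by_contra h
    exact hF (if_neg h)
  · intro F
    simp only
    split_ifs
    · exact (μ _).2
    · exact N.zero_mem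
  · intro G hG
    by_cases hj : G.card = j
    · have h1 := hμ ⟨Pi.single G 1, hj ▸ single_ch hG⟩
      have h2 : μ (bd (Pi.single G (1 : K))) = l (Pi.single G 1) := h1
      have h3 : ((μ (bd (Pi.single G (1 : K))) : N) : M) = ((l (Pi.single G 1) : N) : M) :=
        congrArg (fun x : N => (x : M)) h2
      rw [hl] at h3
      have h4 : pairL z (Pi.single G (1 : K)) = z G := by
        change ∑ F, (Pi.single G (1 : K) : Finset V → K) F • z F = z G
        rw [Finset.sum_eq_single G]
        · rw [Pi.single_eq_same, one_smul]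
        · intro F _ hF
          rw [Pi.single_eq_of_ne hF, zero_smul]
        · intro h
          exact absurd (Finset.mem_univ _) h
      rw [h4, bd_single, map_sum] at h3
      rw [← h3]
      unfold cm
      rw [Submodule.coe_sum]
      refine Finset.sum_congr rfl fun v hv => ?_
      have h5 : P (G.erase v) ∧ (G.erase v).card + 1 = j := by
        refine ⟨hP G hG _ (Finset.erase_subset _ _), ?_⟩
        rw [Finset.card_erase_add_one hv, hj]
      simp only [if_pos h5, map_smul, Submodule.coe_smul]
    · have h1 : z G = 0 := by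
        by_contra h
        exact hj (hz G h).2
      rw [h1]
      unfold cm
      refine Finset.sum_eq_zero fun v hv => ?_
      have h6 : ¬ (P (G.erase v) ∧ (G.erase v).card + 1 = j) := by
        rintro ⟨_, h5⟩
        rw [Finset.card_erase_add_one hv] at h5
        exact hj h5
      simp only [if_neg h6, smul_zero]

end Pool.Agent.MP19e880.W1
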