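import Pool.Agent.Lib.MP_19e880_co_W1.Basic

/-!
Clifford complexes of flag complexes: deletion of a vertex set without large faces.
-/

set_option autoImplicit false
set_option linter.unusedSectionVars false

namespace Pool.Agent.MP19e880.W1

variable {V : Type} [Fintype V] [LinearOrder V] {K : Type} [Field K]
  {M : Type} [AddCommGroup M] [Module K M]

/-- deletion of a vertex set without large faces -/
theorem del_ex {S : Finset (Finset V)} {d : ℕ} (h : HS K S d) (R : Finset V) :
    ∀ σ ∈ S, ∀ e : ℕ, (∀ F : Finset V, F ⊆ R → Disjoint F σ → F ∪ σ ∈ S →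
      F.card + e + σ.card ≤ d) → ∀ j, j < e → ∀ z : Finset V → K, Ch (LX S σ R) j z → bd z = 0 →
      ∃ c : Finset V → K, Ch (LX S σ R) (j + 1) c ∧ bd c = z := by
  induction R using Finset.induction_on with
  | empty =>
    intro σ hσ e H j hj z hz hbz
    have h1 := H ∅ (Finset.Subset.refl _) (Finset.disjoint_empty_left _)
      (by rw [Finset.empty_union]; exact hσ)
    rw [Finset.card_empty] at h1
    exact h.ex σ hσ j (by omega) z hz hbz
  | insert r R hr ih =>
    intro σ hσ e H j hj z hz hbz
    have H' : ∀ F : Finset V, F ⊆ R → Disjoint F σ → F ∪ σ ∈ S → F.card + e + σ.card ≤ d :=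
      fun F hF => H F (hF.trans (Finset.subset_insert _ _))
    have hz' : Ch (LX S σ R) j z := hz.mono fun A _ h => ⟨h.1, h.2.1,
      (Finset.disjoint_insert_right.mp h.2.2).2⟩
    obtain ⟨c, hc, hcz⟩ := ih σ hσ e H' j hj z hz' hbz
    by_cases hcase : r ∉ σ ∧ insert r σ ∈ S
    · obtain ⟨hrσ, hrS⟩ := hcase
      have hzav : ∀ A, r ∈ A → z A = 0 := by
        intro A hA
        by_contra h'
        have := (hz A h').1.2.2
        rw [Finset.disjoint_insert_right] at this
        exact this.1 hA
      have hlk := lk_chain S σ R r j c hc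
      have hb0 : bd (lk r c) = 0 := by
        rw [bd_lk, hcz]
        funext A
        by_cases hx : r ∈ A
        · simp [lk, hx]
        · simp [lk, hx, hzav (insert r A) (Finset.mem_insert_self _ _)]
      obtain ⟨e', he, hee⟩ := ih (insert r σ) hrS e (by
        intro F hF hd hFS
        rw [Finset.disjoint_insert_right] at hd
        have h1 := H (insert r F) (Finset.insert_subset_insert _ hF)
          (by rw [Finset.disjoint_insert_left]; exact ⟨hrσ, hd.2⟩)
          (by rw [Finset.insert_union, ← Finset.union_insert]; exact hFS)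
        rw [Finset.card_insert_of_notMem hd.1] at h1
        rw [Finset.card_insert_of_notMem hrσ]
        omega) j hj (lk r c) hlk hb0
      obtain ⟨h3, h4⟩ := push S h.down σ R r j c e' hc he (by
        intro A hA
        rw [hcz, hzav A hA]) hee
      exact ⟨_, h3, h4.trans hcz⟩
    · refine ⟨c, hc.mono fun A _ hA => ⟨hA.1, hA.2.1, ?_⟩, hcz⟩
      rw [Finset.disjoint_insert_right]
      refine ⟨fun hrA => hcase ⟨fun hrσ => Finset.disjoint_left.1 hA.1 hrA hrσ, ?_⟩, hA.2.2⟩
      exact h.down _ hA.2.1 _ (Finset.insert_subset (Finset.mem_union_left _ hrA)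
        Finset.subset_union_right)

end Pool.Agent.MP19e880.W1
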