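import Pool.Agent.Lib.MP_19e880_co_W1.Basic

/-!
The cone operator on simplicial chains.
-/

set_option autoImplicit false
set_option linter.unusedSectionVars false

namespace Pool.Agent.MP19e880.W1

variable {V : Type} [Fintype V] [LinearOrder V] {K : Type} [Field K]
  {M : Type} [AddCommGroup M] [Module K M]

/-- The cone over a chain with apex `u` (the part of the chain on the sets containing `u` is
ignored). -/
def cone (u : V) (a : Finset V → K) : Finset V → K :=
  fun A => if u ∈ A then eps K u (A.erase u) * a (A.erase u) else 0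

theorem cone_mem {u : V} (a : Finset V → K) {A : Finset V} (h : u ∈ A) :
    cone u a A = eps K u (A.erase u) * a (A.erase u) := if_pos h

theorem cone_notMem {u : V} (a : Finset V → K) {A : Finset V} (h : u ∉ A) :
    cone u a A = 0 := if_neg h

theorem cone_insert {u : V} (a : Finset V → K) {A : Finset V} (h : u ∉ A) :
    cone u a (insert u A) = eps K u A * a A := by
  rw [cone_mem a (Finset.mem_insert_self u A), Finset.erase_insert h]

theorem cone_add (u : V) (a b : Finset V → K) : cone u (a + b) = cone u a + cone u b := by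
  funext A
  by_cases h : u ∈ A
  · rw [Pi.add_apply, cone_mem _ h, cone_mem _ h, cone_mem _ h, Pi.add_apply]
    ring
  · rw [Pi.add_apply, cone_notMem _ h, cone_notMem _ h, cone_notMem _ h, add_zero]

theorem cone_smul (u : V) (t : K) (a : Finset V → K) : cone u (t • a) = t • cone u a := by
  funext A
  by_cases h : u ∈ A
  · rw [Pi.smul_apply, cone_mem _ h, cone_mem _ h, Pi.smul_apply, smul_eq_mul, smul_eq_mul]
    ring
  · rw [Pi.smul_apply, cone_notMem _ h, cone_notMem _ h, smul_zero]

theorem cone_neg (u : V) (a : Finset V → K) : cone u (-a) = -cone u a := by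
  have h := cone_smul u (-1) a
  rwa [neg_one_smul, neg_one_smul] at h

theorem cone_sub (u : V) (a b : Finset V → K) : cone u (a - b) = cone u a - cone u b := by
  rw [sub_eq_add_neg, cone_add, cone_neg, sub_eq_add_neg]

theorem cone_zero (u : V) : cone u (0 : Finset V → K) = 0 := by
  have h := cone_smul u 0 (0 : Finset V → K)
  rwa [zero_smul, zero_smul] at h

/-- The boundary of a cone. -/
theorem bd_cone (u : V) (a : Finset V → K) : bd (cone u a) = a - cone u (bd a) := by
  funext A
  rw [Pi.sub_apply]
  by_cases hu : u ∈ A
  · obtain ⟨B, hB, rfl⟩ : ∃ B, u ∉ B ∧ A = insert u B :=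
      ⟨A.erase u, Finset.notMem_erase u A, (Finset.insert_erase hu).symm⟩
    rw [cone_insert _ hB]
    simp only [bd]
    have h2 : (insert u B)ᶜ = Bᶜ.erase u := by
      ext v
      simp only [Finset.mem_compl, Finset.mem_insert, not_or, Finset.mem_erase]
    have hx' : u ∈ Bᶜ := by simpa using hB
    rw [h2, ← Finset.add_sum_erase Bᶜ (fun v => eps K v B * a (insert v B)) hx', mul_add,
      ← mul_assoc, eps_mul_self, one_mul, Finset.mul_sum]
    have h3 : ∑ v ∈ Bᶜ.erase u, eps K v (insert u B) * cone u a (insert v (insert u B)) =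
        -∑ v ∈ Bᶜ.erase u, eps K u B * (eps K v B * a (insert v B)) := by
      rw [← Finset.sum_neg_distrib]
      refine Finset.sum_congr rfl fun v hv => ?_
      rw [Finset.mem_erase, Finset.mem_compl] at hv
      have h4 : u ∉ insert v B := by
        rw [Finset.mem_insert, not_or]
        exact ⟨fun h => hv.1 h.symm, hB⟩
      rw [Finset.insert_comm v u B, cone_insert _ h4]
      have h5 := eps_swap (k := K) v u B hv.2 hB hv.1
      have h6 := eps_mul_self (k := K) u B
      have h7 := eps_mul_self (k := K) u (insert v B)
      calc eps K v (insert u B) * (eps K u (insert v B) * a (insert v B))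
          = (eps K v (insert u B) * eps K u B) * (eps K u B * eps K u (insert v B))
              * a (insert v B) := by
            linear_combination (-(eps K v (insert u B) * eps K u (insert v B)
              * a (insert v B))) * h6
        _ = -(eps K u B * (eps K v B * a (insert v B))) := by
            rw [h5]
            linear_combination (-(eps K u B * eps K v B * a (insert v B))) * h7
    rw [h3]
    ring
  · rw [cone_notMem _ hu, sub_zero]
    simp only [bd]
    have hx' : u ∈ Aᶜ := by simpa using hu
    rw [← Finset.add_sum_erase Aᶜ (fun v => eps K v A * cone u a (insert v A)) hx',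
      cone_insert _ hu, ← mul_assoc, eps_mul_self, one_mul]
    have h3 : ∑ v ∈ Aᶜ.erase u, eps K v A * cone u a (insert v A) = 0 := by
      refine Finset.sum_eq_zero fun v hv => ?_
      rw [Finset.mem_erase] at hv
      have h4 : u ∉ insert v A := by
        rw [Finset.mem_insert, not_or]
        exact ⟨fun h => hv.1 h.symm, hu⟩
      rw [cone_notMem _ h4, mul_zero]
    rw [h3, add_zero]

theorem cone_cone (u : V) (a : Finset V → K) : cone u (cone u a) = 0 := by
  funext A
  by_cases h : u ∈ A
  · rw [cone_mem _ h, cone_notMem _ (Finset.notMem_erase u A), mul_zero, Pi.zero_apply]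
  · rw [cone_notMem _ h, Pi.zero_apply]

theorem cone_anti {u v : V} (huv : u ≠ v) (a : Finset V → K) :
    cone u (cone v a) = -cone v (cone u a) := by
  funext A
  rw [Pi.neg_apply]
  by_cases hu : u ∈ A
  · by_cases hv : v ∈ A
    · have h1 : v ∈ A.erase u := Finset.mem_erase.mpr ⟨huv.symm, hv⟩
      have h2 : u ∈ A.erase v := Finset.mem_erase.mpr ⟨huv, hu⟩
      rw [cone_mem _ hu, cone_mem _ h1, cone_mem _ hv, cone_mem _ h2]
      obtain ⟨T, hT⟩ : ∃ T, T = (A.erase u).erase v := ⟨_, rfl⟩
      have hT' : (A.erase v).erase u = T := by rw [hT, Finset.erase_right_comm]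
      have huT : u ∉ T := by rw [← hT']; exact Finset.notMem_erase u _
      have hvT : v ∉ T := by rw [hT]; exact Finset.notMem_erase v _
      have e1 : A.erase u = insert v T := by rw [hT, Finset.insert_erase h1]
      have e2 : A.erase v = insert u T := by rw [← hT', Finset.insert_erase h2]
      rw [e1, e2, Finset.erase_insert hvT, Finset.erase_insert huT, ← mul_assoc, ← mul_assoc,
        eps_swap (k := K) u v T huT hvT huv]
      ring
    · have h1 : v ∉ A.erase u := fun h => hv (Finset.mem_of_mem_erase h)
      rw [cone_mem _ hu, cone_notMem _ h1, cone_notMem _ hv, mul_zero, neg_zero]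
  · by_cases hv : v ∈ A
    · have h2 : u ∉ A.erase v := fun h => hu (Finset.mem_of_mem_erase h)
      rw [cone_notMem _ hu, cone_mem _ hv, cone_notMem _ h2, mul_zero, neg_zero]
    · rw [cone_notMem _ hu, cone_notMem _ hv, neg_zero]

/-- The link of a cone. -/
theorem lk_cone (u : V) (a : Finset V → K) (ha : ∀ A, u ∈ A → a A = 0) :
    lk u (cone u a) = a := by
  funext A
  by_cases h : u ∈ A
  · rw [lk_avoid _ _ _ h, ha A h]
  · simp only [lk, if_neg h]
    rw [cone_insert _ h, ← mul_assoc, eps_mul_self, one_mul]

theorem res_cone (u : V) (a : Finset V → K) : res u (cone u a) = 0 := by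
  funext A
  by_cases h : u ∈ A
  · rw [res_avoid _ _ _ h, Pi.zero_apply]
  · simp only [res, if_neg h]
    rw [cone_notMem _ h, Pi.zero_apply]

/-- Decomposition of a chain at the vertex `v`. -/
theorem eq_res_add_cone (v : V) (c : Finset V → K) : c = res v c + cone v (lk v c) := by
  funext A
  rw [Pi.add_apply]
  by_cases h : v ∈ A
  · rw [res_avoid _ _ _ h, cone_mem _ h, zero_add]
    simp only [lk, if_neg (Finset.notMem_erase v A)]
    rw [← mul_assoc, eps_mul_self, one_mul, Finset.insert_erase h]
  · rw [cone_notMem _ h, add_zero]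
    simp only [res, if_neg h]

/-- The cone of a chain of the link is a chain. -/
theorem cone_chain {P Q : Finset V → Prop} {u : V} {j : ℕ} {a : Finset V → K} (ha : Ch Q j a)
    (h : ∀ T, u ∉ T → Q T → P (insert u T)) : Ch P (j + 1) (cone u a) := by
  intro A hA
  by_cases hu : u ∈ A
  · rw [cone_mem _ hu] at hA
    obtain ⟨h1, h2⟩ := ha _ (right_ne_zero_of_mul hA)
    have h3 := h _ (Finset.notMem_erase u A) h1
    rw [Finset.insert_erase hu] at h3
    rw [Finset.card_erase_of_mem hu] at h2
    have : 0 < A.card := Finset.card_pos.mpr ⟨u, hu⟩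
    exact ⟨h3, by omega⟩
  · exact absurd (cone_notMem _ hu) hA

theorem res_bd (v : V) (c : Finset V → K) : res v (bd c) = bd (res v c) + lk v c := by
  funext A
  rw [Pi.add_apply]
  by_cases h : v ∈ A
  · rw [res_avoid _ _ _ h, bd_mem_of_avoid v _ (res_avoid v c) A h, lk_avoid _ _ _ h, add_zero]
  · rw [← bd_notMem v c A h]
    simp only [res, if_neg h]

end Pool.Agent.MP19e880.W1
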