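import Pool.Agent.Lib.MP_19e880_co_W1.Basic
import Pool.Agent.Lib.MP_19e880_co_W1.Loc
import Pool.Agent.Lib.MP_19e880_co_W1.ConeOp
import Pool.Agent.Lib.MP_19e880_co_W1.StarX

/-!
Clifford complexes of flag complexes: locality with a homological exceptional set.
-/

set_option autoImplicit false
set_option linter.unusedSectionVars false

namespace Pool.Agent.MP19e880.W1

variable {V : Type} [Fintype V] [LinearOrder V] {K : Type} [Field K]
  {M : Type} [AddCommGroup M] [Module K M]

namespace Loc2Aux

/-- The index pairs of the double complex. -/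
def ok (S : Finset (Finset V)) (R s F : Finset V) : Prop :=
  s ∪ F ∈ S ∧ Disjoint s R

theorem ok.left {S : Finset (Finset V)} (hS : ∀ F ∈ S, ∀ G : Finset V, G ⊆ F → G ∈ S)
    {R s F t : Finset V} (h : ok S R s F) (ht : t ⊆ s) : ok S R t F :=
  ⟨hS _ h.1 _ (Finset.union_subset_union_left ht), Finset.disjoint_of_subset_left ht h.2⟩

theorem ok.right {S : Finset (Finset V)} (hS : ∀ F ∈ S, ∀ G : Finset V, G ⊆ F → G ∈ S)
    {R s F G : Finset V} (h : ok S R s F) (hG : G ⊆ F) : ok S R s G :=
  ⟨hS _ h.1 _ (Finset.union_subset_union_right hG), h.2⟩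

open Classical in
/-- The differential raising `s`. -/
noncomputable def hop (K : Type) [Field K] {M : Type} [AddCommGroup M] [Module K M]
    (S : Finset (Finset V)) (R : Finset V) (a : Finset V → Finset V → M) :
    Finset V → Finset V → M :=
  fun s F => if ok S R s F then cm K (fun t => a t F) s else 0

/-- The differential raising `F`. -/
noncomputable def topr (S : Finset (Finset V)) (R : Finset V) (ψ : V → M →ₗ[K] M)
    (a : Finset V → Finset V → M) : Finset V → Finset V → M :=
  fun s => dl (ok S R s) ψ (a s)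

theorem hop_pos {S : Finset (Finset V)} {R : Finset V} {a : Finset V → Finset V → M}
    {s F : Finset V} (h : ok S R s F) : hop K S R a s F = cm K (fun t => a t F) s := by
  unfold hop
  rw [if_pos h]

theorem hop_neg {S : Finset (Finset V)} {R : Finset V} {a : Finset V → Finset V → M}
    {s F : Finset V} (h : ¬ ok S R s F) : hop K S R a s F = 0 := by
  unfold hop
  rw [if_neg h]

/-- The part of bidegree `(p, q)`. -/
def D (S : Finset (Finset V)) (R : Finset V) (ψ : V → M →ₗ[K] M) (p q : ℕ)
    (a : Finset V → Finset V → M) : Prop :=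
  ∀ s F, a s F ≠ 0 → ok S R s F ∧ s.card = p ∧ F.card = q ∧ ∀ v ∈ F, ψ v (a s F) = 0

theorem D.co {S : Finset (Finset V)} {R : Finset V} {ψ : V → M →ₗ[K] M} {p q : ℕ}
    {a : Finset V → Finset V → M} (h : D S R ψ p q a) (s : Finset V) :
    Co (ok S R s) ψ q (a s) := by
  intro F hF
  obtain ⟨h1, _, h3, h4⟩ := h s F hF
  exact ⟨h1, h3, h4⟩

theorem D.cards {S : Finset (Finset V)} {R : Finset V} {ψ : V → M →ₗ[K] M} {p q : ℕ}
    {a : Finset V → Finset V → M} (h : D S R ψ p q a) {s : Finset V} (hs : s.card ≠ p) :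
    a s = 0 := by
  funext F
  by_contra hF
  exact hs (h s F hF).2.1

/-- A complex closed under adding the vertex `a` is acyclic. -/
theorem cone_acyc {P : Finset V → Prop} (a : V) (hP : ∀ s, P s → P (insert a s)) (j : ℕ)
    (z : Finset V → K) (hz : Ch P j z) (hb : bd z = 0) :
    ∃ c : Finset V → K, Ch P (j + 1) c ∧ bd c = z := by
  refine ⟨cone a z, cone_chain hz fun T _ hT => hP T hT, ?_⟩
  rw [bd_cone, hb, cone_zero, sub_zero]

end Loc2Aux

open Loc2Aux in
theorem loc_star {S : Finset (Finset V)} {d n : ℕ} (h : HS K S d) (g : V → V → K)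
    (hg : ∀ a b, a ≠ b → ({a, b} : Finset V) ∈ S → g a b = 0) (R : Finset V)
    (hR : ∀ F ∈ S, F ⊆ R → ∀ j, j + F.card < n → ∀ z : Finset V → K, Ch (LX S F R) j z →
      bd z = 0 → ∃ c : Finset V → K, Ch (LX S F R) (j + 1) c ∧ bd c = z)
    (hV : ∀ σ ∈ S, σ ≠ ∅ → Disjoint σ R → σ.card ≤ n → VV g (ad S) (lv S σ) (n + 1 - σ.card)) :
    VV g (ad S) (lv S ∅) n := by
  classical
  have h0 : (∅ : Finset V) ∈ S := h.flag ∅ fun a ha => absurd ha (Finset.notMem_empty a)
  intro M _ _ ψ φ hRel j hj
  -- faces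
  have hcl : Cl (ad S) (lv S ∅) = ok S R ∅ := by
    funext F
    apply propext
    rw [cl_lv h ∅ h0 F]
    unfold LX ok
    rw [Finset.union_comm]
    constructor
    · rintro ⟨_, h2, _⟩
      exact ⟨h2, Finset.disjoint_empty_left _⟩
    · rintro ⟨h1, _⟩
      exact ⟨Finset.disjoint_empty_right _, h1, Finset.disjoint_empty_right _⟩
  have hlv : ∀ s F, ok S R s F → ∀ v ∈ F, v ∈ lv S ∅ := by
    intro s F hsF v hv
    unfold lv
    rw [Finset.mem_filter]
    refine ⟨Finset.mem_univ _, Finset.notMem_empty _, h.down _ hsF.1 _ ?_⟩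
    intro w hw
    rw [Finset.mem_insert] at hw
    rcases hw with rfl | hw
    · exact Finset.mem_union_right _ hv
    · exact absurd hw (Finset.notMem_empty _)
  have hok : ∀ s, Ok (ok S R s) ψ := by
    intro s
    refine ⟨fun F hF G hG => hF.right h.down hG, fun F hF v hv x => ?_,
      fun F hF u hu v hv huv x => ?_⟩
    · exact hRel.sq v (hlv s F hF v hv) x
    · rw [hRel.ac u (hlv s F hF u hu) v (hlv s F hF v hv) huv, hg u v huv, zero_smul]
      refine h.down _ hF.1 _ ?_
      intro w hw
      rw [Finset.mem_insert, Finset.mem_singleton] at hw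
      rcases hw with rfl | rfl
      · exact Finset.mem_union_right _ hu
      · exact Finset.mem_union_right _ hv
  -- exactness in the `T`-direction
  have hTex : ∀ s ∈ S, s ≠ ∅ → Disjoint s R → s.card ≤ n → ∀ q, q < n + 1 - s.card →
      ExAt (ok S R s) ψ q := by
    intro s hs hs0 hsR hsn q hq
    have h1 := star_ex h g hg s hs (n + 1 - s.card) (hV s hs hs0 hsR hsn) ψ φ hRel q hq
    have h2 : (fun F => F ∪ s ∈ S) = ok S R s := by
      funext F
      apply propext
      unfold ok
      rw [Finset.union_comm]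
      exact ⟨fun h => ⟨h, hsR⟩, fun h => h.1⟩
    rwa [h2] at h1
  have hsS : ∀ s F, ok S R s F → s ∈ S := fun s F hsF =>
    h.down _ hsF.1 _ Finset.subset_union_left
  have hFS : ∀ s F, ok S R s F → F ∈ S := fun s F hsF =>
    h.down _ hsF.1 _ Finset.subset_union_right
  -- exactness in the `H`-direction
  have hHex : ∀ p q, p + q ≤ j → ∀ a : Finset V → Finset V → M, D S R ψ p q a →
      hop K S R a = 0 → ∀ F, F ∈ S → F.card = q → ∃ w : Finset V → M,
        (∀ s, w s ≠ 0 → ok S R s F ∧ s.card + 1 = p ∧ ∀ v ∈ F, ψ v (w s) = 0) ∧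
        ∀ s, ok S R s F → cm K w s = a s F := by
    intro p q hpq a ha hHa F hF hFq
    have hex : ∀ z : Finset V → K, Ch (fun s => ok S R s F) p z → bd z = 0 →
        ∃ c : Finset V → K, Ch (fun s => ok S R s F) (p + 1) c ∧ bd c = z := by
      by_cases hFR : F ⊆ R
      · have hP : (fun s => ok S R s F) = LX S F R := by
          funext s
          apply propext
          unfold ok LX
          constructor
          · rintro ⟨h1, h2⟩
            exact ⟨Finset.disjoint_of_subset_right hFR h2, h1, h2⟩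
          · rintro ⟨_, h1, h2⟩
            exact ⟨h1, h2⟩
        rw [hP]
        exact hR F hF hFR p (by omega)
      · obtain ⟨a, haF, haR⟩ := Finset.not_subset.mp hFR
        refine cone_acyc a (fun s hs => ⟨?_, ?_⟩) p
        · rw [Finset.insert_union, Finset.insert_eq_of_mem (Finset.mem_union_right _ haF)]
          exact hs.1
        · rw [Finset.disjoint_insert_left]
          exact ⟨haR, hs.2⟩
    let N : Submodule K M := ⨅ v ∈ F, LinearMap.ker (ψ v)
    have hN : ∀ m, m ∈ N ↔ ∀ v ∈ F, ψ v m = 0 := by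
      intro m
      simp only [N, Submodule.mem_iInf, LinearMap.mem_ker]
    obtain ⟨w, hw1, hw2, hw3⟩ := coh (K := K) (P := fun s => ok S R s F)
      (fun s hs t ht => ok.left h.down hs ht) p hex N (fun s => a s F)
      (fun s hs => ⟨(ha s F hs).1, (ha s F hs).2.1⟩)
      (fun s => (hN _).mpr fun v hv => (ha.co s).kill hv)
      (fun s hs => by
        have h1 := congrFun (congrFun hHa s) F
        rwa [hop_pos hs] at h1)
    refine ⟨w, fun s hs => ⟨(hw1 s hs).1, (hw1 s hs).2, (hN _).mp (hw2 s)⟩, fun s hs => hw3 s hs⟩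
  rw [hcl]
  intro x hx hdx
  set a : Finset V → Finset V → M := fun s => if s = ∅ then x else 0 with ha
  have ha0 : a ∅ = x := by rw [ha]; simp
  have hDa : D S R ψ 0 j a := by
    intro s F hsF
    have hs : s = ∅ := by
      by_contra hc
      apply hsF
      rw [ha]
      simp [hc]
    subst hs
    rw [ha0] at hsF ⊢
    exact ⟨(hx F hsF).1, rfl, (hx F hsF).2.1, (hx F hsF).2.2⟩
  have hTa : topr S R ψ a = 0 := by
    funext s
    by_cases hs : s = ∅
    · subst hs
      show dl (ok S R ∅) ψ (a ∅) = 0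
      rw [ha0]
      exact hdx
    · show dl (ok S R s) ψ (a s) = 0
      have : a s = 0 := by rw [ha]; simp [hs]
      rw [this, dl_zero]
  have key := zig_loc (D S R ψ) (hop K S R) (topr S R ψ) ?_ ?_ ?_ ?_ ?_ ?_ ?_ ?_ j ?_ ?_ ?_ ?_ a hDa hTa
  · rcases key with hk | ⟨i, w, hi, hw, hTw⟩
    · refine ⟨0, fun F hF => absurd rfl hF, ?_⟩
      rw [dl_zero, ← ha0, hk]
      rfl
    · refine ⟨w ∅, fun F hF => ?_, ?_⟩
      · obtain ⟨h1, _, h3, h4⟩ := hw ∅ F hF
        exact ⟨h1, by omega, h4⟩
      · have := congrFun hTw ∅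
        rw [ha0] at this
        exact this
  -- additivity
  · intro b c
    funext s F
    by_cases hs : ok S R s F
    · rw [Pi.sub_apply, Pi.sub_apply, hop_pos hs, hop_pos hs, hop_pos hs, ← LocAux.cm_sub]
      rfl
    · rw [Pi.sub_apply, Pi.sub_apply, hop_neg hs, hop_neg hs, hop_neg hs, sub_zero]
  · intro b c
    funext s
    exact dl_sub _ _ _ _
  -- `H` and `T` commute
  · intro b
    funext s F
    by_cases hs : ok S R s F
    · have h1 : hop K S R (topr S R ψ b) s F =
          cm K (fun t => ∑ w ∈ F, ψ w (b t (F.erase w))) s := by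
        rw [hop_pos hs]
        refine LocAux.cm_congr fun v hv => ?_
        show dl (ok S R (s.erase v)) ψ (b (s.erase v)) F = _
        rw [dl_pos (hs.left h.down (Finset.erase_subset _ _))]
      have h2 : topr S R ψ (hop K S R b) s F =
          ∑ w ∈ F, ψ w (cm K (fun t => b t (F.erase w)) s) := by
        show dl (ok S R s) ψ (hop K S R b s) F = _
        rw [dl_pos hs]
        refine Finset.sum_congr rfl fun w hw => ?_
        rw [hop_pos (hs.right h.down (Finset.erase_subset _ _))]
      rw [h1, h2]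
      simp only [LocAux.cm_map]
      unfold cm
      rw [Finset.sum_comm]
      exact Finset.sum_congr rfl fun v _ => Finset.smul_sum
    · rw [hop_neg hs]
      show _ = dl (ok S R s) ψ (hop K S R b s) F
      rw [dl_neg hs]
  -- `H H = 0`
  · intro b
    funext s F
    by_cases hs : ok S R s F
    · rw [hop_pos hs]
      have h1 : cm K (fun t => hop K S R b t F) s = cm K (cm K (fun t => b t F)) s := by
        refine LocAux.cm_congr fun v hv => ?_
        rw [hop_pos (hs.left h.down (Finset.erase_subset _ _))]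
      rw [h1, LocAux.cm_cm]
      rfl
    · rw [hop_neg hs]
      rfl
  -- `T T = 0`
  · intro b
    funext s
    exact dl_dl (hok s) (b s)
  -- `D` is closed under subtraction
  · intro p q b c hb hc s F hsF
    have h1 : ok S R s F ∧ s.card = p ∧ F.card = q := by
      by_cases hb0 : b s F = 0
      · have hc0 : c s F ≠ 0 := by
          intro hc0
          apply hsF
          rw [Pi.sub_apply, Pi.sub_apply, hb0, hc0, sub_zero]
        obtain ⟨e1, e2, e3, _⟩ := hc s F hc0
        exact ⟨e1, e2, e3⟩
      · obtain ⟨e1, e2, e3, _⟩ := hb s F hb0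
        exact ⟨e1, e2, e3⟩
    refine ⟨h1.1, h1.2.1, h1.2.2, fun v hv => ?_⟩
    rw [Pi.sub_apply, Pi.sub_apply, map_sub, (hb.co s).kill hv, (hc.co s).kill hv, sub_zero]
  -- `H` raises `p`
  · intro p q b hb s F hsF
    have hs : ok S R s F := by
      by_contra hc
      exact hsF (hop_neg hc)
    rw [hop_pos hs] at hsF ⊢
    obtain ⟨v, hv, hv0⟩ := Finset.exists_ne_zero_of_sum_ne_zero hsF
    have hb0 : b (s.erase v) F ≠ 0 := by
      intro hc
      apply hv0
      show eps K v (s.erase v) • b (s.erase v) F = 0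
      rw [hc, smul_zero]
    obtain ⟨_, e2, e3, _⟩ := hb _ F hb0
    rw [Finset.card_erase_of_mem hv] at e2
    have hpos : 0 < s.card := Finset.card_pos.mpr ⟨v, hv⟩
    refine ⟨hs, by omega, e3, fun w hw => ?_⟩
    rw [LocAux.cm_map]
    unfold cm
    refine Finset.sum_eq_zero fun u _ => ?_
    show eps K u (s.erase u) • ψ w (b (s.erase u) F) = 0
    rw [(hb.co _).kill hw, smul_zero]
  -- `T` raises `q`
  · intro p q b hb s F hsF
    have h1 := dl_co (hok s) (hb.co s)
    have h2 := h1 F hsF
    have hs : s.card = p := by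
      by_contra hc
      apply hsF
      show dl (ok S R s) ψ (b s) F = 0
      rw [hb.cards hc, dl_zero]
      rfl
    exact ⟨h2.1, hs, h2.2.1, h2.2.2⟩
  -- exT0
  · intro b hb hTb
    funext s
    by_contra hbs
    obtain ⟨F, hF⟩ : ∃ F, b s F ≠ 0 := by
      by_contra hc
      push Not at hc
      exact hbs (funext hc)
    obtain ⟨e1, e2, e3, _⟩ := hb s F hF
    have hs0 : s ≠ ∅ := by
      rintro rfl
      simp at e2
    obtain ⟨y, hy, hdy⟩ := hTex s (hsS s F e1) hs0 e1.2 (by omega) 0 (by omega) (b s) (hb.co s)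
      (congrFun hTb s)
    have hy0 : y = 0 := by
      funext G
      by_contra hc
      have := (hy G hc).2.1
      omega
    apply hbs
    rw [← hdy, hy0, dl_zero]
    rfl
  -- exT
  · intro p q hpq b hb hTb
    have hex : ∀ s : Finset V, ∃ y : Finset V → M,
        (∀ F, y F ≠ 0 → ok S R s F ∧ s.card = p + 1 ∧ F.card = q ∧ ∀ v ∈ F, ψ v (y F) = 0) ∧
        dl (ok S R s) ψ y = b s := by
      intro s
      by_cases hbs : b s = 0
      · exact ⟨0, fun F hF => absurd rfl hF, by rw [dl_zero, hbs]⟩
      · obtain ⟨F, hF⟩ : ∃ F, b s F ≠ 0 := by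
          by_contra hc
          push Not at hc
          exact hbs (funext hc)
        obtain ⟨e1, e2, e3, _⟩ := hb s F hF
        have hs0 : s ≠ ∅ := by
          rintro rfl
          simp at e2
        obtain ⟨y, hy, hdy⟩ := hTex s (hsS s F e1) hs0 e1.2 (by omega) (q + 1) (by omega) (b s)
          (hb.co s) (congrFun hTb s)
        exact ⟨y, fun G hG => ⟨(hy G hG).1, e2, by have := (hy G hG).2.1; omega,
          (hy G hG).2.2⟩, hdy⟩
    choose y hy using hex
    exact ⟨y, fun s F hF => (hy s).1 F hF, funext fun s => (hy s).2⟩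
  -- exH0
  · intro b hb hHb
    funext s F
    by_contra hF
    obtain ⟨e1, e2, e3, _⟩ := hb s F hF
    obtain ⟨w, hw1, hw2⟩ := hHex 0 j (by omega) b hb hHb F (hFS s F e1) e3
    have hw0 : w = 0 := by
      funext t
      by_contra hc
      have := (hw1 t hc).2.1
      omega
    apply hF
    rw [← hw2 s e1, hw0]
    unfold cm
    simp
  -- exH
  · intro p q hpq b hb hHb
    have hex : ∀ F : Finset V, ∃ w : Finset V → M,
        (∀ s, w s ≠ 0 → ok S R s F ∧ s.card = p ∧ F.card = q ∧ ∀ v ∈ F, ψ v (w s) = 0) ∧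
        ∀ s, ok S R s F → cm K w s = b s F := by
      intro F
      by_cases hF : F ∈ S ∧ F.card = q
      · obtain ⟨w, hw1, hw2⟩ := hHex (p + 1) q (by omega) b hb hHb F hF.1 hF.2
        exact ⟨w, fun s hs => ⟨(hw1 s hs).1, by have := (hw1 s hs).2.1; omega, hF.2,
          (hw1 s hs).2.2⟩, hw2⟩
      · refine ⟨0, fun s hs => absurd rfl hs, fun s hs => ?_⟩
        have hb0 : b s F = 0 := by
          by_contra hc
          exact hF ⟨hFS s F hs, (hb s F hc).2.2.1⟩
        rw [hb0]
        unfold cm
        simp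
    choose w hw using hex
    refine ⟨fun s F => w F s, fun s F hF => (hw F).1 s hF, ?_⟩
    funext s F
    by_cases hs : ok S R s F
    · rw [hop_pos hs]
      exact (hw F).2 s hs
    · rw [hop_neg hs]
      by_contra hc
      exact hs (hb s F (Ne.symm hc)).1

end Pool.Agent.MP19e880.W1
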