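import Pool.Agent.Lib.MP_19e880_co_W1.HsLk
import Pool.Agent.Lib.MP_19e880_co_LB.Sep

/-!
Clifford complexes of flag complexes: separation by induced 4-cycles in flag 2-spheres.
-/

set_option autoImplicit false
set_option linter.unusedSectionVars false

namespace Pool.Agent.MP19e880.W1

variable {V : Type} [Fintype V] [LinearOrder V] {K : Type} [Field K]
  {M : Type} [AddCommGroup M] [Module K M]

/-- `C` is a nonempty set of vertices off `Q` which contains with a vertex all its neighbours
off `Q`. -/
def Clo (S : Finset (Finset V)) (Q C : Finset V) : Prop :=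
  C.Nonempty ∧ C ⊆ lv S ∅ ∧ Disjoint C Q ∧
    ∀ x ∈ C, ∀ y ∈ lv S ∅, y ∉ Q → ({x, y} : Finset V) ∈ S → y ∈ C

/-- `a b c d` is an induced 4-cycle. -/
def Sq (S : Finset (Finset V)) (a b c d : V) : Prop :=
  ({a, b} : Finset V) ∈ S ∧ ({b, c} : Finset V) ∈ S ∧ ({c, d} : Finset V) ∈ S ∧
    ({d, a} : Finset V) ∈ S ∧ ({a, c} : Finset V) ∉ S ∧ ({b, d} : Finset V) ∉ S

namespace SepAux

/-- The cone over a chain. -/
def cne (u : V) (a : Finset V → K) : Finset V → K :=
  fun A => if u ∈ A then eps K u (A.erase u) * a (A.erase u) else 0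

theorem bd_cne (u : V) (a : Finset V → K) : bd (cne u a) = a - cne u (bd a) := by
  funext A
  simp only [Pi.sub_apply]
  by_cases hu : u ∈ A
  · have h1 : cne u (bd a) A = eps K u (A.erase u) * bd a (A.erase u) := by
      simp only [cne, if_pos hu]
    rw [h1]
    simp only [bd]
    have hc : (A.erase u)ᶜ = insert u Aᶜ := by
      ext v
      simp only [Finset.mem_compl, Finset.mem_erase, Finset.mem_insert]
      tauto
    rw [hc, Finset.sum_insert (by simpa using hu), Finset.insert_erase hu, mul_add, ← mul_assoc,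
      eps_mul_self, one_mul, sub_add_cancel_left, Finset.mul_sum, ← Finset.sum_neg_distrib]
    refine Finset.sum_congr rfl fun v hv => ?_
    rw [Finset.mem_compl] at hv
    have hvu : v ≠ u := fun h => hv (h ▸ hu)
    have h2 : (insert v A).erase u = insert v (A.erase u) := by
      rw [Finset.erase_insert_of_ne hvu]
    have h3 : cne u a (insert v A) = eps K u (insert v (A.erase u)) * a (insert v (A.erase u)) := by
      simp only [cne, if_pos (Finset.mem_insert_of_mem hu), h2]
    rw [h3]
    have h4 := eps_swap (k := K) v u (A.erase u) (fun h => hv (Finset.mem_of_mem_erase h))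
      (Finset.notMem_erase u A) hvu
    rw [Finset.insert_erase hu] at h4
    have h5 := eps_mul_self (k := K) u (A.erase u)
    have h6 := eps_mul_self (k := K) u (insert v (A.erase u))
    have h7 : eps K v A * eps K u (insert v (A.erase u))
        = - (eps K u (A.erase u) * eps K v (A.erase u)) := by
      calc eps K v A * eps K u (insert v (A.erase u))
          = (eps K v A * eps K u (A.erase u)) * eps K u (A.erase u)
            * eps K u (insert v (A.erase u)) := by
              rw [mul_assoc (eps K v A), h5, mul_one]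
        _ = - (eps K u (A.erase u) * eps K v (A.erase u))
            * (eps K u (insert v (A.erase u)) * eps K u (insert v (A.erase u))) := by
              rw [h4]; ring
        _ = _ := by rw [h6, mul_one]
    rw [← mul_assoc, h7]
    ring
  · have h1 : cne u (bd a) A = 0 := by simp only [cne, if_neg hu]
    rw [h1, sub_zero]
    simp only [bd]
    rw [Finset.sum_eq_single u]
    · have h3 : cne u a (insert u A) = eps K u A * a A := by
        simp only [cne, if_pos (Finset.mem_insert_self u A), Finset.erase_insert hu]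
      rw [h3, ← mul_assoc, eps_mul_self, one_mul]
    · intro v hv hvu
      have h3 : cne u a (insert v A) = 0 := by
        simp only [cne]
        rw [if_neg]
        intro h
        rw [Finset.mem_insert] at h
        rcases h with h | h
        · exact hvu h.symm
        · exact hu h
      rw [h3, mul_zero]
    · intro h
      exact absurd (by simpa using hu) h

theorem cne_zero (u : V) : cne u (0 : Finset V → K) = 0 := by
  funext A
  simp [cne]

theorem lk_cne (u : V) (a : Finset V → K) (ha : ∀ A, u ∈ A → a A = 0) : lk u (cne u a) = a := by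
  funext A
  by_cases hu : u ∈ A
  · simp only [lk, if_pos hu, ha A hu]
  · simp only [lk, if_neg hu, cne, if_pos (Finset.mem_insert_self u A), Finset.erase_insert hu]
    rw [← mul_assoc, eps_mul_self, one_mul]

/-- The difference of the end points of an edge is a boundary. -/
theorem edge_bd (x y : V) : bd (- cne x (sg K ({y} : Finset V)))
    = sg K ({x} : Finset V) - sg K ({y} : Finset V) := by
  have h1 : bd (- cne x (sg K ({y} : Finset V))) = - bd (cne x (sg K ({y} : Finset V))) := by
    have := bd_sub (0 : Finset V → K) (cne x (sg K ({y} : Finset V)))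
    rwa [zero_sub, bd_zero, zero_sub] at this
  rw [h1, bd_cne, bd_sg_single]
  have h2 : cne x (sg K (∅ : Finset V)) = sg K ({x} : Finset V) := by
    funext A
    simp only [cne, sg]
    by_cases hA : A = {x}
    · subst hA
      simp [eps]
    · rw [if_neg hA]
      by_cases hx : x ∈ A
      · rw [if_pos hx, if_neg, mul_zero]
        intro h
        apply hA
        rw [← Finset.insert_erase hx, h]
        rfl
      · rw [if_neg hx]
  rw [h2]
  abel

theorem edge_ch (P : Finset V → Prop) (x y : V) (hxy : x ≠ y) (hP : P {x, y}) :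
    Ch P 2 (- cne x (sg K ({y} : Finset V))) := by
  intro A hA
  simp only [Pi.neg_apply, ne_eq, neg_eq_zero, cne, sg] at hA
  split_ifs at hA with h1 h2
  · have : A = {x, y} := by rw [← Finset.insert_erase h1, h2]
    rw [this]
    exact ⟨hP, Finset.card_pair hxy⟩
  · simp at hA
  · simp at hA

end SepAux

open SepAux

/-- Lemma J -/
theorem sep_J {S : Finset (Finset V)} (hS : ∀ F ∈ S, ∀ G : Finset V, G ⊆ F → G ∈ S)
    (s W : Finset V) (a : V) (has : a ∉ s) (haW : a ∉ W) (hA : Acyc K (LX S s W)) (j : ℕ)
    (y : Finset V → K) (hy : Ch (LX S (insert a s) W) j y) (hby : bd y = 0)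
    (w : Finset V → K) (hw : Ch (LX S s (insert a W)) (j + 1) w) (hbw : bd w = y) :
    ∃ e : Finset V → K, Ch (LX S (insert a s) W) (j + 1) e ∧ bd e = y := by
  have hya : ∀ A, a ∈ A → y A = 0 := by
    intro A hA'
    by_contra h
    exact Finset.disjoint_left.mp (hy A h).1.1 hA' (Finset.mem_insert_self a s)
  have hwa : lk a w = 0 := by
    rw [lk_eq_zero_iff]
    intro A hA'
    by_contra h
    exact Finset.disjoint_left.mp (hw A h).1.2.2 hA' (Finset.mem_insert_self a W)
  have hc : Ch (LX S s W) (j + 1) (cne a y) := by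
    intro A hA'
    simp only [cne] at hA'
    split_ifs at hA' with h1
    · obtain ⟨⟨h2, h3, h4⟩, h5⟩ := hy _ (right_ne_zero_of_mul hA')
      have hAe : insert a (A.erase a) = A := Finset.insert_erase h1
      refine ⟨⟨?_, ?_, ?_⟩, ?_⟩
      · rw [← hAe, Finset.disjoint_insert_left]
        exact ⟨has, (Finset.disjoint_insert_right.mp h2).2⟩
      · rw [← hAe, Finset.insert_union]
        rwa [Finset.union_insert] at h3
      · rw [← hAe, Finset.disjoint_insert_left]
        exact ⟨haW, h4⟩
      · rw [← h5, Finset.card_erase_of_mem h1]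
        have := Finset.card_pos.mpr ⟨a, h1⟩
        omega
    · exact absurd rfl hA'
  have hw' : Ch (LX S s W) (j + 1) w := hw.mono fun A _ h =>
    ⟨h.1, h.2.1, (Finset.disjoint_insert_right.mp h.2.2).2⟩
  obtain ⟨e, he, hbe⟩ := hA (j + 1) (w - cne a y) (hw'.sub hc) (by
    rw [bd_sub, hbw, bd_cne, hby, cne_zero, sub_zero, sub_self])
  refine ⟨lk a e, lk_chain S s W a (j + 1) e he, ?_⟩
  rw [bd_lk, hbe, lk_sub, hwa, lk_cne a y hya, zero_sub, neg_neg]

namespace SepAux

theorem pair_mem_comm {S : Finset (Finset V)} {a b : V} (h : ({a, b} : Finset V) ∈ S) :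
    ({b, a} : Finset V) ∈ S := by rwa [Finset.pair_comm]

/-- The vertices of an induced 4-cycle are distinct. -/
theorem sq_ne {S : Finset (Finset V)} (hS : ∀ F ∈ S, ∀ G : Finset V, G ⊆ F → G ∈ S)
    {a b c d : V} (hQ : Sq S a b c d) :
    a ≠ b ∧ a ≠ c ∧ a ≠ d ∧ b ≠ c ∧ b ≠ d ∧ c ≠ d := by
  obtain ⟨h1, h2, h3, h4, h5, h6⟩ := hQ
  have ha : ({a} : Finset V) ∈ S := hS _ h1 _ (by simp)
  have hb : ({b} : Finset V) ∈ S := hS _ h2 _ (by simp)
  refine ⟨?_, ?_, ?_, ?_, ?_, ?_⟩
  · rintro rfl
    exact h5 h2
  · rintro rfl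
    apply h5
    rwa [Finset.pair_eq_singleton]
  · rintro rfl
    exact h6 (pair_mem_comm h1)
  · rintro rfl
    exact h5 h1
  · rintro rfl
    apply h6
    rwa [Finset.pair_eq_singleton]
  · rintro rfl
    exact h6 h2

end SepAux

theorem sep_ex {S : Finset (Finset V)} (h : HS K S 3) {a b c d : V} (hQ : Sq S a b c d) :
    ∃ C, Clo S {a, b, c, d} C ∧ ((lv S ∅ \ {a, b, c, d}) \ C).Nonempty := by
  classical
  obtain ⟨hab, hac, had, hbc, hbd, hcd⟩ := sq_ne h.down hQ
  obtain ⟨h1, h2, h3, h4, h5, h6⟩ := hQ
  have hadS : ({a, d} : Finset V) ∈ S := pair_mem_comm h4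
  have htwo := two_hs h {a, d} hadS (by rw [Finset.card_pair had])
  obtain ⟨d', d'', hdd, hlv⟩ := Finset.card_eq_two.mp htwo
  have hsing : ∀ z, z ∈ lv S ({a, d} : Finset V) → z ∈ lv S ∅ ∧ z ∉ ({a, b, c, d} : Finset V) ∧
      insert z ({a, d} : Finset V) ∈ S := by
    intro z hz
    rw [mem_lv] at hz
    obtain ⟨hz1, hz2⟩ := hz
    refine ⟨?_, ?_, hz2⟩
    · rw [mem_lv]
      exact ⟨Finset.notMem_empty z, h.down _ hz2 _ (by
        rw [Finset.insert_subset_iff]
        exact ⟨Finset.mem_insert_self _ _, Finset.empty_subset _⟩)⟩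
    · rw [Finset.mem_insert, Finset.mem_insert, Finset.mem_insert, Finset.mem_singleton]
      rw [Finset.mem_insert, Finset.mem_singleton] at hz1
      push Not at hz1 ⊢
      refine ⟨hz1.1, ?_, ?_, hz1.2⟩
      · rintro rfl
        exact h6 (h.down _ hz2 _ (by
          intro w hw
          rw [Finset.mem_insert, Finset.mem_singleton] at hw
          rcases hw with rfl | rfl <;> simp))
      · rintro rfl
        exact h5 (h.down _ hz2 _ (by
          intro w hw
          rw [Finset.mem_insert, Finset.mem_singleton] at hw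
          rcases hw with rfl | rfl <;> simp))
  obtain ⟨hd1, hd1Q, hd1S⟩ := hsing d' (by rw [hlv]; simp)
  obtain ⟨hd2, hd2Q, hd2S⟩ := hsing d'' (by rw [hlv]; simp)
  set Q : Finset V := {a, b, c, d} with hQdef
  refine ⟨(lv S ∅ \ Q).filter (fun y0 => ∃ w : Finset V → K, Ch (LX S ∅ Q) 2 w ∧
    bd w = sg K ({d'} : Finset V) - sg K ({y0} : Finset V)), ⟨⟨d', ?_⟩, ?_, ?_, ?_⟩, ⟨d'', ?_⟩⟩
  · rw [Finset.mem_filter, Finset.mem_sdiff]
    exact ⟨⟨hd1, hd1Q⟩, 0, Ch.zero, by rw [bd_zero, sub_self]⟩
  · intro z hz
    exact (Finset.mem_sdiff.mp (Finset.mem_filter.mp hz).1).1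
  · rw [Finset.disjoint_left]
    intro z hz
    exact (Finset.mem_sdiff.mp (Finset.mem_filter.mp hz).1).2
  · intro x hx y hy hyQ hxy
    rw [Finset.mem_filter, Finset.mem_sdiff] at hx ⊢
    obtain ⟨⟨hx1, hx2⟩, w, hw, hbw⟩ := hx
    refine ⟨⟨hy, hyQ⟩, ?_⟩
    by_cases hxe : x = y
    · rw [← hxe]
      exact ⟨w, hw, hbw⟩
    · refine ⟨w + - cne x (sg K ({y} : Finset V)), hw.add (edge_ch _ x y hxe ⟨?_, ?_, ?_⟩), ?_⟩
      · exact Finset.disjoint_empty_right _
      · rw [Finset.union_empty]; exact hxy
      · rw [Finset.disjoint_insert_left, Finset.disjoint_singleton_left]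
        exact ⟨hx2, hyQ⟩
      · rw [bd_add, hbw, edge_bd]
        abel
  · rw [Finset.mem_sdiff, Finset.mem_sdiff, Finset.mem_filter, not_and]
    refine ⟨⟨hd2, hd2Q⟩, ?_⟩
    rintro - ⟨w, hw, hbw⟩
    have hQi : Q = insert a ({b, c, d} : Finset V) := rfl
    set y : Finset V → K := sg K ({d'} : Finset V) - sg K ({d''} : Finset V) with hy
    have hby : bd y = 0 := by rw [hy, bd_sub, bd_sg_single, bd_sg_single, sub_self]
    have haW : a ∉ ({b, c, d} : Finset V) := by
      simp only [Finset.mem_insert, Finset.mem_singleton]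
      tauto
    have hA1 : Acyc K (LX S ∅ ({b, c, d} : Finset V)) := by
      have h7 : ({b, c, d} : Finset V) = insert c {b, d} := by
        ext z
        simp only [Finset.mem_insert, Finset.mem_singleton]
        tauto
      rw [h7]
      refine h.acyc_X c {b, d} ?_ ∅ (h.down _ h1 _ (Finset.empty_subset _))
        (Finset.notMem_empty c) (h.down _ h3 _ (by simp))
      intro z hz
      rw [Finset.mem_insert, Finset.mem_singleton] at hz
      rcases hz with rfl | rfl
      · exact h2
      · exact pair_mem_comm h3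
    have hyc : ∀ W : Finset V, W ⊆ Q → ∀ s : Finset V, s ⊆ {a, d} → Ch (LX S s W) 1 y := by
      intro W hW s hs
      have hz : ∀ z, z ∉ Q → insert z ({a, d} : Finset V) ∈ S → LX S s W {z} := by
        intro z hz hzS
        refine ⟨?_, ?_, ?_⟩
        · rw [Finset.disjoint_singleton_left]
          intro hzs
          apply hz
          have := hs hzs
          rw [Finset.mem_insert, Finset.mem_singleton] at this
          rw [hQdef]
          rcases this with rfl | rfl <;> simp
        · rw [Finset.singleton_union]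
          exact h.down _ hzS _ (Finset.insert_subset_insert _ hs)
        · rw [Finset.disjoint_singleton_left]
          exact fun hzW => hz (hW hzW)
      exact (sg_ch _ _ _ (hz d' hd1Q hd1S) (by simp)).sub (sg_ch _ _ _ (hz d'' hd2Q hd2S) (by simp))
    obtain ⟨e1, he1, hbe1⟩ := sep_J h.down ∅ {b, c, d} a (Finset.notMem_empty a) haW hA1 1 y
      (hyc _ (by rw [hQi]; exact Finset.subset_insert _ _) _ (by simp)) hby w hw hbw
    obtain ⟨e2, he2, hbe2⟩ := sep_J h.down {a} {b} d (by
        rw [Finset.mem_singleton]; exact fun h' => had h'.symm) (by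
        rw [Finset.mem_singleton]; exact fun h' => hbd h'.symm)
      (h.acyc_v {a} (h.down _ h1 _ (by simp)) b (by
        rw [Finset.mem_singleton]; exact fun h' => hab h'.symm) (pair_mem_comm h1)) 1 y
      (hyc _ (by rw [hQdef]; simp) _ (by rw [Finset.pair_comm])) hby e1
      (he1.mono fun A _ hA => ⟨hA.1, hA.2.1, Finset.disjoint_of_subset_right (by
        intro z hz
        simp only [Finset.mem_insert, Finset.mem_singleton] at hz ⊢
        tauto) hA.2.2⟩) hbe1
    have he20 : e2 = 0 := by
      funext A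
      by_contra hAe
      obtain ⟨⟨h7, h8, _⟩, h9⟩ := he2 A hAe
      have h10 := h.card_le _ h8
      rw [Finset.card_union_of_disjoint h7, h9, Finset.card_pair (fun h' => had h'.symm)] at h10
      omega
    rw [he20, bd_zero] at hbe2
    have h11 := congrFun hbe2 {d'}
    rw [hy] at h11
    simp only [Pi.zero_apply, Pi.sub_apply, sg, if_true] at h11
    rw [if_neg (fun h' => hdd (Finset.singleton_injective h'))] at h11
    simp at h11

theorem sep_meet {S : Finset (Finset V)} (h : HS K S 3) {a b c d : V} (hQ : Sq S a b c d)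
    {C : Finset V} (hC : Clo S {a, b, c, d} C) : ∃ x ∈ C, x ∈ lv S {a, d} := by
  classical
  obtain ⟨hab, hac, had, hbc, hbd, hcd⟩ := sq_ne h.down hQ
  obtain ⟨h1, h2, h3, h4, h5, h6⟩ := hQ
  obtain ⟨⟨x0, hx0⟩, hCX, hCQ, hCc⟩ := hC
  have hCQ' : ∀ z ∈ C, z ≠ a ∧ z ≠ b ∧ z ≠ c ∧ z ≠ d := by
    intro z hz
    have := Finset.disjoint_left.mp hCQ hz
    simp only [Finset.mem_insert, Finset.mem_singleton] at this
    tauto
  have hA1 : Acyc K (LX S ∅ ({b, c, d} : Finset V)) := by
    have h7 : ({b, c, d} : Finset V) = insert c {b, d} := by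
      ext z
      simp only [Finset.mem_insert, Finset.mem_singleton]
      tauto
    rw [h7]
    refine h.acyc_X c {b, d} ?_ ∅ (h.down _ h1 _ (Finset.empty_subset _))
      (Finset.notMem_empty c) (h.down _ h3 _ (by simp))
    intro z hz
    rw [Finset.mem_insert, Finset.mem_singleton] at hz
    rcases hz with rfl | rfl
    · exact h2
    · exact pair_mem_comm h3
  -- a vertex of `C` adjacent to `a`
  obtain ⟨x1, hx1, y1, hy1, hxy1⟩ := conn_gen (k := K) (LX S ∅ ({b, c, d} : Finset V))
    (fun z hz hbz => hA1 1 z hz hbz) C x0 a hx0 (by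
      obtain ⟨_, q2, q3, q4⟩ := hCQ' x0 hx0
      have := (mem_lv _ _).mp (hCX hx0)
      refine ⟨Finset.disjoint_empty_right _, by rw [Finset.union_empty]; exact this.2, ?_⟩
      rw [Finset.disjoint_singleton_left]
      simp only [Finset.mem_insert, Finset.mem_singleton]
      tauto) (fun h' => (hCQ' a h').1 rfl) (by
      refine ⟨Finset.disjoint_empty_right _, by
        rw [Finset.union_empty]; exact h.down _ h1 _ (by simp), ?_⟩
      rw [Finset.disjoint_singleton_left]
      simp only [Finset.mem_insert, Finset.mem_singleton]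
      tauto)
  have hxa : ({x1, a} : Finset V) ∈ S := by
    obtain ⟨_, q2, q3⟩ := hxy1
    rw [Finset.union_empty] at q2
    by_cases hya : y1 = a
    · rwa [hya] at q2
    · exfalso
      apply hy1
      refine hCc x1 hx1 y1 ?_ ?_ q2
      · rw [mem_lv]
        exact ⟨Finset.notMem_empty _, h.down _ q2 _ (by simp)⟩
      · have := Finset.disjoint_left.mp q3 (show y1 ∈ ({x1, y1} : Finset V) by simp)
        simp only [Finset.mem_insert, Finset.mem_singleton] at this ⊢
        tauto
  have hA2 : Acyc K (LX S {a} ({b} : Finset V)) :=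
    h.acyc_v {a} (h.down _ h1 _ (by simp)) b (by
        rw [Finset.mem_singleton]; exact fun h' => hab h'.symm) (pair_mem_comm h1)
  obtain ⟨x, hx, y, hy, hxy⟩ := conn_gen (k := K) (LX S {a} ({b} : Finset V))
    (fun z hz hbz => hA2 1 z hz hbz) C x1 d hx1 (by
      obtain ⟨q1, q2, q3, q4⟩ := hCQ' x1 hx1
      refine ⟨?_, ?_, ?_⟩
      · rw [Finset.disjoint_singleton_left, Finset.mem_singleton]; exact q1
      · rw [Finset.singleton_union]; exact hxa
      · rw [Finset.disjoint_singleton_left, Finset.mem_singleton]; exact q2)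
      (fun h' => (hCQ' d h').2.2.2 rfl) (by
      refine ⟨?_, ?_, ?_⟩
      · rw [Finset.disjoint_singleton_left, Finset.mem_singleton]; exact fun h' => had h'.symm
      · rw [Finset.singleton_union]; exact h4
      · rw [Finset.disjoint_singleton_left, Finset.mem_singleton]; exact fun h' => hbd h'.symm)
  obtain ⟨q1, q2, q3⟩ := hxy
  have hya : y ≠ a := by
    rintro rfl
    exact Finset.disjoint_left.mp q1 (show y ∈ ({x, y} : Finset V) by simp) (by simp)
  have hyb : y ≠ b := by
    rintro rfl
    exact Finset.disjoint_left.mp q3 (show y ∈ ({x, y} : Finset V) by simp) (by simp)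
  have hyc : y ≠ c := by
    rintro rfl
    apply h5
    refine h.down _ q2 _ ?_
    intro w hw
    rw [Finset.mem_insert, Finset.mem_singleton] at hw
    rcases hw with rfl | rfl <;> simp
  have hyd : y = d := by
    by_contra hyd
    apply hy
    refine hCc x hx y ?_ ?_ (h.down _ q2 _ Finset.subset_union_left)
    · rw [mem_lv]
      exact ⟨Finset.notMem_empty _, h.down _ q2 _ (by
        intro w hw
        simp only [insert_empty_eq, Finset.mem_singleton] at hw
        rw [hw]
        simp)⟩
    · simp only [Finset.mem_insert, Finset.mem_singleton]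
      tauto
  refine ⟨x, hx, ?_⟩
  rw [mem_lv]
  obtain ⟨r1, r2, r3, r4⟩ := hCQ' x hx
  refine ⟨by
    simp only [Finset.mem_insert, Finset.mem_singleton]
    tauto, ?_⟩
  refine h.down _ q2 _ ?_
  intro w hw
  simp only [Finset.mem_insert, Finset.mem_singleton, Finset.mem_union] at hw ⊢
  rw [hyd]
  tauto

end Pool.Agent.MP19e880.W1
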