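import Pool.Agent.Lib.MP_19e880_co_W1.Basic
import Pool.Agent.Lib.MP_19e880_co_LB.Sep
import Pool.Agent.Lib.MP_19e880_co_W1.Sep
import Pool.Agent.Lib.MP_19e880_co_W1.HsLk

/-!
Contractible edges in flag 2-spheres.
-/

set_option autoImplicit false
set_option linter.unusedSectionVars false

namespace Pool.Agent.MP19e880.W1

variable {V : Type} [Fintype V] [LinearOrder V] {K : Type} [Field K]
  {M : Type} [AddCommGroup M] [Module K M]

namespace MinqAux

/-- Adjacency (reflexive on the vertices). -/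
def E (S : Finset (Finset V)) (x y : V) : Prop := ({x, y} : Finset V) ∈ S

theorem E.symm {S : Finset (Finset V)} {x y : V} (h : E S x y) : E S y x := by
  unfold E at h ⊢
  rwa [Finset.pair_comm]

theorem mem_X {S : Finset (Finset V)} {x : V} : x ∈ lv S ∅ ↔ E S x x := by
  rw [mem_lv, E, Finset.pair_eq_singleton, insert_empty_eq]
  simp

theorem E.left {S : Finset (Finset V)} {d : ℕ} (hS : HS K S d) {x y : V} (h : E S x y) :
    x ∈ lv S ∅ := by
  rw [mem_X]
  refine hS.down _ h _ ?_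
  intro z hz
  simp only [Finset.mem_insert, Finset.mem_singleton, or_self] at hz
  simp [hz]

theorem E.right {S : Finset (Finset V)} {d : ℕ} (hS : HS K S d) {x y : V} (h : E S x y) :
    y ∈ lv S ∅ := h.symm.left hS

theorem mem_lv2 {S : Finset (Finset V)} {d : ℕ} (hS : HS K S d) {a b x : V} (hab : E S a b) :
    x ∈ lv S {a, b} ↔ x ≠ a ∧ x ≠ b ∧ E S x a ∧ E S x b := by
  rw [mem_lv]
  constructor
  · rintro ⟨h1, h2⟩
    simp only [Finset.mem_insert, Finset.mem_singleton, not_or] at h1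
    refine ⟨h1.1, h1.2, hS.down _ h2 _ ?_, hS.down _ h2 _ ?_⟩
    · intro z hz
      simp only [Finset.mem_insert, Finset.mem_singleton] at hz ⊢
      tauto
    · intro z hz
      simp only [Finset.mem_insert, Finset.mem_singleton] at hz ⊢
      tauto
  · rintro ⟨h1, h2, h3, h4⟩
    refine ⟨by simp [h1, h2], ?_⟩
    apply hS.flag
    intro u hu v hv
    have hx : E S x x := mem_X.mp (h3.left hS)
    have ha : E S a a := mem_X.mp (hab.left hS)
    have hb : E S b b := mem_X.mp (hab.right hS)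
    simp only [Finset.mem_insert, Finset.mem_singleton] at hu hv
    rcases hu with rfl | rfl | rfl <;> rcases hv with rfl | rfl | rfl
    · exact hx
    · exact h3
    · exact h4
    · exact h3.symm
    · exact ha
    · exact hab
    · exact h4.symm
    · exact hab.symm
    · exact hb

theorem lv2_card {S : Finset (Finset V)} (hS : HS K S 3) {a b : V} (hab : E S a b) (hne : a ≠ b) :
    (lv S {a, b}).card = 2 := by
  apply two_hs hS
  · exact hab
  · rw [Finset.card_pair hne]

/-- The four vertices of an induced 4-cycle are distinct. -/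
theorem sq_ne {S : Finset (Finset V)} {n : ℕ} (hS : HS K S n) {a b c d : V}
    (h : Sq S a b c d) : a ≠ b ∧ b ≠ c ∧ c ≠ d ∧ d ≠ a ∧ a ≠ c ∧ b ≠ d := by
  obtain ⟨h1, h2, h3, h4, h5, h6⟩ := h
  have e1 : E S a b := h1
  have e2 : E S b c := h2
  have e3 : E S c d := h3
  have e4 : E S d a := h4
  refine ⟨?_, ?_, ?_, ?_, ?_, ?_⟩
  · rintro rfl; exact h5 e2
  · rintro rfl; exact h5 e1
  · rintro rfl; exact h6 e2
  · rintro rfl; exact h6 e1.symm
  · rintro rfl; exact h5 (mem_X.mp (e1.left hS))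
  · rintro rfl; exact h6 (mem_X.mp (e2.left hS))

theorem sq_flip {S : Finset (Finset V)} {a b c d : V} (h : Sq S a b c d) : Sq S b a d c := by
  obtain ⟨h1, h2, h3, h4, h5, h6⟩ := h
  exact ⟨E.symm h1, E.symm h4, E.symm h3, E.symm h2, h6, h5⟩

theorem set_flip (a b c d : V) : ({b, a, d, c} : Finset V) = {a, b, c, d} := by
  ext x
  simp only [Finset.mem_insert, Finset.mem_singleton]
  tauto

/-- The failure of `NoSq` gives an induced 4-cycle. -/
theorem sq_of_not {S : Finset (Finset V)} {u v : V} (huv : E S u v) (h : ¬ NoSq S u v) :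
    ∃ s t, Sq S u s t v := by
  unfold NoSq at h
  push Not at h
  obtain ⟨s, t, h1, h2, h3, h4, h5⟩ := h
  exact ⟨s, t, h1, h3, E.symm h2, E.symm huv, h5, fun h' => h4 (E.symm h')⟩

theorem compl_clo {S : Finset (Finset V)} {n : ℕ} (hS : HS K S n) {Q C : Finset V}
    (hC : Clo S Q C) (hne : ((lv S ∅ \ Q) \ C).Nonempty) : Clo S Q ((lv S ∅ \ Q) \ C) := by
  refine ⟨hne, ?_, ?_, ?_⟩
  · exact Finset.sdiff_subset.trans Finset.sdiff_subset
  · rw [Finset.disjoint_left]
    intro x hx hxQ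
    simp only [Finset.mem_sdiff] at hx
    exact hx.1.2 hxQ
  · intro x hx y hy hyQ hxy
    simp only [Finset.mem_sdiff] at hx ⊢
    refine ⟨⟨hy, hyQ⟩, fun hyC => hx.2 ?_⟩
    exact hC.2.2.2 y hyC x hx.1.1 hx.1.2 (E.symm hxy)

/-- Two closed sets, one inside the other, give a third one. -/
theorem diff_clo {S : Finset (Finset V)} {n : ℕ} (hS : HS K S n) {Q B D : Finset V}
    (hB : Clo S Q B) (hD : Clo S Q D) (hne : (B \ D).Nonempty) : Clo S Q (B \ D) := by
  refine ⟨hne, Finset.sdiff_subset.trans hB.2.1, ?_, ?_⟩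
  · exact Finset.disjoint_of_subset_left Finset.sdiff_subset hB.2.2.1
  · intro x hx y hy hyQ hxy
    simp only [Finset.mem_sdiff] at hx ⊢
    refine ⟨hB.2.2.2 x hx.1 y hy hyQ hxy, fun hyD => hx.2 ?_⟩
    exact hD.2.2.2 y hyD x (hB.2.1 hx.1) (Finset.disjoint_left.mp hB.2.2.1 hx.1) (E.symm hxy)

theorem three {S : Finset (Finset V)} (hS : HS K S 3) {a b c d : V} (hQ : Sq S a b c d)
    {C D F : Finset V} (hC : Clo S {a, b, c, d} C) (hD : Clo S {a, b, c, d} D)
    (hF : Clo S {a, b, c, d} F) (h1 : Disjoint C D) (h2 : Disjoint C F) (h3 : Disjoint D F) :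
    False := by
  obtain ⟨x, hx, hx'⟩ := sep_meet hS hQ hC
  obtain ⟨y, hy, hy'⟩ := sep_meet hS hQ hD
  obtain ⟨z, hz, hz'⟩ := sep_meet hS hQ hF
  have hxy : x ≠ y := by rintro rfl; exact Finset.disjoint_left.mp h1 hx hy
  have hxz : x ≠ z := by rintro rfl; exact Finset.disjoint_left.mp h2 hx hz
  have hyz : y ≠ z := by rintro rfl; exact Finset.disjoint_left.mp h3 hy hz
  have hne := (sq_ne hS hQ).2.2.2.1
  have hc := lv2_card hS (E.symm hQ.2.2.2.1) hne.symm
  have hs : ({x, y, z} : Finset V) ⊆ lv S {a, d} := by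
    intro w hw
    simp only [Finset.mem_insert, Finset.mem_singleton] at hw
    rcases hw with rfl | rfl | rfl
    · exact hx'
    · exact hy'
    · exact hz'
  have h4 := Finset.card_le_card hs
  rw [hc, Finset.card_eq_three.mpr ⟨x, y, z, hxy, hxz, hyz, rfl⟩] at h4
  omega

/-- Every vertex of an induced 4-cycle has a neighbour in every closed set. -/
theorem nbr {S : Finset (Finset V)} (hS : HS K S 3) {a b c d : V} (hQ : Sq S a b c d)
    {C : Finset V} (hC : Clo S {a, b, c, d} C) (q : V) (hq : q ∈ ({a, b, c, d} : Finset V)) :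
    ∃ z ∈ C, E S q z := by
  obtain ⟨x, hx, hx'⟩ := sep_meet hS hQ hC
  have hC' := hC
  rw [← set_flip] at hC'
  obtain ⟨y, hy, hy'⟩ := sep_meet hS (sq_flip hQ) hC'
  rw [mem_lv2 hS (E.symm hQ.2.2.2.1)] at hx'
  rw [mem_lv2 hS hQ.2.1] at hy'
  simp only [Finset.mem_insert, Finset.mem_singleton] at hq
  rcases hq with rfl | rfl | rfl | rfl
  · exact ⟨x, hx, hx'.2.2.1.symm⟩
  · exact ⟨y, hy, hy'.2.2.1.symm⟩
  · exact ⟨y, hy, hy'.2.2.2.symm⟩
  · exact ⟨x, hx, hx'.2.2.2.symm⟩

/-- The first case: the small closed set has at least two vertices. -/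
theorem case_two {S : Finset (Finset V)} (hS : HS K S 3) {a b c d : V} (hQ : Sq S a b c d)
    {C B : Finset V} (hC : Clo S {a, b, c, d} C) (hBdef : B = (lv S ∅ \ {a, b, c, d}) \ C)
    (hB : Clo S {a, b, c, d} B) (hBmin : ∀ D, Clo S {a, b, c, d} D → D ⊆ B → D = B)
    (hmin : ∀ a' b' c' d' C', Sq S a' b' c' d' → Clo S {a', b', c', d'} C' → C.card ≤ C'.card)
    (hcard : 2 ≤ C.card) : ∃ u v, u ≠ v ∧ ({u, v} : Finset V) ∈ S ∧ NoSq S u v := by
  classical
  have hex : ∃ x ∈ C, ∃ y ∈ C, x ≠ y ∧ E S x y := by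
    by_contra hcon
    push Not at hcon
    obtain ⟨x, hx⟩ := hC.1
    have h1 : Clo S {a, b, c, d} {x} := by
      refine ⟨Finset.singleton_nonempty x, ?_, ?_, ?_⟩
      · rw [Finset.singleton_subset_iff]
        exact hC.2.1 hx
      · rw [Finset.disjoint_singleton_left]
        exact Finset.disjoint_left.mp hC.2.2.1 hx
      · intro u hu y hy hyQ huy
        rw [Finset.mem_singleton] at hu ⊢
        subst hu
        by_contra hne
        exact hcon u hx y (hC.2.2.2 u hx y hy hyQ huy) (fun h' => hne h'.symm) huy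
    have h2 := hmin a b c d {x} hQ h1
    rw [Finset.card_singleton] at h2
    omega
  obtain ⟨x, hx, y, hy, hxy, hE⟩ := hex
  refine ⟨x, y, hxy, hE, ?_⟩
  by_contra hno
  obtain ⟨s, t, hQ'⟩ := sq_of_not hE hno
  set Q : Finset V := {a, b, c, d} with hQd
  set Q' : Finset V := {x, s, t, y} with hQd'
  have hxQ' : x ∈ Q' := by simp [hQd']
  have hyQ' : y ∈ Q' := by simp [hQd']
  -- `B` is disjoint from `Q'`
  have hBC : ∀ z ∈ B, z ∉ C := by
    intro z hz
    rw [hBdef] at hz
    exact (Finset.mem_sdiff.mp hz).2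
  have hBQ : ∀ z ∈ B, z ∉ Q := fun z hz => Finset.disjoint_left.mp hB.2.2.1 hz
  have hBQ' : ∀ z ∈ B, z ∉ Q' := by
    intro z hz hz'
    simp only [hQd', Finset.mem_insert, Finset.mem_singleton] at hz'
    rcases hz' with rfl | rfl | rfl | rfl
    · exact hBC _ hz hx
    · exact hBC _ hz (hC.2.2.2 x hx z (hB.2.1 hz) (hBQ _ hz) hQ'.1)
    · exact hBC _ hz (hC.2.2.2 y hy z (hB.2.1 hz) (hBQ _ hz) (E.symm hQ'.2.2.1))
    · exact hBC _ hz hy
  obtain ⟨C1, hC1, hne1⟩ := sep_ex hS hQ'
  have hC2 := compl_clo hS hC1 hne1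
  rw [← hQd'] at hC1 hne1 hC2
  set C2 := (lv S ∅ \ Q') \ C1 with hC2d
  have hcov : ∀ z ∈ B, z ∈ C1 ∨ z ∈ C2 := by
    intro z hz
    by_cases hz1 : z ∈ C1
    · exact Or.inl hz1
    · right
      rw [hC2d]
      simp only [Finset.mem_sdiff]
      exact ⟨⟨hB.2.1 hz, hBQ' z hz⟩, hz1⟩
  have hdis : Disjoint C1 C2 := by
    rw [Finset.disjoint_left]
    intro z h1 h2
    rw [hC2d] at h2
    exact (Finset.mem_sdiff.mp h2).2 h1
  have hint : ∀ D, Clo S Q' D → (D ∩ B).Nonempty → D ∩ B = B := by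
    intro D hD hne
    apply hBmin
    · refine ⟨hne, ?_, ?_, ?_⟩
      · exact Finset.inter_subset_right.trans hB.2.1
      · exact Finset.disjoint_of_subset_left Finset.inter_subset_right hB.2.2.1
      · intro u hu v hv hvQ huv
        rw [Finset.mem_inter] at hu ⊢
        have h1 := hB.2.2.2 u hu.2 v hv hvQ huv
        exact ⟨hD.2.2.2 u hu.1 v hv (hBQ' v h1) huv, h1⟩
    · exact Finset.inter_subset_right
  -- one of the two sets avoids `B`, the other one contains it
  have key : ∃ F D, Clo S Q' F ∧ Clo S Q' D ∧ Disjoint F D ∧ B ⊆ D := by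
    by_cases h1 : (C1 ∩ B).Nonempty
    · refine ⟨C2, C1, hC2, hC1, hdis.symm, ?_⟩
      rw [← hint C1 hC1 h1]
      exact Finset.inter_subset_left
    · refine ⟨C1, C2, hC1, hC2, hdis, ?_⟩
      intro z hz
      rcases hcov z hz with h2 | h2
      · exact absurd ⟨z, Finset.mem_inter.mpr ⟨h2, hz⟩⟩ h1
      · exact h2
  obtain ⟨F, D, hF, hD, hFD, hBD⟩ := key
  have hFQ : ∀ q ∈ Q, q ∉ F := by
    intro q hq hqF
    have hqQ' : q ∉ Q' := Finset.disjoint_left.mp hF.2.2.1 hqF
    obtain ⟨z, hz, hqz⟩ := nbr hS hQ hB q hq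
    have h1 := hD.2.2.2 z (hBD hz) q (hF.2.1 hqF) hqQ' (E.symm hqz)
    exact Finset.disjoint_left.mp hFD hqF h1
  have hFC : F ⊆ C.erase x := by
    intro z hz
    have hzQ' : z ∉ Q' := Finset.disjoint_left.mp hF.2.2.1 hz
    rw [Finset.mem_erase]
    refine ⟨fun h' => hzQ' (h' ▸ hxQ'), ?_⟩
    by_contra hzC
    have hzB : z ∈ B := by
      rw [hBdef]
      simp only [Finset.mem_sdiff]
      exact ⟨⟨hF.2.1 hz, fun h' => hFQ z h' hz⟩, hzC⟩
    exact Finset.disjoint_left.mp hFD hz (hBD hzB)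
  have h1 := Finset.card_le_card hFC
  rw [Finset.card_erase_of_mem hx] at h1
  have h2 := hmin x s t y F hQ' hF
  omega

/-- The second case: the small closed set is a single vertex. -/
theorem case_one {S : Finset (Finset V)} (hS : HS K S 3) {a b c d x : V} (hQ : Sq S a b c d)
    (hC : Clo S {a, b, c, d} {x}) {B : Finset V}
    (hBdef : B = (lv S ∅ \ {a, b, c, d}) \ {x})
    (hBmin : ∀ D, Clo S {a, b, c, d} D → D ⊆ B → D = B) :
    (∃ a b, {a} ∈ S ∧ {b} ∈ S ∧ ({a, b} : Finset V) ∉ S ∧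
      ∀ w, {w} ∈ S → w ≠ a → w ≠ b → ({a, w} : Finset V) ∈ S ∧ ({b, w} : Finset V) ∈ S) ∨
    (∃ u v, u ≠ v ∧ ({u, v} : Finset V) ∈ S ∧ NoSq S u v) := by
  classical
  obtain ⟨nab, nbc, ncd, nda, nac, nbd⟩ := sq_ne hS hQ
  have hxX : x ∈ lv S ∅ := hC.2.1 (Finset.mem_singleton_self x)
  have hxQ : x ∉ ({a, b, c, d} : Finset V) :=
    Finset.disjoint_left.mp hC.2.2.1 (Finset.mem_singleton_self x)
  have hN : ∀ w, E S x w → w ≠ x → w ∈ ({a, b, c, d} : Finset V) := by
    intro w hw hwx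
    by_contra hwQ
    have h1 := hC.2.2.2 x (Finset.mem_singleton_self x) w (hw.right hS) hwQ hw
    exact hwx (Finset.mem_singleton.mp h1)
  have hNQ : ∀ q ∈ ({a, b, c, d} : Finset V), E S x q := by
    intro q hq
    obtain ⟨z, hz, hqz⟩ := nbr hS hQ hC q hq
    rw [Finset.mem_singleton] at hz
    subst hz
    exact hqz.symm
  have hxa : E S x a := hNQ a (by simp)
  have hxb : E S x b := hNQ b (by simp)
  have hxc : E S x c := hNQ c (by simp)
  have hxd : E S x d := hNQ d (by simp)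
  have nxa : x ≠ a := by rintro rfl; exact hxQ (by simp)
  have nxb : x ≠ b := by rintro rfl; exact hxQ (by simp)
  by_cases h1 : NoSq S x a
  · exact Or.inr ⟨x, a, nxa, hxa, h1⟩
  by_cases h2 : NoSq S x b
  · exact Or.inr ⟨x, b, nxb, hxb, h2⟩
  left
  obtain ⟨s, z, hs⟩ := sq_of_not hxa h1
  obtain ⟨s', z', hs'⟩ := sq_of_not hxb h2
  have hab : E S a b := hQ.1
  have hbc : E S b c := hQ.2.1
  have hcd : E S c d := hQ.2.2.1
  have hda : E S d a := hQ.2.2.2.1
  have hxx : E S x x := mem_X.mp hxX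
  have hsc : s = c := by
    have h3 : s ∈ ({a, b, c, d} : Finset V) := by
      apply hN s hs.1
      rintro rfl
      exact hs.2.2.2.2.2 hxa
    simp only [Finset.mem_insert, Finset.mem_singleton] at h3
    rcases h3 with rfl | rfl | rfl | rfl
    · exact absurd (mem_X.mp (hab.left hS)) hs.2.2.2.2.2
    · exact absurd hab.symm hs.2.2.2.2.2
    · rfl
    · exact absurd hda hs.2.2.2.2.2
  have hsd : s' = d := by
    have h3 : s' ∈ ({a, b, c, d} : Finset V) := by
      apply hN s' hs'.1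
      rintro rfl
      exact hs'.2.2.2.2.2 hxb
    simp only [Finset.mem_insert, Finset.mem_singleton] at h3
    rcases h3 with rfl | rfl | rfl | rfl
    · exact absurd hab hs'.2.2.2.2.2
    · exact absurd (mem_X.mp (hbc.left hS)) hs'.2.2.2.2.2
    · exact absurd hbc.symm hs'.2.2.2.2.2
    · rfl
  subst hsc hsd
  have hza : E S z a := hs.2.2.1
  have hzc : E S z s := E.symm hs.2.1
  have hxz : ¬ E S x z := hs.2.2.2.2.1
  have hzb' : E S z' b := hs'.2.2.1
  have hzd' : E S z' s' := E.symm hs'.2.1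
  have hxz' : ¬ E S x z' := hs'.2.2.2.2.1
  -- the two neighbours of the edge `x a`
  have hlv : ∀ u ∈ lv S {x, a}, E S u z' := by
    intro u hu
    rw [mem_lv2 hS hxa] at hu
    have h3 := hN u hu.2.2.1.symm hu.1
    simp only [Finset.mem_insert, Finset.mem_singleton] at h3
    rcases h3 with rfl | rfl | rfl | rfl
    · exact absurd rfl hu.2.1
    · exact hzb'.symm
    · exact absurd hu.2.2.2.symm hQ.2.2.2.2.1
    · exact hzd'.symm
  have hzz' : z' = z := by
    obtain ⟨C1, hC1, hne1⟩ := sep_ex hS hs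
    have hC2 := compl_clo hS hC1 hne1
    obtain ⟨u1, hu1, hu1'⟩ := sep_meet hS hs hC1
    obtain ⟨u2, hu2, hu2'⟩ := sep_meet hS hs hC2
    have h3 : z' ∈ ({x, s, z, a} : Finset V) := by
      by_contra hz'
      have h4 := hC1.2.2.2 u1 hu1 z' (hzb'.left hS) hz' (hlv u1 hu1')
      have h5 := hC2.2.2.2 u2 hu2 z' (hzb'.left hS) hz' (hlv u2 hu2')
      exact (Finset.mem_sdiff.mp h5).2 h4
    simp only [Finset.mem_insert, Finset.mem_singleton] at h3
    rcases h3 with h3 | h3 | h3 | h3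
    · exact absurd (h3 ▸ hxx) hxz'
    · exact absurd (h3 ▸ hxc) hxz'
    · exact h3
    · exact absurd (h3 ▸ hxa) hxz'
  subst hzz'
  have nzq : ∀ q ∈ ({a, b, s, s'} : Finset V), z' ≠ q := by
    rintro q hq rfl
    exact hxz (hNQ _ hq)
  have nza : z' ≠ a := nzq a (by simp)
  have nzb : z' ≠ b := nzq b (by simp)
  have nzc : z' ≠ s := nzq s (by simp)
  have nzd : z' ≠ s' := nzq s' (by simp)
  -- the links of the edges at `z`
  have hlink : ∀ q p r : V, E S z' q → z' ≠ q → E S z' p → E S z' r → E S p q → E S r q →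
      p ≠ z' → r ≠ z' → p ≠ q → r ≠ q → p ≠ r → ∀ w ∈ lv S {z', q}, w = p ∨ w = r := by
    intro q p r h3 h4 h5 h6 h7 h8 h9 h10 h11 h12 h13 w hw
    have hsub : ({p, r} : Finset V) ⊆ lv S {z', q} := by
      intro y hy
      simp only [Finset.mem_insert, Finset.mem_singleton] at hy
      rw [mem_lv2 hS h3]
      rcases hy with rfl | rfl
      · exact ⟨h9, h11, h5.symm, h7⟩
      · exact ⟨h10, h12, h6.symm, h8⟩
    have heq := Finset.eq_of_subset_of_card_le hsub
      (by rw [lv2_card hS h3 h4, Finset.card_pair h13])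
    rw [← heq] at hw
    simpa using hw
  have hQlink : ∀ q ∈ ({a, b, s, s'} : Finset V), ∀ w ∈ lv S {z', q},
      w ∈ ({a, b, s, s'} : Finset V) := by
    intro q hq w hw
    simp only [Finset.mem_insert, Finset.mem_singleton] at hq
    rcases hq with rfl | rfl | rfl | rfl
    · rcases hlink q b s' hza nza hzb' hzd' hab.symm hda nzb.symm nzd.symm nab.symm nda nbd w hw
        with rfl | rfl <;> simp
    · rcases hlink q a s hzb' nzb hza hzc hab hbc.symm nza.symm nzc.symm nab nbc.symm nac w hw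
        with rfl | rfl <;> simp
    · rcases hlink q b s' hzc nzc hzb' hzd' hbc hcd.symm nzb.symm nzd.symm nbc ncd.symm nbd w hw
        with rfl | rfl <;> simp
    · rcases hlink q a s hzd' nzd hza hzc hda.symm hcd nza.symm nzc.symm nda.symm ncd nac w hw
        with rfl | rfl <;> simp
  have hzX : z' ∈ lv S ∅ := hza.left hS
  have hzQ : z' ∉ ({a, b, s, s'} : Finset V) := fun h' => nzq _ h' rfl
  have hP1 : ∀ u, E S z' u → u ≠ z' → LX S {z'} ∅ {u} := by
    intro u hu hne
    refine ⟨?_, ?_, Finset.disjoint_empty_right _⟩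
    · rw [Finset.disjoint_singleton]
      exact hne
    · rw [Finset.singleton_union]
      exact hu.symm
  have hNz : ∀ w, E S z' w → w ≠ z' → w ∈ ({a, b, s, s'} : Finset V) := by
    intro w hw hwz
    by_contra hwQ
    obtain ⟨u, hu, v, hv, huv⟩ := conn_gen (k := K) (LX S {z'} ∅)
      (fun y hy hby => hS.ex {z'} (by rw [mem_X] at hzX; simpa [E] using hzX) 1 (by simp) y hy hby)
      ({a, b, s, s'} : Finset V) a w (by simp) (hP1 a hza nza.symm) hwQ (hP1 w hw hwz)
    apply hv
    apply hQlink u hu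
    rw [mem_lv]
    obtain ⟨h3, h4, _⟩ := huv
    rw [Finset.disjoint_singleton_right] at h3
    simp only [Finset.mem_insert, Finset.mem_singleton, not_or] at h3
    refine ⟨?_, ?_⟩
    · simp only [Finset.mem_insert, Finset.mem_singleton, not_or]
      exact ⟨fun h' => h3.2 h'.symm, fun h' => hv (h' ▸ hu)⟩
    · convert h4 using 1
      ext y
      simp only [Finset.mem_insert, Finset.mem_singleton, Finset.mem_union]
      tauto
  have hzclo : Clo S {a, b, s, s'} {z'} := by
    refine ⟨Finset.singleton_nonempty _, ?_, ?_, ?_⟩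
    · rw [Finset.singleton_subset_iff]
      exact hzX
    · rw [Finset.disjoint_singleton_left]
      exact hzQ
    · intro u hu y hy hyQ huy
      rw [Finset.mem_singleton] at hu ⊢
      subst hu
      by_contra hne
      exact hyQ (hNz y huy hne)
  have hzx : z' ≠ x := by
    rintro rfl
    exact hxz hxx
  have hzB : {z'} = B := by
    apply hBmin _ hzclo
    rw [Finset.singleton_subset_iff, hBdef]
    simp only [Finset.mem_sdiff]
    exact ⟨⟨hzX, hzQ⟩, by rwa [Finset.mem_singleton]⟩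
  refine ⟨x, z', ?_, ?_, hxz, ?_⟩
  · simpa [E] using hxx
  · have := mem_X.mp hzX
    simpa [E] using this
  · intro w hw hwx hwz
    have hwX : w ∈ lv S ∅ := by
      rw [mem_X]
      simpa [E] using hw
    by_cases hwQ : w ∈ ({a, b, s, s'} : Finset V)
    · refine ⟨hNQ w hwQ, ?_⟩
      simp only [Finset.mem_insert, Finset.mem_singleton] at hwQ
      rcases hwQ with rfl | rfl | rfl | rfl
      · exact hza
      · exact hzb'
      · exact hzc
      · exact hzd'
    · exfalso
      have h3 : w ∈ B := by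
        rw [hBdef]
        simp only [Finset.mem_sdiff]
        exact ⟨⟨hwX, hwQ⟩, by rwa [Finset.mem_singleton]⟩
      rw [← hzB, Finset.mem_singleton] at h3
      exact hwz h3

end MinqAux

open MinqAux in
theorem minq {S : Finset (Finset V)} (h : HS K S 3) :
    (∃ a b, {a} ∈ S ∧ {b} ∈ S ∧ ({a, b} : Finset V) ∉ S ∧
      ∀ w, {w} ∈ S → w ≠ a → w ≠ b → ({a, w} : Finset V) ∈ S ∧ ({b, w} : Finset V) ∈ S) ∨
    (∃ u v, u ≠ v ∧ ({u, v} : Finset V) ∈ S ∧ NoSq S u v) := by
  classical
  by_cases hsq : ∃ a b c d, Sq S a b c d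
  · -- choose the smallest closed set of an induced 4-cycle
    have hex : ∃ n, ∃ a b c d C, Sq S a b c d ∧ Clo S {a, b, c, d} C ∧ C.card = n := by
      obtain ⟨a, b, c, d, hQ⟩ := hsq
      obtain ⟨C, hC, _⟩ := sep_ex h hQ
      exact ⟨C.card, a, b, c, d, C, hQ, hC, rfl⟩
    obtain ⟨a, b, c, d, C, hQ, hC, hn⟩ := Nat.find_spec hex
    have hmin : ∀ a' b' c' d' C', Sq S a' b' c' d' → Clo S {a', b', c', d'} C' →
        C.card ≤ C'.card := by
      intro a' b' c' d' C' h1 h2
      rw [hn]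
      exact Nat.find_min' hex ⟨a', b', c', d', C', h1, h2, rfl⟩
    obtain ⟨C0, hC0, hne0⟩ := sep_ex h hQ
    have hne : ((lv S ∅ \ {a, b, c, d}) \ C).Nonempty := by
      rw [Finset.sdiff_nonempty]
      intro hsub
      have h1 : C0 ⊂ lv S ∅ \ {a, b, c, d} := by
        rw [Finset.ssubset_iff_subset_ne]
        refine ⟨?_, ?_⟩
        · intro y hy
          rw [Finset.mem_sdiff]
          exact ⟨hC0.2.1 hy, Finset.disjoint_left.mp hC0.2.2.1 hy⟩
        · rintro rfl
          rw [Finset.sdiff_self] at hne0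
          exact Finset.not_nonempty_empty hne0
      have h2 := Finset.card_lt_card h1
      have h3 := Finset.card_le_card hsub
      have h4 := hmin a b c d C0 hQ hC0
      omega
    have hB := compl_clo h hC hne
    have hBmin : ∀ D, Clo S {a, b, c, d} D → D ⊆ (lv S ∅ \ {a, b, c, d}) \ C →
        D = (lv S ∅ \ {a, b, c, d}) \ C := by
      intro D hD hDB
      by_contra hne'
      have h1 : (((lv S ∅ \ {a, b, c, d}) \ C) \ D).Nonempty := by
        rw [Finset.sdiff_nonempty]
        intro h2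
        exact hne' (Finset.Subset.antisymm hDB h2)
      have h2 := diff_clo h hB hD h1
      refine three h hQ hC hD h2 ?_ ?_ ?_
      · rw [Finset.disjoint_left]
        intro y hy hy'
        exact (Finset.mem_sdiff.mp (hDB hy')).2 hy
      · rw [Finset.disjoint_left]
        intro y hy hy'
        exact (Finset.mem_sdiff.mp (Finset.mem_sdiff.mp hy').1).2 hy
      · rw [Finset.disjoint_left]
        intro y hy hy'
        exact (Finset.mem_sdiff.mp hy').2 hy
    by_cases hcard : 2 ≤ C.card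
    · exact Or.inr (case_two h hQ hC rfl hB hBmin hmin hcard)
    · have h1 : C.card = 1 := by
        have := hC.1.card_pos
        omega
      obtain ⟨x, rfl⟩ := Finset.card_eq_one.mp h1
      exact case_one h hQ hC rfl hBmin
  · -- no induced 4-cycle: any edge will do
    right
    have h0 : (∅ : Finset V) ∈ S := by
      obtain ⟨z, hz, _, hz0, _⟩ := (h.top ∅ (h.flag ∅ (by simp)) 3 (by simp))
      exact h.flag ∅ (by simp)
    obtain ⟨u, _, hu⟩ := h.extend ∅ h0 (by simp)
    obtain ⟨v, hv, hvu⟩ := h.extend (insert u ∅) hu (by simp)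
    have huv : E S u v := by
      unfold E
      rw [Finset.pair_comm]
      simpa using hvu
    refine ⟨u, v, ?_, huv, ?_⟩
    · rintro rfl
      exact hv (by simp)
    · by_contra hno
      obtain ⟨s, t, hst⟩ := sq_of_not huv hno
      exact hsq ⟨_, _, _, _, hst⟩

end Pool.Agent.MP19e880.W1
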