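import Pool.Agent.Lib.MP_19e880_co_W1.Gen
import Pool.Agent.Lib.MP_19e880_co_W1.Clo
import Pool.Agent.Lib.MP_19e880_co_W1.Loc
import Pool.Agent.Lib.MP_19e880_co_W1.Loc2
import Pool.Agent.Lib.MP_19e880_co_W1.Ext
import Pool.Agent.Lib.MP_19e880_co_W1.Dual
import Pool.Agent.Lib.MP_19e880_co_W1.Ho
import Pool.Agent.Lib.MP_19e880_co_W1.CtrC
import Pool.Agent.Lib.MP_19e880_co_W1.MinQ

/-!
Assembly of the local-to-global Charney-Davis inequality.
-/

set_option autoImplicit false
set_option linter.unusedSectionVars false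

namespace Pool.Agent.MP19e880.W1

variable {V : Type} [Fintype V] [LinearOrder V]

theorem ad_symm (S : Finset (Finset V)) (a b : V) (h : ad S a b) : ad S b a := by
  unfold ad at h ⊢
  rwa [Finset.pair_comm]

section
variable {k : Type} [Field k]

theorem mem_lv0 {S : Finset (Finset V)} (a : V) : a ∈ lv S ∅ ↔ {a} ∈ S := by
  rw [mem_lv]
  simp

/-- From the standalone link to the link inside. -/
theorem gv_link {S : Finset (Finset V)} {d n : ℕ} (h : HS k S d) (σ : Finset V) (hσ : σ ∈ S)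
    (hG : GV k (ad (lkF S σ)) (lv (lkF S σ) ∅) n) : GV k (ad S) (lv S σ) n := by
  rw [lv_lkF h σ hσ] at hG
  exact gv_congr k hG fun a ha b hb _ => ad_lkF h σ hσ a b ha hb

theorem gv_one {S : Finset (Finset V)} {d : ℕ} (h : HS k S d) (hd : 1 ≤ d) :
    GV k (ad S) (lv S ∅) 1 := by
  obtain ⟨a, b, hab, ha, hb, hne⟩ := non_adj h hd
  exact vv_one a b ((mem_lv0 a).mpr ha) ((mem_lv0 b).mpr hb) hab (gen_ne k hab hne)

theorem gv_zero (A : V → V → Prop) (X : Finset V) : GV k A X 0 := by
  intro M _ _ ψ φ _ j hj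
  exact absurd hj (Nat.not_lt_zero j)

theorem gv_susp {S : Finset (Finset V)} {a b : V} (ha : {a} ∈ S)
    (hb : {b} ∈ S) (hab : ({a, b} : Finset V) ∉ S)
    (hw : ∀ w, {w} ∈ S → w ≠ a → w ≠ b → ({a, w} : Finset V) ∈ S ∧ ({b, w} : Finset V) ∈ S)
    (n : ℕ) : GV k (ad S) (lv S ∅) n := by
  have hne : a ≠ b := by
    rintro rfl
    apply hab
    rw [Finset.pair_eq_singleton]
    exact ha
  exact vv_susp a b ((mem_lv0 a).mpr ha) ((mem_lv0 b).mpr hb) hne (gen_ne k hne hab)
    (ad_symm S) hab (fun w hw1 hwa hwb => hw w ((mem_lv0 w).mp hw1) hwa hwb)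
    (fun x _ y _ _ hxy => gen_zero k hxy) n

/-- Contraction for spheres. -/
theorem gv_con {S : Finset (Finset V)} {d n : ℕ} (h : HS k S d) (u v : V) (huv : u ≠ v)
    (huvS : ({u, v} : Finset V) ∈ S) (hsq : NoSq S u v)
    (h1 : GV k (ad (con S u v)) (lv (con S u v) ∅) (n + 1))
    (h2 : GV k (ad (lkF S {u, v})) (lv (lkF S {u, v}) ∅) n) :
    GV k (ad S) (lv S ∅) (n + 1) := by
  have hu : {u} ∈ S := h.down _ huvS _ (by simp)
  have hv : {v} ∈ S := h.down _ huvS _ (by simp)
  have h2' := gv_link h _ huvS h2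
  have hcn : cn (ad S) (lv S ∅) u v = lv S {u, v} := by
    ext w
    rw [mem_cn, mem_lv0, mem_lv]
    constructor
    · rintro ⟨hw, hwu, hwv, h3, h4⟩
      refine ⟨by simp [hwu, hwv], ?_⟩
      have h5 := h.flag_insert {v} u w huvS (by
        unfold ad at h4
        rw [Finset.pair_comm]
        exact h4) (by
        unfold ad at h3
        rw [Finset.pair_comm]
        exact h3)
      rw [Finset.insert_comm] at h5
      exact h5
    · rintro ⟨hw, hwS⟩
      simp only [Finset.mem_insert, Finset.mem_singleton, not_or] at hw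
      refine ⟨h.down _ hwS _ (by simp), hw.1, hw.2, h.down _ hwS _ ?_, h.down _ hwS _ ?_⟩
      · intro x hx
        simp only [Finset.mem_insert, Finset.mem_singleton] at hx ⊢
        tauto
      · intro x hx
        simp only [Finset.mem_insert, Finset.mem_singleton] at hx ⊢
        tauto
  rw [lv_con h.down u v huv huvS] at h1
  have h1' : GV k (ct (ad S) u v) ((lv S ∅).erase v) (n + 1) := by
    refine gv_congr k h1 fun a ha b hb hab => ?_
    exact ad_con h.down u v huv huvS a b (Finset.ne_of_mem_erase ha) (Finset.ne_of_mem_erase hb)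
      hab
  refine gcontr k (ad_symm S) ((mem_lv0 u).mpr hu) ((mem_lv0 v).mpr hv) huv huvS ?_ n h1' ?_
  · intro s _ t _ _ _ _ _ _ h3 h4 h5
    exact hsq s t h3 h4 h5
  · rw [hcn]
    exact h2'

theorem card_con {S : Finset (Finset V)} (hS : ∀ F ∈ S, ∀ G, G ⊆ F → G ∈ S) (u v : V)
    (huv : u ≠ v) (huvS : ({u, v} : Finset V) ∈ S) :
    (lv (con S u v) ∅).card < (lv S ∅).card := by
  rw [lv_con hS u v huv huvS]
  refine Finset.card_erase_lt_of_mem ?_
  rw [mem_lv0]
  exact hS _ huvS _ (by simp)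

theorem gv_two_three : ∀ N : ℕ, ∀ S : Finset (Finset V), (lv S ∅).card ≤ N → HS k S 3 →
    GV k (ad S) (lv S ∅) 2 := by
  intro N
  induction N with
  | zero =>
    intro S hN h
    obtain ⟨a, b, _, ha, _⟩ := non_adj h (by norm_num)
    have h1 : a ∈ lv S ∅ := (mem_lv0 a).mpr ha
    have h2 := Finset.card_pos.mpr ⟨a, h1⟩
    omega
  | succ N ih =>
    intro S hN h
    rcases minq h with ⟨a, b, ha, hb, hab, hw⟩ | ⟨u, v, huv, huvS, hsq⟩
    · exact gv_susp ha hb hab hw 2
    · have h1 := card_con h.down u v huv huvS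
      refine gv_con h u v huv huvS hsq (ih _ (by omega) (hs_con h u v huv huvS hsq)) ?_
      have h2 := hs_lk h _ huvS
      rw [Finset.card_pair huv] at h2
      exact gv_one h2 (by norm_num)

/-- `V_2` of all flag homology spheres of dimension at least two. -/
theorem gv_two : ∀ d : ℕ, ∀ S : Finset (Finset V), HS k S (d + 3) →
    GV k (ad S) (lv S ∅) 2 := by
  intro d
  induction d with
  | zero => exact fun S h => gv_two_three _ S (le_refl _) h
  | succ d ih =>
    intro S h
    have hK : HS (KK V k) S (d + 1 + 3) := hs_ext k h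
    refine loc hK (gen k (ad S)) (fun a b hab hS => gen_zero k hS) ∅ ?_ ?_
    · intro F _ hF
      rw [Finset.subset_empty] at hF
      rw [hF, Finset.card_empty]
      omega
    · intro σ hσ hσ0 _ hσn
      have hpos : 0 < σ.card := Finset.card_pos.mpr (Finset.nonempty_iff_ne_empty.mpr hσ0)
      have h1 := hs_lk h σ hσ
      refine gv_link h σ hσ ?_
      have hc : σ.card = 1 ∨ σ.card = 2 := by omega
      rcases hc with hc | hc
      · rw [hc] at h1 ⊢
        exact ih _ h1
      · rw [hc] at h1 ⊢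
        exact gv_one h1 (by omega)

/-- Vanishing of all cohomology except in the middle. -/
theorem all_ex {S : Finset (Finset V)} {m : ℕ} (h : HS k S (2 * m))
    (hG : GV k (ad S) (lv S ∅) m) {M : Type} [AddCommGroup M] [Module (KK V k) M]
    (ψ φ : V → M →ₗ[KK V k] M) (hR : Rel (gen k (ad S)) (lv S ∅) ψ φ) (j : ℕ) (hj : j ≠ m) :
    ExAt (fun F => F ∈ S) ψ j := by
  have hK : HS (KK V k) S (2 * m) := hs_ext k h
  have h0 : (∅ : Finset V) ∈ S := h.flag ∅ (by simp)
  have hP : Cl (ad S) (lv S ∅) = fun F => F ∈ S := by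
    funext F
    rw [cl_lv hK ∅ h0 F]
    unfold LX
    simp
  rcases lt_or_gt_of_ne hj with hj | hj
  · rw [← hP]
    exact hG M ψ φ hR j hj
  · refine dual hK (gen k (ad S)) (fun a b _ hS => gen_zero k hS) ψ φ hR m (by omega) ?_ j
      (by omega)
    intro i hi
    rw [← hP]
    exact ho_of_vv (ad_symm S) (fun a _ b _ _ hab => gen_zero k hab) hG ψ φ hR i hi

/-- The generic matrix, restricted to `X`. -/
noncomputable def gr (k : Type) [Field k] (A : V → V → Prop) (X : Finset V) : V → V → KK V k :=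
  fun a b => if a ∈ X ∧ b ∈ X then gen k A a b else 0

theorem gr_symm {A : V → V → Prop} (hA : ∀ a b, A a b → A b a) (X : Finset V) (a b : V) :
    gr k A X a b = gr k A X b a := by
  unfold gr
  rw [gen_symm k hA a b]
  by_cases h : a ∈ X ∧ b ∈ X
  · rw [if_pos h, if_pos h.symm]
  · rw [if_neg h, if_neg (fun h' => h h'.symm)]

/-- The Charney-Davis inequality at level `m`, and the case of equality. -/
theorem main {S : Finset (Finset V)} {m : ℕ} (h : HS k S (2 * m))
    (hG : GV k (ad S) (lv S ∅) m) :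
    0 ≤ (-1 : ℤ) ^ m * ∑ F ∈ S, (-2 : ℤ) ^ (2 * m - F.card) ∧
    (∑ F ∈ S, (-2 : ℤ) ^ (2 * m - F.card) = 0 → ∀ n, GV k (ad S) (lv S ∅) n) := by
  have hK : HS (KK V k) S (2 * m) := hs_ext k h
  have h0 : (∅ : Finset V) ∈ S := h.flag ∅ (by simp)
  have hP : Cl (ad S) (lv S ∅) = fun F => F ∈ S := by
    funext F
    rw [cl_lv hK ∅ h0 F]
    unfold LX
    simp
  have hR' := fock_rel (gr k (ad S) (lv S ∅)) (gr_symm (ad_symm S) _) (lv S ∅)
  have hagree : ∀ a ∈ lv S ∅, ∀ b ∈ lv S ∅, gr k (ad S) (lv S ∅) a b = gen k (ad S) a b := by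
    intro a ha b hb
    unfold gr
    rw [if_pos ⟨ha, hb⟩]
  have hR : Rel (gen k (ad S)) (lv S ∅)
      (fun v => (Pm (KK V k) (gr k (ad S) (lv S ∅)) v).mulVecLin)
      (fun v => (Fm (KK V k) v).mulVecLin) :=
    ⟨hR'.sq, fun u hu v hv huv x => by rw [← hagree u hu v hv]; exact hR'.ac u hu v hv huv x,
      hR'.one, hR'.zer, hR'.psq, hR'.pac⟩
  have hex : ∀ j, j ≠ m → ExAt (fun F => F ∈ S)
      (fun v => (Pm (KK V k) (gr k (ad S) (lv S ∅)) v).mulVecLin) j :=
    fun j hj => all_ex h hG _ _ hR j hj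
  have hSX : ∀ F ∈ S, F ⊆ lv S ∅ := by
    intro F hF a ha
    rw [mem_lv0]
    exact h.down F hF _ (by simpa using ha)
  have hE := euler hR' S h.down hSX (fun a b _ hab => by
    unfold gr
    rw [gen_zero k hab]
    simp) m h.card_le hex
  refine ⟨hE.1, fun hz n => ?_⟩
  have hall : ∀ j, j < n → ExAt (Cl (ad S) (lv S ∅))
      (fun v => (Pm (KK V k) (gr k (ad S) (lv S ∅)) v).mulVecLin) j := by
    intro j _
    rw [hP]
    by_cases hj : j = m
    · rw [hj]
      exact hE.2 hz
    · exact hex j hj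
  have hU := univ_ex (gr k (ad S) (lv S ∅)) (gr_symm (ad_symm S) _) (ad S) (lv S ∅) (by
    intro a b ha
    unfold gr
    rw [if_neg (fun h' => ha h'.1)]) n hall
  exact VV.congr hU (fun a ha b hb _ => hagree a ha b hb) (fun _ _ _ _ _ => Iff.rfl)

/-- The faces of the link of `F` which avoid `R`. -/
def lkR (S : Finset (Finset V)) (F R : Finset V) : Finset (Finset V) :=
  (lkF S F).filter (fun G => Disjoint G R)

/-- The certificates: `Cert k d n S` implies `V_n` if `S` is a flag homology `(d-1)`-sphere. -/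
inductive Cert (k : Type) [Field k] : ℕ → ℕ → Finset (Finset V) → Prop
  | low (d n : ℕ) (S : Finset (Finset V)) : n ≤ 2 → 2 * n ≤ d + 1 → Cert k d n S
  | susp (d n : ℕ) (S : Finset (Finset V)) (a b : V) : {a} ∈ S → {b} ∈ S → {a, b} ∉ S →
      (∀ w, {w} ∈ S → w ≠ a → w ≠ b → {a, w} ∈ S ∧ {b, w} ∈ S) → Cert k d n S
  | clos (d n : ℕ) (S : Finset (Finset V)) :
      Clos S n (S.filter (fun F => F.card = 2)) (lv S ∅) → Cert k d n S
  | flat (m n : ℕ) (S : Finset (Finset V)) : Cert k (2 * m) m S →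
      ∑ F ∈ S, (-2 : ℤ) ^ (2 * m - F.card) = 0 → Cert k (2 * m) n S
  | ctr (d n : ℕ) (S : Finset (Finset V)) (u v : V) : u ≠ v → {u, v} ∈ S → NoSq S u v →
      Cert k d n (con S u v) → Cert k (d - 2) (n - 1) (lkF S {u, v}) → Cert k d n S
  | loc (d n : ℕ) (S : Finset (Finset V)) (R : Finset V) :
      ((∀ F ∈ S, F ⊆ R → F.card + n ≤ d) ∨
        (∀ F ∈ S, F ⊆ R → ∀ j, j + F.card < n →
          ((lkR S F R).filter (fun G => G.card = j)).card =
            (Mt k (lkR S F R) j).rank + (Mt k (lkR S F R) (j + 1)).rank)) →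
      (∀ σ ∈ S, σ ≠ ∅ → Disjoint σ R → σ.card ≤ n →
        Cert k (d - σ.card) (n + 1 - σ.card) (lkF S σ)) → Cert k d n S

theorem mem_lkR {S : Finset (Finset V)} (hS : ∀ F ∈ S, ∀ G : Finset V, G ⊆ F → G ∈ S)
    (F R G : Finset V) : G ∈ lkR S F R ↔ LX S F R G := by
  unfold lkR
  rw [Finset.mem_filter, mem_lkF S hS]
  unfold LX
  constructor
  · rintro ⟨⟨h1, h2, _⟩, h3⟩
    exact ⟨h1, h2, h3⟩
  · rintro ⟨h1, h2, h3⟩
    exact ⟨⟨h1, h2, Finset.disjoint_empty_right _⟩, h3⟩

theorem red_gv {d n : ℕ} {S : Finset (Finset V)} (hr : Cert k d n S) :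
    HS k S d → GV k (ad S) (lv S ∅) n := by
  induction hr with
  | low d n S hn hd =>
    intro h
    have hc : n = 0 ∨ n = 1 ∨ n = 2 := by omega
    rcases hc with rfl | rfl | rfl
    · exact gv_zero _ _
    · exact gv_one h (by omega)
    · obtain ⟨e, rfl⟩ : ∃ e, d = e + 3 := ⟨d - 3, by omega⟩
      exact gv_two e S h
  | susp d n S a b ha hb hab hw =>
    intro _
    exact gv_susp ha hb hab hw n
  | clos d n S hc =>
    intro h
    have h1 := clos_vv (g := gen k (ad S)) (fun a b _ hab => gen_zero k hab)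
      (fun a b hab hn => gen_ne k hab hn) hc (Finset.filter_subset _ _)
    refine VV.congr h1 (fun _ _ _ _ _ => rfl) ?_
    intro a _ b _ hab
    unfold ad
    rw [Finset.mem_filter, Finset.card_pair hab]
    simp
  | flat m n S _ hz ih =>
    intro h
    exact (main h (ih h)).2 hz n
  | ctr d n S u v huv huvS hsq _ _ ih1 ih2 =>
    intro h
    have h2 := hs_lk h _ huvS
    rw [Finset.card_pair huv] at h2
    have h3 := ih1 (hs_con h u v huv huvS hsq)
    have h4 := ih2 h2
    cases n with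
    | zero => exact gv_zero _ _
    | succ n => exact gv_con h u v huv huvS hsq h3 h4
  | loc d n S R hR _ ih =>
    intro h
    have hK : HS (KK V k) S d := hs_ext k h
    rcases hR with hR | hR
    · refine W1.loc hK (gen k (ad S)) (fun a b hab hS => gen_zero k hS) R hR ?_
      intro σ hσ hσ0 hσR hσn
      exact gv_link h σ hσ (ih σ hσ hσ0 hσR hσn (hs_lk h σ hσ))
    · refine loc_star hK (gen k (ad S)) (fun a b hab hS => gen_zero k hS) R ?_ ?_
      · intro F hF hFR j hj
        refine ex_ext k (LX S F R) j ?_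
        intro z hz hb
        have h1 := hR F hF hFR j hj
        obtain ⟨c, hc, hbc⟩ := exact_of_rank (lkR S F R) (by
          intro A hA B hB
          rw [mem_lkR h.down] at hA ⊢
          exact ⟨Finset.disjoint_of_subset_left hB hA.1,
            h.down _ hA.2.1 _ (Finset.union_subset_union_left hB),
            Finset.disjoint_of_subset_left hB hA.2.2⟩) j (by omega) z
          (hz.mono fun A _ hA => (mem_lkR h.down F R A).mpr hA) hb
        exact ⟨c, hc.mono fun A _ hA => (mem_lkR h.down F R A).mp hA, hbc⟩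
      · intro σ hσ hσ0 hσR hσn
        exact gv_link h σ hσ (ih σ hσ hσ0 hσR hσn (hs_lk h σ hσ))

/-- The Charney-Davis inequality for reducible flag homology spheres. -/
theorem red_main {S : Finset (Finset V)} {m : ℕ} (h : HS k S (2 * m)) (hr : Cert k (2 * m) m S) :
    0 ≤ (-1 : ℤ) ^ m * ∑ F ∈ S, (-2 : ℤ) ^ (2 * m - F.card) :=
  (main h (red_gv hr h)).1

end

end Pool.Agent.MP19e880.W1
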