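import Pool.Agent.Lib.MP_19e880_co_W1.Defs

/-!
Clifford complexes of flag complexes: basic lemmas.
-/

set_option autoImplicit false
set_option linter.unusedSectionVars false

namespace Pool.Agent.MP19e880.W1

variable {V : Type} [Fintype V] [LinearOrder V] {K : Type} [Field K]
  {M : Type} [AddCommGroup M] [Module K M]

theorem Cl.down {A : V → V → Prop} {X F G : Finset V} (h : Cl A X F) (hG : G ⊆ F) : Cl A X G :=
  ⟨hG.trans h.1, fun a ha b hb hab => h.2 a (hG ha) b (hG hb) hab⟩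

theorem Cl.mono {A : V → V → Prop} {X Y F : Finset V} (h : Cl A X F) (hX : X ⊆ Y) : Cl A Y F :=
  ⟨h.1.trans hX, h.2⟩

theorem cl_empty (A : V → V → Prop) (X : Finset V) : Cl A X ∅ :=
  ⟨Finset.empty_subset _, fun a ha => absurd ha (Finset.notMem_empty a)⟩

theorem Rel.mono {g : V → V → K} {X Y : Finset V} {ψ φ : V → M →ₗ[K] M}
    (h : Rel g X ψ φ) (hY : Y ⊆ X) : Rel g Y ψ φ where
  sq v hv := h.sq v (hY hv)
  ac u hu v hv := h.ac u (hY hu) v (hY hv)
  one v hv := h.one v (hY hv)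
  zer u hu v hv := h.zer u (hY hu) v (hY hv)
  psq v hv := h.psq v (hY hv)
  pac u hu v hv := h.pac u (hY hu) v (hY hv)

theorem Ok.of_rel {g : V → V → K} {A : V → V → Prop} {X : Finset V} {ψ φ : V → M →ₗ[K] M}
    (h : Rel g X ψ φ) (hg : ∀ a ∈ X, ∀ b ∈ X, a ≠ b → A a b → g a b = 0) : Ok (Cl A X) ψ where
  down F hF G hG := hF.down hG
  sq F hF v hv := h.sq v (hF.1 hv)
  ac F hF u hu v hv huv x := by
    rw [h.ac u (hF.1 hu) v (hF.1 hv) huv, hg u (hF.1 hu) v (hF.1 hv) huv (hF.2 u hu v hv huv),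
      zero_smul]

theorem Ok.of_le {P Q : Finset V → Prop} {ψ : V → M →ₗ[K] M} (h : Ok P ψ)
    (hQ : ∀ F, Q F → P F) (hd : ∀ F, Q F → ∀ G, G ⊆ F → Q G) : Ok Q ψ where
  down := hd
  sq F hF := h.sq F (hQ F hF)
  ac F hF := h.ac F (hQ F hF)

theorem Co.zero {P : Finset V → Prop} {ψ : V → M →ₗ[K] M} {j : ℕ} :
    Co P ψ j (0 : Finset V → M) := by
  intro F hF
  exact absurd rfl hF

theorem Co.add {P : Finset V → Prop} {ψ : V → M →ₗ[K] M} {j : ℕ} {x y : Finset V → M}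
    (hx : Co P ψ j x) (hy : Co P ψ j y) : Co P ψ j (x + y) := by
  intro F hF
  have hx0 : ∀ v ∈ F, ψ v (x F) = 0 := by
    intro v hv
    by_cases h : x F = 0
    · rw [h, map_zero]
    · exact (hx F h).2.2 v hv
  have hy0 : ∀ v ∈ F, ψ v (y F) = 0 := by
    intro v hv
    by_cases h : y F = 0
    · rw [h, map_zero]
    · exact (hy F h).2.2 v hv
  have h2 : P F ∧ F.card = j := by
    by_cases h : x F = 0
    · have : y F ≠ 0 := by
        intro h'
        apply hF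
        simp [h, h']
      exact ⟨(hy F this).1, (hy F this).2.1⟩
    · exact ⟨(hx F h).1, (hx F h).2.1⟩
  refine ⟨h2.1, h2.2, fun v hv => ?_⟩
  rw [Pi.add_apply, map_add, hx0 v hv, hy0 v hv, add_zero]

theorem Co.neg {P : Finset V → Prop} {ψ : V → M →ₗ[K] M} {j : ℕ} {x : Finset V → M}
    (hx : Co P ψ j x) : Co P ψ j (-x) := by
  intro F hF
  have h1 : x F ≠ 0 := by
    intro h
    apply hF
    simp [h]
  refine ⟨(hx F h1).1, (hx F h1).2.1, fun v hv => ?_⟩
  rw [Pi.neg_apply, map_neg, (hx F h1).2.2 v hv, neg_zero]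

theorem Co.sub {P : Finset V → Prop} {ψ : V → M →ₗ[K] M} {j : ℕ} {x y : Finset V → M}
    (hx : Co P ψ j x) (hy : Co P ψ j y) : Co P ψ j (x - y) := by
  rw [sub_eq_add_neg]
  exact hx.add hy.neg

theorem Co.smul {P : Finset V → Prop} {ψ : V → M →ₗ[K] M} {j : ℕ} {x : Finset V → M}
    (hx : Co P ψ j x) (a : K) : Co P ψ j (a • x) := by
  intro F hF
  have h1 : x F ≠ 0 := by
    intro h
    apply hF
    simp [h]
  refine ⟨(hx F h1).1, (hx F h1).2.1, fun v hv => ?_⟩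
  rw [Pi.smul_apply, map_smul, (hx F h1).2.2 v hv, smul_zero]

theorem Co.mono {P Q : Finset V → Prop} {ψ : V → M →ₗ[K] M} {j : ℕ} {x : Finset V → M}
    (hx : Co P ψ j x) (h : ∀ F, F.card = j → P F → Q F) : Co Q ψ j x := by
  intro F hF
  obtain ⟨h1, h2, h3⟩ := hx F hF
  exact ⟨h F h2 h1, h2, h3⟩

theorem Co.kill {P : Finset V → Prop} {ψ : V → M →ₗ[K] M} {j : ℕ} {x : Finset V → M}
    (hx : Co P ψ j x) {F : Finset V} {v : V} (hv : v ∈ F) : ψ v (x F) = 0 := by
  by_cases h : x F = 0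
  · rw [h, map_zero]
  · exact (hx F h).2.2 v hv

theorem Co.off {P : Finset V → Prop} {ψ : V → M →ₗ[K] M} {j : ℕ} {x : Finset V → M}
    (hx : Co P ψ j x) {F : Finset V} (hF : ¬ P F) : x F = 0 := by
  by_contra h
  exact hF (hx F h).1

theorem Co.card {P : Finset V → Prop} {ψ : V → M →ₗ[K] M} {j : ℕ} {x : Finset V → M}
    (hx : Co P ψ j x) {F : Finset V} (hF : F.card ≠ j) : x F = 0 := by
  by_contra h
  exact hF (hx F h).2.1

theorem dl_pos {P : Finset V → Prop} {ψ : V → M →ₗ[K] M} {x : Finset V → M} {G : Finset V}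
    (h : P G) : dl P ψ x G = ∑ v ∈ G, ψ v (x (G.erase v)) := by
  unfold dl
  rw [if_pos h]

theorem dl_neg {P : Finset V → Prop} {ψ : V → M →ₗ[K] M} {x : Finset V → M} {G : Finset V}
    (h : ¬ P G) : dl P ψ x G = 0 := by
  unfold dl
  rw [if_neg h]

theorem dl_add (P : Finset V → Prop) (ψ : V → M →ₗ[K] M) (x y : Finset V → M) :
    dl P ψ (x + y) = dl P ψ x + dl P ψ y := by
  funext G
  by_cases h : P G
  · rw [Pi.add_apply, dl_pos h, dl_pos h, dl_pos h, ← Finset.sum_add_distrib]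
    refine Finset.sum_congr rfl fun v _ => ?_
    rw [Pi.add_apply, map_add]
  · rw [Pi.add_apply, dl_neg h, dl_neg h, dl_neg h, add_zero]

theorem dl_smul (P : Finset V → Prop) (ψ : V → M →ₗ[K] M) (a : K) (x : Finset V → M) :
    dl P ψ (a • x) = a • dl P ψ x := by
  funext G
  by_cases h : P G
  · rw [Pi.smul_apply, dl_pos h, dl_pos h, Finset.smul_sum]
    refine Finset.sum_congr rfl fun v _ => ?_
    rw [Pi.smul_apply, map_smul]
  · rw [Pi.smul_apply, dl_neg h, dl_neg h, smul_zero]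

theorem dl_neg' (P : Finset V → Prop) (ψ : V → M →ₗ[K] M) (x : Finset V → M) :
    dl P ψ (-x) = - dl P ψ x := by
  have h := dl_smul P ψ (-1) x
  rwa [neg_one_smul, neg_one_smul] at h

theorem dl_sub (P : Finset V → Prop) (ψ : V → M →ₗ[K] M) (x y : Finset V → M) :
    dl P ψ (x - y) = dl P ψ x - dl P ψ y := by
  rw [sub_eq_add_neg, dl_add, dl_neg', sub_eq_add_neg]

theorem dl_zero (P : Finset V → Prop) (ψ : V → M →ₗ[K] M) :
    dl P ψ (0 : Finset V → M) = 0 := by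
  have h := dl_smul P ψ 0 (0 : Finset V → M)
  rwa [zero_smul, zero_smul] at h

theorem dl_co {P : Finset V → Prop} {ψ : V → M →ₗ[K] M} (h : Ok P ψ) {j : ℕ}
    {x : Finset V → M} (hx : Co P ψ j x) : Co P ψ (j + 1) (dl P ψ x) := by
  intro G hG
  have hP : P G := by
    by_contra hc
    exact hG (dl_neg hc)
  rw [dl_pos hP] at hG ⊢
  obtain ⟨v, hv, hv0⟩ := Finset.exists_ne_zero_of_sum_ne_zero hG
  have hx0 : x (G.erase v) ≠ 0 := by
    intro h'
    rw [h', map_zero] at hv0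
    exact hv0 rfl
  have hc := (hx _ hx0).2.1
  rw [Finset.card_erase_of_mem hv] at hc
  have hpos : 0 < G.card := Finset.card_pos.mpr ⟨v, hv⟩
  refine ⟨hP, by omega, fun w hw => ?_⟩
  rw [map_sum]
  refine Finset.sum_eq_zero fun u hu => ?_
  by_cases huw : w = u
  · rw [huw]
    exact h.sq G hP u hu _
  · have h1 := h.ac G hP w hw u hu huw (x (G.erase u))
    rw [hx.kill (Finset.mem_erase.mpr ⟨huw, hw⟩), map_zero, add_zero] at h1
    exact h1

theorem dl_dl {P : Finset V → Prop} {ψ : V → M →ₗ[K] M} (h : Ok P ψ) (x : Finset V → M) :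
    dl P ψ (dl P ψ x) = 0 := by
  funext G
  by_cases hP : P G
  · rw [dl_pos hP]
    have h1 : ∀ v ∈ G, ψ v (dl P ψ x (G.erase v)) =
        ∑ w ∈ G.erase v, ψ v (ψ w (x ((G.erase v).erase w))) := by
      intro v _
      rw [dl_pos (h.down G hP _ (Finset.erase_subset _ _)), map_sum]
    rw [Finset.sum_congr rfl h1, Finset.sum_sigma', Pi.zero_apply]
    refine Finset.sum_involution (fun p _ => ⟨p.2, p.1⟩) ?_ ?_ ?_ ?_
    · rintro ⟨v, w⟩ hvw
      simp only [Finset.mem_sigma, Finset.mem_erase] at hvw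
      dsimp only
      rw [Finset.erase_right_comm (a := w) (b := v)]
      exact h.ac G hP v hvw.1 w hvw.2.2 (fun h' => hvw.2.1 h'.symm) _
    · rintro ⟨v, w⟩ hvw _ h'
      simp only [Finset.mem_sigma, Finset.mem_erase] at hvw
      exact hvw.2.1 (congrArg Sigma.fst h')
    · rintro ⟨v, w⟩ hvw
      simp only [Finset.mem_sigma, Finset.mem_erase] at hvw ⊢
      exact ⟨hvw.2.2, fun h' => hvw.2.1 h'.symm, hvw.1⟩
    · rintro ⟨v, w⟩ _
      rfl
  · rw [dl_neg hP, Pi.zero_apply]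

theorem mem_cn {A : V → V → Prop} {X : Finset V} {u v w : V} :
    w ∈ cn A X u v ↔ w ∈ X ∧ w ≠ u ∧ w ≠ v ∧ A u w ∧ A v w := by
  classical
  unfold cn
  rw [Finset.mem_filter]

/-- `V_n` for a smaller number. -/
theorem VV.mono {g : V → V → K} {A : V → V → Prop} {X : Finset V} {n m : ℕ}
    (h : VV g A X n) (hm : m ≤ n) : VV g A X m :=
  fun M _ _ ψ φ hR j hj => h M ψ φ hR j (by omega)

theorem cl_congr {A A' : V → V → Prop} {X : Finset V}
    (hA : ∀ a ∈ X, ∀ b ∈ X, a ≠ b → (A a b ↔ A' a b)) : Cl A X = Cl A' X := by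
  funext F
  apply propext
  constructor
  · rintro ⟨h1, h2⟩
    exact ⟨h1, fun a ha b hb hab => (hA a (h1 ha) b (h1 hb) hab).mp (h2 a ha b hb hab)⟩
  · rintro ⟨h1, h2⟩
    exact ⟨h1, fun a ha b hb hab => (hA a (h1 ha) b (h1 hb) hab).mpr (h2 a ha b hb hab)⟩

/-- `V_n` only depends on the matrix and the graph inside `X`. -/
theorem VV.congr {g g' : V → V → K} {A A' : V → V → Prop} {X : Finset V} {n : ℕ}
    (h : VV g A X n) (hg : ∀ a ∈ X, ∀ b ∈ X, a ≠ b → g a b = g' a b)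
    (hA : ∀ a ∈ X, ∀ b ∈ X, a ≠ b → (A a b ↔ A' a b)) : VV g' A' X n := by
  intro M _ _ ψ φ hR j hj
  rw [← cl_congr hA]
  refine h M ψ φ ?_ j hj
  exact ⟨hR.sq, fun u hu v hv huv x => by rw [hg u hu v hv huv]; exact hR.ac u hu v hv huv x,
    hR.one, hR.zer, hR.psq, hR.pac⟩

end Pool.Agent.MP19e880.W1
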