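import Pool.Agent.Lib.MP_19e880_co_W1.Basic

/-!
Clifford complexes of flag complexes: the contraction rule.
-/

set_option autoImplicit false
set_option linter.unusedSectionVars false

namespace Pool.Agent.MP19e880.W1

variable {V : Type} [Fintype V] [LinearOrder V] {K : Type} [Field K]
  {M : Type} [AddCommGroup M] [Module K M]

namespace ContrAux

/-- Cochains one degree below `j`. -/
def Cb (P : Finset V → Prop) (ψ : V → M →ₗ[K] M) (j : ℕ) (y : Finset V → M) : Prop :=
  ∀ F, y F ≠ 0 → P F ∧ F.card + 1 = j ∧ ∀ v ∈ F, ψ v (y F) = 0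

theorem cb_succ {P : Finset V → Prop} {ψ : V → M →ₗ[K] M} {j : ℕ} {y : Finset V → M} :
    Cb P ψ (j + 1) y ↔ Co P ψ j y := by
  constructor
  · intro h F hF
    obtain ⟨h1, h2, h3⟩ := h F hF
    exact ⟨h1, by omega, h3⟩
  · intro h F hF
    obtain ⟨h1, h2, h3⟩ := h F hF
    exact ⟨h1, by omega, h3⟩

theorem cb_zero_zero {P : Finset V → Prop} {ψ : V → M →ₗ[K] M} {y : Finset V → M}
    (h : Cb P ψ 0 y) : y = 0 := by
  funext F
  by_contra hF
  have := (h F hF).2.1
  omega

theorem cb_zero {P : Finset V → Prop} {ψ : V → M →ₗ[K] M} {j : ℕ} :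
    Cb P ψ j (0 : Finset V → M) := fun _ hF => absurd rfl hF

theorem Cb.kill {P : Finset V → Prop} {ψ : V → M →ₗ[K] M} {j : ℕ} {x : Finset V → M}
    (hx : Cb P ψ j x) {F : Finset V} {v : V} (hv : v ∈ F) : ψ v (x F) = 0 := by
  by_cases h : x F = 0
  · rw [h, map_zero]
  · exact (hx F h).2.2 v hv

theorem Cb.off {P : Finset V → Prop} {ψ : V → M →ₗ[K] M} {j : ℕ} {x : Finset V → M}
    (hx : Cb P ψ j x) {F : Finset V} (hF : ¬ P F) : x F = 0 := by
  by_contra h
  exact hF (hx F h).1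

theorem Cb.add {P : Finset V → Prop} {ψ : V → M →ₗ[K] M} {j : ℕ} {x y : Finset V → M}
    (hx : Cb P ψ j x) (hy : Cb P ψ j y) : Cb P ψ j (x + y) := by
  cases j with
  | zero =>
    rw [cb_zero_zero hx, cb_zero_zero hy, add_zero]
    exact cb_zero
  | succ j => exact cb_succ.mpr ((cb_succ.mp hx).add (cb_succ.mp hy))

theorem Cb.sub {P : Finset V → Prop} {ψ : V → M →ₗ[K] M} {j : ℕ} {x y : Finset V → M}
    (hx : Cb P ψ j x) (hy : Cb P ψ j y) : Cb P ψ j (x - y) := by
  cases j with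
  | zero =>
    rw [cb_zero_zero hx, cb_zero_zero hy, sub_zero]
    exact cb_zero
  | succ j => exact cb_succ.mpr ((cb_succ.mp hx).sub (cb_succ.mp hy))

theorem Cb.mono {P Q : Finset V → Prop} {ψ : V → M →ₗ[K] M} {j : ℕ} {x : Finset V → M}
    (hx : Cb P ψ j x) (h : ∀ F, P F → Q F) : Cb Q ψ j x := by
  intro F hF
  obtain ⟨h1, h2, h3⟩ := hx F hF
  exact ⟨h F h1, h2, h3⟩

theorem dl_cb {P : Finset V → Prop} {ψ : V → M →ₗ[K] M} (h : Ok P ψ) {j : ℕ}
    {x : Finset V → M} (hx : Cb P ψ j x) : Co P ψ j (dl P ψ x) := by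
  cases j with
  | zero =>
    rw [cb_zero_zero hx, dl_zero]
    exact Co.zero
  | succ j => exact dl_co h (cb_succ.mp hx)

/-- The Clifford relations on a subspace. -/
structure RelR (g : V → V → K) (Y : Finset V) (ψ φ : V → M →ₗ[K] M) (R : Submodule K M) :
    Prop where
  mp : ∀ v ∈ Y, ∀ x ∈ R, ψ v x ∈ R
  mf : ∀ v ∈ Y, ∀ x ∈ R, φ v x ∈ R
  sq : ∀ v ∈ Y, ∀ x ∈ R, ψ v (ψ v x) = 0
  ac : ∀ u ∈ Y, ∀ v ∈ Y, u ≠ v → ∀ x ∈ R, ψ u (ψ v x) + ψ v (ψ u x) = g u v • x
  one : ∀ v ∈ Y, ∀ x ∈ R, φ v (ψ v x) + ψ v (φ v x) = x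
  zer : ∀ u ∈ Y, ∀ v ∈ Y, u ≠ v → ∀ x ∈ R, φ u (ψ v x) + ψ v (φ u x) = 0
  psq : ∀ v ∈ Y, ∀ x ∈ R, φ v (φ v x) = 0
  pac : ∀ u ∈ Y, ∀ v ∈ Y, u ≠ v → ∀ x ∈ R, φ u (φ v x) + φ v (φ u x) = 0

theorem vv_sub {g : V → V → K} {A : V → V → Prop} {Y : Finset V} {n : ℕ} (h : VV g A Y n)
    {ψ φ : V → M →ₗ[K] M} {R : Submodule K M} (hR : RelR g Y ψ φ R) {j : ℕ} (hj : j < n)
    {x : Finset V → M} (hx : Co (Cl A Y) ψ j x) (hxR : ∀ F, x F ∈ R)
    (hdx : dl (Cl A Y) ψ x = 0) :
    ∃ y : Finset V → M, Cb (Cl A Y) ψ j y ∧ (∀ F, y F ∈ R) ∧ dl (Cl A Y) ψ y = x := by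
  classical
  let ψ' : V → R →ₗ[K] R := fun w => if hw : w ∈ Y then (ψ w).restrict (hR.mp w hw) else 0
  let φ' : V → R →ₗ[K] R := fun w => if hw : w ∈ Y then (φ w).restrict (hR.mf w hw) else 0
  have hψ : ∀ w ∈ Y, ∀ z : R, ((ψ' w z : R) : M) = ψ w (z : M) := by
    intro w hw z
    simp only [ψ', hw, dif_pos, LinearMap.coe_restrict_apply]
  have hφ : ∀ w ∈ Y, ∀ z : R, ((φ' w z : R) : M) = φ w (z : M) := by
    intro w hw z
    simp only [φ', hw, dif_pos, LinearMap.coe_restrict_apply]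
  have hrel : Rel g Y ψ' φ' := by
    refine ⟨?_, ?_, ?_, ?_, ?_, ?_⟩
    · intro a ha z
      apply Subtype.ext
      rw [hψ a ha, hψ a ha, hR.sq a ha z z.2]
      rfl
    · intro a ha b hb hab z
      apply Subtype.ext
      rw [Submodule.coe_add, hψ a ha, hψ b hb, hψ b hb, hψ a ha, hR.ac a ha b hb hab z z.2]
      rfl
    · intro a ha z
      apply Subtype.ext
      rw [Submodule.coe_add, hφ a ha, hψ a ha, hψ a ha, hφ a ha, hR.one a ha z z.2]
    · intro a ha b hb hab z
      apply Subtype.ext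
      rw [Submodule.coe_add, hφ a ha, hψ b hb, hψ b hb, hφ a ha, hR.zer a ha b hb hab z z.2]
      rfl
    · intro a ha z
      apply Subtype.ext
      rw [hφ a ha, hφ a ha, hR.psq a ha z z.2]
      rfl
    · intro a ha b hb hab z
      apply Subtype.ext
      rw [Submodule.coe_add, hφ a ha, hφ b hb, hφ b hb, hφ a ha, hR.pac a ha b hb hab z z.2]
      rfl
  have hdl : ∀ (z : Finset V → R) (G : Finset V),
      ((dl (Cl A Y) ψ' z G : R) : M) = dl (Cl A Y) ψ (fun F => (z F : M)) G := by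
    intro z G
    by_cases hG : Cl A Y G
    · rw [dl_pos hG, dl_pos hG, Submodule.coe_sum]
      exact Finset.sum_congr rfl fun w hw => hψ w (hG.1 hw) _
    · rw [dl_neg hG, dl_neg hG]
      rfl
  set x' : Finset V → R := fun F => ⟨x F, hxR F⟩ with hx'
  obtain ⟨y, hy1, hy2⟩ := h R ψ' φ' hrel j hj x' (by
    intro F hF
    have hF' : x F ≠ 0 := fun h0 => hF (Subtype.ext h0)
    obtain ⟨h3, h4, h5⟩ := hx F hF'
    refine ⟨h3, h4, fun w hw => Subtype.ext ?_⟩
    rw [hψ w (h3.1 hw)]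
    exact h5 w hw) (by
    funext G
    apply Subtype.ext
    rw [hdl]
    exact congrFun hdx G)
  refine ⟨fun F => (y F : M), ?_, fun F => (y F).2, ?_⟩
  · intro F hF
    have hF' : y F ≠ 0 := fun h0 => hF (by
      change (y F : M) = 0
      rw [h0]
      rfl)
    obtain ⟨h3, h4, h5⟩ := hy1 F hF'
    refine ⟨h3, h4, fun w hw => ?_⟩
    rw [← hψ w (h3.1 hw), h5 w hw]
    rfl
  · funext G
    rw [← hdl, hy2]

/-- The setting. -/
structure Ctx (g : V → V → K) (A : V → V → Prop) (X : Finset V) (u v : V)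
    (ψ φ : V → M →ₗ[K] M) : Prop where
  hA : ∀ a b, A a b → A b a
  hu : u ∈ X
  hv : v ∈ X
  huv : u ≠ v
  hAuv : A u v
  hg0 : ∀ a ∈ X, ∀ b ∈ X, a ≠ b → A a b → g a b = 0
  hgv : ∀ w ∈ X, w ≠ u → w ≠ v → g v w = g u w ∧ g w v = g w u
  hsq : ∀ s ∈ X, ∀ t ∈ X, s ≠ u → s ≠ v → t ≠ u → t ≠ v → s ≠ t → A u s → A v t → A s t →
      A v s ∨ A u t
  hR : Rel g X ψ φ

/-- The subspace on which `ψ v = ψ u`. -/
def RR (ψ : V → M →ₗ[K] M) (u v : V) : Submodule K M := LinearMap.ker (ψ v - ψ u)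

theorem mem_RR {ψ : V → M →ₗ[K] M} {u v : V} {m : M} : m ∈ RR ψ u v ↔ ψ v m = ψ u m := by
  unfold RR
  rw [LinearMap.mem_ker, LinearMap.sub_apply, sub_eq_zero]

variable {g : V → V → K} {A : V → V → Prop} {X : Finset V} {u v : V} {ψ φ : V → M →ₗ[K] M}

theorem Ctx.anti_r (C : Ctx g A X u v ψ φ) {w : V} (hw : w ∈ X) (m : M) :
    ψ v (ψ w m) - ψ u (ψ w m) = -(ψ w (ψ v m - ψ u m)) := by
  have huv0 : g u v = 0 := C.hg0 u C.hu v C.hv C.huv C.hAuv
  have h1 := C.hR.ac u C.hu v C.hv C.huv m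
  rw [huv0, zero_smul] at h1
  have h1' : ψ u (ψ v m) = -(ψ v (ψ u m)) := eq_neg_of_add_eq_zero_left h1
  by_cases hwu : w = u
  · subst hwu
    rw [map_sub, C.hR.sq w C.hu, sub_zero, sub_zero, h1', neg_neg]
  by_cases hwv : w = v
  · subst hwv
    rw [map_sub, C.hR.sq w C.hv, zero_sub, zero_sub, h1', neg_neg]
  · have h2 := C.hR.ac w hw v C.hv hwv m
    have h3 := C.hR.ac w hw u C.hu hwu m
    rw [(C.hgv w hw hwu hwv).2, ← h3] at h2
    rw [map_sub]
    have h4 : ψ v (ψ w m) = ψ w (ψ u m) + ψ u (ψ w m) - ψ w (ψ v m) := by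
      rw [← h2]; abel
    rw [h4]
    abel

theorem Ctx.rr (C : Ctx g A X u v ψ φ) (m : M) : ψ v m - ψ u m ∈ RR ψ u v := by
  rw [mem_RR]
  have huv0 : g u v = 0 := C.hg0 u C.hu v C.hv C.huv C.hAuv
  have h1 := C.hR.ac u C.hu v C.hv C.huv m
  rw [huv0, zero_smul] at h1
  have h1' : ψ u (ψ v m) = -(ψ v (ψ u m)) := eq_neg_of_add_eq_zero_left h1
  rw [map_sub, map_sub, C.hR.sq v C.hv, C.hR.sq u C.hu, h1', zero_sub, sub_zero]

theorem Ctx.psi_mem (C : Ctx g A X u v ψ φ) {w : V} (hw : w ∈ X) {m : M}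
    (hm : m ∈ RR ψ u v) : ψ w m ∈ RR ψ u v := by
  rw [mem_RR] at hm ⊢
  have h1 := C.anti_r hw m
  rw [hm, sub_self, map_zero, neg_zero] at h1
  exact sub_eq_zero.mp h1

/-- `φ w` anticommutes with `ψ v - ψ u` for the other vertices. -/
theorem Ctx.phi_r (C : Ctx g A X u v ψ φ) {w : V} (hw : w ∈ X) (hwu : w ≠ u) (hwv : w ≠ v)
    (m : M) : ψ v (φ w m) - ψ u (φ w m) = -(φ w (ψ v m - ψ u m)) := by
  have h1 := C.hR.zer w hw v C.hv hwv m
  have h2 := C.hR.zer w hw u C.hu hwu m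
  rw [map_sub, eq_neg_of_add_eq_zero_left h1, eq_neg_of_add_eq_zero_left h2]
  abel

theorem Ctx.phi_v (C : Ctx g A X u v ψ φ) (m : M) :
    ψ v (φ v m) - ψ u (φ v m) = m - φ v (ψ v m - ψ u m) := by
  have h1 := C.hR.one v C.hv m
  have h2 := C.hR.zer v C.hv u C.hu C.huv.symm m
  rw [map_sub]
  have h3 : φ v (ψ u m) = -(ψ u (φ v m)) := eq_neg_of_add_eq_zero_left h2
  have h4 : φ v (ψ v m) = m - ψ v (φ v m) := eq_sub_of_add_eq h1
  rw [h3, h4]
  abel

theorem Ctx.phi_u (C : Ctx g A X u v ψ φ) (m : M) :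
    ψ v (φ u m) - ψ u (φ u m) = -m - φ u (ψ v m - ψ u m) := by
  have h1 := C.hR.one u C.hu m
  have h2 := C.hR.zer u C.hu v C.hv C.huv m
  rw [map_sub]
  have h3 : φ u (ψ v m) = -(ψ v (φ u m)) := eq_neg_of_add_eq_zero_left h2
  have h4 : φ u (ψ u m) = m - ψ u (φ u m) := eq_sub_of_add_eq h1
  rw [h3, h4]
  abel

/-- The relations of the contracted graph on `RR`. -/
theorem Ctx.relR (C : Ctx g A X u v ψ φ) :
    RelR g (X.erase v) ψ (fun w => if w = u then φ u + φ v else φ w) (RR ψ u v) := by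
  have hX : ∀ w, w ∈ X.erase v → w ≠ v ∧ w ∈ X := fun w hw => Finset.mem_erase.mp hw
  refine ⟨?_, ?_, ?_, ?_, ?_, ?_, ?_, ?_⟩
  · intro w hw m hm
    exact C.psi_mem (hX w hw).2 hm
  · intro w hw m hm
    rw [mem_RR] at hm ⊢
    split_ifs with hwu
    · rw [LinearMap.add_apply, map_add, map_add]
      have h1 := C.phi_v m
      have h2 := C.phi_u m
      rw [hm, sub_self, map_zero, sub_zero] at h1 h2
      have h3 : ψ v (φ v m) = m + ψ u (φ v m) := sub_eq_iff_eq_add.mp h1
      have h4 : ψ v (φ u m) = -m + ψ u (φ u m) := sub_eq_iff_eq_add.mp h2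
      rw [h3, h4]
      abel
    · have h1 := C.phi_r (hX w hw).2 hwu (hX w hw).1 m
      rw [hm, sub_self, map_zero, neg_zero] at h1
      exact sub_eq_zero.mp h1
  · intro w hw m _
    exact C.hR.sq w (hX w hw).2 m
  · intro a ha b hb hab m _
    exact C.hR.ac a (hX a ha).2 b (hX b hb).2 hab m
  · intro w hw m _
    split_ifs with hwu
    · subst hwu
      rw [LinearMap.add_apply, LinearMap.add_apply, map_add]
      have h1 := C.hR.one w C.hu m
      have h2 := C.hR.zer v C.hv w C.hu C.huv.symm m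
      calc φ w (ψ w m) + φ v (ψ w m) + (ψ w (φ w m) + ψ w (φ v m))
          = (φ w (ψ w m) + ψ w (φ w m)) + (φ v (ψ w m) + ψ w (φ v m)) := by abel
        _ = m := by rw [h1, h2, add_zero]
    · exact C.hR.one w (hX w hw).2 m
  · intro a ha b hb hab m _
    split_ifs with hau
    · subst hau
      rw [LinearMap.add_apply, LinearMap.add_apply, map_add]
      have h1 := C.hR.zer a C.hu b (hX b hb).2 hab m
      have h2 := C.hR.zer v C.hv b (hX b hb).2 (hX b hb).1.symm m
      calc φ a (ψ b m) + φ v (ψ b m) + (ψ b (φ a m) + ψ b (φ v m))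
          = (φ a (ψ b m) + ψ b (φ a m)) + (φ v (ψ b m) + ψ b (φ v m)) := by abel
        _ = 0 := by rw [h1, h2, add_zero]
    · exact C.hR.zer a (hX a ha).2 b (hX b hb).2 hab m
  · intro w hw m _
    split_ifs with hwu
    · subst hwu
      rw [LinearMap.add_apply, LinearMap.add_apply, map_add, map_add]
      have h1 := C.hR.psq w C.hu m
      have h2 := C.hR.psq v C.hv m
      have h3 := C.hR.pac w C.hu v C.hv C.huv m
      rw [h1, h2, zero_add, add_zero, h3]
    · exact C.hR.psq w (hX w hw).2 m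
  · intro a ha b hb hab m _
    split_ifs with hau hbu hbu
    · exact absurd (hau.trans hbu.symm) hab
    · rw [LinearMap.add_apply, LinearMap.add_apply, map_add]
      have h1 := C.hR.pac u C.hu b (hX b hb).2 (fun h => hbu h.symm) m
      have h2 := C.hR.pac v C.hv b (hX b hb).2 (hX b hb).1.symm m
      calc φ u (φ b m) + φ v (φ b m) + (φ b (φ u m) + φ b (φ v m))
          = (φ u (φ b m) + φ b (φ u m)) + (φ v (φ b m) + φ b (φ v m)) := by abel
        _ = 0 := by rw [h1, h2, add_zero]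
    · rw [LinearMap.add_apply, LinearMap.add_apply, map_add]
      have h1 := C.hR.pac a (hX a ha).2 u C.hu hau m
      have h2 := C.hR.pac a (hX a ha).2 v C.hv (hX a ha).1 m
      calc φ a (φ u m) + φ a (φ v m) + (φ u (φ a m) + φ v (φ a m))
          = (φ a (φ u m) + φ u (φ a m)) + (φ a (φ v m) + φ v (φ a m)) := by abel
        _ = 0 := by rw [h1, h2, add_zero]
    · exact C.hR.pac a (hX a ha).2 b (hX b hb).2 hab m

/-- The subspace of `RR` killed by `ψ u`. -/
def RU (ψ : V → M →ₗ[K] M) (u v : V) : Submodule K M := RR ψ u v ⊓ LinearMap.ker (ψ u)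

theorem mem_RU {ψ : V → M →ₗ[K] M} {u v : V} {m : M} :
    m ∈ RU ψ u v ↔ ψ v m = ψ u m ∧ ψ u m = 0 := by
  unfold RU
  rw [Submodule.mem_inf, mem_RR, LinearMap.mem_ker]

theorem Ctx.relU (C : Ctx g A X u v ψ φ) : RelR g (cn A X u v) ψ φ (RU ψ u v) := by
  refine ⟨?_, ?_, ?_, ?_, ?_, ?_, ?_, ?_⟩
  · intro w hw m hm
    obtain ⟨hX, hwu, hwv, hAu, hAv⟩ := mem_cn.mp hw
    rw [mem_RU] at hm ⊢
    have h1 := C.hR.ac u C.hu w hX hwu.symm m
    rw [hm.2, map_zero, add_zero, C.hg0 u C.hu w hX hwu.symm hAu, zero_smul] at h1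
    exact ⟨mem_RR.mp (C.psi_mem hX (mem_RR.mpr hm.1)), h1⟩
  · intro w hw m hm
    obtain ⟨hX, hwu, hwv, hAu, hAv⟩ := mem_cn.mp hw
    rw [mem_RU] at hm ⊢
    have h1 := C.phi_r hX hwu hwv m
    rw [hm.1, sub_self, map_zero, neg_zero] at h1
    have h2 := C.hR.zer w hX u C.hu hwu m
    rw [hm.2, map_zero, zero_add] at h2
    exact ⟨sub_eq_zero.mp h1, h2⟩
  · intro w hw m _
    exact C.hR.sq w (mem_cn.mp hw).1 m
  · intro a ha b hb hab m _
    exact C.hR.ac a (mem_cn.mp ha).1 b (mem_cn.mp hb).1 hab m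
  · intro w hw m _
    exact C.hR.one w (mem_cn.mp hw).1 m
  · intro a ha b hb hab m _
    exact C.hR.zer a (mem_cn.mp ha).1 b (mem_cn.mp hb).1 hab m
  · intro w hw m _
    exact C.hR.psq w (mem_cn.mp hw).1 m
  · intro a ha b hb hab m _
    exact C.hR.pac a (mem_cn.mp ha).1 b (mem_cn.mp hb).1 hab m

/-! ### Combinatorics of the contraction -/

/-- The cliques which do not contain the edge. -/
def Pe (A : V → V → Prop) (X : Finset V) (u v : V) (F : Finset V) : Prop :=
  Cl A X F ∧ ¬ (u ∈ F ∧ v ∈ F)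

theorem pe_down {F G : Finset V} (h : Pe A X u v F) (hG : G ⊆ F) : Pe A X u v G :=
  ⟨h.1.down hG, fun h' => h.2 ⟨hG h'.1, hG h'.2⟩⟩

theorem Ctx.okP (C : Ctx g A X u v ψ φ) : Ok (Cl A X) ψ := Ok.of_rel C.hR C.hg0

theorem Ctx.okE (C : Ctx g A X u v ψ φ) : Ok (Pe A X u v) ψ :=
  C.okP.of_le (fun _ h => h.1) fun _ hF _ hG => pe_down hF hG

/-- Cliques of the link of the edge. -/
theorem lk_notMem {T : Finset V} (h : Cl A (cn A X u v) T) : u ∉ T ∧ v ∉ T :=
  ⟨fun h' => (mem_cn.mp (h.1 h')).2.1 rfl, fun h' => (mem_cn.mp (h.1 h')).2.2.1 rfl⟩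

theorem lk_cl {T : Finset V} (h : Cl A (cn A X u v) T) : Cl A X T :=
  h.mono fun _ hw => (mem_cn.mp hw).1

/-- Adding a vertex to a clique. -/
theorem cl_insert (hA : ∀ a b, A a b → A b a) {a : V} {T : Finset V} (ha : a ∈ X)
    (hT : Cl A X T) (h : ∀ t ∈ T, t ≠ a → A a t) : Cl A X (insert a T) := by
  refine ⟨Finset.insert_subset ha hT.1, fun s hs t ht hst => ?_⟩
  rcases Finset.mem_insert.mp hs with rfl | hs'
  · rcases Finset.mem_insert.mp ht with rfl | ht'
    · exact absurd rfl hst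
    · exact h t ht' (Ne.symm hst)
  · rcases Finset.mem_insert.mp ht with rfl | ht'
    · exact hA _ _ (h s hs' hst)
    · exact hT.2 s hs' t ht' hst

theorem Ctx.lk_u (C : Ctx g A X u v ψ φ) {T : Finset V} (h : Cl A (cn A X u v) T) :
    Cl A X (insert u T) :=
  cl_insert C.hA C.hu (lk_cl h) fun t ht _ => (mem_cn.mp (h.1 ht)).2.2.2.1

theorem Ctx.lk_v (C : Ctx g A X u v ψ φ) {T : Finset V} (h : Cl A (cn A X u v) T) :
    Cl A X (insert v T) :=
  cl_insert C.hA C.hv (lk_cl h) fun t ht _ => (mem_cn.mp (h.1 ht)).2.2.2.2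

theorem Ctx.lk_uv (C : Ctx g A X u v ψ φ) {T : Finset V} (h : Cl A (cn A X u v) T) :
    Cl A X (insert u (insert v T)) := by
  refine cl_insert C.hA C.hu (C.lk_v h) fun t ht _ => ?_
  rcases Finset.mem_insert.mp ht with rfl | ht'
  · exact C.hAuv
  · exact (mem_cn.mp (h.1 ht')).2.2.2.1

theorem lk_of {T : Finset V} (hu : u ∉ T) (hv : v ∉ T)
    (h1 : Cl A X (insert u T)) (h2 : Cl A X (insert v T)) : Cl A (cn A X u v) T := by
  have h3 : Cl A X T := h1.down (Finset.subset_insert _ _)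
  refine ⟨fun t ht => mem_cn.mpr ⟨h3.1 ht, fun h => hu (h ▸ ht), fun h => hv (h ▸ ht), ?_, ?_⟩,
    h3.2⟩
  · exact h1.2 u (Finset.mem_insert_self _ _) t (Finset.mem_insert_of_mem ht)
      (fun h => hu (h ▸ ht))
  · exact h2.2 v (Finset.mem_insert_self _ _) t (Finset.mem_insert_of_mem ht)
      (fun h => hv (h ▸ ht))

theorem Ctx.lk_pe (C : Ctx g A X u v ψ φ) {T : Finset V} (h : Cl A (cn A X u v) T) :
    Pe A X u v (insert u T) ∧ Pe A X u v (insert v T) := by
  obtain ⟨hu, hv⟩ := lk_notMem h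
  refine ⟨⟨C.lk_u h, fun h' => ?_⟩, ⟨C.lk_v h, fun h' => ?_⟩⟩
  · rcases Finset.mem_insert.mp h'.2 with h1 | h1
    · exact C.huv h1.symm
    · exact hv h1
  · rcases Finset.mem_insert.mp h'.1 with h1 | h1
    · exact C.huv h1
    · exact hu h1

/-- Cliques without `v` are cliques of the contraction. -/
theorem ct_of {F : Finset V} (h : Cl A X F) (hv : v ∉ F) : Cl (ct A u v) (X.erase v) F :=
  ⟨fun t ht => Finset.mem_erase.mpr ⟨fun h' => hv (h' ▸ ht), h.1 ht⟩,
    fun a ha b hb hab => Or.inl (h.2 a ha b hb hab)⟩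

theorem Ctx.ct_push (C : Ctx g A X u v ψ φ) {T : Finset V} (h : Cl A X (insert v T))
    (hu : u ∉ T) (hv : v ∉ T) : Cl (ct A u v) (X.erase v) (insert u T) := by
  have h3 : Cl A X T := h.down (Finset.subset_insert _ _)
  refine ⟨Finset.insert_subset (Finset.mem_erase.mpr ⟨C.huv, C.hu⟩) (ct_of (u := u) h3 hv).1,
    fun s hs t ht hst => ?_⟩
  rcases Finset.mem_insert.mp hs with rfl | hs'
  · rcases Finset.mem_insert.mp ht with rfl | ht'
    · exact absurd rfl hst
    · exact Or.inr (Or.inl ⟨rfl, h.2 v (Finset.mem_insert_self _ _) t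
        (Finset.mem_insert_of_mem ht') (fun h' => hv (h' ▸ ht'))⟩)
  · rcases Finset.mem_insert.mp ht with rfl | ht'
    · exact Or.inr (Or.inr ⟨rfl, h.2 s (Finset.mem_insert_of_mem hs') v
        (Finset.mem_insert_self _ _) (fun h' => hv (h' ▸ hs'))⟩)
    · exact Or.inl (h3.2 s hs' t ht' hst)

theorem Ctx.ct_cases (C : Ctx g A X u v ψ φ) {F : Finset V}
    (h : Cl (ct A u v) (X.erase v) F) :
    v ∉ F ∧ (Cl A X F ∨ (u ∈ F ∧ Cl A X (insert v (F.erase u)))) := by
  have hvF : v ∉ F := fun h' => (Finset.mem_erase.mp (h.1 h')).1 rfl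
  have hFX : F ⊆ X := h.1.trans (Finset.erase_subset _ _)
  refine ⟨hvF, ?_⟩
  have hoff : ∀ a ∈ F, ∀ b ∈ F, a ≠ u → b ≠ u → a ≠ b → A a b := by
    intro a ha b hb hau hbu hab
    rcases h.2 a ha b hb hab with h1 | ⟨h1, _⟩ | ⟨h1, _⟩
    · exact h1
    · exact absurd h1 hau
    · exact absurd h1 hbu
  by_cases huF : u ∈ F
  swap
  · left
    exact ⟨hFX, fun a ha b hb hab => hoff a ha b hb (fun h' => huF (h' ▸ ha))
      (fun h' => huF (h' ▸ hb)) hab⟩
  have hT : Cl A X (F.erase u) :=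
    ⟨(Finset.erase_subset _ _).trans hFX, fun a ha b hb hab =>
      hoff a (Finset.mem_of_mem_erase ha) b (Finset.mem_of_mem_erase hb)
        (Finset.ne_of_mem_erase ha) (Finset.ne_of_mem_erase hb) hab⟩
  -- every other vertex is adjacent to `u` or to `v`
  have hor : ∀ t ∈ F.erase u, A u t ∨ A v t := by
    intro t ht
    rcases h.2 u huF t (Finset.mem_of_mem_erase ht) (Finset.ne_of_mem_erase ht).symm with
      h1 | ⟨_, h1⟩ | ⟨h1, _⟩
    · exact Or.inl h1
    · exact Or.inr h1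
    · exact absurd h1 (Finset.ne_of_mem_erase ht)
  by_cases hall : ∀ t ∈ F.erase u, A u t
  · left
    have h1 := cl_insert C.hA C.hu hT fun t ht _ => hall t ht
    rwa [Finset.insert_erase huF] at h1
  · right
    refine ⟨huF, cl_insert C.hA C.hv hT fun t ht _ => ?_⟩
    by_contra hvt
    push Not at hall
    obtain ⟨s, hs, hus⟩ := hall
    have hvs : A v s := (hor s hs).resolve_left hus
    have hut : A u t := (hor t ht).resolve_right hvt
    have hst : t ≠ s := by
      rintro rfl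
      exact hus hut
    have hne : ∀ r ∈ F.erase u, r ≠ u ∧ r ≠ v ∧ r ∈ X := fun r hr =>
      ⟨Finset.ne_of_mem_erase hr, fun h' => hvF (h' ▸ Finset.mem_of_mem_erase hr),
        hFX (Finset.mem_of_mem_erase hr)⟩
    obtain ⟨ht1, ht2, ht3⟩ := hne t ht
    obtain ⟨hs1, hs2, hs3⟩ := hne s hs
    rcases C.hsq t ht3 s hs3 ht1 ht2 hs1 hs2 hst hut hvs (hT.2 t ht s hs hst) with h1 | h1
    · exact hvt h1
    · exact hus h1

/-! ### Sums -/

theorem dl_insert {P : Finset V → Prop} {x : Finset V → M} {a : V} {T : Finset V} (ha : a ∉ T)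
    (h : P (insert a T)) :
    dl P ψ x (insert a T) = ψ a (x T) + ∑ w ∈ T, ψ w (x (insert a (T.erase w))) := by
  rw [dl_pos h, Finset.sum_insert ha, Finset.erase_insert ha]
  congr 1
  refine Finset.sum_congr rfl fun w hw => ?_
  rw [Finset.erase_insert_of_ne (fun h' : a = w => ha (h' ▸ hw))]

theorem dl_insert2 {P : Finset V → Prop} {x : Finset V → M} {a b : V} {T : Finset V}
    (ha : a ∉ T) (hb : b ∉ T) (hab : a ≠ b) (h : P (insert a (insert b T))) :
    dl P ψ x (insert a (insert b T)) = ψ a (x (insert b T)) + ψ b (x (insert a T)) +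
      ∑ w ∈ T, ψ w (x (insert a (insert b (T.erase w)))) := by
  have ha' : a ∉ insert b T := by
    rw [Finset.mem_insert, not_or]
    exact ⟨hab, ha⟩
  rw [dl_insert ha' h, Finset.sum_insert hb, Finset.erase_insert hb, add_assoc]
  congr 2
  refine Finset.sum_congr rfl fun w hw => ?_
  rw [Finset.erase_insert_of_ne (fun h' : b = w => hb (h' ▸ hw))]

theorem Ctx.dl_mem (C : Ctx g A X u v ψ φ) {P : Finset V → Prop} (hP : ∀ F, P F → F ⊆ X)
    {y : Finset V → M} (hy : ∀ F, y F ∈ RR ψ u v) (F : Finset V) : dl P ψ y F ∈ RR ψ u v := by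
  by_cases h : P F
  · rw [dl_pos h]
    exact Submodule.sum_mem _ fun w hw => C.psi_mem (hP F h hw) (hy _)
  · rw [dl_neg h]
    exact Submodule.zero_mem _

theorem ru_le {m : M} (h : m ∈ RU ψ u v) : m ∈ RR ψ u v := mem_RR.mpr (mem_RU.mp h).1

/-! ### Step 1 -/

theorem Ctx.step1 (C : Ctx g A X u v ψ φ) {n : ℕ} (h2 : VV g A (cn A X u v) n) {j : ℕ}
    (hj : j < n + 1) {x : Finset V → M} (hx : Co (Pe A X u v) ψ j x)
    (hxR : ∀ F, x F ∈ RR ψ u v) (hdx : dl (Pe A X u v) ψ x = 0) :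
    ∃ c : Finset V → M, Cb (Pe A X u v) ψ j c ∧ (∀ F, c F ∈ RR ψ u v) ∧
      ∀ T, Cl A (cn A X u v) T → (x - dl (Pe A X u v) ψ c) (insert u T) =
        (x - dl (Pe A X u v) ψ c) (insert v T) := by
  classical
  cases j with
  | zero =>
    refine ⟨0, cb_zero, fun _ => Submodule.zero_mem _, fun T _ => ?_⟩
    rw [dl_zero, sub_zero, hx.card, hx.card]
    · rw [Finset.card_ne_zero]
      exact Finset.insert_nonempty _ _
    · rw [Finset.card_ne_zero]
      exact Finset.insert_nonempty _ _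
  | succ i =>
    set L := Cl A (cn A X u v) with hL
    have hLd : ∀ T w, L T → L (T.erase w) := fun T w hT => hT.down (Finset.erase_subset _ _)
    set b : Finset V → M := fun T => if L T then x (insert u T) - x (insert v T) else 0 with hb
    have hb1 : ∀ T, L T → b T = x (insert u T) - x (insert v T) := fun T hT => if_pos hT
    have hbR : ∀ T, b T ∈ RU ψ u v := by
      intro T
      by_cases hT : L T
      · rw [hb1 T hT, mem_RU]
        refine ⟨mem_RR.mp (Submodule.sub_mem _ (hxR _) (hxR _)), ?_⟩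
        rw [map_sub, hx.kill (Finset.mem_insert_self _ _), ← mem_RR.mp (hxR (insert v T)),
          hx.kill (Finset.mem_insert_self _ _), sub_zero]
      · have : b T = 0 := if_neg hT
        rw [this]
        exact Submodule.zero_mem _
    have hbC : Co L ψ i b := by
      intro T hT
      have hLT : L T := by
        by_contra h
        exact hT (if_neg h)
      rw [hb1 T hLT] at hT ⊢
      obtain ⟨huT, hvT⟩ := lk_notMem hLT
      refine ⟨hLT, ?_, fun w hw => ?_⟩
      · by_cases h0 : x (insert u T) = 0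
        · have h3 : x (insert v T) ≠ 0 := fun h' => hT (by rw [h0, h', sub_zero])
          have h4 := (hx _ h3).2.1
          rw [Finset.card_insert_of_notMem hvT] at h4
          omega
        · have h4 := (hx _ h0).2.1
          rw [Finset.card_insert_of_notMem huT] at h4
          omega
      · rw [map_sub, hx.kill (Finset.mem_insert_of_mem hw),
          hx.kill (Finset.mem_insert_of_mem hw), sub_zero]
    have hbd : dl L ψ b = 0 := by
      funext T
      by_cases hT : L T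
      swap
      · rw [dl_neg hT, Pi.zero_apply]
      obtain ⟨huT, hvT⟩ := lk_notMem hT
      obtain ⟨hpu, hpv⟩ := C.lk_pe hT
      rw [dl_pos hT, Pi.zero_apply]
      have h3 : ∀ w ∈ T, ψ w (b (T.erase w)) =
          ψ w (x (insert u (T.erase w))) - ψ w (x (insert v (T.erase w))) := by
        intro w _
        rw [hb1 _ (hLd T w hT), map_sub]
      rw [Finset.sum_congr rfl h3, Finset.sum_sub_distrib]
      have h4 := congrFun hdx (insert u T)
      have h5 := congrFun hdx (insert v T)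
      rw [dl_insert huT hpu, Pi.zero_apply] at h4
      rw [dl_insert hvT hpv, Pi.zero_apply] at h5
      rw [eq_neg_of_add_eq_zero_right h4, eq_neg_of_add_eq_zero_right h5,
        mem_RR.mp (hxR T), sub_self]
    obtain ⟨c0, hc1, hc2, hc3⟩ := vv_sub h2 C.relU (by omega : i < n) hbC hbR hbd
    set c : Finset V → M := fun F => if u ∈ F then c0 (F.erase u) else 0 with hc
    have hcu : ∀ F, u ∈ F → c F = c0 (F.erase u) := fun F hF => if_pos hF
    have hcn : ∀ F, u ∉ F → c F = 0 := fun F hF => if_neg hF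
    refine ⟨c, ?_, ?_, ?_⟩
    · intro F hF
      have huF : u ∈ F := by
        by_contra h
        exact hF (hcn F h)
      rw [hcu F huF] at hF ⊢
      obtain ⟨h3, h4, h5⟩ := hc1 _ hF
      refine ⟨?_, ?_, fun w hw => ?_⟩
      · have := (C.lk_pe h3).1
        rwa [Finset.insert_erase huF] at this
      · have := Finset.card_erase_add_one huF
        omega
      · by_cases hwu : w = u
        · rw [hwu]
          exact (mem_RU.mp (hc2 _)).2
        · exact h5 w (Finset.mem_erase.mpr ⟨hwu, hw⟩)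
    · intro F
      by_cases huF : u ∈ F
      · rw [hcu F huF]
        exact ru_le (hc2 _)
      · rw [hcn F huF]
        exact Submodule.zero_mem _
    · intro T hT
      obtain ⟨huT, hvT⟩ := lk_notMem hT
      obtain ⟨hpu, hpv⟩ := C.lk_pe hT
      rw [Pi.sub_apply, Pi.sub_apply, dl_insert huT hpu, dl_insert hvT hpv, hcn T huT, map_zero,
        map_zero, zero_add, zero_add]
      have h3 : ∀ w ∈ T, ψ w (c (insert u (T.erase w))) = ψ w (c0 (T.erase w)) := by
        intro w _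
        rw [hcu _ (Finset.mem_insert_self _ _),
          Finset.erase_insert (fun h' => huT (Finset.mem_of_mem_erase h'))]
      have h4 : ∀ w ∈ T, ψ w (c (insert v (T.erase w))) = 0 := by
        intro w _
        rw [hcn _ ?_, map_zero]
        rw [Finset.mem_insert, not_or]
        exact ⟨C.huv, fun h' => huT (Finset.mem_of_mem_erase h')⟩
      rw [Finset.sum_congr rfl h3, Finset.sum_congr rfl h4, Finset.sum_const_zero, sub_zero,
        ← dl_pos (P := L) hT, hc3, hb1 T hT]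
      abel

/-! ### Step 2 -/

theorem Ctx.step2 (C : Ctx g A X u v ψ φ) {n : ℕ}
    (h1 : VV g (ct A u v) (X.erase v) (n + 1)) {j : ℕ}
    (hj : j < n + 1) {x : Finset V → M} (hx : Co (Pe A X u v) ψ j x)
    (hxR : ∀ F, x F ∈ RR ψ u v) (hdx : dl (Pe A X u v) ψ x = 0)
    (hsym : ∀ T, Cl A (cn A X u v) T → x (insert u T) = x (insert v T)) :
    ∃ y : Finset V → M, Cb (Pe A X u v) ψ j y ∧ (∀ F, y F ∈ RR ψ u v) ∧
      dl (Pe A X u v) ψ y = x := by
  classical
  set Q := Cl (ct A u v) (X.erase v) with hQ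
  set xb : Finset V → M := fun F =>
    if Q F then (if Cl A X F then x F else x (insert v (F.erase u))) else 0 with hxb
  have xb1 : ∀ F, Q F → Cl A X F → xb F = x F := by
    intro F h3 h4
    simp only [hxb, h3, h4, if_true]
  have xb2 : ∀ T, u ∉ T → v ∉ T → Cl A X (insert v T) → xb (insert u T) = x (insert v T) := by
    intro T huT hvT h3
    have h4 : Q (insert u T) := C.ct_push h3 huT hvT
    by_cases h5 : Cl A X (insert u T)
    · rw [xb1 _ h4 h5]
      exact hsym T (lk_of huT hvT h5 h3)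
    · simp only [hxb, h4, h5, if_true, if_false, Finset.erase_insert huT]
  have hxbR : ∀ F, xb F ∈ RR ψ u v := by
    intro F
    simp only [hxb]
    split_ifs
    · exact hxR _
    · exact hxR _
    · exact Submodule.zero_mem _
  have hxbC : Co Q ψ j xb := by
    intro F hF
    have hQF : Q F := by
      by_contra h
      exact hF (if_neg h)
    obtain ⟨hvF, h3⟩ := C.ct_cases hQF
    by_cases h4 : Cl A X F
    · rw [xb1 F hQF h4] at hF ⊢
      exact ⟨hQF, (hx F hF).2.1, (hx F hF).2.2⟩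
    · obtain ⟨huF, h5⟩ := h3.resolve_left h4
      have h6 : xb F = x (insert v (F.erase u)) := by
        have := xb2 (F.erase u) (Finset.notMem_erase _ _)
          (fun h' => hvF (Finset.mem_of_mem_erase h')) h5
        rwa [Finset.insert_erase huF] at this
      rw [h6] at hF ⊢
      refine ⟨hQF, ?_, fun w hw => ?_⟩
      · have h7 := (hx _ hF).2.1
        rw [Finset.card_insert_of_notMem (fun h' => hvF (Finset.mem_of_mem_erase h')),
          Finset.card_erase_add_one huF] at h7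
        exact h7
      · by_cases hwu : w = u
        · rw [hwu, ← mem_RR.mp (hxR _)]
          exact hx.kill (Finset.mem_insert_self _ _)
        · exact hx.kill (Finset.mem_insert_of_mem (Finset.mem_erase.mpr ⟨hwu, hw⟩))
  have hxbd : dl Q ψ xb = 0 := by
    funext G
    by_cases hQG : Q G
    swap
    · rw [dl_neg hQG, Pi.zero_apply]
    obtain ⟨hvG, h3⟩ := C.ct_cases hQG
    rcases h3 with h3 | ⟨huG, h3⟩
    · have h4 : Pe A X u v G := ⟨h3, fun h' => hvG h'.2⟩
      rw [dl_pos hQG, Pi.zero_apply]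
      have h5 := congrFun hdx G
      rw [dl_pos h4, Pi.zero_apply] at h5
      rw [← h5]
      refine Finset.sum_congr rfl fun w _ => ?_
      rw [xb1 _ (hQG.down (Finset.erase_subset _ _)) (h3.down (Finset.erase_subset _ _))]
    · have huT : u ∉ G.erase u := Finset.notMem_erase _ _
      have hvT : v ∉ G.erase u := fun h' => hvG (Finset.mem_of_mem_erase h')
      have h4 : Pe A X u v (insert v (G.erase u)) := by
        refine ⟨h3, fun h' => ?_⟩
        rcases Finset.mem_insert.mp h'.1 with h5 | h5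
        · exact C.huv h5
        · exact huT h5
      have h5 := congrFun hdx (insert v (G.erase u))
      rw [dl_insert hvT h4, Pi.zero_apply] at h5
      have hG : insert u (G.erase u) = G := Finset.insert_erase huG
      have h6 : dl Q ψ xb (insert u (G.erase u)) = 0 := by
        rw [dl_insert huT (by rw [hG]; exact hQG), xb1 _ (hQG.down (Finset.erase_subset _ _))
          (h3.down (Finset.subset_insert _ _)), ← mem_RR.mp (hxR _), ← h5]
        congr 1
        refine Finset.sum_congr rfl fun w _ => ?_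
        rw [xb2 _ (fun h' => huT (Finset.mem_of_mem_erase h'))
          (fun h' => hvT (Finset.mem_of_mem_erase h'))
          (h3.down (Finset.insert_subset_insert _ (Finset.erase_subset _ _)))]
      rw [hG] at h6
      rw [h6, Pi.zero_apply]
  obtain ⟨yb, hy1, hy2, hy3⟩ := vv_sub h1 C.relR hj hxbC hxbR hxbd
  set y : Finset V → M := fun F =>
    if Pe A X u v F then (if v ∈ F then yb (insert u (F.erase v)) else yb F) else 0 with hy
  have y1 : ∀ F, Pe A X u v F → v ∉ F → y F = yb F := by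
    intro F h3 h4
    simp only [hy, h3, h4, if_true, if_false]
  have y2 : ∀ F, Pe A X u v F → v ∈ F → y F = yb (insert u (F.erase v)) := by
    intro F h3 h4
    simp only [hy, h3, h4, if_true]
  refine ⟨y, ?_, ?_, ?_⟩
  · intro F hF
    have hPF : Pe A X u v F := by
      by_contra h
      exact hF (if_neg h)
    by_cases hvF : v ∈ F
    · have huF : u ∉ F := fun h' => hPF.2 ⟨h', hvF⟩
      rw [y2 F hPF hvF] at hF ⊢
      obtain ⟨_, h4, _⟩ := hy1 _ hF
      rw [Finset.card_insert_of_notMem (fun h' => huF (Finset.mem_of_mem_erase h')),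
        Finset.card_erase_add_one hvF] at h4
      refine ⟨hPF, h4, fun w hw => ?_⟩
      by_cases hwv : w = v
      · rw [hwv, mem_RR.mp (hy2 _)]
        exact hy1.kill (Finset.mem_insert_self _ _)
      · exact hy1.kill (Finset.mem_insert_of_mem (Finset.mem_erase.mpr ⟨hwv, hw⟩))
    · rw [y1 F hPF hvF] at hF ⊢
      exact ⟨hPF, (hy1 _ hF).2.1, (hy1 _ hF).2.2⟩
  · intro F
    simp only [hy]
    split_ifs
    · exact hy2 _
    · exact hy2 _
    · exact Submodule.zero_mem _
  · funext G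
    by_cases hPG : Pe A X u v G
    swap
    · rw [dl_neg hPG, hx.off hPG]
    by_cases hvG : v ∈ G
    · have huG : u ∉ G := fun h' => hPG.2 ⟨h', hvG⟩
      have huT : u ∉ G.erase v := fun h' => huG (Finset.mem_of_mem_erase h')
      have hvT : v ∉ G.erase v := Finset.notMem_erase _ _
      have hG : insert v (G.erase v) = G := Finset.insert_erase hvG
      have hcl : Cl A X (insert v (G.erase v)) := by rw [hG]; exact hPG.1
      have h4 : Q (insert u (G.erase v)) := C.ct_push hcl huT hvT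
      have h5 := congrFun hy3 (insert u (G.erase v))
      rw [dl_insert huT h4, xb2 _ huT hvT hcl, hG] at h5
      rw [← h5, ← hG, dl_insert (Finset.notMem_erase _ _) (by rw [hG]; exact hPG)]
      rw [Finset.erase_insert (Finset.notMem_erase _ _)]
      congr 1
      · rw [y1 _ (pe_down hPG (Finset.erase_subset _ _)) hvT, mem_RR.mp (hy2 _)]
      · refine Finset.sum_congr rfl fun w _ => ?_
        rw [y2 (insert v ((G.erase v).erase w)) ?_ (Finset.mem_insert_self _ _),
          Finset.erase_insert (fun h' => hvT (Finset.mem_of_mem_erase h'))]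
        refine pe_down hPG ?_
        rw [← hG]
        rw [Finset.erase_insert (Finset.notMem_erase _ _)]
        exact Finset.insert_subset_insert _ (Finset.erase_subset _ _)
    · have h4 : Q G := ct_of hPG.1 hvG
      have h5 := congrFun hy3 G
      rw [dl_pos h4, xb1 G h4 hPG.1] at h5
      rw [dl_pos hPG, ← h5]
      refine Finset.sum_congr rfl fun w _ => ?_
      rw [y1 _ (pe_down hPG (Finset.erase_subset _ _)) (fun h' => hvG (Finset.mem_of_mem_erase h'))]

theorem pe_sub {F : Finset V} (h : Pe A X u v F) : F ⊆ X := h.1.1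

theorem Ctx.k1 (C : Ctx g A X u v ψ φ) {n : ℕ} (h1 : VV g (ct A u v) (X.erase v) (n + 1))
    (h2 : VV g A (cn A X u v) n) {j : ℕ}
    (hj : j < n + 1) {x : Finset V → M} (hx : Co (Pe A X u v) ψ j x)
    (hxR : ∀ F, x F ∈ RR ψ u v) (hdx : dl (Pe A X u v) ψ x = 0) :
    ∃ y : Finset V → M, Cb (Pe A X u v) ψ j y ∧ (∀ F, y F ∈ RR ψ u v) ∧
      dl (Pe A X u v) ψ y = x := by
  obtain ⟨c, hc1, hc2, hc3⟩ := C.step1 h2 hj hx hxR hdx
  obtain ⟨y, hy1, hy2, hy3⟩ := C.step2 h1 hj (hx.sub (dl_cb C.okE hc1))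
    (fun F => Submodule.sub_mem _ (hxR F) (C.dl_mem (fun _ h => pe_sub h) hc2 F))
    (by rw [dl_sub, hdx, dl_dl C.okE, sub_zero]) hc3
  refine ⟨y + c, hy1.add hc1, fun F => Submodule.add_mem _ (hy2 F) (hc2 F), ?_⟩
  rw [dl_add, hy3]
  abel

/-! ### Step 3 -/

theorem Ctx.step3 (C : Ctx g A X u v ψ φ) {n : ℕ} (h2 : VV g A (cn A X u v) n) {j : ℕ}
    (hj : j < n + 1) {x : Finset V → M} (hx : Co (Cl A X) ψ j x)
    (hxR : ∀ F, x F ∈ RR ψ u v) (hdx : dl (Cl A X) ψ x = 0) :
    ∃ c : Finset V → M, Cb (Cl A X) ψ j c ∧ (∀ F, c F ∈ RR ψ u v) ∧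
      ∀ T, Cl A (cn A X u v) T → dl (Cl A X) ψ c (insert u (insert v T)) =
        x (insert u (insert v T)) := by
  classical
  have hcard : ∀ T : Finset V, u ∉ T → v ∉ T → (insert u (insert v T)).card = T.card + 2 := by
    intro T huT hvT
    rw [Finset.card_insert_of_notMem, Finset.card_insert_of_notMem hvT]
    rw [Finset.mem_insert, not_or]
    exact ⟨C.huv, huT⟩
  by_cases hj2 : j < 2
  · refine ⟨0, cb_zero, fun _ => Submodule.zero_mem _, fun T hT => ?_⟩
    obtain ⟨huT, hvT⟩ := lk_notMem hT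
    rw [dl_zero, Pi.zero_apply, hx.card]
    rw [hcard T huT hvT]
    omega
  obtain ⟨i, rfl⟩ : ∃ i, j = i + 2 := ⟨j - 2, by omega⟩
  set L := Cl A (cn A X u v) with hL
  have hLd : ∀ T w, L T → L (T.erase w) := fun T w hT => hT.down (Finset.erase_subset _ _)
  set b : Finset V → M := fun T => if L T then x (insert u (insert v T)) else 0 with hb
  have hb1 : ∀ T, L T → b T = x (insert u (insert v T)) := fun T hT => if_pos hT
  have hbR : ∀ T, b T ∈ RU ψ u v := by
    intro T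
    by_cases hT : L T
    · rw [hb1 T hT, mem_RU]
      exact ⟨mem_RR.mp (hxR _), hx.kill (Finset.mem_insert_self _ _)⟩
    · have : b T = 0 := if_neg hT
      rw [this]
      exact Submodule.zero_mem _
  have hbC : Co L ψ i b := by
    intro T hT
    have hLT : L T := by
      by_contra h
      exact hT (if_neg h)
    rw [hb1 T hLT] at hT ⊢
    obtain ⟨huT, hvT⟩ := lk_notMem hLT
    have h3 := (hx _ hT).2.1
    rw [hcard T huT hvT] at h3
    exact ⟨hLT, by omega, fun w hw =>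
      hx.kill (Finset.mem_insert_of_mem (Finset.mem_insert_of_mem hw))⟩
  have hbd : dl L ψ b = 0 := by
    funext T
    by_cases hT : L T
    swap
    · rw [dl_neg hT, Pi.zero_apply]
    obtain ⟨huT, hvT⟩ := lk_notMem hT
    rw [dl_pos hT, Pi.zero_apply]
    have h4 := congrFun hdx (insert u (insert v T))
    rw [dl_insert2 huT hvT C.huv (C.lk_uv hT), Pi.zero_apply, ← mem_RR.mp (hxR (insert v T)),
      hx.kill (Finset.mem_insert_self _ _), mem_RR.mp (hxR (insert u T)),
      hx.kill (Finset.mem_insert_self _ _), zero_add, zero_add] at h4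
    rw [← h4]
    refine Finset.sum_congr rfl fun w _ => ?_
    rw [hb1 _ (hLd T w hT)]
  obtain ⟨c0, hc1, hc2, hc3⟩ := vv_sub h2 C.relU (by omega : i < n) hbC hbR hbd
  set c : Finset V → M := fun F => if u ∈ F ∧ v ∈ F then c0 ((F.erase u).erase v) else 0 with hc
  have hcu : ∀ F, u ∈ F → v ∈ F → c F = c0 ((F.erase u).erase v) := fun F h3 h4 => if_pos ⟨h3, h4⟩
  have hcn : ∀ F, ¬ (u ∈ F ∧ v ∈ F) → c F = 0 := fun F hF => if_neg hF
  refine ⟨c, ?_, ?_, ?_⟩
  · intro F hF
    have hF' : u ∈ F ∧ v ∈ F := by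
      by_contra h
      exact hF (hcn F h)
    obtain ⟨huF, hvF⟩ := hF'
    have hvF' : v ∈ F.erase u := Finset.mem_erase.mpr ⟨C.huv.symm, hvF⟩
    rw [hcu F huF hvF] at hF ⊢
    obtain ⟨h3, h4, h5⟩ := hc1 _ hF
    refine ⟨?_, ?_, fun w hw => ?_⟩
    · have := C.lk_uv h3
      rwa [Finset.insert_erase hvF', Finset.insert_erase huF] at this
    · have h6 := Finset.card_erase_add_one huF
      have h7 := Finset.card_erase_add_one hvF'
      omega
    · by_cases hwu : w = u
      · rw [hwu]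
        exact (mem_RU.mp (hc2 _)).2
      · by_cases hwv : w = v
        · rw [hwv, (mem_RU.mp (hc2 _)).1]
          exact (mem_RU.mp (hc2 _)).2
        · exact h5 w (Finset.mem_erase.mpr ⟨hwv, Finset.mem_erase.mpr ⟨hwu, hw⟩⟩)
  · intro F
    by_cases hF : u ∈ F ∧ v ∈ F
    · rw [hcu F hF.1 hF.2]
      exact ru_le (hc2 _)
    · rw [hcn F hF]
      exact Submodule.zero_mem _
  · intro T hT
    obtain ⟨huT, hvT⟩ := lk_notMem hT
    have h5 : c (insert v T) = 0 := by
      apply hcn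
      rintro ⟨h6, _⟩
      rcases Finset.mem_insert.mp h6 with h7 | h7
      · exact C.huv h7
      · exact huT h7
    have h6 : c (insert u T) = 0 := by
      apply hcn
      rintro ⟨_, h6⟩
      rcases Finset.mem_insert.mp h6 with h7 | h7
      · exact C.huv h7.symm
      · exact hvT h7
    rw [dl_insert2 huT hvT C.huv (C.lk_uv hT), h5, h6, map_zero, map_zero, zero_add, zero_add,
      ← hb1 T hT, ← hc3, dl_pos (P := L) hT]
    refine Finset.sum_congr rfl fun w _ => ?_
    have h7 : u ∉ T.erase w := fun h' => huT (Finset.mem_of_mem_erase h')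
    have h8 : v ∉ T.erase w := fun h' => hvT (Finset.mem_of_mem_erase h')
    have h9 : u ∉ insert v (T.erase w) := by
      rw [Finset.mem_insert, not_or]
      exact ⟨C.huv, h7⟩
    rw [hcu _ (Finset.mem_insert_self _ _) (Finset.mem_insert_of_mem (Finset.mem_insert_self _ _)),
      Finset.erase_insert h9, Finset.erase_insert h8]

/-- A clique which contains the edge. -/
theorem Ctx.split (C : Ctx g A X u v ψ φ) {F : Finset V} (h : Cl A X F) (hu : u ∈ F)
    (hv : v ∈ F) : insert u (insert v ((F.erase u).erase v)) = F ∧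
      Cl A (cn A X u v) ((F.erase u).erase v) := by
  have hv' : v ∈ F.erase u := Finset.mem_erase.mpr ⟨C.huv.symm, hv⟩
  have h1 : insert u (insert v ((F.erase u).erase v)) = F := by
    rw [Finset.insert_erase hv', Finset.insert_erase hu]
  refine ⟨h1, lk_of (fun h' => Finset.notMem_erase u F (Finset.mem_of_mem_erase h'))
    (Finset.notMem_erase _ _) (h.down ?_) (h.down ?_)⟩
  · conv_rhs => rw [← h1]
    exact Finset.insert_subset_insert _ (Finset.subset_insert _ _)
  · conv_rhs => rw [← h1]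
    exact Finset.subset_insert _ _

theorem Ctx.k2 (C : Ctx g A X u v ψ φ) {n : ℕ} (h1 : VV g (ct A u v) (X.erase v) (n + 1))
    (h2 : VV g A (cn A X u v) n) {j : ℕ}
    (hj : j < n + 1) {x : Finset V → M} (hx : Co (Cl A X) ψ j x)
    (hxR : ∀ F, x F ∈ RR ψ u v) (hdx : dl (Cl A X) ψ x = 0) :
    ∃ y : Finset V → M, Cb (Cl A X) ψ j y ∧ dl (Cl A X) ψ y = x := by
  obtain ⟨c, hc1, hc2, hc3⟩ := C.step3 h2 hj hx hxR hdx
  set x2 := x - dl (Cl A X) ψ c with hx2
  have hx2C : Co (Cl A X) ψ j x2 := hx.sub (dl_cb C.okP hc1)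
  have hx2R : ∀ F, x2 F ∈ RR ψ u v := fun F =>
    Submodule.sub_mem _ (hxR F) (C.dl_mem (fun _ h => h.1) hc2 F)
  have hx2d : dl (Cl A X) ψ x2 = 0 := by rw [hx2, dl_sub, hdx, dl_dl C.okP, sub_zero]
  have hx20 : ∀ F, u ∈ F → v ∈ F → x2 F = 0 := by
    intro F hu hv
    by_cases hF : Cl A X F
    · obtain ⟨h3, h4⟩ := C.split hF hu hv
      have h5 := hc3 _ h4
      rw [h3] at h5
      rw [hx2, Pi.sub_apply, h5, sub_self]
    · exact hx2C.off hF
  have hx2E : Co (Pe A X u v) ψ j x2 := by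
    intro F hF
    obtain ⟨h3, h4, h5⟩ := hx2C F hF
    exact ⟨⟨h3, fun h' => hF (hx20 F h'.1 h'.2)⟩, h4, h5⟩
  have hx2Ed : dl (Pe A X u v) ψ x2 = 0 := by
    funext G
    by_cases hG : Pe A X u v G
    · have := congrFun hx2d G
      rw [dl_pos hG.1] at this
      rw [dl_pos hG, this]
    · rw [dl_neg hG, Pi.zero_apply]
  obtain ⟨y, hy1, hy2, hy3⟩ := C.k1 h1 h2 hj hx2E hx2R hx2Ed
  refine ⟨y + c, (hy1.mono fun _ h => h.1).add hc1, ?_⟩
  have h3 : dl (Cl A X) ψ y = x2 := by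
    funext G
    by_cases hG : Cl A X G
    swap
    · rw [dl_neg hG, hx2C.off hG]
    by_cases hGe : u ∈ G ∧ v ∈ G
    · obtain ⟨huG, hvG⟩ := hGe
      obtain ⟨h3, h4⟩ := C.split hG huG hvG
      obtain ⟨h5, h6⟩ := lk_notMem h4
      rw [hx20 G huG hvG]
      have h7 : dl (Cl A X) ψ y (insert u (insert v ((G.erase u).erase v))) = 0 := by
        rw [dl_insert2 h5 h6 C.huv (by rw [h3]; exact hG), ← mem_RR.mp (hy2 _),
          hy1.kill (Finset.mem_insert_self _ _), mem_RR.mp (hy2 _),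
          hy1.kill (Finset.mem_insert_self _ _), zero_add, zero_add]
        refine Finset.sum_eq_zero fun w _ => ?_
        rw [hy1.off, map_zero]
        exact fun h' => h'.2 ⟨Finset.mem_insert_self _ _,
          Finset.mem_insert_of_mem (Finset.mem_insert_self _ _)⟩
      rw [h3] at h7
      exact h7
    · have hPG : Pe A X u v G := ⟨hG, hGe⟩
      have := congrFun hy3 G
      rw [dl_pos hPG] at this
      rw [dl_pos hG, this]
  rw [dl_add, h3, hx2]
  abel

end ContrAux

theorem contr {g : V → V → K} {A : V → V → Prop} (hA : ∀ a b, A a b → A b a) {X : Finset V}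
    {u v : V} (hu : u ∈ X) (hv : v ∈ X) (huv : u ≠ v) (hAuv : A u v)
    (hg0 : ∀ a ∈ X, ∀ b ∈ X, a ≠ b → A a b → g a b = 0)
    (hgv : ∀ w ∈ X, w ≠ u → w ≠ v → g v w = g u w ∧ g w v = g w u)
    (hsq : ∀ s ∈ X, ∀ t ∈ X, s ≠ u → s ≠ v → t ≠ u → t ≠ v → s ≠ t → A u s → A v t → A s t →
      A v s ∨ A u t) (n : ℕ)
    (h1 : VV g (ct A u v) (X.erase v) (n + 1)) (h2 : VV g A (cn A X u v) n) :
    VV g A X (n + 1) := by
  classical
  intro M _ _ ψ φ hR j hj x hx hdx
  have C : ContrAux.Ctx g A X u v ψ φ := ⟨hA, hu, hv, huv, hAuv, hg0, hgv, hsq, hR⟩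
  -- `r x` is a cocycle off the edge
  set rx : Finset V → M := fun F => ψ v (x F) - ψ u (x F) with hrx
  have hrxC : Co (ContrAux.Pe A X u v) ψ j rx := by
    intro F hF
    have hxF : x F ≠ 0 := by
      intro h
      apply hF
      rw [hrx]
      dsimp only
      rw [h, map_zero, map_zero, sub_zero]
    obtain ⟨h3, h4, h5⟩ := hx F hxF
    refine ⟨⟨h3, fun h' => hF ?_⟩, h4, fun w hw => ?_⟩
    · change ψ v (x F) - ψ u (x F) = 0
      rw [h5 u h'.1, h5 v h'.2, sub_zero]
    · have h6 := C.anti_r (h3.1 hw) (x F)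
      rw [h5 w hw, map_zero, map_zero, sub_zero] at h6
      exact (neg_eq_zero.mp h6.symm)
  have hrxd : dl (ContrAux.Pe A X u v) ψ rx = 0 := by
    funext G
    by_cases hG : ContrAux.Pe A X u v G
    swap
    · rw [dl_neg hG, Pi.zero_apply]
    have h3 := congrFun hdx G
    rw [dl_pos hG.1, Pi.zero_apply] at h3
    rw [dl_pos hG, Pi.zero_apply]
    have h4 : ∀ w ∈ G, ψ w (rx (G.erase w)) =
        -(ψ v (ψ w (x (G.erase w))) - ψ u (ψ w (x (G.erase w)))) := by
      intro w hw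
      rw [C.anti_r (hG.1.1 hw), neg_neg]
    rw [Finset.sum_congr rfl h4, Finset.sum_neg_distrib, Finset.sum_sub_distrib, ← map_sum,
      ← map_sum, h3, map_zero, map_zero, sub_zero, neg_zero]
  obtain ⟨y, hy1, hy2, hy3⟩ := C.k1 h1 h2 hj hrxC (fun F => C.rr (x F)) hrxd
  -- lift
  set yh : Finset V → M := fun F => if v ∈ F then -(φ u (y F)) else φ v (y F) with hyh
  have yh1 : ∀ F, v ∈ F → yh F = -(φ u (y F)) := fun F h => if_pos h
  have yh2 : ∀ F, v ∉ F → yh F = φ v (y F) := fun F h => if_neg h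
  have hyr : ∀ F, ψ v (yh F) - ψ u (yh F) = y F := by
    intro F
    by_cases hvF : v ∈ F
    · have h3 := C.phi_u (y F)
      rw [ContrAux.mem_RR.mp (hy2 F), sub_self, map_zero, sub_zero] at h3
      rw [yh1 F hvF, map_neg, map_neg, ← neg_sub', h3, neg_neg]
    · have h3 := C.phi_v (y F)
      rw [ContrAux.mem_RR.mp (hy2 F), sub_self, map_zero, sub_zero] at h3
      rw [yh2 F hvF, h3]
  have hyC : ContrAux.Cb (Cl A X) ψ j yh := by
    intro F hF
    have hyF : y F ≠ 0 := by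
      intro h
      apply hF
      by_cases hvF : v ∈ F
      · rw [yh1 F hvF, h, map_zero, neg_zero]
      · rw [yh2 F hvF, h, map_zero]
    obtain ⟨h3, h4, h5⟩ := hy1 F hyF
    refine ⟨h3.1, h4, fun w hw => ?_⟩
    have hwX := h3.1.1 hw
    by_cases hvF : v ∈ F
    · have hwu : u ≠ w := fun h' => h3.2 ⟨h' ▸ hw, hvF⟩
      have h6 := C.hR.zer u hu w hwX hwu (y F)
      rw [h5 w hw, map_zero, zero_add] at h6
      rw [yh1 F hvF, map_neg, h6, neg_zero]
    · have hwv : v ≠ w := fun h' => hvF (h' ▸ hw)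
      have h6 := C.hR.zer v hv w hwX hwv (y F)
      rw [h5 w hw, map_zero, zero_add] at h6
      rw [yh2 F hvF, h6]
  set x' := x + dl (Cl A X) ψ yh with hx'
  have hx'C : Co (Cl A X) ψ j x' := hx.add (ContrAux.dl_cb C.okP hyC)
  have hx'd : dl (Cl A X) ψ x' = 0 := by rw [hx', dl_add, hdx, dl_dl C.okP, add_zero]
  have hx'R : ∀ F, x' F ∈ ContrAux.RR ψ u v := by
    intro F
    by_cases hF : Cl A X F
    swap
    · rw [hx'C.off hF]
      exact Submodule.zero_mem _
    rw [ContrAux.mem_RR]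
    by_cases hFe : u ∈ F ∧ v ∈ F
    · rw [hx'C.kill hFe.1, hx'C.kill hFe.2]
    · have hPF : ContrAux.Pe A X u v F := ⟨hF, hFe⟩
      have h3 := congrFun hy3 F
      rw [dl_pos hPF] at h3
      rw [← sub_eq_zero, hx', Pi.add_apply, dl_pos hF, map_add, map_add, map_sum, map_sum]
      have h4 : ∑ w ∈ F, ψ v (ψ w (yh (F.erase w))) - ∑ w ∈ F, ψ u (ψ w (yh (F.erase w))) =
          -(ψ v (x F) - ψ u (x F)) := by
        rw [← Finset.sum_sub_distrib]
        have h5 : ∀ w ∈ F, ψ v (ψ w (yh (F.erase w))) - ψ u (ψ w (yh (F.erase w))) =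
            -(ψ w (y (F.erase w))) := by
          intro w hw
          rw [C.anti_r (hF.1 hw), hyr]
        rw [Finset.sum_congr rfl h5, Finset.sum_neg_distrib, h3]
      have h6 : ∀ a b c d : M, a + b - (c + d) = (a - c) + (b - d) := by
        intro a b c d
        abel
      rw [h6, h4, add_neg_cancel]
  obtain ⟨w, hw1, hw2⟩ := C.k2 h1 h2 hj hx'C hx'R hx'd
  refine ⟨w - yh, hw1.sub hyC, ?_⟩
  rw [dl_sub, hw2, hx']
  abel

end Pool.Agent.MP19e880.W1
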