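import Pool.Agent.Lib.MP_19e880_co_W1.ConeOp

/-!
Contraction of an edge on the level of chains.
-/

set_option autoImplicit false
set_option linter.unusedSectionVars false

namespace Pool.Agent.MP19e880.W1

variable {V : Type} [Fintype V] [LinearOrder V] {K : Type} [Field K]
  {M : Type} [AddCommGroup M] [Module K M]

namespace CtraAux

theorem lk_add (v : V) (c e : Finset V → K) : lk v (c + e) = lk v c + lk v e := by
  funext A
  simp only [lk, Pi.add_apply]
  split_ifs
  · ring
  · ring

theorem res_add (v : V) (c e : Finset V → K) : res v (c + e) = res v c + res v e := by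
  funext A
  simp only [res, Pi.add_apply]
  split_ifs
  · ring
  · rfl

theorem res_sub (v : V) (c e : Finset V → K) : res v (c - e) = res v c - res v e := by
  funext A
  simp only [res, Pi.sub_apply]
  split_ifs
  · ring
  · rfl

theorem res_smul (v : V) (a : K) (c : Finset V → K) : res v (a • c) = a • res v c := by
  funext A
  simp only [res, Pi.smul_apply, smul_eq_mul]
  split_ifs
  · ring
  · rfl

/-- The complex after the contraction of `v` to `u`. -/
def PC (P : Finset V → Prop) (u v : V) : Finset V → Prop :=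
  fun G => v ∉ G ∧ (P G ∨ (u ∈ G ∧ P (insert v (G.erase u))))

/-- The chain map of the contraction of `v` to `u`. -/
def cf (u v : V) (c : Finset V → K) : Finset V → K := res v c + cone u (lk v c)

theorem cf_sub (u v : V) (c e : Finset V → K) : cf u v (c - e) = cf u v c - cf u v e := by
  unfold cf
  rw [res_sub, lk_sub, cone_sub]
  abel

theorem cf_smul (u v : V) (a : K) (c : Finset V → K) : cf u v (a • c) = a • cf u v c := by
  unfold cf
  rw [res_smul, lk_smul, cone_smul, smul_add]

theorem cf_zero (u v : V) : cf u v (0 : Finset V → K) = 0 := by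
  have h := cf_smul u v 0 (0 : Finset V → K)
  rwa [zero_smul, zero_smul] at h

theorem bd_cf (u v : V) (c : Finset V → K) : bd (cf u v c) = cf u v (bd c) := by
  unfold cf
  rw [bd_add, bd_cone, bd_lk, cone_neg, res_bd]
  abel

/-- The values of the chain map on the sets which contain `u` and not `v`. -/
theorem cf_insert {u v : V} (huv : u ≠ v) (c : Finset V → K) {T : Finset V} (hu : u ∉ T)
    (hv : v ∉ T) :
    cf u v c (insert u T) = c (insert u T) + eps K u T * (eps K v T * c (insert v T)) := by
  have h1 : v ∉ insert u T := by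
    rw [Finset.mem_insert, not_or]
    exact ⟨huv.symm, hv⟩
  unfold cf
  rw [Pi.add_apply, cone_insert _ hu]
  simp only [res, lk, if_neg h1, if_neg hv]

theorem cf_off {u v : V} (c : Finset V → K) {A : Finset V} (hu : u ∉ A)
    (hv : v ∉ A) : cf u v c A = c A := by
  unfold cf
  rw [Pi.add_apply, cone_notMem _ hu, add_zero]
  simp only [res, if_neg hv]

theorem cf_mem {u v : V} (huv : u ≠ v) (c : Finset V → K) {A : Finset V} (hv : v ∈ A) :
    cf u v c A = 0 := by
  unfold cf
  rw [Pi.add_apply, res_avoid _ _ _ hv, zero_add]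
  by_cases hu : u ∈ A
  · rw [cone_mem _ hu, lk_avoid _ _ _ (Finset.mem_erase.mpr ⟨huv.symm, hv⟩), mul_zero]
  · rw [cone_notMem _ hu]

theorem cf_chain {P : Finset V → Prop} {u v : V} (huv : u ≠ v) {j : ℕ} {c : Finset V → K}
    (hc : Ch P j c) : Ch (PC P u v) j (cf u v c) := by
  intro A hA
  by_cases hv : v ∈ A
  · exact absurd (cf_mem huv c hv) hA
  · by_cases hu : u ∈ A
    · have h1 : u ∉ A.erase u := Finset.notMem_erase u A
      have h2 : v ∉ A.erase u := fun h => hv (Finset.mem_of_mem_erase h)
      have h3 := cf_insert huv c h1 h2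
      rw [Finset.insert_erase hu] at h3
      by_cases h4 : c A = 0
      · have h5 : c (insert v (A.erase u)) ≠ 0 := by
          intro h
          apply hA
          rw [h3, h4, h]
          ring
        obtain ⟨h6, h7⟩ := hc _ h5
        rw [Finset.card_insert_of_notMem h2, Finset.card_erase_of_mem hu] at h7
        have : 0 < A.card := Finset.card_pos.mpr ⟨u, hu⟩
        exact ⟨⟨hv, Or.inr ⟨hu, h6⟩⟩, by omega⟩
      · obtain ⟨h6, h7⟩ := hc _ h4
        exact ⟨⟨hv, Or.inl h6⟩, h7⟩
    · rw [cf_off c hu hv] at hA
      obtain ⟨h6, h7⟩ := hc _ hA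
      exact ⟨⟨hv, Or.inl h6⟩, h7⟩

/-- A cycle in the kernel of the chain map is the boundary of a chain of the kernel. -/
theorem kernel {P : Finset V → Prop} {u v : V} (huv : u ≠ v)
    (hfl : ∀ T : Finset V, u ∉ T → v ∉ T → P (insert u T) → P (insert v T) →
      P (insert u (insert v T))) {j : ℕ} {k : Finset V → K}
    (hk : ∀ A, k A ≠ 0 → P A ∧ A.card + 1 = j) (hf : cf u v k = 0) (hb : bd k = 0) :
    ∃ E : Finset V → K, Ch P j E ∧ bd E = k ∧ cf u v E = 0 := by
  obtain ⟨b, hbdef⟩ : ∃ b, b = lk v k := ⟨_, rfl⟩
  have hdec : k = cone v b - cone u b := by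
    have h1 := eq_res_add_cone v k
    have h2 : res v k = -cone u b := by
      rw [hbdef]
      exact eq_neg_of_add_eq_zero_left hf
    rw [h2, ← hbdef] at h1
    rw [h1]
    abel
  -- the boundary of b vanishes off u
  have hbb : cone u (bd b) = cone v (bd b) := by
    have h1 : bd k = cone u (bd b) - cone v (bd b) := by
      rw [hdec, bd_sub, bd_cone, bd_cone]
      abel
    rw [hb] at h1
    exact (sub_eq_zero.mp h1.symm)
  have hbav : ∀ A, v ∈ A → b A = 0 := fun A hA => by
    rw [hbdef]
    exact lk_avoid v k A hA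
  have hb0 : res u (bd b) = 0 := by
    funext T
    rw [Pi.zero_apply]
    by_cases hu : u ∈ T
    · exact res_avoid _ _ _ hu
    · simp only [res, if_neg hu]
      by_cases hv : v ∈ T
      · exact bd_mem_of_avoid v b hbav T hv
      · have h1 := congrFun hbb (insert v T)
        have h2 : u ∉ insert v T := by
          rw [Finset.mem_insert, not_or]
          exact ⟨huv, hu⟩
        rw [cone_notMem _ h2, cone_insert _ hv] at h1
        exact (mul_eq_zero.mp h1.symm).resolve_left (eps_ne_zero _ _)
  rw [res_bd] at hb0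
  have hb1 : lk u b = -bd (res u b) := eq_neg_of_add_eq_zero_right hb0
  have hkey : k = cone v (res u b) - cone u (res u b) - cone v (cone u (bd (res u b))) := by
    have h1 := eq_res_add_cone u b
    rw [hb1, cone_neg] at h1
    calc k = cone v b - cone u b := hdec
      _ = cone v (res u b + -cone u (bd (res u b))) - cone u (res u b + -cone u (bd (res u b))) := by
          rw [← h1]
      _ = _ := by
          rw [cone_add, cone_add, cone_neg, cone_neg, cone_cone]
          abel
  refine ⟨cone u (cone v (res u b)), ?_, ?_, ?_⟩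
  · intro A hA
    by_cases hu : u ∈ A
    · rw [cone_mem _ hu] at hA
      have h1 := right_ne_zero_of_mul hA
      by_cases hv : v ∈ A.erase u
      · rw [cone_mem _ hv] at h1
        have h2 := right_ne_zero_of_mul h1
        obtain ⟨T, hT⟩ : ∃ T, T = (A.erase u).erase v := ⟨_, rfl⟩
        rw [← hT] at h2
        have hvT : v ∉ T := by rw [hT]; exact Finset.notMem_erase v _
        have huT : u ∉ T := by
          intro h
          exact h2 (res_avoid u b T h)
        have hA' : A = insert u (insert v T) := by
          rw [hT, Finset.insert_erase hv, Finset.insert_erase hu]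
        simp only [res, if_neg huT] at h2
        have h3 : k (insert v T) ≠ 0 := by
          intro h
          apply h2
          rw [hbdef]
          simp only [lk, if_neg hvT]
          rw [h, mul_zero]
        have h4 : k (insert u T) ≠ 0 := by
          have h5 := congrFun hdec (insert u T)
          have h6 : v ∉ insert u T := by
            rw [Finset.mem_insert, not_or]
            exact ⟨huv.symm, hvT⟩
          rw [Pi.sub_apply, cone_notMem _ h6, cone_insert _ huT, zero_sub] at h5
          rw [h5]
          exact neg_ne_zero.mpr (mul_ne_zero (eps_ne_zero _ _) h2)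
        obtain ⟨h7, h8⟩ := hk _ h3
        obtain ⟨h9, _⟩ := hk _ h4
        rw [Finset.card_insert_of_notMem hvT] at h8
        have h10 : u ∉ insert v T := by
          rw [Finset.mem_insert, not_or]
          exact ⟨huv, huT⟩
        refine ⟨?_, ?_⟩
        · rw [hA']
          exact hfl T huT hvT h9 h7
        · rw [hA', Finset.card_insert_of_notMem h10, Finset.card_insert_of_notMem hvT]
          omega
      · exact absurd (cone_notMem _ hv) h1
    · exact absurd (cone_notMem _ hu) hA
  · rw [bd_cone, bd_cone, cone_sub, cone_anti huv (bd (res u b)), hkey]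
    abel
  · funext A
    rw [Pi.zero_apply]
    by_cases hv : v ∈ A
    · exact cf_mem huv _ hv
    · by_cases hu : u ∈ A
      · have h1 : u ∉ A.erase u := Finset.notMem_erase u A
        have h2 : v ∉ A.erase u := fun h => hv (Finset.mem_of_mem_erase h)
        have h3 := cf_insert huv (cone u (cone v (res u b))) h1 h2
        rw [Finset.insert_erase hu] at h3
        have h4 : u ∉ insert v (A.erase u) := by
          rw [Finset.mem_insert, not_or]
          exact ⟨huv, h1⟩
        rw [h3, cone_mem _ hu, cone_notMem _ h2, cone_notMem _ h4]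
        ring
      · rw [cf_off _ hu hv, cone_notMem _ hu]

open Classical in
/-- A lift of a chain of the contraction. -/
noncomputable def lift (P : Finset V → Prop) (u v : V) (z : Finset V → K) : Finset V → K := fun G =>
  if v ∈ G then
    (if P G ∧ u ∉ G ∧ ¬ P (insert u (G.erase v)) then
      eps K u (G.erase v) * (eps K v (G.erase v) * z (insert u (G.erase v))) else 0)
  else (if P G then z G else 0)

theorem lift_chain {P : Finset V → Prop} {u v : V} {j : ℕ} {z : Finset V → K}
    (hz : Ch (PC P u v) j z) : Ch P j (lift P u v z) := by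
  intro G hG
  unfold lift at hG
  split_ifs at hG with h1 h2 h3
  · refine ⟨h2.1, ?_⟩
    have h4 := right_ne_zero_of_mul (right_ne_zero_of_mul hG)
    have h5 := (hz _ h4).2
    have h6 : u ∉ G.erase v := fun h => h2.2.1 (Finset.mem_of_mem_erase h)
    rw [Finset.card_insert_of_notMem h6, Finset.card_erase_of_mem h1] at h5
    have : 0 < G.card := Finset.card_pos.mpr ⟨v, h1⟩
    omega
  · exact absurd rfl hG
  · exact ⟨h3, (hz _ hG).2⟩
  · exact absurd rfl hG

theorem cf_lift {P : Finset V → Prop} {u v : V} (huv : u ≠ v) {j : ℕ} {z : Finset V → K}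
    (hz : Ch (PC P u v) j z) : cf u v (lift P u v z) = z := by
  funext A
  by_cases hv : v ∈ A
  · rw [cf_mem huv _ hv]
    by_contra h
    exact (hz A (fun h' => h h'.symm)).1.1 hv
  · by_cases hu : u ∈ A
    · have h1 : u ∉ A.erase u := Finset.notMem_erase u A
      have h2 : v ∉ A.erase u := fun h => hv (Finset.mem_of_mem_erase h)
      have h3 := cf_insert huv (lift P u v z) h1 h2
      rw [Finset.insert_erase hu] at h3
      rw [h3]
      have h4 : u ∉ insert v (A.erase u) := by
        rw [Finset.mem_insert, not_or]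
        exact ⟨huv, h1⟩
      have h5 : v ∈ insert v (A.erase u) := Finset.mem_insert_self _ _
      unfold lift
      rw [if_neg hv, if_pos h5, Finset.erase_insert h2, Finset.insert_erase hu]
      by_cases hP : P A
      · rw [if_pos hP, if_neg (fun h => h.2.2 hP)]
        ring
      · rw [if_neg hP]
        by_cases hP' : P (insert v (A.erase u))
        · rw [if_pos ⟨hP', h4, hP⟩]
          have h6 := eps_mul_self (k := K) u (A.erase u)
          have h7 := eps_mul_self (k := K) v (A.erase u)
          linear_combination (eps K v (A.erase u) * eps K v (A.erase u) * z A) * h6 + z A * h7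
        · rw [if_neg (fun h => hP' h.1)]
          by_contra h
          have h8 : z A ≠ 0 := by
            intro h'
            apply h
            rw [h']
            ring
          rcases (hz A h8).1.2 with h9 | h9
          · exact hP h9
          · exact hP' h9.2
    · rw [cf_off _ hu hv]
      unfold lift
      rw [if_neg hv]
      split_ifs with h
      · rfl
      · by_contra h'
        rcases (hz A (fun h1 => h' h1.symm)).1.2 with h9 | h9
        · exact h h9
        · exact hu h9.1

/-- Every cycle of the contraction is the image of a cycle. -/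
theorem lift_cycle {P : Finset V → Prop} (hP : ∀ F, P F → ∀ G, G ⊆ F → P G) {u v : V}
    (huv : u ≠ v)
    (hfl : ∀ T : Finset V, u ∉ T → v ∉ T → P (insert u T) → P (insert v T) →
      P (insert u (insert v T))) {j : ℕ} {z : Finset V → K}
    (hz : Ch (PC P u v) j z) (hb : bd z = 0) :
    ∃ y : Finset V → K, Ch P j y ∧ bd y = 0 ∧ cf u v y = z := by
  have h1 := lift_chain hz
  have h2 := cf_lift huv hz
  obtain ⟨E, hE1, hE2, hE3⟩ := kernel (P := P) huv hfl (j := j) (k := bd (lift P u v z)) (by
      intro A hA
      simp only [bd] at hA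
      obtain ⟨w, hw, hw'⟩ := Finset.exists_ne_zero_of_sum_ne_zero hA
      obtain ⟨h3, h4⟩ := h1 _ (right_ne_zero_of_mul hw')
      rw [Finset.mem_compl] at hw
      rw [Finset.card_insert_of_notMem hw] at h4
      exact ⟨hP _ h3 _ (Finset.subset_insert _ _), h4⟩)
    (by rw [← bd_cf, h2, hb]) (bd_bd _)
  refine ⟨lift P u v z - E, h1.sub hE1, ?_, ?_⟩
  · rw [bd_sub, hE2, sub_self]
  · rw [cf_sub, h2, hE3, sub_zero]

end CtraAux

open CtraAux

theorem ctr_ex {P : Finset V → Prop} (hP : ∀ F, P F → ∀ G, G ⊆ F → P G) {u v : V} (huv : u ≠ v)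
    (hfl : ∀ T : Finset V, u ∉ T → v ∉ T → P (insert u T) → P (insert v T) →
      P (insert u (insert v T))) (j : ℕ)
    (hex : ∀ z : Finset V → K, Ch P j z → bd z = 0 → ∃ c : Finset V → K, Ch P (j + 1) c ∧ bd c = z)
    (z : Finset V → K)
    (hz : Ch (fun G => v ∉ G ∧ (P G ∨ (u ∈ G ∧ P (insert v (G.erase u))))) j z) (hb : bd z = 0) :
    ∃ c : Finset V → K,
      Ch (fun G => v ∉ G ∧ (P G ∨ (u ∈ G ∧ P (insert v (G.erase u))))) (j + 1) c ∧ bd c = z := by
  obtain ⟨y, hy1, hy2, hy3⟩ := lift_cycle hP huv hfl hz hb
  obtain ⟨c, hc1, hc2⟩ := hex y hy1 hy2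
  exact ⟨cf u v c, cf_chain huv hc1, by rw [bd_cf, hc2, hy3]⟩

theorem ctr_top {P : Finset V → Prop} (hP : ∀ F, P F → ∀ G, G ⊆ F → P G) {u v : V} (huv : u ≠ v)
    (hfl : ∀ T : Finset V, u ∉ T → v ∉ T → P (insert u T) → P (insert v T) →
      P (insert u (insert v T))) (j : ℕ) (hno : ∀ F, P F → F.card ≤ j)
    (htop : ∃ z : Finset V → K, Ch P j z ∧ bd z = 0 ∧ z ≠ 0 ∧
      ∀ z' : Finset V → K, Ch P j z' → bd z' = 0 → ∃ a : K, z' = a • z) :
    ∃ z : Finset V → K, Ch (fun G => v ∉ G ∧ (P G ∨ (u ∈ G ∧ P (insert v (G.erase u))))) j z ∧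
      bd z = 0 ∧ z ≠ 0 ∧ ∀ z' : Finset V → K,
        Ch (fun G => v ∉ G ∧ (P G ∨ (u ∈ G ∧ P (insert v (G.erase u))))) j z' → bd z' = 0 →
          ∃ a : K, z' = a • z := by
  obtain ⟨o, ho1, ho2, ho3, ho4⟩ := htop
  refine ⟨cf u v o, cf_chain huv ho1, by rw [bd_cf, ho2, cf_zero], ?_, ?_⟩
  · intro h
    obtain ⟨E, hE1, hE2, _⟩ := kernel (P := P) huv hfl (j := j + 1) (k := o)
      (fun A hA => ⟨(ho1 A hA).1, by rw [(ho1 A hA).2]⟩) h ho2
    have hE : E = 0 := by
      funext A
      by_contra hA
      obtain ⟨h1, h2⟩ := hE1 A hA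
      have := hno A h1
      omega
    rw [hE, bd_zero] at hE2
    exact ho3 hE2.symm
  · intro z' hz' hb'
    obtain ⟨y, hy1, hy2, hy3⟩ := lift_cycle hP huv hfl hz' hb'
    obtain ⟨a, ha⟩ := ho4 y hy1 hy2
    exact ⟨a, by rw [← hy3, ha, cf_smul]⟩

end Pool.Agent.MP19e880.W1
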