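import Pool.Agent.Lib.MP_19e880_co.Strong
import Pool.Agent.Lib.MP_19e880_co.Derive

/-!
Clifford complexes of flag complexes: the definitions.
-/

set_option autoImplicit false
set_option linter.unusedSectionVars false

namespace Pool.Agent.MP19e880.W1

variable {V : Type} [Fintype V] [LinearOrder V] {K : Type} [Field K]
  {M : Type} [AddCommGroup M] [Module K M]

/-- `F` is a clique of the graph `A` inside `X`. -/
def Cl (A : V → V → Prop) (X F : Finset V) : Prop :=
  F ⊆ X ∧ ∀ a ∈ F, ∀ b ∈ F, a ≠ b → A a b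

/-- Operators `ψ v`, `φ v` (`v ∈ X`) with the Clifford relations
`ψ u ψ v + ψ v ψ u = g u v` (`u ≠ v`), `ψ v ² = 0`, `φ u ψ v + ψ v φ u = δ u v`,
`φ u φ v + φ v φ u = 0`, `φ v ² = 0`. -/
structure Rel (g : V → V → K) (X : Finset V) (ψ φ : V → M →ₗ[K] M) : Prop where
  sq : ∀ v ∈ X, ∀ x, ψ v (ψ v x) = 0
  ac : ∀ u ∈ X, ∀ v ∈ X, u ≠ v → ∀ x, ψ u (ψ v x) + ψ v (ψ u x) = g u v • x
  one : ∀ v ∈ X, ∀ x, φ v (ψ v x) + ψ v (φ v x) = x
  zer : ∀ u ∈ X, ∀ v ∈ X, u ≠ v → ∀ x, φ u (ψ v x) + ψ v (φ u x) = 0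
  psq : ∀ v ∈ X, ∀ x, φ v (φ v x) = 0
  pac : ∀ u ∈ X, ∀ v ∈ X, u ≠ v → ∀ x, φ u (φ v x) + φ v (φ u x) = 0

/-- The complex `P` is closed under subsets, and on each of its faces the operators `ψ v` have
square zero and anticommute. -/
structure Ok (P : Finset V → Prop) (ψ : V → M →ₗ[K] M) : Prop where
  down : ∀ F, P F → ∀ G, G ⊆ F → P G
  sq : ∀ F, P F → ∀ v ∈ F, ∀ x, ψ v (ψ v x) = 0
  ac : ∀ F, P F → ∀ u ∈ F, ∀ v ∈ F, u ≠ v → ∀ x, ψ u (ψ v x) + ψ v (ψ u x) = 0

/-- `x` is a cochain on the faces of `P` with `j` vertices: `x F` is killed by `ψ v`, `v ∈ F`. -/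
def Co (P : Finset V → Prop) (ψ : V → M →ₗ[K] M) (j : ℕ) (x : Finset V → M) : Prop :=
  ∀ F, x F ≠ 0 → P F ∧ F.card = j ∧ ∀ v ∈ F, ψ v (x F) = 0

open Classical in
/-- The differential. -/
noncomputable def dl (P : Finset V → Prop) (ψ : V → M →ₗ[K] M) (x : Finset V → M) :
    Finset V → M :=
  fun G => if P G then ∑ v ∈ G, ψ v (x (G.erase v)) else 0

/-- Exactness of the cochain complex at the faces with `j` vertices. -/
def ExAt (P : Finset V → Prop) (ψ : V → M →ₗ[K] M) (j : ℕ) : Prop :=
  ∀ x, Co P ψ j x → dl P ψ x = 0 → ∃ y : Finset V → M,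
    (∀ F, y F ≠ 0 → P F ∧ F.card + 1 = j ∧ ∀ v ∈ F, ψ v (y F) = 0) ∧ dl P ψ y = x

/-- `V_n`: exactness below `n` for all modules. -/
def VV (g : V → V → K) (A : V → V → Prop) (X : Finset V) (n : ℕ) : Prop :=
  ∀ (M : Type) [AddCommGroup M] [Module K M] (ψ φ : V → M →ₗ[K] M), Rel g X ψ φ →
    ∀ j, j < n → ExAt (Cl A X) ψ j

/-- The boundary of a chain with values in a vector space. -/
def bm (K : Type) [Field K] {M : Type} [AddCommGroup M] [Module K M] (c : Finset V → M) :
    Finset V → M := fun A => ∑ v ∈ Aᶜ, eps K v A • c (insert v A)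

/-- A chain on the faces of `P` with `j` vertices with values in `M`. -/
def Cm (P : Finset V → Prop) (j : ℕ) (c : Finset V → M) : Prop :=
  ∀ F, c F ≠ 0 → P F ∧ F.card = j

/-- Exactness of the chain complex with `y F` killed by `ψ v`, `v ∈ F`, at the faces with `i`
vertices. -/
def HoAt (P : Finset V → Prop) (ψ : V → M →ₗ[K] M) (i : ℕ) : Prop :=
  ∀ y, Co P ψ i y → bm K y = 0 → ∃ c, Co P ψ (i + 1) c ∧ bm K c = y

/-- The coboundary of a cochain with values in a vector space. -/
noncomputable def cm (K : Type) [Field K] {M : Type} [AddCommGroup M] [Module K M]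
    (z : Finset V → M) : Finset V → M := fun G => ∑ v ∈ G, eps K v (G.erase v) • z (G.erase v)

/-- The ordered product of the operators `ψ v`, `v ∈ F` (the smallest one on the outside). -/
noncomputable def pr (ψ : V → M →ₗ[K] M) (F : Finset V) (m : M) : M :=
  (F.sort (· ≤ ·)).foldr (fun v y => ψ v y) m

/-- The cochains with `j` vertices as a subspace. -/
def coS (P : Finset V → Prop) (ψ : V → M →ₗ[K] M) (j : ℕ) : Submodule K (Finset V → M) where
  carrier := {x | Co P ψ j x}
  zero_mem' := fun F hF => absurd rfl hF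
  add_mem' := by
    intro x y hx hy F hF
    have hx0 : ∀ v ∈ F, ψ v (x F) = 0 := by
      intro v hv
      by_cases h : x F = 0
      · rw [h, map_zero]
      · exact (hx F h).2.2 v hv
    have hy0 : ∀ v ∈ F, ψ v (y F) = 0 := by
      intro v hv
      by_cases h : y F = 0
      · rw [h, map_zero]
      · exact (hy F h).2.2 v hv
    have h2 : P F ∧ F.card = j := by
      by_cases h : x F = 0
      · have : y F ≠ 0 := by
          intro h'
          apply hF
          simp [h, h']
        exact ⟨(hy F this).1, (hy F this).2.1⟩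
      · exact ⟨(hx F h).1, (hx F h).2.1⟩
    refine ⟨h2.1, h2.2, fun v hv => ?_⟩
    rw [Pi.add_apply, map_add, hx0 v hv, hy0 v hv, add_zero]
  smul_mem' := by
    intro a x hx F hF
    have h1 : x F ≠ 0 := by
      intro h
      apply hF
      simp [h]
    refine ⟨(hx F h1).1, (hx F h1).2.1, fun v hv => ?_⟩
    rw [Pi.smul_apply, map_smul, (hx F h1).2.2 v hv, smul_zero]

/-- The sign of inserting `v` into `A`, in a commutative ring. -/
def ep (R : Type) [CommRing R] (v : V) (A : Finset V) : R :=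
  (-1) ^ (A.filter (fun w => w < v)).card

/-- The operator `ψ v = e v + ∑ u < v, g u v ι u` on the exterior algebra, as a matrix. -/
def Pm (R : Type) [CommRing R] (g : V → V → R) (v : V) : Matrix (Finset V) (Finset V) R :=
  Matrix.of fun A B => (if v ∈ A ∧ B = A.erase v then ep R v B else 0) +
    ∑ u ∈ Finset.univ.filter (fun u => u < v),
      g u v * (if u ∉ A ∧ B = insert u A then ep R u A else 0)

/-- The contraction `φ v = ι v` on the exterior algebra, as a matrix. -/
def Fm (R : Type) [CommRing R] (v : V) : Matrix (Finset V) (Finset V) R :=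
  Matrix.of fun A B => if v ∉ A ∧ B = insert v A then ep R v A else 0

/-- The graph of a family of sets. -/
def ad (S : Finset (Finset V)) : V → V → Prop := fun a b => ({a, b} : Finset V) ∈ S

/-- The contraction of the edge `u v` onto `u`, as a graph. -/
def ct (A : V → V → Prop) (u v : V) : V → V → Prop :=
  fun a b => A a b ∨ (a = u ∧ A v b) ∨ (b = u ∧ A a v)

/-- The contraction of the edge `u v` onto `u`, as a family of sets. -/
def con (S : Finset (Finset V)) (u v : V) : Finset (Finset V) :=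
  S.image (fun F => F.image (fun w => if w = v then u else w))

/-- The common neighbours of `u` and `v` in `X`. -/
noncomputable def cn (A : V → V → Prop) (X : Finset V) (u v : V) : Finset V :=
  open Classical in X.filter (fun w => w ≠ u ∧ w ≠ v ∧ A u w ∧ A v w)

/-- The field of rational functions in variables indexed by the pairs of vertices. -/
abbrev KK (V k : Type) [Field k] : Type := FractionRing (MvPolynomial (Sym2 V) k)

open Classical in
/-- The generic matrix of the graph `A`. -/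
noncomputable def gen (k : Type) [Field k] (A : V → V → Prop) : V → V → KK V k := fun a b =>
  if a = b ∨ A a b then 0
  else algebraMap (MvPolynomial (Sym2 V) k) (KK V k) (MvPolynomial.X s(a, b))

/-- No induced 4-cycle contains the edge `u v`. -/
def NoSq (S : Finset (Finset V)) (u v : V) : Prop :=
  ∀ s t : V, ({u, s} : Finset V) ∈ S → ({v, t} : Finset V) ∈ S → ({s, t} : Finset V) ∈ S →
    ({v, s} : Finset V) ∈ S ∨ ({u, t} : Finset V) ∈ S

/-- `V_n` at the generic matrix. -/
def GV (k : Type) [Field k] (A : V → V → Prop) (X : Finset V) (n : ℕ) : Prop :=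
  VV (gen k A) A X n

/-- The class of reducible families: `Red d n S` is a certificate for `V_n` of the flag homology
`(d-1)`-sphere `S`. -/
inductive Red : ℕ → ℕ → Finset (Finset V) → Prop
  | low (d n : ℕ) (S : Finset (Finset V)) : n ≤ 2 → 2 * n ≤ d + 1 → Red d n S
  | susp (d n : ℕ) (S : Finset (Finset V)) (a b : V) : {a} ∈ S → {b} ∈ S → {a, b} ∉ S →
      (∀ w, {w} ∈ S → w ≠ a → w ≠ b → {a, w} ∈ S ∧ {b, w} ∈ S) → Red d n S
  | flat (m n : ℕ) (S : Finset (Finset V)) : Red (2 * m) m S →
      ∑ F ∈ S, (-2 : ℤ) ^ (2 * m - F.card) = 0 → Red (2 * m) n S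
  | ctr (d n : ℕ) (S : Finset (Finset V)) (u v : V) : u ≠ v → {u, v} ∈ S → NoSq S u v →
      Red d n (con S u v) → Red (d - 2) (n - 1) (lkF S {u, v}) → Red d n S
  | loc (d n : ℕ) (S : Finset (Finset V)) (R : Finset V) :
      (∀ F ∈ S, F ⊆ R → F.card + n ≤ d) →
      (∀ σ ∈ S, σ ≠ ∅ → Disjoint σ R → σ.card ≤ n →
        Red (d - σ.card) (n + 1 - σ.card) (lkF S σ)) → Red d n S

end Pool.Agent.MP19e880.W1
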