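import Pool.Agent.Lib.MP_19e880_co_W1.Basic

/-!
Clifford complexes of flag complexes: the dimension of the cochain spaces.
-/

set_option autoImplicit false
set_option linter.unusedSectionVars false

namespace Pool.Agent.MP19e880.W1

variable {V : Type} [Fintype V] [LinearOrder V] {K : Type} [Field K]
  {M : Type} [AddCommGroup M] [Module K M]

namespace DimAux

/-- The elements killed by all `ψ v`, `v ∈ F`. -/
def MF (ψ : V → M →ₗ[K] M) (F : Finset V) : Submodule K M where
  carrier := {x | ∀ v ∈ F, ψ v x = 0}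
  zero_mem' := fun v _ => map_zero _
  add_mem' := by
    intro x y hx hy v hv
    rw [map_add, hx v hv, hy v hv, add_zero]
  smul_mem' := by
    intro a x hx v hv
    rw [map_smul, hx v hv, smul_zero]

theorem mem_MF {ψ : V → M →ₗ[K] M} {F : Finset V} {x : M} :
    x ∈ MF ψ F ↔ ∀ v ∈ F, ψ v x = 0 := Iff.rfl

theorem MF_empty (ψ : V → M →ₗ[K] M) : MF ψ ∅ = ⊤ := by
  ext x
  simp [mem_MF]

theorem finrank_insert [FiniteDimensional K M] {g : V → V → K} {X : Finset V}
    {ψ φ : V → M →ₗ[K] M} (hR : Rel g X ψ φ) {F : Finset V} {a : V} (ha : a ∉ F)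
    (hX : insert a F ⊆ X) (hg : ∀ b ∈ F, g b a = 0) :
    Module.finrank K (MF ψ (insert a F)) * 2 = Module.finrank K (MF ψ F) := by
  have haX : a ∈ X := hX (Finset.mem_insert_self a F)
  have hFX : ∀ b ∈ F, b ∈ X := fun b hb => hX (Finset.mem_insert_of_mem hb)
  have hne : ∀ b ∈ F, b ≠ a := fun b hb h => ha (h ▸ hb)
  have hr : LinearMap.range ((ψ a).domRestrict (MF ψ F)) = MF ψ (insert a F) := by
    ext x
    constructor
    · rintro ⟨y, rfl⟩ v hv
      rw [LinearMap.domRestrict_apply]
      rcases Finset.mem_insert.mp hv with rfl | hv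
      · exact hR.sq v haX _
      · have h1 := hR.ac v (hFX v hv) a haX (hne v hv) y.1
        rw [y.2 v hv, map_zero, add_zero, hg v hv, zero_smul] at h1
        exact h1
    · intro hx
      have h0 : ψ a x = 0 := hx a (Finset.mem_insert_self a F)
      refine ⟨⟨φ a x, ?_⟩, ?_⟩
      · intro v hv
        have h1 := hR.zer a haX v (hFX v hv) (hne v hv).symm x
        rw [hx v (Finset.mem_insert_of_mem hv), map_zero, zero_add] at h1
        exact h1
      · rw [LinearMap.domRestrict_apply]
        have h1 := hR.one a haX x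
        rwa [h0, map_zero, zero_add] at h1
  have hk : (LinearMap.ker ((ψ a).domRestrict (MF ψ F))).map (MF ψ F).subtype =
      MF ψ (insert a F) := by
    ext x
    constructor
    · rintro ⟨y, hy, rfl⟩ v hv
      rcases Finset.mem_insert.mp hv with rfl | hv
      · exact hy
      · exact y.2 v hv
    · intro hx
      refine ⟨⟨x, fun v hv => hx v (Finset.mem_insert_of_mem hv)⟩, ?_, rfl⟩
      exact hx a (Finset.mem_insert_self a F)
  have h1 := LinearMap.finrank_range_add_finrank_ker ((ψ a).domRestrict (MF ψ F))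
  rw [← Submodule.finrank_map_subtype_eq, hk, hr] at h1
  omega

theorem finrank_MF [FiniteDimensional K M] {g : V → V → K} {X : Finset V}
    {ψ φ : V → M →ₗ[K] M} (hR : Rel g X ψ φ) (F : Finset V) (hX : F ⊆ X)
    (hg : ∀ a ∈ F, ∀ b ∈ F, a ≠ b → g a b = 0) :
    Module.finrank K (MF ψ F) * 2 ^ F.card = Module.finrank K M := by
  induction F using Finset.induction_on with
  | empty => rw [MF_empty, Finset.card_empty, pow_zero, mul_one, finrank_top]
  | insert a F ha ih =>
    have h1 := finrank_insert hR ha hX (fun b hb =>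
      hg b (Finset.mem_insert_of_mem hb) a (Finset.mem_insert_self a F) (fun h => ha (h ▸ hb)))
    have h2 := ih ((Finset.subset_insert a F).trans hX) (fun b hb c hc =>
      hg b (Finset.mem_insert_of_mem hb) c (Finset.mem_insert_of_mem hc))
    rw [Finset.card_insert_of_notMem ha, ← h2, ← h1, pow_succ]
    ring

/-- The cochains are families of elements of the spaces `MF`. -/
noncomputable def equiv (P : Finset V → Prop) [DecidablePred P] (ψ : V → M →ₗ[K] M) (j : ℕ) :
    coS P ψ j ≃ₗ[K] ((F : {F : Finset V // P F ∧ F.card = j}) → MF ψ F.1) where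
  toFun x F := ⟨x.1 F.1, fun _ hv => Co.kill (show Co P ψ j x.1 from x.2) hv⟩
  map_add' x y := rfl
  map_smul' a x := rfl
  invFun y := ⟨fun F => if h : P F ∧ F.card = j then (y ⟨F, h⟩ : M) else 0, by
    intro F hF
    by_cases h : P F ∧ F.card = j
    · refine ⟨h.1, h.2, fun v hv => ?_⟩
      simp only [dif_pos h]
      exact (y ⟨F, h⟩).2 v hv
    · simp only [dif_neg h] at hF
      exact absurd rfl hF⟩
  left_inv x := by
    apply Subtype.ext
    funext F
    by_cases h : P F ∧ F.card = j
    · simp only [dif_pos h]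
    · simp only [dif_neg h]
      by_contra hc
      exact h ⟨(x.2 F (Ne.symm hc)).1, (x.2 F (Ne.symm hc)).2.1⟩
  right_inv y := by
    funext F
    apply Subtype.ext
    simp only [dif_pos F.2]

end DimAux

theorem dim_coS {g : V → V → K} {X : Finset V} {ψ φ : V → M →ₗ[K] M} [FiniteDimensional K M]
    (hR : Rel g X ψ φ) (P : Finset V → Prop) [DecidablePred P] (hPX : ∀ F, P F → F ⊆ X)
    (hg : ∀ F, P F → ∀ a ∈ F, ∀ b ∈ F, a ≠ b → g a b = 0) (j : ℕ) :
    Module.finrank K (coS P ψ j) * 2 ^ j =
      (Finset.univ.filter (fun F => P F ∧ F.card = j)).card * Module.finrank K M := by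
  rw [(DimAux.equiv P ψ j).finrank_eq, Module.finrank_pi_fintype, Finset.sum_mul]
  have h1 : ∀ F : {F : Finset V // P F ∧ F.card = j},
      Module.finrank K (DimAux.MF ψ F.1) * 2 ^ j = Module.finrank K M := by
    intro F
    have := DimAux.finrank_MF hR F.1 (hPX F.1 F.2.1) (hg F.1 F.2.1)
    rwa [F.2.2] at this
  rw [Finset.sum_congr rfl (fun F _ => h1 F), Finset.sum_const, smul_eq_mul, Finset.card_univ,
    Fintype.card_subtype]

end Pool.Agent.MP19e880.W1
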