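import Pool.Agent.Lib.MP_19e880_co_W1.Dim

/-!
Clifford complexes of flag complexes: Euler characteristic (module EULER).
-/

set_option autoImplicit false
set_option linter.unusedSectionVars false

namespace Pool.Agent.MP19e880.W1

variable {V : Type} [Fintype V] [LinearOrder V] {K : Type} [Field K]
  {M : Type} [AddCommGroup M] [Module K M]

namespace EulerAux

/-- the differential as a linear map -/
noncomputable def D (P : Finset V → Prop) (ψ : V → M →ₗ[K] M) :
    (Finset V → M) →ₗ[K] (Finset V → M) where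
  toFun := dl P ψ
  map_add' := dl_add P ψ
  map_smul' a x := dl_smul P ψ a x

/-- the cocycles -/
noncomputable def Z (P : Finset V → Prop) (ψ : V → M →ₗ[K] M) (j : ℕ) :
    Submodule K (Finset V → M) := coS P ψ j ⊓ LinearMap.ker (D P ψ)

/-- the coboundaries -/
noncomputable def B (P : Finset V → Prop) (ψ : V → M →ₗ[K] M) : ℕ → Submodule K (Finset V → M)
  | 0 => ⊥
  | j + 1 => (coS P ψ j).map (D P ψ)

theorem mem_Z {P : Finset V → Prop} {ψ : V → M →ₗ[K] M} {j : ℕ} {x : Finset V → M} :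
    x ∈ Z P ψ j ↔ Co P ψ j x ∧ dl P ψ x = 0 := by
  unfold Z
  rw [Submodule.mem_inf, LinearMap.mem_ker]
  rfl

theorem B_le_Z {P : Finset V → Prop} {ψ : V → M →ₗ[K] M} (h : Ok P ψ) (j : ℕ) :
    B P ψ j ≤ Z P ψ j := by
  cases j with
  | zero => exact bot_le
  | succ j =>
    rintro _ ⟨y, hy, rfl⟩
    exact mem_Z.mpr ⟨dl_co h hy, dl_dl h y⟩

theorem exAt_iff {P : Finset V → Prop} {ψ : V → M →ₗ[K] M} (j : ℕ) :
    ExAt P ψ j ↔ Z P ψ j ≤ B P ψ j := by
  constructor
  · intro h x hx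
    obtain ⟨h1, h2⟩ := mem_Z.mp hx
    obtain ⟨y, hy, hyx⟩ := h x h1 h2
    cases j with
    | zero =>
      have hy0 : y = 0 := by
        funext F
        by_contra hF
        have := (hy F hF).2.1
        omega
      rw [hy0, dl_zero] at hyx
      rw [← hyx]
      exact Submodule.zero_mem _
    | succ j =>
      refine ⟨y, ?_, hyx⟩
      intro F hF
      obtain ⟨a, b, c⟩ := hy F hF
      exact ⟨a, by omega, c⟩
  · intro h x hx hx0
    have h1 := h (mem_Z.mpr ⟨hx, hx0⟩)
    cases j with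
    | zero =>
      have hx' : x = 0 := by
        have h2 : x ∈ (⊥ : Submodule K (Finset V → M)) := h1
        exact (Submodule.mem_bot K).mp h2
      refine ⟨0, fun F hF => absurd rfl hF, ?_⟩
      rw [hx', dl_zero]
    | succ j =>
      obtain ⟨y, hy, hyx⟩ := h1
      refine ⟨y, fun F hF => ?_, hyx⟩
      have hy' : Co P ψ j y := hy
      obtain ⟨a, b, c⟩ := hy' F hF
      exact ⟨a, by omega, c⟩

theorem split [FiniteDimensional K M] (P : Finset V → Prop) (ψ : V → M →ₗ[K] M) (j : ℕ) :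
    Module.finrank K (coS P ψ j) =
      Module.finrank K (B P ψ (j + 1)) + Module.finrank K (Z P ψ j) := by
  have h1 := LinearMap.finrank_range_add_finrank_ker ((D P ψ).domRestrict (coS P ψ j))
  rw [LinearMap.range_domRestrict, LinearMap.ker_domRestrict] at h1
  rw [← h1]
  congr 1
  rw [← Submodule.finrank_map_subtype_eq, Submodule.map_comap_subtype]
  rfl

theorem tele (r : ℕ → ℤ) (N : ℕ) :
    ∑ j ∈ Finset.range (N + 1), (-1 : ℤ) ^ j * (r (j + 1) + r j) = r 0 + (-1) ^ N * r (N + 1) := by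
  induction N with
  | zero => simp; ring
  | succ N ih =>
    rw [Finset.sum_range_succ, ih, pow_succ]
    ring

theorem sum_faces (S : Finset (Finset V)) (m : ℕ) (hcard : ∀ F ∈ S, F.card ≤ 2 * m) :
    ∑ F ∈ S, (-2 : ℤ) ^ (2 * m - F.card) =
      ∑ j ∈ Finset.range (2 * m + 1),
        ((Finset.univ.filter (fun F => F ∈ S ∧ F.card = j)).card : ℤ) *
          (-2 : ℤ) ^ (2 * m - j) := by
  rw [← Finset.sum_fiberwise_of_maps_to (s := S) (t := Finset.range (2 * m + 1))
    (g := fun F => F.card) (fun F hF => Finset.mem_range.mpr (by have := hcard F hF; omega))]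
  refine Finset.sum_congr rfl fun j _ => ?_
  have h1 : (Finset.univ.filter (fun F => F ∈ S ∧ F.card = j)) =
      S.filter (fun F => F.card = j) := by
    ext F; simp
  rw [h1, Finset.sum_congr rfl (g := fun _ => (-2 : ℤ) ^ (2 * m - j))]
  · rw [Finset.sum_const, nsmul_eq_mul]
  · intro F hF
    rw [(Finset.mem_filter.mp hF).2]

end EulerAux

open EulerAux in
theorem euler {g : V → V → K} {X : Finset V} {ψ φ : V → M →ₗ[K] M} [FiniteDimensional K M]
    [Nontrivial M] (hR : Rel g X ψ φ) (S : Finset (Finset V)) (hS : ∀ F ∈ S, ∀ G, G ⊆ F → G ∈ S)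
    (hSX : ∀ F ∈ S, F ⊆ X) (hg : ∀ a b, a ≠ b → ({a, b} : Finset V) ∈ S → g a b = 0) (m : ℕ)
    (hcard : ∀ F ∈ S, F.card ≤ 2 * m) (hex : ∀ j, j ≠ m → ExAt (fun F => F ∈ S) ψ j) :
    0 ≤ (-1 : ℤ) ^ m * ∑ F ∈ S, (-2 : ℤ) ^ (2 * m - F.card) ∧
    (∑ F ∈ S, (-2 : ℤ) ^ (2 * m - F.card) = 0 → ExAt (fun F => F ∈ S) ψ m) := by
  set P : Finset V → Prop := fun F => F ∈ S with hP
  have hgF : ∀ F, P F → ∀ a ∈ F, ∀ b ∈ F, a ≠ b → g a b = 0 := by
    intro F hF a ha b hb hab
    refine hg a b hab (hS F hF _ ?_)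
    intro w hw
    rw [Finset.mem_insert, Finset.mem_singleton] at hw
    rcases hw with rfl | rfl
    · exact ha
    · exact hb
  have hOk : Ok P ψ := by
    refine ⟨hS, fun F hF v hv => hR.sq v (hSX F hF hv), ?_⟩
    intro F hF u hu v hv huv x
    rw [hR.ac u (hSX F hF hu) v (hSX F hF hv) huv, hgF F hF u hu v hv huv, zero_smul]
  -- the numbers
  set r : ℕ → ℤ := fun j => (Module.finrank K (B P ψ j) : ℤ) with hr
  set z : ℕ → ℤ := fun j => (Module.finrank K (Z P ψ j) : ℤ) with hz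
  set h : ℕ → ℤ := fun j => z j - r j with hh
  have hpos : ∀ j, 0 ≤ h j := by
    intro j
    have h1 := Submodule.finrank_mono (B_le_Z hOk j)
    simp only [hh, hr, hz]
    omega
  have hzero : ∀ j, h j = 0 ↔ ExAt P ψ j := by
    intro j
    rw [exAt_iff]
    constructor
    · intro h1
      have h2 : Module.finrank K (B P ψ j) = Module.finrank K (Z P ψ j) := by
        simp only [hh, hr, hz] at h1
        omega
      exact (Submodule.eq_of_le_of_finrank_eq (B_le_Z hOk j) h2).ge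
    · intro h1
      have h2 : B P ψ j = Z P ψ j := le_antisymm (B_le_Z hOk j) h1
      have h3 : r j = z j := by
        change (Module.finrank K (B P ψ j) : ℤ) = (Module.finrank K (Z P ψ j) : ℤ)
        rw [h2]
      change z j - r j = 0
      rw [h3, sub_self]
  have hc : ∀ j, (Module.finrank K (coS P ψ j) : ℤ) = (r (j + 1) + r j) + h j := by
    intro j
    have h1 := split P ψ j
    simp only [hh, hr, hz]
    omega
  have hr0 : r 0 = 0 := by
    change (Module.finrank K (⊥ : Submodule K (Finset V → M)) : ℤ) = 0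
    rw [finrank_bot, Nat.cast_zero]
  have hrtop : r (2 * m + 1) = 0 := by
    have h1 : B P ψ (2 * m + 1) = ⊥ := by
      rw [eq_bot_iff]
      intro x hx
      obtain ⟨h2, _⟩ := mem_Z.mp (B_le_Z hOk (2 * m + 1) hx)
      rw [Submodule.mem_bot]
      funext F
      by_contra hF
      obtain ⟨h3, h4, _⟩ := h2 F hF
      have := hcard F h3
      omega
    change (Module.finrank K (B P ψ (2 * m + 1)) : ℤ) = 0
    rw [h1, finrank_bot, Nat.cast_zero]
  have hsum : ∑ j ∈ Finset.range (2 * m + 1),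
      (-1 : ℤ) ^ j * (Module.finrank K (coS P ψ j) : ℤ) = (-1) ^ m * h m := by
    have h1 : ∀ j ∈ Finset.range (2 * m + 1),
        (-1 : ℤ) ^ j * (Module.finrank K (coS P ψ j) : ℤ) =
        (-1 : ℤ) ^ j * (r (j + 1) + r j) + (-1) ^ j * h j := by
      intro j _
      rw [hc j]; ring
    rw [Finset.sum_congr rfl h1, Finset.sum_add_distrib, tele, hr0, hrtop, mul_zero, add_zero,
      zero_add]
    refine Finset.sum_eq_single m ?_ ?_
    · intro j _ hjm
      rw [(hzero j).mpr (hex j hjm), mul_zero]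
    · intro hm
      exact absurd (Finset.mem_range.mpr (by omega)) hm
  have hmain : (Module.finrank K M : ℤ) * ∑ F ∈ S, (-2 : ℤ) ^ (2 * m - F.card) =
      2 ^ (2 * m) * ((-1) ^ m * h m) := by
    rw [sum_faces S m hcard, ← hsum, Finset.mul_sum, Finset.mul_sum]
    refine Finset.sum_congr rfl fun j hj => ?_
    have hj' : j ≤ 2 * m := by
      have := Finset.mem_range.mp hj
      omega
    have h1 := dim_coS hR P hSX hgF j
    have h2 : (Module.finrank K (coS P ψ j) : ℤ) * 2 ^ j =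
        ((Finset.univ.filter (fun F => P F ∧ F.card = j)).card : ℤ) *
          (Module.finrank K M : ℤ) := by exact_mod_cast h1
    obtain ⟨t, ht⟩ : ∃ t, 2 * m = j + t := ⟨2 * m - j, by omega⟩
    have h3 : 2 * m - j = t := by omega
    have h4 : (-1 : ℤ) ^ t = (-1) ^ j := by
      have h5 : (-1 : ℤ) ^ j * (-1) ^ t = 1 := by
        rw [← pow_add, ← ht, pow_mul]; norm_num
      have h6 : (-1 : ℤ) ^ j * (-1) ^ j = 1 := by
        rw [← pow_add, ← two_mul, pow_mul]; norm_num
      calc (-1 : ℤ) ^ t = ((-1 : ℤ) ^ j * (-1) ^ j) * (-1) ^ t := by rw [h6, one_mul]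
        _ = (-1) ^ j * ((-1 : ℤ) ^ j * (-1) ^ t) := by ring
        _ = (-1) ^ j := by rw [h5, mul_one]
    have h7 : (-2 : ℤ) ^ t = (-1) ^ t * 2 ^ t := by
      rw [← mul_pow]; norm_num
    rw [h3, h7, h4, ht, pow_add]
    linear_combination (-(((-1 : ℤ) ^ j * 2 ^ t))) * h2
  have hM : 0 < (Module.finrank K M : ℤ) := by
    have := Module.finrank_pos (R := K) (M := M)
    exact_mod_cast this
  have hmm : (-1 : ℤ) ^ m * (-1) ^ m = 1 := by
    rw [← pow_add, ← two_mul, pow_mul]; norm_num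
  constructor
  · have h1 : (Module.finrank K M : ℤ) * ((-1 : ℤ) ^ m * ∑ F ∈ S, (-2 : ℤ) ^ (2 * m - F.card)) =
        2 ^ (2 * m) * h m := by
      calc (Module.finrank K M : ℤ) * ((-1 : ℤ) ^ m * ∑ F ∈ S, (-2 : ℤ) ^ (2 * m - F.card)) =
          (-1 : ℤ) ^ m * ((Module.finrank K M : ℤ) * ∑ F ∈ S, (-2 : ℤ) ^ (2 * m - F.card)) := by
            ring
        _ = (-1 : ℤ) ^ m * (2 ^ (2 * m) * ((-1) ^ m * h m)) := by rw [hmain]
        _ = ((-1 : ℤ) ^ m * (-1) ^ m) * (2 ^ (2 * m) * h m) := by ring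
        _ = 2 ^ (2 * m) * h m := by rw [hmm, one_mul]
    have h2 : 0 ≤ (Module.finrank K M : ℤ) *
        ((-1 : ℤ) ^ m * ∑ F ∈ S, (-2 : ℤ) ^ (2 * m - F.card)) := by
      rw [h1]
      exact mul_nonneg (by positivity) (hpos m)
    exact nonneg_of_mul_nonneg_right h2 hM
  · intro h0
    rw [h0, mul_zero] at hmain
    apply (hzero m).mp
    have h1 : (2 : ℤ) ^ (2 * m) ≠ 0 := by positivity
    have h2 : (-1 : ℤ) ^ m ≠ 0 := by
      intro h3
      rw [h3] at hmm
      norm_num at hmm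
    rcases mul_eq_zero.mp hmain.symm with h3 | h3
    · exact absurd h3 h1
    · rcases mul_eq_zero.mp h3 with h4 | h4
      · exact absurd h4 h2
      · exact h4

end Pool.Agent.MP19e880.W1
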