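import Pool.Agent.Lib.MP_19e880_co_W1.Basic

/-!
Clifford complexes of flag complexes: the Fock space (module FOCK).
-/

set_option autoImplicit false
set_option linter.unusedSectionVars false

namespace Pool.Agent.MP19e880.W1

variable {V : Type} [Fintype V] [LinearOrder V] {K : Type} [Field K]
  {M : Type} [AddCommGroup M] [Module K M]

namespace FockAux

/-- creation -/
def Em (K : Type) [Field K] (v : V) : (Finset V → K) →ₗ[K] (Finset V → K) where
  toFun f A := if v ∈ A then eps K v (A.erase v) * f (A.erase v) else 0
  map_add' f g := by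
    funext A
    by_cases h : v ∈ A
    · simp only [h, if_true, Pi.add_apply]; ring
    · simp [h]
  map_smul' a f := by
    funext A
    by_cases h : v ∈ A
    · simp only [h, if_true, Pi.smul_apply, smul_eq_mul, RingHom.id_apply]; ring
    · simp [h]

/-- annihilation -/
def Im (K : Type) [Field K] (v : V) : (Finset V → K) →ₗ[K] (Finset V → K) where
  toFun f A := if v ∈ A then 0 else eps K v A * f (insert v A)
  map_add' f g := by
    funext A
    by_cases h : v ∈ A
    · simp [h]
    · simp only [h, if_false, Pi.add_apply]; ring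
  map_smul' a f := by
    funext A
    by_cases h : v ∈ A
    · simp [h]
    · simp only [h, if_false, Pi.smul_apply, smul_eq_mul, RingHom.id_apply]; ring

theorem Em_apply (v : V) (f : Finset V → K) (A : Finset V) :
    Em K v f A = if v ∈ A then eps K v (A.erase v) * f (A.erase v) else 0 := rfl

theorem Im_apply (v : V) (f : Finset V → K) (A : Finset V) :
    Im K v f A = if v ∈ A then 0 else eps K v A * f (insert v A) := rfl

theorem EE_self (v : V) (f : Finset V → K) : Em K v (Em K v f) = 0 := by
  funext A
  rw [Em_apply, Em_apply]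
  simp

theorem EE (u v : V) (huv : u ≠ v) (f : Finset V → K) :
    Em K u (Em K v f) + Em K v (Em K u f) = 0 := by
  funext A
  rw [Pi.add_apply, Em_apply, Em_apply, Em_apply, Em_apply, Pi.zero_apply]
  by_cases hu : u ∈ A
  · by_cases hv : v ∈ A
    · have h1 : v ∈ A.erase u := Finset.mem_erase.mpr ⟨huv.symm, hv⟩
      have h2 : u ∈ A.erase v := Finset.mem_erase.mpr ⟨huv, hu⟩
      rw [if_pos hu, if_pos h1, if_pos hv, if_pos h2]
      obtain ⟨C, hC⟩ : ∃ C, C = (A.erase u).erase v := ⟨_, rfl⟩
      have hC' : (A.erase v).erase u = C := by rw [hC, Finset.erase_right_comm]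
      have huC : u ∉ C := by rw [hC]; simp
      have hvC : v ∉ C := by rw [hC]; simp
      have e1 : A.erase u = insert v C := by rw [hC, Finset.insert_erase h1]
      have e2 : A.erase v = insert u C := by rw [← hC', Finset.insert_erase h2]
      rw [hC', ← hC, e1, e2]
      linear_combination f C * eps_swap (k := K) u v C huC hvC huv
    · have h1 : v ∉ A.erase u := fun h => hv (Finset.mem_of_mem_erase h)
      rw [if_neg h1, if_neg hv]
      simp
  · have h2 : u ∉ A.erase v := fun h => hu (Finset.mem_of_mem_erase h)
    rw [if_neg hu, if_neg h2]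
    simp

theorem II_self (v : V) (f : Finset V → K) : Im K v (Im K v f) = 0 := by
  funext A
  rw [Im_apply, Im_apply]
  simp

theorem II (u v : V) (huv : u ≠ v) (f : Finset V → K) :
    Im K u (Im K v f) + Im K v (Im K u f) = 0 := by
  funext A
  rw [Pi.add_apply, Im_apply, Im_apply, Im_apply, Im_apply, Pi.zero_apply]
  by_cases hu : u ∈ A
  · have h1 : u ∈ insert v A := Finset.mem_insert_of_mem hu
    rw [if_pos hu, if_pos h1]
    simp
  · by_cases hv : v ∈ A
    · have h1 : v ∈ insert u A := Finset.mem_insert_of_mem hv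
      rw [if_pos h1, if_pos hv]
      simp
    · have h1 : v ∉ insert u A := by
        rw [Finset.mem_insert, not_or]; exact ⟨huv.symm, hv⟩
      have h2 : u ∉ insert v A := by
        rw [Finset.mem_insert, not_or]; exact ⟨huv, hu⟩
      rw [if_neg hu, if_neg h1, if_neg hv, if_neg h2, Finset.insert_comm v u]
      linear_combination f (insert u (insert v A)) * eps_swap' (k := K) v u A hv hu huv.symm

theorem IE_self (v : V) (f : Finset V → K) : Im K v (Em K v f) + Em K v (Im K v f) = f := by
  funext A
  rw [Pi.add_apply, Im_apply, Em_apply, Em_apply, Im_apply]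
  by_cases hv : v ∈ A
  · rw [if_pos hv, if_pos hv, if_neg (Finset.notMem_erase v A), Finset.insert_erase hv, zero_add,
      ← mul_assoc, eps_mul_self, one_mul]
  · rw [if_neg hv, if_neg hv, if_pos (Finset.mem_insert_self v A), Finset.erase_insert hv, add_zero,
      ← mul_assoc, eps_mul_self, one_mul]

theorem IE (u v : V) (huv : u ≠ v) (f : Finset V → K) :
    Im K u (Em K v f) + Em K v (Im K u f) = 0 := by
  funext A
  rw [Pi.add_apply, Im_apply, Em_apply, Em_apply, Im_apply, Pi.zero_apply]
  by_cases hv : v ∈ A
  · by_cases hu : u ∈ A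
    · have h1 : u ∈ A.erase v := Finset.mem_erase.mpr ⟨huv, hu⟩
      rw [if_pos hu, if_pos h1]
      simp
    · have h1 : v ∈ insert u A := Finset.mem_insert_of_mem hv
      have h2 : u ∉ A.erase v := fun h => hu (Finset.mem_of_mem_erase h)
      rw [if_neg hu, if_pos h1, if_pos hv, if_neg h2]
      obtain ⟨C, hC⟩ : ∃ C, C = A.erase v := ⟨_, rfl⟩
      have hvC : v ∉ C := by rw [hC]; simp
      have huC : u ∉ C := by rw [hC]; exact h2
      have hA : A = insert v C := by rw [hC, Finset.insert_erase hv]
      have h3 : (insert u A).erase v = insert u C := by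
        rw [hC, Finset.erase_insert_of_ne huv]
      rw [h3, ← hC]
      rw [hA, eps_insert u v C hvC, eps_insert v u C huC]
      rcases lt_or_gt_of_ne huv with h | h
      · rw [if_neg (not_lt_of_gt h), if_pos h]; ring
      · rw [if_pos h, if_neg (not_lt_of_gt h)]; ring
  · have h1 : v ∉ insert u A := by
      rw [Finset.mem_insert, not_or]; exact ⟨huv.symm, hv⟩
    rw [if_neg h1, if_neg hv]
    simp

/-- the part of `ψ v` which lowers the degree -/
noncomputable def J (g : V → V → K) (v : V) : (Finset V → K) →ₗ[K] (Finset V → K) :=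
  ∑ u ∈ Finset.univ.filter (fun u => u < v), g u v • Im K u

theorem J_apply (g : V → V → K) (v : V) (f : Finset V → K) :
    J g v f = ∑ u ∈ Finset.univ.filter (fun u => u < v), g u v • Im K u f := by
  unfold J
  rw [LinearMap.sum_apply]
  rfl

theorem IJ (g : V → V → K) (u v : V) (f : Finset V → K) :
    Im K u (J g v f) + J g v (Im K u f) = 0 := by
  rw [J_apply, J_apply, map_sum, ← Finset.sum_add_distrib]
  refine Finset.sum_eq_zero fun w _ => ?_
  rw [map_smul, ← smul_add]
  by_cases h : u = w
  · subst h
    rw [II_self, add_zero, smul_zero]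
  · rw [II u w h, smul_zero]

theorem JJ (g : V → V → K) (a b : V) (f : Finset V → K) :
    J g a (J g b f) + J g b (J g a f) = 0 := by
  rw [J_apply g a (J g b f), J_apply g a f, map_sum, ← Finset.sum_add_distrib]
  refine Finset.sum_eq_zero fun w _ => ?_
  rw [map_smul, ← smul_add, IJ, smul_zero]

theorem JJ_self (g : V → V → K) (a : V) (f : Finset V → K) : J g a (J g a f) = 0 := by
  rw [J_apply g a (J g a f), J_apply g a f]
  have h1 : ∀ u ∈ Finset.univ.filter (fun u => u < a),
      g u a • Im K u (∑ w ∈ Finset.univ.filter (fun w => w < a), g w a • Im K w f) =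
      ∑ w ∈ Finset.univ.filter (fun w => w < a), (g u a * g w a) • Im K u (Im K w f) := by
    intro u _
    rw [map_sum, Finset.smul_sum]
    refine Finset.sum_congr rfl fun w _ => ?_
    rw [map_smul, smul_smul]
  rw [Finset.sum_congr rfl h1, ← Finset.sum_product']
  refine Finset.sum_involution (fun p _ => ⟨p.2, p.1⟩) ?_ ?_ ?_ ?_
  · rintro ⟨u, w⟩ _
    dsimp only
    rw [mul_comm (g w a), ← smul_add]
    by_cases h : u = w
    · subst h
      rw [II_self, add_zero, smul_zero]
    · rw [II u w h, smul_zero]
  · rintro ⟨u, w⟩ _ h0 h'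
    have h2 : w = u := congrArg Prod.fst h'
    subst h2
    apply h0
    rw [II_self, smul_zero]
  · rintro ⟨u, w⟩ h
    rw [Finset.mem_product] at h ⊢
    exact ⟨h.2, h.1⟩
  · rintro ⟨u, w⟩ _
    rfl

theorem EJ (g : V → V → K) (a b : V) (f : Finset V → K) :
    Em K a (J g b f) + J g b (Em K a f) = if a < b then g a b • f else 0 := by
  rw [J_apply, J_apply, map_sum, ← Finset.sum_add_distrib]
  have h1 : ∀ w ∈ Finset.univ.filter (fun w => w < b),
      Em K a (g w b • Im K w f) + g w b • Im K w (Em K a f) = if w = a then g w b • f else 0 := by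
    intro w _
    rw [map_smul, ← smul_add, add_comm]
    by_cases h : w = a
    · subst h
      rw [IE_self, if_pos rfl]
    · rw [IE w a h, smul_zero, if_neg h]
  rw [Finset.sum_congr rfl h1, Finset.sum_ite_eq']
  simp

theorem Pm_eq (g : V → V → K) (v : V) : (Pm K g v).mulVecLin = Em K v + J g v := by
  refine LinearMap.ext fun f => ?_
  funext A
  rw [Matrix.mulVecLin_apply, LinearMap.add_apply, Pi.add_apply, J_apply, Finset.sum_apply]
  unfold Matrix.mulVec dotProduct Pm
  simp only [Matrix.of_apply, add_mul, Finset.sum_add_distrib]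
  congr 1
  · rw [Em_apply]
    by_cases h : v ∈ A
    · simp only [h, true_and, if_true, ite_mul, zero_mul]
      rw [Finset.sum_ite_eq']
      simp [ep, eps]
    · simp [h]
  · simp only [Finset.sum_mul]
    rw [Finset.sum_comm]
    refine Finset.sum_congr rfl fun u _ => ?_
    rw [Pi.smul_apply, smul_eq_mul, Im_apply]
    by_cases h : u ∈ A
    · simp [h]
    · simp only [h, not_false_eq_true, true_and, if_false, mul_ite, ite_mul, mul_zero, zero_mul]
      rw [Finset.sum_ite_eq']
      simp [ep, eps, mul_assoc]

theorem Fm_eq (v : V) : (Fm K v).mulVecLin = Im K v := by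
  refine LinearMap.ext fun f => ?_
  funext A
  rw [Matrix.mulVecLin_apply]
  unfold Matrix.mulVec dotProduct Fm
  simp only [Matrix.of_apply]
  rw [Im_apply]
  by_cases h : v ∈ A
  · simp [h]
  · simp only [h, not_false_eq_true, true_and, if_false, ite_mul, zero_mul]
    rw [Finset.sum_ite_eq']
    simp [ep, eps]

end FockAux

open FockAux in
theorem fock_rel (g : V → V → K) (hg : ∀ a b, g a b = g b a) (X : Finset V) :
    Rel g X (fun v => (Pm K g v).mulVecLin) (fun v => (Fm K v).mulVecLin) := by
  simp only [Pm_eq, Fm_eq]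
  refine ⟨?_, ?_, ?_, ?_, ?_, ?_⟩
  · intro v _ x
    simp only [LinearMap.add_apply, map_add]
    have h1 := EJ g v v x
    rw [if_neg (lt_irrefl v)] at h1
    rw [EE_self, JJ_self, zero_add, add_zero, add_comm]
    exact h1
  · intro u _ v _ huv x
    simp only [LinearMap.add_apply, map_add]
    have h1 := EE (K := K) u v huv x
    have h2 := EJ g u v x
    have h3 := EJ g v u x
    have h4 := JJ g u v x
    have h5 : (Em K u (Em K v x) + J g u (Em K v x) + (Em K u (J g v x) + J g u (J g v x))) +
        (Em K v (Em K u x) + J g v (Em K u x) + (Em K v (J g u x) + J g v (J g u x))) =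
        (Em K u (Em K v x) + Em K v (Em K u x)) + (Em K u (J g v x) + J g v (Em K u x)) +
        (Em K v (J g u x) + J g u (Em K v x)) + (J g u (J g v x) + J g v (J g u x)) := by abel
    rw [h5, h1, h2, h3, h4]
    rcases lt_or_gt_of_ne huv with h | h
    · rw [if_pos h, if_neg (not_lt_of_gt h)]; simp
    · rw [if_neg (not_lt_of_gt h), if_pos h, hg v u]; simp
  · intro v _ x
    simp only [LinearMap.add_apply, map_add]
    have h1 := IE_self (K := K) v x
    have h2 := IJ g v v x
    have h5 : (Im K v (Em K v x) + Im K v (J g v x)) + (Em K v (Im K v x) + J g v (Im K v x)) =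
        (Im K v (Em K v x) + Em K v (Im K v x)) + (Im K v (J g v x) + J g v (Im K v x)) := by abel
    rw [h5, h1, h2, add_zero]
  · intro u _ v _ huv x
    simp only [LinearMap.add_apply, map_add]
    have h1 := IE (K := K) u v huv x
    have h2 := IJ g u v x
    have h5 : (Im K u (Em K v x) + Im K u (J g v x)) + (Em K v (Im K u x) + J g v (Im K u x)) =
        (Im K u (Em K v x) + Em K v (Im K u x)) + (Im K u (J g v x) + J g v (Im K u x)) := by abel
    rw [h5, h1, h2, add_zero]
  · intro v _ x
    exact II_self v x
  · intro u _ v _ huv x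
    exact II u v huv x

end Pool.Agent.MP19e880.W1
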