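import Mathlib

/-!
Rank of a specialised polynomial matrix (module RKSP).
-/

set_option autoImplicit false

namespace Pool.Agent.MP19e880.W1

namespace RkspAux

open Matrix

theorem exists_rows {m n : Type} [Fintype m] [Fintype n] {L : Type} [Field L]
    (A : Matrix m n L) : ∃ a : Fin A.rank → m, LinearIndependent L (A.submatrix a id).row := by
  obtain ⟨κ, a, ha, hsp, hli⟩ := exists_linearIndependent' L A.row
  have : Finite κ := Finite.of_injective a ha
  have : Fintype κ := Fintype.ofFinite κ
  have h1 : Fintype.card κ = A.rank := by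
    rw [A.rank_eq_finrank_span_row, ← hsp]
    exact linearIndependent_iff_card_eq_finrank_span.mp hli
  let e : Fin A.rank ≃ κ := (Fintype.equivFinOfCardEq h1).symm
  refine ⟨a ∘ e, ?_⟩
  exact hli.comp e e.injective

theorem exists_minor {m n : Type} [Fintype m] [Fintype n] {L : Type} [Field L]
    (A : Matrix m n L) : ∃ (a : Fin A.rank → m) (b : Fin A.rank → n),
      (A.submatrix a b).det ≠ 0 := by
  obtain ⟨a, ha⟩ := exists_rows A
  set A1 : Matrix (Fin A.rank) n L := A.submatrix a id with hA1
  have h1 : A1.rank = A.rank := by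
    rw [ha.rank_matrix, Fintype.card_fin]
  obtain ⟨b, hb⟩ := exists_rows A1ᵀ
  have h2 : A1ᵀ.rank = A.rank := by rw [rank_transpose, h1]
  let e : Fin A.rank ≃ Fin A1ᵀ.rank := finCongr h2.symm
  refine ⟨a, b ∘ e, ?_⟩
  have h3 : LinearIndependent L ((A.submatrix a (b ∘ e))ᵀ).row := by
    have h4 := hb.comp e e.injective
    exact h4
  have h4 : IsUnit (A.submatrix a (b ∘ e))ᵀ := linearIndependent_rows_iff_isUnit.mp h3
  have h5 := ((isUnit_iff_isUnit_det _).mp h4).ne_zero
  rwa [det_transpose] at h5

end RkspAux

theorem rank_sp {s m n : Type} [Fintype m] [Fintype n] [DecidableEq m] [DecidableEq n]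
    (k L : Type) [Field k] [Field L] (f : MvPolynomial s k →+* L)
    (B : Matrix m n (MvPolynomial s k)) :
    (B.map f).rank ≤
      (B.map (algebraMap (MvPolynomial s k) (FractionRing (MvPolynomial s k)))).rank := by
  obtain ⟨a, b, hab⟩ := RkspAux.exists_minor (B.map f)
  have h1 : ((B.map f).submatrix a b) = (B.submatrix a b).map f := rfl
  rw [h1, ← RingHom.mapMatrix_apply, ← RingHom.map_det] at hab
  have h2 : (B.submatrix a b).det ≠ 0 := by
    intro h
    rw [h, map_zero] at hab
    exact hab rfl
  have h3 : ((B.map (algebraMap (MvPolynomial s k)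
      (FractionRing (MvPolynomial s k)))).submatrix a b).det ≠ 0 := by
    have h4 : ((B.map (algebraMap (MvPolynomial s k)
        (FractionRing (MvPolynomial s k)))).submatrix a b) = (B.submatrix a b).map
          (algebraMap (MvPolynomial s k) (FractionRing (MvPolynomial s k))) := rfl
    rw [h4, ← RingHom.mapMatrix_apply, ← RingHom.map_det]
    exact (map_ne_zero_iff _ (IsFractionRing.injective _ _)).mpr h2
  have h5 := Matrix.rank_of_det_ne_zero h3
  have h6 := Matrix.rank_submatrix_le (B.map (algebraMap (MvPolynomial s k)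
      (FractionRing (MvPolynomial s k)))) a b
  rw [h5, Fintype.card_fin] at h6
  exact h6

end Pool.Agent.MP19e880.W1
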