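import Pool.Agent.Lib.MP_19e880_co_W1.Kosz

/-!
From the Fock space to all modules: exactness of the Clifford complex with coefficients in the
Fock space implies exactness for all modules over the Clifford algebra.
-/

set_option autoImplicit false
set_option linter.unusedSectionVars false

namespace Pool.Agent.MP19e880.W1

variable {V : Type} [Fintype V] [LinearOrder V] {K : Type} [Field K]
  {M : Type} [AddCommGroup M] [Module K M]

namespace UnivAux

theorem pr_zero' (ψ : V → M →ₗ[K] M) (F : Finset V) : pr ψ F (0 : M) = 0 := by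
  have h := pr_smul ψ F (0 : K) (0 : M)
  rwa [zero_smul, zero_smul] at h

theorem pr_sum {ι : Type} (ψ : V → M →ₗ[K] M) (F : Finset V) (s : Finset ι) (f : ι → M) :
    pr ψ F (∑ i ∈ s, f i) = ∑ i ∈ s, pr ψ F (f i) := by
  classical
  induction s using Finset.induction_on with
  | empty => simp [pr_zero']
  | insert a s ha ih => rw [Finset.sum_insert ha, Finset.sum_insert ha, pr_add, ih]

/-- `pr` as a linear map. -/
noncomputable def prL (ψ : V → M →ₗ[K] M) (F : Finset V) : M →ₗ[K] M where
  toFun := pr ψ F
  map_add' := pr_add ψ F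
  map_smul' := pr_smul ψ F

/-- The coefficient maps. -/
theorem coef {g : V → V → K} {X : Finset V} {ψ φ : V → M →ₗ[K] M} (h : Rel g X ψ φ) :
    ∀ Y : Finset V, Y ⊆ X → ∃ c : Finset V → (M →ₗ[K] M),
      (∀ m, ∑ S ∈ Y.powerset, pr ψ S (c S m) = m) ∧
      (∀ S ∈ Y.powerset, ∀ m, ∀ v ∈ Y, φ v (c S m) = 0) ∧
      (∀ S ∈ Y.powerset, ∀ T ∈ Y.powerset, ∀ n, (∀ v ∈ Y, φ v n = 0) →
        c S (pr ψ T n) = if S = T then n else 0) := by
  intro Y
  induction Y using Finset.induction_on_max with
  | empty =>
    intro _
    refine ⟨fun _ => LinearMap.id, ?_, ?_, ?_⟩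
    · intro m
      simp [pr_empty]
    · intro S _ m v hv
      simp at hv
    · intro S hS T hT n _
      simp only [Finset.powerset_empty, Finset.mem_singleton] at hS hT
      subst hS hT
      simp [pr_empty]
  | insert b Y hb ih =>
    intro hYX
    have hbX : b ∈ X := hYX (Finset.mem_insert_self _ _)
    have hYX' : Y ⊆ X := fun y hy => hYX (Finset.mem_insert_of_mem hy)
    have hbY : b ∉ Y := fun hh => lt_irrefl _ (hb b hh)
    obtain ⟨c, h1, h2, h3⟩ := ih hYX'
    have hbS : ∀ S ∈ Y.powerset, b ∉ S := fun S hS hh => hbY (Finset.mem_powerset.mp hS hh)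
    have hmax : ∀ S ∈ Y.powerset, ∀ m, pr ψ (insert b S) m = pr ψ S (ψ b m) := by
      intro S hS m
      exact pr_max ψ S b (fun a ha => hb a (Finset.mem_powerset.mp hS ha)) m
    have hvb : ∀ v ∈ Y, v ≠ b := fun v hv hh => hbY (hh ▸ hv)
    refine ⟨fun S => if b ∈ S then (φ b).comp (c (S.erase b))
      else (φ b).comp ((ψ b).comp (c S)), ?_, ?_, ?_⟩
    · intro m
      rw [Finset.sum_powerset_insert hbY, ← Finset.sum_add_distrib]
      conv_rhs => rw [← h1 m]
      refine Finset.sum_congr rfl fun S hS => ?_
      have hS' := hbS S hS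
      simp only [if_neg hS', if_pos (Finset.mem_insert_self b S), Finset.erase_insert hS',
        LinearMap.comp_apply, hmax S hS]
      rw [← pr_add]
      congr 1
      exact h.one b hbX _
    · intro S hS m v hv
      have key : ∀ S' ∈ Y.powerset, φ v (φ b (c S' m)) = 0 ∧ φ v (φ b (ψ b (c S' m))) = 0 := by
        intro S' hS'
        rcases eq_or_ne v b with hvb' | hvb'
        · subst hvb'
          exact ⟨h.psq _ hbX _, h.psq _ hbX _⟩
        · have hvY : v ∈ Y := Finset.mem_of_mem_insert_of_ne hv hvb'
          have h0 : φ v (c S' m) = 0 := h2 S' hS' m v hvY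
          constructor
          · have := h.pac v (hYX' hvY) b hbX hvb' (c S' m)
            rw [h0, map_zero, add_zero] at this
            exact this
          · have e1 := h.pac v (hYX' hvY) b hbX hvb' (ψ b (c S' m))
            have e2 := h.zer v (hYX' hvY) b hbX hvb' (c S' m)
            rw [h0, map_zero, add_zero] at e2
            rw [e2, map_zero, add_zero] at e1
            exact e1
      by_cases hbS' : b ∈ S
      · have hS' : S.erase b ∈ Y.powerset := by
          rw [Finset.mem_powerset] at hS ⊢
          intro x hx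
          exact Finset.mem_of_mem_insert_of_ne (hS (Finset.mem_of_mem_erase hx))
            (Finset.ne_of_mem_erase hx)
        simp only [if_pos hbS', LinearMap.comp_apply]
        exact (key _ hS').1
      · have hS' : S ∈ Y.powerset := by
          rw [Finset.mem_powerset] at hS ⊢
          intro x hx
          exact Finset.mem_of_mem_insert_of_ne (hS hx) (fun hh => hbS' (hh ▸ hx))
        simp only [if_neg hbS', LinearMap.comp_apply]
        exact (key _ hS').2
    · intro S hS T hT n hn
      have hnY : ∀ v ∈ Y, φ v n = 0 := fun v hv => hn v (Finset.mem_insert_of_mem hv)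
      have hbn : φ b n = 0 := hn b (Finset.mem_insert_self _ _)
      have hpn : ∀ v ∈ Y, φ v (ψ b n) = 0 := by
        intro v hv
        have := h.zer v (hYX' hv) b hbX (hvb v hv) n
        rwa [hnY v hv, map_zero, add_zero] at this
      have hphi : φ b (ψ b n) = n := by
        have := h.one b hbX n
        rwa [hbn, map_zero, add_zero] at this
      rw [Finset.powerset_insert, Finset.mem_union, Finset.mem_image] at hS hT
      rcases hS with hS | ⟨S', hS, rfl⟩
      · have hbS1 := hbS S hS
        simp only [if_neg hbS1, LinearMap.comp_apply]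
        rcases hT with hT | ⟨T', hT, rfl⟩
        · rw [h3 S hS T hT n hnY]
          by_cases hST : S = T
          · simp only [if_pos hST, hphi]
          · simp only [if_neg hST, map_zero]
        · have hne : S ≠ insert b T' := fun hh => hbS1 (hh ▸ Finset.mem_insert_self _ _)
          rw [if_neg hne, hmax T' hT, h3 S hS T' hT _ hpn]
          by_cases hST : S = T'
          · rw [if_pos hST, h.sq b hbX, map_zero]
          · rw [if_neg hST, map_zero, map_zero]
      · have hbS1 := hbS S' hS
        simp only [if_pos (Finset.mem_insert_self b S'), Finset.erase_insert hbS1,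
          LinearMap.comp_apply]
        rcases hT with hT | ⟨T', hT, rfl⟩
        · have hne : insert b S' ≠ T := fun hh => hbS T hT (hh ▸ Finset.mem_insert_self _ _)
          rw [if_neg hne, h3 S' hS T hT n hnY]
          by_cases hST : S' = T
          · rw [if_pos hST, hbn]
          · rw [if_neg hST, map_zero]
        · rw [hmax T' hT, h3 S' hS T' hT _ hpn]
          by_cases hST : S' = T'
          · rw [if_pos hST, if_pos (by rw [hST]), hphi]
          · have hne : insert b S' ≠ insert b T' := by
              intro hh
              apply hST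
              rw [← Finset.erase_insert hbS1, hh, Finset.erase_insert (hbS T' hT)]
            rw [if_neg hST, if_neg hne, map_zero]

/-- How `ψ v` moves through an ordered product. -/
theorem psi_pr {g : V → V → K} (hg : ∀ a b, g a b = g b a) {X : Finset V}
    {ψ φ : V → M →ₗ[K] M} (h : Rel g X ψ φ) {v : V} (hv : v ∈ X) (m : M) :
    ∀ S : Finset V, S ⊆ X → ψ v (pr ψ S m) =
      (if v ∉ S then eps K v S • pr ψ (insert v S) m else 0) +
        ∑ u ∈ S.filter (fun u => u < v), (g u v * eps K u (S.erase u)) • pr ψ (S.erase u) m := by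
  intro S
  induction S using Finset.induction_on_min with
  | empty =>
    intro _
    have h1 := pr_min ψ (∅ : Finset V) v (fun b hb => absurd hb (Finset.notMem_empty b)) m
    have he : eps K v (∅ : Finset V) = 1 := by simp [eps]
    rw [if_pos (Finset.notMem_empty v), Finset.filter_empty, Finset.sum_empty, add_zero, h1, he,
      one_smul]
  | insert a S ha ih =>
    intro hSX
    have haX : a ∈ X := hSX (Finset.mem_insert_self _ _)
    have hSX' : S ⊆ X := fun y hy => hSX (Finset.mem_insert_of_mem hy)
    have haS : a ∉ S := fun hh => lt_irrefl _ (ha a hh)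
    have hpa : pr ψ (insert a S) m = ψ a (pr ψ S m) := pr_min ψ S a ha m
    rcases lt_trichotomy v a with hva | hva | hva
    · have hvS : ∀ b ∈ insert a S, v < b := by
        intro b hb
        rcases Finset.mem_insert.mp hb with hb | hb
        · exact hb ▸ hva
        · exact hva.trans (ha b hb)
      have hvS' : v ∉ insert a S := fun hh => lt_irrefl _ (hvS v hh)
      have hf : (insert a S).filter (fun u => u < v) = ∅ := by
        rw [Finset.filter_eq_empty_iff]
        intro x hx
        exact not_lt.mpr (hvS x hx).le
      rw [if_pos hvS', hf, Finset.sum_empty, add_zero, pr_min ψ (insert a S) v hvS m]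
      have he : eps K v (insert a S) = 1 := by
        unfold eps
        rw [hf]
        simp
      rw [he, one_smul]
    · subst hva
      have hf : (insert v S).filter (fun u => u < v) = ∅ := by
        rw [Finset.filter_eq_empty_iff]
        intro x hx
        rcases Finset.mem_insert.mp hx with hx | hx
        · exact hx ▸ lt_irrefl _
        · exact not_lt.mpr (ha x hx).le
      rw [if_neg (by simp), hf, Finset.sum_empty, add_zero, hpa, h.sq v hv]
    · have hav : a ≠ v := hva.ne
      have hac := h.ac v hv a haX hav.symm (pr ψ S m)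
      have h1 : ψ v (ψ a (pr ψ S m)) = g v a • pr ψ S m - ψ a (ψ v (pr ψ S m)) := by
        rw [← hac]; abel
      rw [hpa, h1, ih hSX', map_add, map_sum]
      have hf : (insert a S).filter (fun u => u < v)
          = insert a (S.filter (fun u => u < v)) := by
        rw [Finset.filter_insert, if_pos hva]
      rw [hf, Finset.sum_insert (by simp [haS])]
      have he1 : eps K a S = 1 := by
        unfold eps
        have : S.filter (fun w => w < a) = ∅ := by
          rw [Finset.filter_eq_empty_iff]
          intro x hx
          exact not_lt.mpr (ha x hx).le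
        rw [this]
        simp
      rw [Finset.erase_insert haS, he1, mul_one, hg a v]
      have hsum : ∑ u ∈ S.filter (fun u => u < v), ψ a ((g u v * eps K u (S.erase u)) •
            pr ψ (S.erase u) m)
          = - ∑ u ∈ S.filter (fun u => u < v), (g u v * eps K u ((insert a S).erase u)) •
            pr ψ ((insert a S).erase u) m := by
        rw [← Finset.sum_neg_distrib]
        refine Finset.sum_congr rfl fun u hu => ?_
        rw [Finset.mem_filter] at hu
        have hau : a ≠ u := fun hh => haS (hh ▸ hu.1)
        have haS' : a ∉ S.erase u := fun hh => haS (Finset.mem_of_mem_erase hh)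
        rw [Finset.erase_insert_of_ne hau, map_smul, eps_insert u a _ haS',
          if_pos (ha u hu.1), pr_min ψ (S.erase u) a
            (fun b hb => ha b (Finset.mem_of_mem_erase hb)) m, mul_neg, neg_smul, neg_neg]
      have hfirst : ψ a (if v ∉ S then eps K v S • pr ψ (insert v S) m else 0)
          = - (if v ∉ insert a S then eps K v (insert a S) • pr ψ (insert v (insert a S)) m
              else 0) := by
        by_cases hvS : v ∈ S
        · rw [if_neg (not_not.mpr hvS), if_neg (not_not.mpr (Finset.mem_insert_of_mem hvS)),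
            map_zero, neg_zero]
        · have hvS' : v ∉ insert a S := by
            rw [Finset.mem_insert, not_or]
            exact ⟨hav.symm, hvS⟩
          have hmin : ∀ b ∈ insert v S, a < b := by
            intro b hb
            rcases Finset.mem_insert.mp hb with hb | hb
            · exact hb ▸ hva
            · exact ha b hb
          rw [if_pos hvS, if_pos hvS', map_smul, Finset.insert_comm v a S,
            pr_min ψ (insert v S) a hmin m, eps_insert v a S haS, if_pos hva, neg_smul, neg_neg]
      rw [hsum, hfirst]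
      abel

theorem ep_eq (v : V) (A : Finset V) : ep K v A = eps K v A := rfl

theorem Pm_apply (g : V → V → K) (v : V) (A B : Finset V) :
    Pm K g v A B = (if v ∈ A ∧ B = A.erase v then ep K v B else 0) +
    ∑ u ∈ Finset.univ.filter (fun u => u < v),
      g u v * (if u ∉ A ∧ B = insert u A then ep K u A else 0) := rfl

theorem Pm_sub_right {g : V → V → K} {X : Finset V} (hgX : ∀ a b, a ∉ X → g a b = 0) (v : V)
    {T S : Finset V} (hT : T ⊆ X) (hS : ¬ S ⊆ X) : Pm K g v T S = 0 := by
  rw [Pm_apply, if_neg, zero_add]
  · refine Finset.sum_eq_zero fun u _ => ?_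
    by_cases hu : u ∈ X
    · rw [if_neg, mul_zero]
      rintro ⟨_, rfl⟩
      exact hS (Finset.insert_subset hu hT)
    · rw [hgX u v hu, zero_mul]
  · rintro ⟨_, rfl⟩
    exact hS ((Finset.erase_subset _ _).trans hT)

theorem Pm_sub_left {g : V → V → K} {X : Finset V} {v : V} (hv : v ∈ X)
    {T S : Finset V} (hT : ¬ T ⊆ X) (hS : S ⊆ X) : Pm K g v T S = 0 := by
  rw [Pm_apply, if_neg, zero_add]
  · refine Finset.sum_eq_zero fun u _ => ?_
    rw [if_neg, mul_zero]
    rintro ⟨_, rfl⟩
    exact hT ((Finset.subset_insert _ _).trans hS)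
  · rintro ⟨hvT, rfl⟩
    apply hT
    rw [← Finset.insert_erase hvT]
    exact Finset.insert_subset hv hS

/-- The matrix form of `psi_pr`. -/
theorem psi_pr' {g : V → V → K} (hg : ∀ a b, g a b = g b a) {X : Finset V}
    {ψ φ : V → M →ₗ[K] M} (h : Rel g X ψ φ) {v : V} (hv : v ∈ X) (m : M) {S : Finset V}
    (hS : S ⊆ X) : ψ v (pr ψ S m) = ∑ T ∈ X.powerset, Pm K g v T S • pr ψ T m := by
  rw [psi_pr hg h hv m S hS]
  simp only [Pm_apply, add_smul, Finset.sum_smul, Finset.sum_add_distrib]
  congr 1
  · by_cases hvS : v ∈ S
    · rw [if_neg (not_not.mpr hvS), Finset.sum_eq_zero]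
      intro T _
      rw [if_neg, zero_smul]
      rintro ⟨_, rfl⟩
      simp at hvS
    · rw [if_pos hvS, Finset.sum_eq_single (insert v S)]
      · rw [if_pos ⟨Finset.mem_insert_self _ _, (Finset.erase_insert hvS).symm⟩, ep_eq]
      · intro T _ hT
        rw [if_neg, zero_smul]
        rintro ⟨hvT, hST⟩
        exact hT (by rw [hST, Finset.insert_erase hvT])
      · intro hT
        exact absurd (Finset.mem_powerset.mpr (Finset.insert_subset hv hS)) hT
  · rw [Finset.sum_comm]
    have h1 : S.filter (fun u => u < v)
        = (Finset.univ.filter (fun u => u < v)).filter (fun u => u ∈ S) := by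
      ext x
      simp [and_comm]
    rw [h1, Finset.sum_filter]
    refine Finset.sum_congr rfl fun u _ => ?_
    by_cases huS : u ∈ S
    · rw [if_pos huS, Finset.sum_eq_single (S.erase u)]
      · rw [if_pos ⟨Finset.notMem_erase _ _, (Finset.insert_erase huS).symm⟩, ep_eq]
      · intro T _ hT
        rw [if_neg, mul_zero, zero_smul]
        rintro ⟨huT, hST⟩
        exact hT (by rw [hST, Finset.erase_insert huT])
      · intro hT
        exact absurd (Finset.mem_powerset.mpr ((Finset.erase_subset _ _).trans hS)) hT
    · rw [if_neg huS, Finset.sum_eq_zero]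
      intro T _
      rw [if_neg, mul_zero, zero_smul]
      rintro ⟨_, rfl⟩
      simp at huS

/-- Transfer of exactness along families of maps which commute with the operators. -/
theorem transfer {L ι : Type} [AddCommGroup L] [Module K L] {P : Finset V → Prop}
    {X : Finset V} (hPX : ∀ F, P F → F ⊆ X) {ψ : V → M →ₗ[K] M} {θ : V → L →ₗ[K] L}
    (E : ι → M →ₗ[K] L) (Q : ι → L →ₗ[K] M) (hE : ∀ i, ∀ v ∈ X, ∀ m, E i (ψ v m) = θ v (E i m))
    (hQ : ∀ i, ∀ v ∈ X, ∀ f, ψ v (Q i f) = Q i (θ v f)) {j : ℕ} (hex : ExAt P θ j)
    (I : (Finset V → M) → Finset ι)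
    (hI : ∀ x : Finset V → M, ∀ F, ∑ i ∈ I x, Q i (E i (x F)) = x F) : ExAt P ψ j := by
  intro x hx hdx
  have hco : ∀ i, Co P θ j (fun F => E i (x F)) := by
    intro i F hF
    have hxF : x F ≠ 0 := fun hh => hF (by simp [hh])
    obtain ⟨h1, h2, h3⟩ := hx F hxF
    refine ⟨h1, h2, fun v hv => ?_⟩
    rw [← hE i v (hPX F h1 hv), h3 v hv, map_zero]
  have hd : ∀ i, dl P θ (fun F => E i (x F)) = 0 := by
    intro i
    funext G
    by_cases hG : P G
    · rw [dl_pos hG, Pi.zero_apply]
      have h1 := congrFun hdx G
      rw [dl_pos hG, Pi.zero_apply] at h1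
      have h2 := congrArg (E i) h1
      rw [map_sum, map_zero] at h2
      rw [← h2]
      refine Finset.sum_congr rfl fun v hv => ?_
      rw [hE i v (hPX G hG hv)]
    · rw [dl_neg hG, Pi.zero_apply]
  choose y hy1 hy2 using fun i => hex _ (hco i) (hd i)
  refine ⟨fun F => ∑ i ∈ I x, Q i (y i F), ?_, ?_⟩
  · intro F hF
    obtain ⟨i, hi, hne⟩ := Finset.exists_ne_zero_of_sum_ne_zero hF
    have hyi : y i F ≠ 0 := fun hh => hne (by rw [hh, map_zero])
    refine ⟨(hy1 i F hyi).1, (hy1 i F hyi).2.1, fun v hv => ?_⟩
    rw [map_sum]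
    refine Finset.sum_eq_zero fun k _ => ?_
    rw [hQ k v (hPX F (hy1 i F hyi).1 hv)]
    by_cases hk : y k F = 0
    · rw [hk, map_zero, map_zero]
    · rw [(hy1 k F hk).2.2 v hv, map_zero]
  · funext G
    by_cases hG : P G
    · rw [dl_pos hG, ← hI x G]
      simp only [map_sum]
      rw [Finset.sum_comm]
      refine Finset.sum_congr rfl fun i _ => ?_
      have h1 := congrFun (hy2 i) G
      rw [dl_pos hG] at h1
      rw [← h1, map_sum]
      refine Finset.sum_congr rfl fun v hv => ?_
      rw [hQ i v (hPX G hG hv)]
    · rw [dl_neg hG]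
      by_contra hne
      exact hG (hx G (Ne.symm hne)).1

end UnivAux

open UnivAux in
/-- exactness of the Fock space implies exactness for all modules -/
theorem univ_ex (g : V → V → K) (hg : ∀ a b, g a b = g b a) (A : V → V → Prop) (X : Finset V)
    (hgX : ∀ a b, a ∉ X → g a b = 0) (n : ℕ)
    (h : ∀ j, j < n → ExAt (Cl A X) (fun v => (Pm K g v).mulVecLin) j) : VV g A X n := by
  classical
  intro N _ _ ψ φ hR j hj
  obtain ⟨c, h1, h2, h3⟩ := coef hR X subset_rfl
  -- the vacuum vectors
  let N0 : Submodule K N := ⨅ v ∈ X, LinearMap.ker (φ v)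
  have hN0 : ∀ m, m ∈ N0 ↔ ∀ v ∈ X, φ v m = 0 := by
    intro m
    simp [N0, Submodule.mem_iInf]
  have hc0 : ∀ S ∈ X.powerset, ∀ m, c S m ∈ N0 := fun S hS m => (hN0 _).mpr (h2 S hS m)
  let B := Module.Basis.ofVectorSpace K N0
  -- the coordinates
  let cc : (S : Finset V) → N →ₗ[K] N0 := fun S =>
    if hS : S ∈ X.powerset then LinearMap.codRestrict N0 (c S) (hc0 S hS) else 0
  have hcc : ∀ S (hS : S ∈ X.powerset) m, ((cc S m : N0) : N) = c S m := by
    intro S hS m
    simp only [cc, dif_pos hS]
    rfl
  have hcc' : ∀ S, S ∉ X.powerset → ∀ m, cc S m = 0 := by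
    intro S hS m
    simp only [cc, dif_neg hS]
    rfl
  have hint : ∀ v ∈ X, ∀ S m, cc S (ψ v m) = ∑ T, Pm K g v S T • cc T m := by
    intro v hv S m
    by_cases hS : S ∈ X.powerset
    · apply Subtype.ext
      rw [hcc S hS, Submodule.coe_sum]
      have e1 : ψ v m = ∑ S' ∈ X.powerset, ∑ T ∈ X.powerset,
          Pm K g v T S' • pr ψ T (c S' m) := by
        conv_lhs => rw [← h1 m]
        rw [map_sum]
        refine Finset.sum_congr rfl fun S' hS' => ?_
        exact psi_pr' hg hR hv _ (Finset.mem_powerset.mp hS')
      rw [e1, map_sum, ← Finset.sum_subset (Finset.subset_univ X.powerset)]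
      · refine Finset.sum_congr rfl fun S' hS' => ?_
        rw [map_sum, Finset.sum_eq_single S]
        · rw [map_smul, h3 S hS S hS _ (h2 S' hS' m), if_pos rfl, Submodule.coe_smul,
            hcc S' hS']
        · intro T hT hTS
          rw [map_smul, h3 S hS T hT _ (h2 S' hS' m), if_neg (Ne.symm hTS), smul_zero]
        · intro hh
          exact absurd hS hh
      · intro T _ hT
        rw [hcc' T hT, smul_zero]
        rfl
    · rw [hcc' S hS, Finset.sum_eq_zero]
      intro T _
      by_cases hT : T ∈ X.powerset
      · rw [Pm_sub_left hv (fun hh => hS (Finset.mem_powerset.mpr hh))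
          (Finset.mem_powerset.mp hT), zero_smul]
      · rw [hcc' T hT, smul_zero]
  refine transfer (X := X) (fun F hF => hF.1)
    (fun i => LinearMap.pi fun S => (B.coord i).comp (cc S))
    (fun i => ∑ S ∈ X.powerset, (LinearMap.toSpanSingleton K N (pr ψ S (B i : N))).comp
      (LinearMap.proj S)) ?_ ?_ (h j hj)
    (fun x => Finset.univ.biUnion fun F : Finset V => Finset.univ.biUnion fun S : Finset V =>
      (B.repr (cc S (x F))).support) ?_
  · intro i v hv m
    funext S
    simp only [LinearMap.pi_apply, LinearMap.comp_apply, Matrix.mulVecLin_apply, Matrix.mulVec,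
      dotProduct]
    rw [hint v hv S m, map_sum]
    refine Finset.sum_congr rfl fun T _ => ?_
    rw [map_smul, smul_eq_mul]
  · intro i v hv f
    simp only [LinearMap.sum_apply, LinearMap.comp_apply, LinearMap.proj_apply,
      LinearMap.toSpanSingleton_apply, map_sum, map_smul, Matrix.mulVecLin_apply,
      Matrix.mulVec, dotProduct]
    have e1 : ∀ S ∈ X.powerset, f S • ψ v (pr ψ S (B i : N))
        = ∑ T ∈ X.powerset, (Pm K g v T S * f S) • pr ψ T (B i : N) := by
      intro S hS
      rw [psi_pr' hg hR hv _ (Finset.mem_powerset.mp hS), Finset.smul_sum]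
      refine Finset.sum_congr rfl fun T _ => ?_
      rw [smul_smul, mul_comm]
    rw [Finset.sum_congr rfl e1, Finset.sum_comm]
    refine Finset.sum_congr rfl fun T hT => ?_
    have e3 : ∑ S ∈ X.powerset, Pm K g v T S * f S = ∑ S, Pm K g v T S * f S := by
      refine Finset.sum_subset (Finset.subset_univ X.powerset) fun S _ hS => ?_
      rw [Pm_sub_right hgX v (Finset.mem_powerset.mp hT)
        (fun hh => hS (Finset.mem_powerset.mpr hh)), zero_mul]
    rw [← Finset.sum_smul, e3, Finset.sum_smul]
  · intro x F
    simp only [LinearMap.sum_apply, LinearMap.comp_apply, LinearMap.proj_apply,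
      LinearMap.toSpanSingleton_apply, LinearMap.pi_apply, Module.Basis.coord_apply]
    rw [Finset.sum_comm]
    conv_rhs => rw [← h1 (x F)]
    refine Finset.sum_congr rfl fun S hS => ?_
    have hsub : (B.repr (cc S (x F))).support ⊆ Finset.univ.biUnion fun F : Finset V =>
        Finset.univ.biUnion fun S : Finset V => (B.repr (cc S (x F))).support := by
      intro i hi
      rw [Finset.mem_biUnion]
      refine ⟨F, Finset.mem_univ _, ?_⟩
      rw [Finset.mem_biUnion]
      exact ⟨S, Finset.mem_univ _, hi⟩
    have e2 : ∑ i ∈ Finset.univ.biUnion (fun F : Finset V => Finset.univ.biUnion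
        fun S : Finset V => (B.repr (cc S (x F))).support), (B.repr (cc S (x F))) i • (B i : N)
          = c S (x F) := by
      rw [← hcc S hS]
      have e3 := B.linearCombination_repr (cc S (x F))
      rw [Finsupp.linearCombination_apply, Finsupp.sum_of_support_subset _ hsub
        (fun i a => a • B i) (fun i _ => zero_smul K _)] at e3
      conv_rhs => rw [← e3]
      rw [Submodule.coe_sum]
      rfl
    rw [← e2, pr_sum]
    refine Finset.sum_congr rfl fun i _ => ?_
    rw [pr_smul]

end Pool.Agent.MP19e880.W1
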