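import Pool.Agent.Lib.MP_19e880_co_W1.Euler
import Pool.Agent.Lib.MP_19e880_co_W1.Fock
import Pool.Agent.Lib.MP_19e880_co_W1.RankSp
import Pool.Agent.Lib.MP_19e880_co_W1.Univ

/-!
Clifford complexes of flag complexes: semicontinuity (module SEMI).
-/

set_option autoImplicit false
set_option linter.unusedSectionVars false

namespace Pool.Agent.MP19e880.W1

variable {V : Type} [Fintype V] [LinearOrder V] {K : Type} [Field K]
  {M : Type} [AddCommGroup M] [Module K M]

namespace SemiAux

/-- index set of the equations -/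
abbrev Rows (V : Type) : Type :=
  (Finset V × Finset V) ⊕ (V × Finset V × Finset V) ⊕ (Finset V × Finset V)

theorem Pm_map {R S : Type} [CommRing R] [CommRing S] (f : R →+* S) (g : V → V → R) (v : V)
    (A B : Finset V) : f (Pm R g v A B) = Pm S (fun a b => f (g a b)) v A B := by
  unfold Pm ep
  simp only [Matrix.of_apply, map_add, map_sum, map_mul, apply_ite f, map_zero, map_pow, map_neg,
    map_one]

open Classical in
/-- the equations of the cocycles of degree `j` -/
noncomputable def LM (R : Type) [CommRing R] (A : V → V → Prop) (X : Finset V) (j : ℕ)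
    (g : V → V → R) : Matrix (Rows V) (Finset V × Finset V) R :=
  Matrix.of fun r c =>
    match r with
    | Sum.inl s => if s = c ∧ ¬ (Cl A X s.1 ∧ s.1.card = j) then 1 else 0
    | Sum.inr (Sum.inl t) => if t.1 ∈ t.2.1 ∧ c.1 = t.2.1 then Pm R g t.1 t.2.2 c.2 else 0
    | Sum.inr (Sum.inr u) =>
      if Cl A X u.1 then ∑ v ∈ u.1, (if c.1 = u.1.erase v then Pm R g v u.2 c.2 else 0) else 0

theorem LM_map {R S : Type} [CommRing R] [CommRing S] (f : R →+* S) (A : V → V → Prop)
    (X : Finset V) (j : ℕ) (g : V → V → R) :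
    (LM R A X j g).map f = LM S A X j (fun a b => f (g a b)) := by
  ext r c
  rw [Matrix.map_apply]
  rcases r with s | t | u
  · simp only [LM, Matrix.of_apply, apply_ite f, map_one, map_zero]
  · simp only [LM, Matrix.of_apply, apply_ite f, map_zero, Pm_map]
  · simp only [LM, Matrix.of_apply, apply_ite f, map_zero, map_sum, Pm_map]

theorem row1 (A : V → V → Prop) (X : Finset V) (j : ℕ) (g : V → V → K)
    (x : Finset V × Finset V → K) (s : Finset V × Finset V) (hs : ¬ (Cl A X s.1 ∧ s.1.card = j)) :
    (LM K A X j g).mulVec x (Sum.inl s) = x s := by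
  unfold Matrix.mulVec dotProduct
  simp only [LM, Matrix.of_apply, hs, not_false_eq_true, and_true, ite_mul, one_mul, zero_mul]
  rw [Finset.sum_ite_eq]
  simp

theorem row1' (A : V → V → Prop) (X : Finset V) (j : ℕ) (g : V → V → K)
    (x : Finset V × Finset V → K) (s : Finset V × Finset V) (hs : (Cl A X s.1 ∧ s.1.card = j)) :
    (LM K A X j g).mulVec x (Sum.inl s) = 0 := by
  unfold Matrix.mulVec dotProduct
  refine Finset.sum_eq_zero fun c _ => ?_
  simp only [LM, Matrix.of_apply]
  rw [if_neg (fun h => h.2 hs), zero_mul]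

theorem row2 (A : V → V → Prop) (X : Finset V) (j : ℕ) (g : V → V → K)
    (x : Finset V × Finset V → K) (v : V) (F B : Finset V) :
    (LM K A X j g).mulVec x (Sum.inr (Sum.inl (v, F, B))) =
      if v ∈ F then (Pm K g v).mulVec (fun B' => x (F, B')) B else 0 := by
  unfold Matrix.mulVec dotProduct
  rw [Fintype.sum_prod_type]
  by_cases hv : v ∈ F
  · simp only [LM, Matrix.of_apply, hv, true_and, if_true, ite_mul, zero_mul]
    rw [Finset.sum_comm]
    refine Finset.sum_congr rfl fun B' _ => ?_
    rw [Finset.sum_ite_eq']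
    simp
  · simp only [LM, Matrix.of_apply, hv, false_and, if_false, zero_mul, Finset.sum_const_zero]

theorem row3 (A : V → V → Prop) (X : Finset V) (j : ℕ) (g : V → V → K)
    (x : Finset V × Finset V → K) (G B : Finset V) (hG : Cl A X G) :
    (LM K A X j g).mulVec x (Sum.inr (Sum.inr (G, B))) =
      ∑ v ∈ G, (Pm K g v).mulVec (fun B' => x (G.erase v, B')) B := by
  unfold Matrix.mulVec dotProduct
  rw [Fintype.sum_prod_type]
  simp only [LM, Matrix.of_apply, hG, if_true, Finset.sum_mul]
  rw [Finset.sum_comm]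
  have h1 : ∀ B' : Finset V, ∑ F' : Finset V, ∑ v ∈ G,
      (if F' = G.erase v then Pm K g v B B' else 0) * x (F', B') =
      ∑ v ∈ G, Pm K g v B B' * x (G.erase v, B') := by
    intro B'
    rw [Finset.sum_comm]
    refine Finset.sum_congr rfl fun v _ => ?_
    simp only [ite_mul, zero_mul]
    rw [Finset.sum_ite_eq']
    simp
  rw [Finset.sum_congr rfl fun B' _ => h1 B', Finset.sum_comm]

theorem row3' (A : V → V → Prop) (X : Finset V) (j : ℕ) (g : V → V → K)
    (x : Finset V × Finset V → K) (G B : Finset V) (hG : ¬ Cl A X G) :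
    (LM K A X j g).mulVec x (Sum.inr (Sum.inr (G, B))) = 0 := by
  unfold Matrix.mulVec dotProduct
  simp only [LM, Matrix.of_apply, hG, if_false, zero_mul, Finset.sum_const_zero]

/-- the operators of the Fock space -/
noncomputable def fs (g : V → V → K) (v : V) : (Finset V → K) →ₗ[K] (Finset V → K) :=
  (Pm K g v).mulVecLin

theorem mem_ker (A : V → V → Prop) (X : Finset V) (j : ℕ) (g : V → V → K)
    (x : Finset V × Finset V → K) :
    (LM K A X j g).mulVec x = 0 ↔
      (fun F B => x (F, B)) ∈ EulerAux.Z (Cl A X) (fs g) j := by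
  rw [EulerAux.mem_Z]
  constructor
  · intro h
    constructor
    · intro F hF
      have h1 : Cl A X F ∧ F.card = j := by
        by_contra hc
        apply hF
        funext B
        have h2 := congrFun h (Sum.inl (F, B))
        rw [row1 A X j g x (F, B) hc] at h2
        exact h2
      refine ⟨h1.1, h1.2, fun v hv => ?_⟩
      funext B
      have h2 := congrFun h (Sum.inr (Sum.inl (v, F, B)))
      rw [row2, if_pos hv] at h2
      exact h2
    · funext G
      by_cases hG : Cl A X G
      · rw [dl_pos hG]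
        funext B
        have h2 := congrFun h (Sum.inr (Sum.inr (G, B)))
        rw [row3 A X j g x G B hG] at h2
        rw [Finset.sum_apply]
        exact h2
      · rw [dl_neg hG]; rfl
  · rintro ⟨h1, h2⟩
    funext r
    rcases r with s | t | u
    · by_cases hs : Cl A X s.1 ∧ s.1.card = j
      · rw [row1' A X j g x s hs]; rfl
      · rw [row1 A X j g x s hs]
        by_contra hx
        apply hs
        have h3 : (fun B => x (s.1, B)) ≠ (0 : Finset V → K) := by
          intro h4
          exact hx (congrFun h4 s.2)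
        exact ⟨(h1 s.1 h3).1, (h1 s.1 h3).2.1⟩
    · obtain ⟨v, F, B⟩ := t
      rw [row2]
      split_ifs with hv
      · have h3 := h1.kill hv
        exact congrFun h3 B
      · rfl
    · obtain ⟨G, B⟩ := u
      by_cases hG : Cl A X G
      · rw [row3 A X j g x G B hG]
        have h3 := congrFun h2 G
        rw [dl_pos hG] at h3
        have h4 := congrFun h3 B
        rw [Finset.sum_apply] at h4
        exact h4
      · rw [row3' A X j g x G B hG]; rfl

theorem finrank_Z (A : V → V → Prop) (X : Finset V) (j : ℕ) (g : V → V → K) :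
    (LM K A X j g).rank + Module.finrank K (EulerAux.Z (Cl A X) (fs g) j) =
      Fintype.card (Finset V × Finset V) := by
  have h1 := LinearMap.finrank_range_add_finrank_ker (LM K A X j g).mulVecLin
  rw [Module.finrank_fintype_fun_eq_card] at h1
  rw [← h1, Matrix.rank]
  congr 1
  let e : (Finset V × Finset V → K) ≃ₗ[K] (Finset V → Finset V → K) :=
    { toFun := fun x F B => x (F, B)
      map_add' := fun _ _ => rfl
      map_smul' := fun _ _ => rfl
      invFun := fun y c => y c.1 c.2
      left_inv := fun _ => rfl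
      right_inv := fun _ => rfl }
  have h2 : (LinearMap.ker (LM K A X j g).mulVecLin).map (e : _ →ₗ[K] _) =
      EulerAux.Z (Cl A X) (fs g) j := by
    ext y
    constructor
    · rintro ⟨x, hx, rfl⟩
      exact (mem_ker A X j g x).mp hx
    · intro hy
      refine ⟨e.symm y, ?_, e.apply_symm_apply y⟩
      exact (mem_ker A X j g (e.symm y)).mpr hy
  rw [← h2]
  exact LinearEquiv.finrank_map_eq e _

/-- comparison of two matrices: exactness goes from the special one to the generic one -/
theorem compare (A : V → V → Prop) (X : Finset V) (g p : V → V → K)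
    (hg : ∀ a b, g a b = g b a) (hp : ∀ a b, p a b = p b a)
    (hg0 : ∀ a b, A a b → g a b = 0) (hp0 : ∀ a b, A a b → p a b = 0)
    (hr : ∀ j, (LM K A X j p).rank ≤ (LM K A X j g).rank) (n : ℕ)
    (h : ∀ j, j < n → ExAt (Cl A X) (fs p) j) : ∀ j, j < n → ExAt (Cl A X) (fs g) j := by
  classical
  have hRg : Rel g X (fs g) (fun v => (Fm K v).mulVecLin) := fock_rel g hg X
  have hRp : Rel p X (fs p) (fun v => (Fm K v).mulVecLin) := fock_rel p hp X
  have hOg : Ok (Cl A X) (fs g) := Ok.of_rel hRg fun a _ b _ _ hab => hg0 a b hab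
  have hOp : Ok (Cl A X) (fs p) := Ok.of_rel hRp fun a _ b _ _ hab => hp0 a b hab
  have hc : ∀ j, Module.finrank K (coS (Cl A X) (fs g) j) =
      Module.finrank K (coS (Cl A X) (fs p) j) := by
    intro j
    have h1 := dim_coS hRg (Cl A X) (fun F hF => hF.1)
      (fun F hF a ha b hb hab => hg0 a b (hF.2 a ha b hb hab)) j
    have h2 := dim_coS hRp (Cl A X) (fun F hF => hF.1)
      (fun F hF a ha b hb hab => hp0 a b (hF.2 a ha b hb hab)) j
    exact Nat.eq_of_mul_eq_mul_right (by positivity) (h1.trans h2.symm)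
  have hz : ∀ j, Module.finrank K (EulerAux.Z (Cl A X) (fs g) j) ≤
      Module.finrank K (EulerAux.Z (Cl A X) (fs p) j) := by
    intro j
    have h1 := finrank_Z A X j g
    have h2 := finrank_Z A X j p
    have h3 := hr j
    omega
  have hBZ : ∀ j, Module.finrank K (EulerAux.B (Cl A X) (fs g) j) ≤
      Module.finrank K (EulerAux.Z (Cl A X) (fs g) j) :=
    fun j => Submodule.finrank_mono (EulerAux.B_le_Z hOg j)
  have hp1 : ∀ j, j < n → Module.finrank K (EulerAux.Z (Cl A X) (fs p) j) ≤
      Module.finrank K (EulerAux.B (Cl A X) (fs p) j) :=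
    fun j hj => Submodule.finrank_mono ((EulerAux.exAt_iff j).mp (h j hj))
  -- the main induction
  have key : ∀ j, j < n → Module.finrank K (EulerAux.Z (Cl A X) (fs p) j) ≤
      Module.finrank K (EulerAux.B (Cl A X) (fs g) j) := by
    intro j
    induction j with
    | zero =>
      intro hj
      exact (hp1 0 hj).trans (le_of_eq rfl)
    | succ j ih =>
      intro hj
      have h1 := ih (by omega)
      have h2 := hBZ j
      have h3 := hz j
      have h4 := EulerAux.split (Cl A X) (fs g) j
      have h5 := EulerAux.split (Cl A X) (fs p) j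
      have h6 := hc j
      have h7 := hp1 (j + 1) hj
      omega
  intro j hj
  rw [EulerAux.exAt_iff]
  have h1 := key j hj
  have h2 := hBZ j
  have h3 := hz j
  exact (Submodule.eq_of_le_of_finrank_eq (EulerAux.B_le_Z hOg j) (by omega)).ge

end SemiAux

open SemiAux in
theorem semi (k : Type) [Field k] (A : V → V → Prop) (hA : ∀ a b, A a b → A b a) (X : Finset V)
    (p : V → V → KK V k) (hp : ∀ a b, p a b = p b a)
    (hp0 : ∀ a ∈ X, ∀ b ∈ X, a ≠ b → A a b → p a b = 0) (n : ℕ) (h : VV p A X n) :
    GV k A X n := by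
  classical
  let gt : V → V → MvPolynomial (Sym2 V) k := fun u w =>
    if u ∈ X ∧ w ∈ X ∧ u ≠ w ∧ ¬ A u w then MvPolynomial.X s(u, w) else 0
  let f : MvPolynomial (Sym2 V) k →+* KK V k :=
    (MvPolynomial.aeval (Sym2.lift ⟨p, hp⟩)).toRingHom
  let f0 : MvPolynomial (Sym2 V) k →+* KK V k := algebraMap (MvPolynomial (Sym2 V) k) (KK V k)
  have hgt : ∀ a b, gt a b = gt b a := by
    intro a b
    simp only [gt]
    have h1 : (a ∈ X ∧ b ∈ X ∧ a ≠ b ∧ ¬ A a b) ↔ (b ∈ X ∧ a ∈ X ∧ b ≠ a ∧ ¬ A b a) :=
      ⟨fun h => ⟨h.2.1, h.1, h.2.2.1.symm, fun h' => h.2.2.2 (hA _ _ h')⟩,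
        fun h => ⟨h.2.1, h.1, h.2.2.1.symm, fun h' => h.2.2.2 (hA _ _ h')⟩⟩
    by_cases h2 : a ∈ X ∧ b ∈ X ∧ a ≠ b ∧ ¬ A a b
    · rw [if_pos h2, if_pos (h1.mp h2), Sym2.eq_swap]
    · rw [if_neg h2, if_neg (fun h3 => h2 (h1.mpr h3))]
  have hgt0 : ∀ a b, A a b → gt a b = 0 := by
    intro a b hab
    simp only [gt]
    rw [if_neg (fun h => h.2.2.2 hab)]
  let g' : V → V → KK V k := fun a b => f0 (gt a b)
  let p' : V → V → KK V k := fun a b => f (gt a b)
  have hpp : ∀ a ∈ X, ∀ b ∈ X, a ≠ b → p a b = p' a b := by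
    intro a ha b hb hab
    simp only [p', gt]
    by_cases h2 : A a b
    · rw [if_neg (fun h => h.2.2.2 h2), map_zero, hp0 a ha b hb hab h2]
    · rw [if_pos ⟨ha, hb, hab, h2⟩]
      change p a b = MvPolynomial.aeval (Sym2.lift ⟨p, hp⟩) (MvPolynomial.X s(a, b))
      rw [MvPolynomial.aeval_X, Sym2.lift_mk]
  have h1 : VV p' A X n := h.congr hpp (fun _ _ _ _ _ => Iff.rfl)
  have hp's : ∀ a b, p' a b = p' b a := fun a b => congrArg f (hgt a b)
  have hg's : ∀ a b, g' a b = g' b a := fun a b => congrArg f0 (hgt a b)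
  have h2 : ∀ j, j < n → ExAt (Cl A X) (fs p') j :=
    h1 (Finset V → KK V k) (fs p') (fun v => (Fm (KK V k) v).mulVecLin) (fock_rel p' hp's X)
  have hr : ∀ j, (LM (KK V k) A X j p').rank ≤ (LM (KK V k) A X j g').rank := by
    intro j
    have h3 := rank_sp k (KK V k) f (LM (MvPolynomial (Sym2 V) k) A X j gt)
    rw [LM_map, LM_map] at h3
    exact h3
  have h3 := compare A X g' p' hg's hp's
    (fun a b hab => by simp only [g']; rw [hgt0 a b hab, map_zero])
    (fun a b hab => by simp only [p']; rw [hgt0 a b hab, map_zero]) hr n h2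
  have h4 : VV g' A X n := univ_ex g' hg's A X (fun a b ha => by
    simp only [g', gt]
    rw [if_neg (fun h => ha h.1), map_zero]) n h3
  refine h4.congr ?_ (fun _ _ _ _ _ => Iff.rfl)
  intro a ha b hb hab
  simp only [g', gt, gen]
  by_cases h5 : A a b
  · rw [if_neg (fun h => h.2.2.2 h5), if_pos (Or.inr h5), map_zero]
  · rw [if_pos ⟨ha, hb, hab, h5⟩, if_neg (fun h => h.elim hab h5)]

end Pool.Agent.MP19e880.W1
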