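import Pool.Agent.Lib.MP_19e880_co_W1.Contr
import Pool.Agent.Lib.MP_19e880_co_W1.Semi

/-!
The generic matrix, and the contraction rule at the generic matrix.
-/

set_option autoImplicit false
set_option linter.unusedSectionVars false

namespace Pool.Agent.MP19e880.W1

variable {V : Type} [Fintype V] [LinearOrder V]

theorem gen_symm (k : Type) [Field k] {A : V → V → Prop} (hA : ∀ a b, A a b → A b a) (a b : V) :
    gen k A a b = gen k A b a := by
  unfold gen
  have h1 : (a = b ∨ A a b) ↔ (b = a ∨ A b a) :=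
    ⟨fun h => h.imp Eq.symm (hA a b), fun h => h.imp Eq.symm (hA b a)⟩
  by_cases h : a = b ∨ A a b
  · rw [if_pos h, if_pos (h1.mp h)]
  · rw [if_neg h, if_neg (fun h' => h (h1.mpr h')), Sym2.eq_swap]

theorem gen_zero (k : Type) [Field k] {A : V → V → Prop} {a b : V} (h : A a b) :
    gen k A a b = 0 := by
  unfold gen
  rw [if_pos (Or.inr h)]

theorem gen_self (k : Type) [Field k] (A : V → V → Prop) (a : V) : gen k A a a = 0 := by
  unfold gen
  rw [if_pos (Or.inl rfl)]

theorem gen_ne (k : Type) [Field k] {A : V → V → Prop} {a b : V} (hab : a ≠ b) (h : ¬ A a b) :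
    gen k A a b ≠ 0 := by
  unfold gen
  rw [if_neg (by tauto)]
  intro h'
  have h2 : (MvPolynomial.X s(a, b) : MvPolynomial (Sym2 V) k) = 0 :=
    (map_eq_zero_iff _ (IsFractionRing.injective (MvPolynomial (Sym2 V) k) (KK V k))).mp h'
  exact MvPolynomial.X_ne_zero _ h2

theorem gen_congr (k : Type) [Field k] {A A' : V → V → Prop} {a b : V} (h : A a b ↔ A' a b) :
    gen k A a b = gen k A' a b := by
  unfold gen
  by_cases h' : a = b ∨ A a b
  · rw [if_pos h', if_pos (h'.imp_right h.mp)]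
  · rw [if_neg h', if_neg (fun h'' => h' (h''.imp_right h.mpr))]

theorem gv_congr (k : Type) [Field k] {A A' : V → V → Prop} {X : Finset V} {n : ℕ}
    (h : GV k A X n) (hA : ∀ a ∈ X, ∀ b ∈ X, a ≠ b → (A a b ↔ A' a b)) : GV k A' X n :=
  VV.congr h (fun a ha b hb hab => gen_congr k (hA a ha b hb hab)) hA

theorem ct_symm {A : V → V → Prop} (hA : ∀ a b, A a b → A b a) (u v a b : V)
    (h : ct A u v a b) : ct A u v b a := by
  rcases h with h | ⟨h1, h2⟩ | ⟨h1, h2⟩
  · exact Or.inl (hA _ _ h)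
  · exact Or.inr (Or.inr ⟨h1, hA _ _ h2⟩)
  · exact Or.inr (Or.inl ⟨h1, hA _ _ h2⟩)

/-- The contraction rule at the generic matrix. -/
theorem gcontr (k : Type) [Field k] {A : V → V → Prop} (hA : ∀ a b, A a b → A b a) {X : Finset V}
    {u v : V} (hu : u ∈ X) (hv : v ∈ X) (huv : u ≠ v) (hAuv : A u v)
    (hsq : ∀ s ∈ X, ∀ t ∈ X, s ≠ u → s ≠ v → t ≠ u → t ≠ v → s ≠ t → A u s → A v t → A s t →
      A v s ∨ A u t) (n : ℕ)
    (h1 : GV k (ct A u v) (X.erase v) (n + 1)) (h2 : GV k A (cn A X u v) n) :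
    GV k A X (n + 1) := by
  let f : V → V := fun w => if w = v then u else w
  let p : V → V → KK V k := fun a b => gen k (ct A u v) (f a) (f b)
  have hfv : f v = u := if_pos rfl
  have hfn : ∀ w, w ≠ v → f w = w := fun w hw => if_neg hw
  have hps : ∀ a b, p a b = p b a := fun a b => gen_symm k (ct_symm hA u v) _ _
  have hp0 : ∀ a b, A a b → p a b = 0 := by
    intro a b hab
    simp only [p]
    by_cases ha : a = v
    · subst ha
      rw [hfv]
      by_cases hb : b = a
      · rw [hb, hfv, gen_self]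
      · rw [hfn b hb]
        exact gen_zero k (Or.inr (Or.inl ⟨rfl, hab⟩))
    · rw [hfn a ha]
      by_cases hb : b = v
      · rw [hb, hfv]
        rw [hb] at hab
        exact gen_zero k (Or.inr (Or.inr ⟨rfl, hab⟩))
      · rw [hfn b hb]
        exact gen_zero k (Or.inl hab)
  refine semi k A hA X p hps (fun a _ b _ _ hab => hp0 a b hab) (n + 1) ?_
  refine contr hA hu hv huv hAuv (fun a _ b _ _ hab => hp0 a b hab) ?_ hsq n ?_ ?_
  · intro w _ hwu hwv
    simp only [p]
    rw [hfv, hfn u huv, hfn w hwv]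
    exact ⟨rfl, rfl⟩
  · refine VV.congr h1 (fun a ha b hb _ => ?_) (fun _ _ _ _ _ => Iff.rfl)
    simp only [p]
    rw [hfn a (Finset.ne_of_mem_erase ha), hfn b (Finset.ne_of_mem_erase hb)]
  · refine VV.congr h2 (fun a ha b hb _ => ?_) (fun _ _ _ _ _ => Iff.rfl)
    rw [mem_cn] at ha hb
    simp only [p]
    rw [hfn a ha.2.2.1, hfn b hb.2.2.1]
    refine gen_congr k ?_
    constructor
    · exact fun h => Or.inl h
    · rintro (h | ⟨h, _⟩ | ⟨h, _⟩)
      · exact h
      · exact absurd h ha.2.1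
      · exact absurd h hb.2.1

end Pool.Agent.MP19e880.W1
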