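import Pool.Agent.Lib.MP_19e880_co_W1.Basic

/-!
Clifford complexes of flag complexes: the ordered products of the operators.
-/

set_option autoImplicit false
set_option linter.unusedSectionVars false

namespace Pool.Agent.MP19e880.W1

variable {V : Type} [Fintype V] [LinearOrder V] {K : Type} [Field K]
  {M : Type} [AddCommGroup M] [Module K M]

theorem pr_empty (ψ : V → M →ₗ[K] M) (m : M) : pr ψ ∅ m = m := by
  unfold pr
  rw [Finset.sort_empty]
  rfl

/-- a new smallest element -/
theorem pr_min (ψ : V → M →ₗ[K] M) (F : Finset V) (a : V) (ha : ∀ b ∈ F, a < b) (m : M) :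
    pr ψ (insert a F) m = ψ a (pr ψ F m) := by
  unfold pr
  rw [Finset.sort_insert _ (fun b hb => (ha b hb).le) (fun h => lt_irrefl a (ha a h))]
  rfl

/-- a new largest element -/
theorem pr_max (ψ : V → M →ₗ[K] M) (F : Finset V) (b : V) (hb : ∀ a ∈ F, a < b) (m : M) :
    pr ψ (insert b F) m = pr ψ F (ψ b m) := by
  induction F using Finset.induction_on_min with
  | empty =>
    rw [pr_min ψ ∅ b (fun c hc => absurd hc (Finset.notMem_empty c)), pr_empty, pr_empty]
  | insert a s has ih =>
    have hab : a < b := hb a (Finset.mem_insert_self a s)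
    rw [Finset.insert_comm, pr_min ψ (insert b s) a, pr_min ψ s a has,
      ih (fun c hc => hb c (Finset.mem_insert_of_mem hc))]
    intro c hc
    rcases Finset.mem_insert.mp hc with h | h
    · rw [h]
      exact hab
    · exact has c h

/-- `pr` is linear -/
theorem pr_add (ψ : V → M →ₗ[K] M) (F : Finset V) (m n : M) :
    pr ψ F (m + n) = pr ψ F m + pr ψ F n := by
  induction F using Finset.induction_on_min with
  | empty => rw [pr_empty, pr_empty, pr_empty]
  | insert a s has ih => rw [pr_min ψ s a has, pr_min ψ s a has, pr_min ψ s a has, ih, map_add]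

theorem pr_smul (ψ : V → M →ₗ[K] M) (F : Finset V) (a : K) (m : M) :
    pr ψ F (a • m) = a • pr ψ F m := by
  induction F using Finset.induction_on_min with
  | empty => rw [pr_empty, pr_empty]
  | insert b s has ih => rw [pr_min ψ s b has, pr_min ψ s b has, ih, map_smul]

namespace KoszAux

theorem pr_zero (ψ : V → M →ₗ[K] M) (F : Finset V) : pr ψ F (0 : M) = 0 := by
  have h := pr_smul ψ F 0 (0 : M)
  rwa [zero_smul, zero_smul] at h

theorem pr_neg (ψ : V → M →ₗ[K] M) (F : Finset V) (m : M) : pr ψ F (-m) = - pr ψ F m := by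
  have h := pr_smul ψ F (-1) m
  rwa [neg_one_smul, neg_one_smul] at h

theorem pr_sub (ψ : V → M →ₗ[K] M) (F : Finset V) (m n : M) :
    pr ψ F (m - n) = pr ψ F m - pr ψ F n := by
  rw [sub_eq_add_neg, pr_add, pr_neg, sub_eq_add_neg]

theorem eps_lt (v : V) (F : Finset V) (h : ∀ a ∈ F, v < a) : eps K v F = 1 := by
  unfold eps
  rw [Finset.filter_false_of_mem (fun a ha => not_lt.mpr (h a ha).le), Finset.card_empty, pow_zero]

theorem neg_one_pow_self (n : ℕ) : ((-1 : K) ^ n) * ((-1 : K) ^ n) = 1 := by
  rw [← pow_add, ← two_mul, pow_mul]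
  simp

end KoszAux

open KoszAux

variable {g : V → V → K} {X : Finset V} {ψ φ : V → M →ₗ[K] M}

theorem pr_left (h : Rel g X ψ φ) (F : Finset V) (hF : F ⊆ X) (v : V) (hv : v ∈ X) (hvF : v ∉ F)
    (hgv : ∀ a ∈ F, g v a = 0) (m : M) :
    ψ v (pr ψ F m) = eps K v F • pr ψ (insert v F) m := by
  induction F using Finset.induction_on_min with
  | empty =>
    rw [pr_min ψ ∅ v (fun c hc => absurd hc (Finset.notMem_empty c)), pr_empty,
      eps_lt v ∅ (fun c hc => absurd hc (Finset.notMem_empty c)), one_smul]
  | insert a s has ih =>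
    have hva : v ≠ a := fun h' => hvF (h' ▸ Finset.mem_insert_self a s)
    have hvs : v ∉ s := fun h' => hvF (Finset.mem_insert_of_mem h')
    have hs : s ⊆ X := fun c hc => hF (Finset.mem_insert_of_mem hc)
    have has' : a ∉ s := fun h' => lt_irrefl a (has a h')
    rcases lt_or_gt_of_ne hva with hlt | hgt
    · have hall : ∀ c ∈ insert a s, v < c := by
        intro c hc
        rcases Finset.mem_insert.mp hc with h' | h'
        · rw [h']
          exact hlt
        · exact hlt.trans (has c h')
      rw [pr_min ψ (insert a s) v hall, eps_lt v _ hall, one_smul]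
    · have hall : ∀ c ∈ insert v s, a < c := by
        intro c hc
        rcases Finset.mem_insert.mp hc with h' | h'
        · rw [h']
          exact hgt
        · exact has c h'
      have h1 := h.ac v hv a (hF (Finset.mem_insert_self a s)) hva (pr ψ s m)
      rw [hgv a (Finset.mem_insert_self a s), zero_smul] at h1
      rw [pr_min ψ s a has, eq_neg_of_add_eq_zero_left h1,
        ih hs hvs (fun c hc => hgv c (Finset.mem_insert_of_mem hc)), Finset.insert_comm,
        pr_min ψ (insert v s) a hall, eps_insert v a s has', if_pos hgt, map_smul, neg_smul]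

theorem pr_comm (h : Rel g X ψ φ) (F : Finset V) (hF : F ⊆ X) (v : V) (hv : v ∈ X) (hvF : v ∉ F)
    (hgv : ∀ a ∈ F, g v a = 0) (m : M) :
    ψ v (pr ψ F m) = (-1 : K) ^ F.card • pr ψ F (ψ v m) := by
  induction F using Finset.induction_on_min with
  | empty => rw [pr_empty, pr_empty, Finset.card_empty, pow_zero, one_smul]
  | insert a s has ih =>
    have hva : v ≠ a := fun h' => hvF (h' ▸ Finset.mem_insert_self a s)
    have hvs : v ∉ s := fun h' => hvF (Finset.mem_insert_of_mem h')
    have hs : s ⊆ X := fun c hc => hF (Finset.mem_insert_of_mem hc)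
    have has' : a ∉ s := fun h' => lt_irrefl a (has a h')
    have h1 := h.ac v hv a (hF (Finset.mem_insert_self a s)) hva (pr ψ s m)
    rw [hgv a (Finset.mem_insert_self a s), zero_smul] at h1
    rw [pr_min ψ s a has, pr_min ψ s a has, eq_neg_of_add_eq_zero_left h1,
      ih hs hvs (fun c hc => hgv c (Finset.mem_insert_of_mem hc)), map_smul,
      Finset.card_insert_of_notMem has', pow_succ, mul_neg_one, neg_smul]

theorem pr_kill (h : Rel g X ψ φ) (F : Finset V) (hF : F ⊆ X)
    (hg : ∀ a ∈ F, ∀ b ∈ F, a ≠ b → g a b = 0) (v : V) (hv : v ∈ F) (m : M) :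
    ψ v (pr ψ F m) = 0 ∧ pr ψ F (ψ v m) = 0 := by
  induction F using Finset.induction_on_min with
  | empty => exact absurd hv (Finset.notMem_empty v)
  | insert a s has ih =>
    have hs : s ⊆ X := fun c hc => hF (Finset.mem_insert_of_mem hc)
    have has' : a ∉ s := fun h' => lt_irrefl a (has a h')
    have haX : a ∈ X := hF (Finset.mem_insert_self a s)
    rw [pr_min ψ s a has, pr_min ψ s a has]
    by_cases hva : v = a
    · subst hva
      refine ⟨h.sq v haX _, ?_⟩
      have h1 := pr_comm h s hs v haX has' (fun c hc => hg v (Finset.mem_insert_self v s) c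
        (Finset.mem_insert_of_mem hc) (fun h' => has' (h' ▸ hc))) m
      have h2 := h.sq v haX (pr ψ s m)
      rw [h1, map_smul] at h2
      rcases smul_eq_zero.mp h2 with h3 | h3
      · exact absurd h3 (pow_ne_zero _ (by simp))
      · exact h3
    · have hvs : v ∈ s := (Finset.mem_insert.mp hv).resolve_left hva
      have h0 := ih hs (fun c hc d hd => hg c (Finset.mem_insert_of_mem hc) d
        (Finset.mem_insert_of_mem hd)) hvs
      have h1 := h.ac v (hF hv) a haX hva (pr ψ s m)
      rw [hg v hv a (Finset.mem_insert_self a s) hva, zero_smul, h0.1, map_zero, add_zero] at h1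
      refine ⟨h1, ?_⟩
      rw [h0.2, map_zero]

/-- (k1) -/
theorem pr_range (h : Rel g X ψ φ) (F : Finset V) (hF : F ⊆ X) (x : M)
    (hx : ∀ v ∈ F, ψ v x = 0) : ∃ m, pr ψ F m = x := by
  induction F using Finset.induction_on_min generalizing x with
  | empty => exact ⟨x, pr_empty ψ x⟩
  | insert a s has ih =>
    have hs : s ⊆ X := fun c hc => hF (Finset.mem_insert_of_mem hc)
    have has' : a ∉ s := fun h' => lt_irrefl a (has a h')
    have haX : a ∈ X := hF (Finset.mem_insert_self a s)
    obtain ⟨m, hm⟩ := ih hs (φ a x) (fun v hv => by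
      have h1 := h.zer a haX v (hs hv) (fun h' => has' (h' ▸ hv)) x
      rw [hx v (Finset.mem_insert_of_mem hv), map_zero, zero_add] at h1
      exact h1)
    refine ⟨m, ?_⟩
    have h1 := h.one a haX x
    rw [hx a (Finset.mem_insert_self a s), map_zero, zero_add] at h1
    rw [pr_min ψ s a has, hm, h1]

theorem KoszAux.phi_comm (h : Rel g X ψ φ) (F : Finset V) (hF : F ⊆ X) (v : V) (hv : v ∈ X)
    (hvF : v ∉ F) (m : M) : φ v (pr ψ F m) = (-1 : K) ^ F.card • pr ψ F (φ v m) := by
  induction F using Finset.induction_on_min with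
  | empty => rw [pr_empty, pr_empty, Finset.card_empty, pow_zero, one_smul]
  | insert a s has ih =>
    have hva : v ≠ a := fun h' => hvF (h' ▸ Finset.mem_insert_self a s)
    have hvs : v ∉ s := fun h' => hvF (Finset.mem_insert_of_mem h')
    have hs : s ⊆ X := fun c hc => hF (Finset.mem_insert_of_mem hc)
    have has' : a ∉ s := fun h' => lt_irrefl a (has a h')
    have h1 := h.zer v hv a (hF (Finset.mem_insert_self a s)) hva (pr ψ s m)
    rw [pr_min ψ s a has, pr_min ψ s a has, eq_neg_of_add_eq_zero_left h1,
      ih hs hvs, map_smul, Finset.card_insert_of_notMem has', pow_succ, mul_neg_one, neg_smul]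

/-- (k2) -/
theorem pr_ker (h : Rel g X ψ φ) (F : Finset V) (hF : F ⊆ X)
    (hg : ∀ a ∈ F, ∀ b ∈ F, a ≠ b → g a b = 0) (m : M) (hm : pr ψ F m = 0) :
    ∃ c : V → M, m = ∑ v ∈ F, ψ v (c v) := by
  classical
  induction F using Finset.induction_on_min generalizing m with
  | empty =>
    rw [pr_empty] at hm
    exact ⟨fun _ => 0, by rw [hm, Finset.sum_empty]⟩
  | insert a s has ih =>
    have hs : s ⊆ X := fun c hc => hF (Finset.mem_insert_of_mem hc)
    have has' : a ∉ s := fun h' => lt_irrefl a (has a h')
    have haX : a ∈ X := hF (Finset.mem_insert_self a s)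
    rw [pr_min ψ s a has] at hm
    have hga : ∀ c ∈ s, g a c = 0 := by
      intro c hc
      refine hg a (Finset.mem_insert_self a s) c (Finset.mem_insert_of_mem hc) ?_
      intro h'
      rw [← h'] at hc
      exact has' hc
    have h1 := h.one a haX (pr ψ s m)
    rw [hm, map_zero, zero_add, phi_comm h s hs a haX has' m, map_smul,
      pr_comm h s hs a haX has' hga, smul_smul, neg_one_pow_self, one_smul] at h1
    obtain ⟨c, hc⟩ := ih hs (fun c hc d hd => hg c (Finset.mem_insert_of_mem hc) d
      (Finset.mem_insert_of_mem hd)) (m - ψ a (φ a m)) (by rw [pr_sub, h1, sub_self])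
    refine ⟨Function.update c a (φ a m), ?_⟩
    rw [Finset.sum_insert has', Function.update_self]
    have h2 : ∑ v ∈ s, ψ v (Function.update c a (φ a m) v) = ∑ v ∈ s, ψ v (c v) := by
      refine Finset.sum_congr rfl fun v hv => ?_
      have hva : v ≠ a := by
        intro h'
        rw [h'] at hv
        exact has' hv
      rw [Function.update_of_ne hva]
    rw [h2, ← hc]
    abel

end Pool.Agent.MP19e880.W1
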